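import Pool.Agent.Helper68.C6.Defs6
import Pool.Agent.Helper68.C3.St3
import Pool.Graph.R_seed8.Y696.CTK.Stm2

/-!
# Cubic twists by `D = ∏ π_j^(e_j)` congruent to one modulo `3 √-3`: definitions and statements
-/

set_option autoImplicit false
set_option linter.unusedVariables false

open scoped Classical

namespace Pool.Agent.Helper68.C7

open NumberField IsDedekindDomain WeierstrassCurve
open Pool.Agent.Y692.QS (Ei w toC)
open Pool.Agent.Y703.CT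
open Pool.Agent.Y715.T.Rec (cs)
open Pool.Agent.Y715.T.Gi Pool.Agent.Y715.T.Nr Pool.Agent.Y715.T.Df Pool.Agent.Y715.T.Ell
open Pool.Agent.Helper68.C5.Chr5 (ts)
open Pool.Agent.Y696.CTK (ED IsTam Tri)
open Pool.Agent.Helper68.C3 (SS)
open Pool.Agent.Y703.XL (cr)

/-- the linear system: only the constants (and `s = 0`) are solutions. Here
`ts 0 (1 + 3 (x + y w)) = y` and `rq (1 + 3 (x + y w)) = x + y`. -/
def Ker7 {J : Type} [Fintype J] (π : J → Ei) (e : J → ZMod 3) : Prop :=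
  ∀ (v : J → ZMod 3) (s : ZMod 3),
    (∀ j, ∑ i, e i * cs (π j) (π i) * (v i - v j) = s * rq (π j)) →
    ∑ i, e i * rq (π i) * v i = s * ∑ i, e i * ts 0 (π i) → s = 0 ∧ ∀ i j, v i = v j

/-- **L7**, the local condition at the prime above three. -/
def S_L7 : Prop := ∀ (i₀ : QB) (hi : i₀ ^ 2 + i₀ + 1 = 0) (D : Ei) (u : QB)
  (a h : GK i₀ → ZMod 3) (ι : QB →ₐ[ℚ] PadicAlgCl 3) (R : Pt (PadicAlgCl 3)) (σ' : ZMod 3)
  (A q : Ei), D = 1 + 3 * A → ((A.re + A.im : ℤ) : ZMod 3) = 0 → Tw hi D u a →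
    Kc hi (w ^ σ'.val * (1 + 3 * q)) h → St1 hi ι a h R →
      ((q.re + q.im : ℤ) : ZMod 3) = σ' * ((A.im : ℤ) : ZMod 3)

/-- **SEL7**, the Selmer group. -/
def S_SEL7 : Prop := ∀ (J : Type) [Fintype J] (π : J → Ei) (e : J → ZMod 3), Dt π e →
  ∑ j, e j * rq (π j) = 0 → Ker7 π e → ∀ (i₀ : QB) (hi : i₀ ^ 2 + i₀ + 1 = 0) (u : QB)
  (a : GK i₀ → ZMod 3), Tw hi (pD π e) u a → Sel1 hi a

/-- **SELC7**, the converse. -/
def S_SELC7 : Prop := ∀ (J : Type) [Fintype J] [Nonempty J] (π : J → Ei) (e : J → ZMod 3),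
  Dt π e → ∑ j, e j * rq (π j) = 0 → ¬ Ker7 π e → ∀ (i₀ : QB) (hi : i₀ ^ 2 + i₀ + 1 = 0)
  (u : QB) (a : GK i₀ → ZMod 3), Tw hi (pD π e) u a → ¬ Sel1 hi a

/-- **TAM7**, the Tamagawa numbers; type `IV` with number three at the prime above three. -/
def S_TAM7 : Prop := ∀ (K : Type) [Field K] [NumberField K] (j : Ei ≃+* 𝓞 K) (J : Type)
  [Fintype J] (π : J → Ei) (e : J → ZMod 3), Dt π e → ∑ j, e j * rq (π j) = 0 →
    ∃ c : HeightOneSpectrum (𝓞 K) → ℕ, IsTam (ED (j (pD π e) : K)) c ∧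
      ∏ᶠ v, c v = 3 ^ (Fintype.card J + 1)

/-- **TAM1**, the Tamagawa numbers for `D = 1` modulo `3`, `D ≠ 1` modulo `3 √-3` (in the library
for squarefree `D`). -/
def S_TAM1 : Prop := ∀ (K : Type) [Field K] [NumberField K] (j : Ei ≃+* 𝓞 K) (J : Type)
  [Fintype J] (π : J → Ei) (e : J → ZMod 3), Dt π e → ∑ j, e j * rq (π j) ≠ 0 →
    ∃ c : HeightOneSpectrum (𝓞 K) → ℕ, IsTam (ED (j (pD π e) : K)) c ∧
      ∃ m : ℕ, ¬ 3 ∣ m ∧ ∏ᶠ v, c v = 3 ^ Fintype.card J * m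

/-- the number of the solutions of the system of a set -/
noncomputable def n7 (S : Finset Ei) : ℕ :=
  Nat.card {q : (S → ZMod 3) × ZMod 3 //
    (∀ π : S, ∑ ρ : S, cs π ρ * (q.1 ρ - q.1 π) = q.2 * rq (π : Ei)) ∧
      ∑ π : S, rq (π : Ei) * q.1 π = q.2 * ∑ π : S, ts 0 (π : Ei)}

/-- **D7**, the law for the sets whose product is `1` modulo `3 √-3`; the solutions contain the
constants, so there are at least three. -/
def S_D7 : Prop := ∀ r : ℕ,
  Filter.Tendsto (fun X : ℕ =>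
    (((SS X).filter fun S => ∑ π ∈ S, rq π = 0 ∧ n7 S = 3 ^ (r + 1)).card : ℝ) /
      (((SS X).filter fun S => ∑ π ∈ S, rq π = 0).card : ℝ)) Filter.atTop (nhds (cr r))

end Pool.Agent.Helper68.C7
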