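import Pool.Agent.Helper68.C7.Loc7
import Pool.Agent.Helper68.C2.Desc2
import Pool.Agent.Helper68.C5.Selc5

/-!
# The Selmer group for `D = ∏ π_j^(e_j)`, congruent to one modulo `3 √-3`
-/

set_option autoImplicit false
set_option linter.unusedSectionVars false
set_option linter.unusedVariables false

open scoped Classical

namespace Pool.Agent.Helper68.C7.Sel7

open Pool.Agent.Y692.QS (Ei w nr)
open Pool.Agent.Y715.T.Gi Pool.Agent.Y715.T.Nr Pool.Agent.Y715.T.Df
open Pool.Agent.Y715.T.Rec (cs)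
open Pool.Agent.Y715.T.RecG
open Pool.Agent.Y715.T.Sel (fac kc_mul kc_one kc_congr kc_pow kc_cube kc_uniq kc_cancel kc_unit
  kc_exp ex_root root_ne iota_sq iota_ev odd_of not_dvd_of_unr resid_kc exists_emb3)
open Pool.Agent.Y703.CT
open Pool.Agent.Y48.CT.SEL
open Pool.Agent.Helper68.C2
open Pool.Agent.Helper68.C2.Chr (tq tq_prim)
open Pool.Agent.Helper68.C2.LK2 (cs_w w_unit not_dvd_w)
open Pool.Agent.Helper68.C2.Sel2 (pw ew pw_none pw_some ew_none ew_some prod_pw pD2_eq pw_ne pr0w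
  pD2_ne cf_prodw ndw not_dvd_prodw norm_pD2_one norm_pD2_j not_lam_pD2)
open Pool.Agent.Helper68.C5.Chr5 (ts lt Cp cp_prim ts_prim ts_mul ts_u)
open Pool.Agent.Helper68.C5.Selc5 (ts_pow ts_prodf cp_pq)

variable {J : Type} [Fintype J] {π : J → Ei} {e : J → ZMod 3}
variable {i₀ : QB} {hi : i₀ ^ 2 + i₀ + 1 = 0}

lemma pD2_zero : pD2 π e 0 = pD π e := by
  show w ^ (0 : ZMod 3).val * pD π e = pD π e
  rw [ZMod.val_zero, pow_zero, one_mul]

/-- the second coordinate of `D` -/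
lemma im_pD (hD : Dt π e) {A : Ei} (hA : pD π e = 1 + 3 * A) :
    ((A.im : ℤ) : ZMod 3) = ∑ j, e j * ts 0 (π j) := by
  have h1 := (ts_prodf (κ := 0) Finset.univ (f := fun j => π j ^ (e j).val)
    (fun j => (ts_pow (κ := 0) (cp_pq (hD.pq j)) _).1)).2
  have h2 : ts 0 (∏ j, π j ^ (e j).val) = ∑ j, e j * ts 0 (π j) := by
    rw [h1]
    refine Finset.sum_congr rfl fun j _ => ?_
    rw [(ts_pow (cp_pq (hD.pq j)) _).2, ZMod.natCast_zmod_val]
  rw [← h2]
  change _ = ts 0 (pD π e)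
  rw [hA, ts_prim]
  unfold lt
  ring

/-- the Kummer generator modulo cubes, and the condition at the prime above three -/
lemma exp_of_loc (hD : Dt π e) (h0 : ∑ j, e j * rq (π j) = 0) {u : QB} {a : GK i₀ → ZMod 3}
    (hTw : Tw hi (pD π e) u a) {h : GK i₀ → ZMod 3} {v₀ : Ei} {g : ℕ} {x₀ : J → ℕ}
    (hu : IsUnit v₀) (hzh : Kc hi (v₀ * lam ^ g * ∏ j, π j ^ x₀ j) h)
    (hloc : ∀ (p : ℕ) [Fact p.Prime] (ι : QB →ₐ[ℚ] PadicAlgCl p), ∃ R, St1 hi ι a h R) :
    ∃ x : Option J → ℕ, Kc hi (∏ o, pw π o ^ x o) h ∧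
      ∑ j, (x (some j) : ZMod 3) * rq (π j) = (x none : ZMod 3) * ∑ j, e j * ts 0 (π j) := by
  obtain ⟨ι₃⟩ := exists_emb3
  obtain ⟨R, hR⟩ := hloc 3 ι₃
  obtain ⟨hq3, hqr⟩ := rq_prod Finset.univ (f := fun j => π j ^ x₀ j)
    (fun j => (rq_pow (hD.pq j).three _).1)
  obtain ⟨x, y, hq, hr⟩ := ex_q hq3
  rw [hqr] at hr
  obtain ⟨ε, n, hε, hv₀⟩ := Pool.Agent.Y715.T.Thr.unit_cases hu
  have hTw2 : Tw hi (pD2 π e 0) u a := by rw [pD2_zero]; exact hTw
  have hzh' := hzh
  rw [hq] at hzh'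
  obtain ⟨g', hg'⟩ := Loc3b.core3b (not_lam_pD2 hD) hTw2 hu hzh' hR
  have hK : Kc hi (w ^ n.val * ∏ j, π j ^ x₀ j) h := by
    refine kc_unit (mul_ne_zero (w_unit.pow _).ne_zero (pr0 hD _)) hε (kc_cancel (z' := lam ^ g') ?_
      (pow_ne_zero _ prime_lam.ne_zero) ?_)
    · refine mul_ne_zero ?_ (mul_ne_zero (w_unit.pow _).ne_zero (pr0 hD _))
      rcases hε with rfl | rfl
      · exact one_ne_zero
      · exact neg_ne_zero.2 one_ne_zero
    · have e1 : ε * (w ^ n.val * ∏ j, π j ^ x₀ j) * (lam ^ g') ^ 3 =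
          v₀ * lam ^ g * ∏ j, π j ^ x₀ j := by
        rw [hg', hv₀, ← pow_mul, mul_comm g' 3]
        ring
      rw [e1]
      exact hzh
  refine ⟨fun o => o.elim n.val x₀, ?_, ?_⟩
  · rw [prod_pw]
    exact hK
  · show ∑ j, (x₀ j : ZMod 3) * rq (π j) = (n.val : ZMod 3) * ∑ j, e j * ts 0 (π j)
    have hK' := hK
    rw [hq] at hK'
    obtain ⟨hD3, hDr⟩ := rq_prod Finset.univ (f := fun j => π j ^ (e j).val)
      (fun j => (rq_pow (hD.pq j).three _).1)
    obtain ⟨x', y', hA, hAr⟩ := ex_q hD3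
    rw [hDr] at hAr
    have h4 := Loc7.core7 (A := ⟨x', y'⟩) (σ' := n) hA (by
      refine (ZMod.intCast_zmod_eq_zero_iff_dvd _ 3).1 ?_
      show ((x' + y' : ℤ) : ZMod 3) = 0
      rw [← hAr, ← h0]
      refine Finset.sum_congr rfl fun j _ => ?_
      rw [(rq_pow (hD.pq j).three _).2, ZMod.natCast_zmod_val]) hTw hK' hR
    rw [im_pD hD hA] at h4
    rw [ZMod.natCast_zmod_val, ← h4]
    show _ = ((x + y : ℤ) : ZMod 3)
    rw [← hr]
    refine Finset.sum_congr rfl fun j _ => ?_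
    rw [(rq_pow (hD.pq j).three _).2]

/-- **the Selmer group** -/
theorem sel7 (hD : Dt π e) (h0 : ∑ j, e j * rq (π j) = 0) (hker : Ker7 π e) {u : QB}
    {a : GK i₀ → ZMod 3} (hTw : Tw hi (pD π e) u a) : Sel1 hi a := by
  intro h hc hm hloc
  have hTw1 := hTw
  rw [← pD2_zero] at hTw
  have hD0 : pD2 π e 0 ≠ 0 := pD2_ne hD
  -- the character `a`
  have hb : Kc hi (∏ o, pw π o ^ (ew e 0 o).val) (fun σ => -a σ) := by
    rw [← pD2_eq]
    exact kc_of hi (root_ne (hi := hi) hD0 hTw.cube) hTw.cube hTw.act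
  -- the Kummer generator
  obtain ⟨z, hz, hzh⟩ := kum hi h hc hm
  obtain ⟨v₀, g, x₀, hu, ez⟩ := fac (π := π) z hz.1 (support hD hz hzh
    (fun p _ ι hp3 hpj τ σ hcc hτ => by
      obtain ⟨R, hR⟩ := hloc p ι
      exact (Ram2.unr hp3 hD0 hTw (norm_pD2_one ι hpj) hR τ σ hcc hτ).2))
  rw [ez] at hzh
  obtain ⟨x, hx, hthree⟩ := exp_of_loc hD h0 hTw1 hu hzh (fun p _ ι => hloc p ι)
  set v : J → ZMod 3 := fun j => x (some j) * e j with hv
  obtain ⟨s, hs⟩ : ∃ s : ZMod 3, s = (x none : ZMod 3) := ⟨_, rfl⟩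
  rw [← hs] at hthree
  have hxv : ∀ j, (x (some j) : ZMod 3) = e j * v j := by
    intro j
    have := esq hD j
    calc (x (some j) : ZMod 3) = x (some j) * (e j * e j) := by rw [this, mul_one]
      _ = _ := by rw [hv]; ring
  have heq : ∀ j : J, ∑ i, e i * cs (π j) (π i) * (v i - v j) = s * rq (π j) := by
    intro j
    obtain ⟨p, hp, ι, hl⟩ := exists_emb hi (hD.pq j).prime
    have hp3 := odd_of hi ι (hD.pq j).prime hl (not_assoc_lam (hD.pq j))
    obtain ⟨R, hR⟩ := hloc p ι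
    have hej : ¬ 3 ∣ (e j).val := by
      have h6 : (e j).val < 3 := ZMod.val_lt _
      have h7 : (e j).val ≠ 0 := by
        intro h8
        exact hD.e0 j ((ZMod.val_eq_zero _).1 h8)
      omega
    obtain ⟨ε, hε⟩ := Ram2.ram hp3 hD0 hTw hej (norm_pD2_j hD hp3 ι j hl) hR
    -- the character that is trivial at `π j`
    set n : ℕ := ε.val with hn
    have hn3 : (n : ZMod 3) = ε := ZMod.natCast_zmod_val _
    have hy := kc_mul (pr0w hD x) (pow_ne_zero n (pr0w hD _)) hx (kc_pow (pr0w hD _) hb n)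
    have hy1 : ∀ (τ : Au p) (σ : GK i₀), Cmp ι τ σ → h σ + n * -a σ = 0 := by
      intro τ σ hcc
      rw [hε τ σ hcc, hn3]
      ring
    have ey : (∏ o, pw π o ^ x o) * (∏ o, pw π o ^ (ew e 0 o).val) ^ n =
        ∏ o, pw π o ^ (x o + (ew e 0 o).val * n) := by
      rw [← Finset.prod_pow, ← Finset.prod_mul_distrib]
      refine Finset.prod_congr rfl fun i _ => ?_
      rw [← pow_mul, ← pow_add]
    rw [ey] at hy
    set y : Option J → ZMod 3 := fun o => x o + ew e 0 o * ε with hydef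
    have hy2 : Kc hi (∏ o, pw π o ^ (y o).val) (fun σ => h σ + n * -a σ) := by
      refine kc_exp (pw_ne hD) (fun o => ?_) hy
      rw [ZMod.natCast_zmod_val, hydef]
      push_cast
      rw [hn3, ZMod.natCast_zmod_val]
    have hyj : y (some j) = 0 := by
      have h1 := not_dvd_of_unr (cf_prodw hD y) hy2 hp3 ι (hD.pq j).prime hl
        (fun τ σ hcc _ => hy1 τ σ hcc)
      by_contra hne
      apply h1
      refine dvd_trans (dvd_pow_self (π j) ?_) (Finset.dvd_prod_of_mem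
        (fun o => pw π o ^ (y o).val) (Finset.mem_univ (some j)))
      rwa [Ne, ZMod.val_eq_zero]
    have hεv : ε = -v j := by
      have h1 : (x (some j) : ZMod 3) + e j * ε = 0 := hyj
      have h2 := esq hD j
      rw [hxv j] at h1
      calc ε = (e j * e j) * ε := by rw [h2, one_mul]
        _ = e j * (e j * v j + e j * ε) - (e j * e j) * v j := by ring
        _ = _ := by rw [h1, h2]; ring
    have hyi : ∀ i, y (some i) = e i * (v i - v j) := by
      intro i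
      show (x (some i) : ZMod 3) + e i * ε = _
      rw [hxv i, hεv]
      ring
    have hys : y none = s := by
      show (x none : ZMod 3) + 0 * ε = _
      rw [zero_mul, add_zero, hs]
    have e2 : ∏ o, pw π o ^ (y o).val =
        ∏ o ∈ Finset.univ.erase (some j), pw π o ^ (y o).val := by
      rw [← Finset.mul_prod_erase Finset.univ (fun o => pw π o ^ (y o).val)
        (Finset.mem_univ (some j)), hyj, ZMod.val_zero, pow_zero, one_mul]
    rw [e2] at hy2
    have hcube := resid_kc hy2 hp3 ι (hD.pq j).prime hl hy1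
    have hnd := not_dvd_prodw hD j (fun o => (y o).val)
    have h9 := (hD.pq j).norm
    have hpj := (hD.pq j).prime
    have hcs := (cs_zero_iff hpj h9 hnd).2 hcube
    have hnd1 : ∀ i ∈ Finset.univ.erase (some j), ¬ π j ∣ pw π i := fun i hij =>
      ndw hD j i (Finset.ne_of_mem_erase hij)
    rw [cs_prod hpj h9 _ _ (fun i hij h1 => hnd1 i hij (hpj.dvd_of_dvd_pow h1))] at hcs
    have h10 : ∑ o : Option J, cs (π j) (pw π o) * y o = 0 := by
      rw [← Finset.add_sum_erase Finset.univ _ (Finset.mem_univ (some j)), hyj, mul_zero,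
        zero_add, ← hcs]
      refine Finset.sum_congr rfl fun i hij => ?_
      rw [cs_pow hpj h9 (hnd1 i hij), ZMod.natCast_zmod_val]
      ring
    rw [Fintype.sum_option, hys] at h10
    have h11 : cs (π j) (pw π none) = -rq (π j) := by
      rw [pw_none, cs_w (hD.pq j), tq_prim (hD.pq j).three]
    rw [h11] at h10
    have h13 : ∑ i, cs (π j) (pw π (some i)) * y (some i) =
        ∑ i, e i * cs (π j) (π i) * (v i - v j) := by
      refine Finset.sum_congr rfl fun i _ => ?_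
      rw [hyi i, pw_some]
      ring
    rw [h13] at h10
    linear_combination h10
  obtain ⟨hs0, hvc⟩ := hker v s heq (by
      rw [← hthree]
      refine Finset.sum_congr rfl fun i _ => ?_
      rw [hxv i]
      ring)
  obtain ⟨t, hvt⟩ : ∃ t, ∀ j, v j = t := by
    rcases isEmpty_or_nonempty J with hJ | ⟨⟨j₀⟩⟩
    · exact ⟨0, fun j => (hJ.false j).elim⟩
    · exact ⟨v j₀, fun j => hvc j j₀⟩
  -- conclusion
  refine ⟨-t, fun σ => ?_⟩
  have h1 : Kc hi (∏ o, pw π o ^ ((ew e 0 o).val * t.val)) h := by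
    refine kc_exp (pw_ne hD) (fun o => ?_) hx
    push_cast
    rw [ZMod.natCast_zmod_val, ZMod.natCast_zmod_val]
    rcases o with _ | j
    · rw [ew_none, zero_mul, ← hs]
      exact hs0
    · rw [ew_some, hxv j, hvt j]
  have h2 := kc_pow (pr0w hD _) hb t.val
  have e1 : (∏ o, pw π o ^ (ew e 0 o).val) ^ t.val =
      ∏ o, pw π o ^ ((ew e 0 o).val * t.val) := by
    rw [← Finset.prod_pow]
    refine Finset.prod_congr rfl fun i _ => ?_
    rw [← pow_mul]
  rw [e1] at h2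
  have h3 := kc_uniq (pr0w hD _) h1 h2 σ
  rw [h3, ZMod.natCast_zmod_val]
  ring

/-- **SEL7** -/
theorem s_SEL7 : S_SEL7 := fun J _ π e hD h0 hk i₀ hi u a hT => sel7 hD h0 hk hT

/-! ### descent -/

/-- `D` is not a cube -/
theorem a_ne [Nonempty J] (hD : Dt π e) {u : QB} {a : GK i₀ → ZMod 3}
    (hT : Tw hi (pD π e) u a) : ∃ σ, a σ ≠ 0 :=
  Pool.Agent.Y703.CT.a_ne hD hT

theorem descK [Nonempty J] (hD : Dt π e) (h0 : ∑ j, e j * rq (π j) = 0) (hk : Ker7 π e)
    {u : QB} {a : GK i₀ → ZMod 3} (hT : Tw hi (pD π e) u a) : ShK hi a ∧ MwK hi a := by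
  have hne : pD π e ≠ 0 := by
    rw [← pD2_zero]
    exact pD2_ne hD
  have hsel : Sel1 hi a := sel7 hD h0 hk hT
  exact ⟨Pool.Agent.Y155.CT.t_SHK _ hne i₀ hi u a hT hsel,
    Pool.Agent.Y155.CT.t_MWK _ hne i₀ hi u a hT (a_ne hD hT) hsel⟩

end Pool.Agent.Helper68.C7.Sel7
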