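import Pool.Agent.Helper68.C7.Defs7
import Pool.Agent.Helper68.C6.Selc6
import Pool.Agent.Helper68.C2.Selc2

/-!
# The converse of the descent for `D = ∏ π_j^(e_j)` congruent to one modulo `3 √-3`
-/

set_option autoImplicit false
set_option linter.unusedSectionVars false
set_option linter.unusedVariables false

open scoped Classical

namespace Pool.Agent.Helper68.C7.Selc7

open WeierstrassCurve
open Pool.Agent.Y692.QS (Ei w nr mul_re mul_im)
open Pool.Agent.Y715.T.Gi Pool.Agent.Y715.T.Nr Pool.Agent.Y715.T.Df Pool.Agent.Y715.T.Ell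
open Pool.Agent.Y715.T.Red
open Pool.Agent.Y715.T.Rec (cs)
open Pool.Agent.Y715.T.RecG
open Pool.Agent.Y715.T.Sel (kc_mul kc_one kc_congr kc_pow kc_uniq kc_exp ex_root root_ne
  iota_sq iota_ev odd_of not_dvd_of_unr i₀_mod exists_emb3)
open Pool.Agent.Y48.CT.SEL (p0 pr0 esq prod_form cf_prod not_assoc_lam)
open Pool.Agent.Y155.CT (a_mul a_cont)
open Pool.Agent.Y703.CT
open Pool.Agent.Helper68.C2 Pool.Agent.Helper68.C2.Sel2
open Pool.Agent.Helper68.C5.Chr5 (ts lt Cp cp_prim ts_prim ts_mul ts_u)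
open Pool.Agent.Helper68.C5.Selc5 (ts_pow ts_prodf cp_pq)
open Pool.Agent.Helper68.C2.Chr (tq tq_prim)
open Pool.Agent.Helper68.C2.LK2 (w_unit not_dvd_w cs_w)

/-! ### The prime above three -/

lemma three_dvd {z : Ei} (h1 : (3 : ℤ) ∣ z.re) (h2 : (3 : ℤ) ∣ z.im) : ∃ t, z = 3 * t := by
  obtain ⟨a, ha⟩ := h1
  obtain ⟨b, hb⟩ := h2
  have e3 : (3 : Ei) = ⟨3, 0⟩ := by decide
  refine ⟨⟨a, b⟩, ?_⟩
  rw [e3]
  ext
  · simp [ha]
  · simp [hb]

/-- the congruence for the exponent one -/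
lemma key1 {x y a b : ℤ} (h1 : (3 : ℤ) ∣ a + b) (h2 : (3 : ℤ) ∣ x + y - b) :
    ∃ z : Ei, (w ^ 1 * (1 + 3 * ⟨x, y⟩)) ^ 2 + (w ^ 1 * (1 + 3 * ⟨x, y⟩)) * (1 + 3 * ⟨a, b⟩) =
      -(1 + 9 * z) := by
  have hw : (w : Ei) ^ 2 + w + 1 = 0 := by decide
  obtain ⟨t, ht⟩ : ∃ t : Ei, 2 * ⟨x, y⟩ * w ^ 2 + (⟨x, y⟩ + ⟨a, b⟩) * w = 3 * t := by
    have e2 : (2 : Ei) = ⟨2, 0⟩ := by decide
    have ew : (w : Ei) = ⟨0, 1⟩ := by decide
    have ew2 : (w : Ei) ^ 2 = ⟨-1, -1⟩ := by decide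
    apply three_dvd
    · rw [ew2, e2, ew]
      simp
      omega
    · rw [ew2, e2, ew]
      simp
      omega
  refine ⟨-(t + (⟨x, y⟩ * w) ^ 2 + ⟨x, y⟩ * ⟨a, b⟩ * w), ?_⟩
  linear_combination hw + 3 * ht

/-- the congruence for the exponent two -/
lemma key2 {x y a b : ℤ} (h1 : (3 : ℤ) ∣ a + b) (h2 : (3 : ℤ) ∣ x + y + b) :
    ∃ z : Ei, (w ^ 2 * (1 + 3 * ⟨x, y⟩)) ^ 2 + (w ^ 2 * (1 + 3 * ⟨x, y⟩)) * (1 + 3 * ⟨a, b⟩) =
      -(1 + 9 * z) := by
  have hw : (w : Ei) ^ 2 + w + 1 = 0 := by decide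
  have hw3 : (w : Ei) ^ 3 = 1 := by decide
  obtain ⟨t, ht⟩ : ∃ t : Ei, 2 * ⟨x, y⟩ * w + (⟨x, y⟩ + ⟨a, b⟩) * w ^ 2 = 3 * t := by
    have e2 : (2 : Ei) = ⟨2, 0⟩ := by decide
    have ew : (w : Ei) = ⟨0, 1⟩ := by decide
    have ew2 : (w : Ei) ^ 2 = ⟨-1, -1⟩ := by decide
    apply three_dvd
    · rw [ew2, e2, ew]
      simp
      omega
    · rw [ew2, e2, ew]
      simp
      omega
  refine ⟨-(t + ⟨x, y⟩ ^ 2 * w + ⟨x, y⟩ * ⟨a, b⟩ * w ^ 2), ?_⟩
  linear_combination hw + 3 * ht + w * (1 + 3 * ⟨x, y⟩) ^ 2 * hw3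

open Pool.Agent.Y100.CT.CUB3 in
/-- local solutions at three -/
theorem cub7 {I : PadicAlgCl 3} (hI : I ^ 2 + I + 1 = 0) {B D : Ei} {x y a b : ℤ}
    {σ : ZMod 3} (h1 : (3 : ℤ) ∣ a + b) (h2 : ((x + y : ℤ) : ZMod 3) = σ * ((b : ℤ) : ZMod 3))
    (hB : B = w ^ σ.val * (1 + 3 * ⟨x, y⟩)) (hD : D = 1 + 3 * ⟨a, b⟩) :
    ∃ s t r, Sol hI B D s t r := by
  have hfix : ∀ z : Ei, ∀ τ : Au 3, τ I = I → τ (ev I hI z) = ev I hI z :=
    fun z τ hτ => ev_fix hI hτ z
  by_cases hσ : σ = 0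
  · subst hσ
    have v0 : (0 : ZMod 3).val = 0 := rfl
    rw [v0, pow_zero, one_mul] at hB
    rw [zero_mul] at h2
    have h3 : (3 : ℤ) ∣ x + y := (ZMod.intCast_zmod_eq_zero_iff_dvd _ 3).1 h2
    obtain ⟨k, hk⟩ := h3
    have hx : x = 3 * k - y := by linarith
    refine Pool.Agent.Helper68.C2.Selc2.cub3 hI (b := ⟨y - k, y - 2 * k⟩) (m := -lam * ⟨a, b⟩)
      ?_ ?_
    · rw [hB, hx]
      have h3' : (3 : Ei) = ⟨3, 0⟩ := by decide
      have h1' : (1 : Ei) = ⟨1, 0⟩ := by decide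
      rw [h3', h1']
      unfold lam
      ext
      · simp
        ring
      · simp
        ring
    · have hll : (lam : Ei) ^ 2 = -3 := lam_sq
      rw [hD]
      linear_combination (⟨a, b⟩ : Ei) * hll
  · obtain ⟨z, hz⟩ : ∃ z : Ei, B ^ 2 + B * D = -(1 + 9 * z) := by
      have z3' : ∀ x : ZMod 3, x = 0 ∨ x = 1 ∨ x = 2 := by decide
      rcases z3' σ with rfl | rfl | rfl
      · exact absurd rfl hσ
      · have v1 : (1 : ZMod 3).val = 1 := rfl
        rw [v1] at hB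
        rw [hB, hD]
        refine key1 h1 ?_
        refine (ZMod.intCast_zmod_eq_zero_iff_dvd _ 3).1 ?_
        push_cast at h2 ⊢
        linear_combination h2
      · have v2 : (2 : ZMod 3).val = 2 := rfl
        rw [v2] at hB
        rw [hB, hD]
        refine key2 h1 ?_
        refine (ZMod.intCast_zmod_eq_zero_iff_dvd _ 3).1 ?_
        have h3 : (3 : ZMod 3) = 0 := by decide
        push_cast at h2 ⊢
        linear_combination h2 + (b : ZMod 3) * h3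
    obtain ⟨s, hs, hs0, hsf⟩ := root hI (c := ev I hI (1 + 9 * z)) (hfix _) (by
      rw [map_add, map_one, add_sub_cancel_left]
      exact norm_nine hI z)
    refine ⟨-s, 1, 1, ⟨fun τ hτ => ⟨by rw [map_neg, hsf τ hτ], map_one τ, map_one τ⟩,
      Or.inl (neg_ne_zero.2 hs0), ?_⟩⟩
    have h4 : (-s) ^ 3 = -(s ^ 3) := by ring
    rw [h4, hs, ← map_neg, ← hz, map_add, map_mul, map_pow]
    ring

variable {J : Type} [Fintype J] {π : J → Ei} {e : J → ZMod 3}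
variable {i₀ : QB} {hi : i₀ ^ 2 + i₀ + 1 = 0}

/-! ### The primes dividing `D` -/

lemma pD_eq : pD π e = ∏ o, pw π o ^ (ew e 0 o).val := by
  rw [← pD2_eq]
  unfold pD2
  rw [ZMod.val_zero, pow_zero, one_mul]

lemma pD_ne (hD : Dt π e) : pD π e ≠ 0 := by
  rw [pD_eq]
  exact pr0w hD _

open Pool.Agent.Y153.CTRAM (u_ne exists_T3 jj_zero jj_one jj_neg_one jj_nsmul nsmul_tt) in
open Pool.Agent.Y379.CT (hensel pow_val_eq_one) in
theorem ramc (hD : Dt π e) {u : QB} {a : GK i₀ → ZMod 3} (hT : Tw hi (pD π e) u a)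
    (y : Option J → ZMod 3) (v : ZMod 3) (h : GK i₀ → ZMod 3)
    (hK : Kc hi (∏ o, pw π o ^ (y o).val) h) (j : J)
    (hyj : y (some j) = e j * v)
    (hj : ∑ o, cs (π j) (pw π o) * (y o - ew e 0 o * v) = 0)
    (p : ℕ) [Fact p.Prime] (ι : QB →ₐ[ℚ] PadicAlgCl p) (hp : p ≠ 3)
    (hπ : ‖ι (ev i₀ hi (π j))‖ < 1) : ∃ R, St1 hi ι a h R := by
  have hI := iota_sq' hi ι
  have hu := u_ne hT (pD_ne hD)
  have hπ' := hπ
  rw [iota_ev] at hπ'
  have hpr := (hD.pq j).prime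
  have hnd : ∀ o, o ≠ some j → ¬ π j ∣ pw π o := fun o ho => ndw hD j o ho
  have hz0 : y (some j) - ew e 0 (some j) * v = 0 := by
    rw [hyj, ew_some, sub_self]
  -- the local cube
  set M : Ei := ∏ o ∈ Finset.univ.erase (some j), pw π o ^ (y o - ew e 0 o * v).val
    with hM
  have hndp : ∀ i ∈ Finset.univ.erase (some j),
      ¬ π j ∣ pw π i ^ (y i - ew e 0 i * v).val := fun i hi' h1 =>
    hnd i (Finset.ne_of_mem_erase hi') (hpr.dvd_of_dvd_pow h1)
  have hMd : ¬ π j ∣ M := by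
    intro h1
    obtain ⟨i, hi', h2⟩ := (hpr.dvd_finsetProd_iff _).1 h1
    exact hndp i hi' h2
  have hcs : cs (π j) M = 0 := by
    rw [hM, Pool.Agent.Y715.T.RecG.cs_prod hpr (hD.pq j).norm _ _ hndp]
    rw [← Finset.add_sum_erase _ _ (Finset.mem_univ (some j))] at hj
    rw [hz0, mul_zero, zero_add] at hj
    refine Eq.trans (Finset.sum_congr rfl fun i hi' => ?_) hj
    rw [Pool.Agent.Y715.T.RecG.cs_pow hpr (hD.pq j).norm (hnd i (Finset.ne_of_mem_erase hi')),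
      ZMod.natCast_zmod_val]
    ring
  obtain ⟨x, hx⟩ := (Pool.Agent.Y715.T.RecG.cs_zero_iff hpr (hD.pq j).norm hMd).1 hcs
  have hxd : ¬ π j ∣ x := by
    intro h1
    apply hMd
    have h2 := dvd_add hx (dvd_pow h1 three_ne_zero)
    rwa [sub_add_cancel] at h2
  obtain ⟨s, hs, hs1, hsf⟩ := hensel hI hp (c := ev (ι i₀) hI M) (y := ev (ι i₀) hI x)
    (fun τ hτ => ev_fix hI hτ M) (fun τ hτ => ev_fix hI hτ x)
    (eq_one_of_not_lt hI ((dvd_iff hI hpr hπ' x).not.1 hxd)) (by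
      have h1 := (dvd_iff hI hpr hπ' _).1 hx
      rw [map_sub, map_pow, ← norm_neg, neg_sub] at h1
      exact h1)
  -- the identity between the products
  choose k hk using fun o => Pool.Agent.Helper68.C6.Selc6.exp_eq6 (y o) (ew e 0 o) v
  have hprod : (∏ o, pw π o ^ (y o).val) * pD π e ^ (-v).val =
      M * (∏ o, pw π o ^ (k o : ℕ)) ^ 3 := by
    have h1 : M = ∏ o, pw π o ^ (y o - ew e 0 o * v).val := by
      rw [← Finset.mul_prod_erase _ _ (Finset.mem_univ (some j)), hz0,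
        ZMod.val_zero, pow_zero, one_mul]
    rw [h1, pD_eq]
    rw [← Finset.prod_pow, ← Finset.prod_pow, ← Finset.prod_mul_distrib,
      ← Finset.prod_mul_distrib]
    refine Finset.prod_congr rfl fun i _ => ?_
    rw [← pow_mul, ← pow_mul, ← pow_add, ← pow_add, hk, mul_comm (k i : ℕ) 3]
  -- the cube root
  obtain ⟨b, hb⟩ := IsAlgClosed.exists_pow_nat_eq
    (ev i₀ hi (∏ o, pw π o ^ (y o).val)) (n := 3) (by norm_num)
  have hb0 : b ≠ 0 := by
    rintro rfl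
    have h1 : ev i₀ hi (∏ o, pw π o ^ (y o).val) = 0 := by rw [← hb]; ring
    exact pr0w hD _ (ev_inj hi h1)
  have hcube : (ι (b * u ^ (-v).val)) ^ 3 =
      (s * ev (ι i₀) hI (∏ o, pw π o ^ (k o : ℕ))) ^ 3 := by
    rw [← map_pow, mul_pow, ← pow_mul, mul_comm _ 3, pow_mul, hb, hT.cube, ← map_pow, ← map_mul,
      hprod, iota_ev, map_mul, mul_pow, hs, map_pow]
  obtain ⟨n, hn⟩ := cube_eq hI hcube
  have hchar : ∀ (τ : Au p) (σ : GK i₀), Cmp ι τ σ → h σ = -(v * a σ) := by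
    intro τ σ hc
    have hτI : τ (ι i₀) = ι i₀ := hc.fix
    have h1 : τ (ι (b * u ^ (-v).val)) = ι (b * u ^ (-v).val) := by
      rw [hn, map_mul, map_mul, map_pow, hτI, hsf τ hτI, ev_fix hI hτI]
    rw [hc] at h1
    have h2 := ι.injective h1
    have h3 : σ (b * u ^ (-v).val) =
        i₀ ^ ((h σ).val + (-a σ).val * (-v).val) * (b * u ^ (-v).val) := by
      rw [map_mul, map_pow, hK b hb σ, hT.act σ, mul_pow, ← pow_mul, pow_add]
      ring
    rw [h3] at h2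
    have h4 : i₀ ^ ((h σ).val + (-a σ).val * (-v).val) = 1 := by
      apply mul_right_cancel₀ (mul_ne_zero hb0 (pow_ne_zero (-v).val hu))
      rw [h2, one_mul]
    have h5 := pow_val_eq_one hi _ h4
    push_cast at h5
    rw [ZMod.natCast_zmod_val, ZMod.natCast_zmod_val, ZMod.natCast_zmod_val] at h5
    linear_combination h5
  -- the point
  obtain ⟨hn3, hT3⟩ := exists_T3 hI
  set T3 : Pt (PadicAlgCl p) := Affine.Point.some (-1) ((ι i₀) ^ 2) hn3 with hT3d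
  have hjT3 : ∀ c : ZMod 3, jj hI c T3 = T3 - tt _ c := by
    intro c
    rcases z3 c with rfl | rfl | rfl
    · rw [jj_zero, tt_zero, sub_zero]
    · rw [jj_one, hT3]
    · rw [jj_neg_one, hT3, map_sub, im_tt, hT3, sub_sub, ← tt_add]
      congr 2
  have hlT3 : ∀ τ : Au p, τ (ι i₀) = ι i₀ → pm (lh τ) T3 = T3 := by
    intro τ hτI
    rw [hT3d, pm_some, Affine.Point.some.injEq]
    rw [lh_apply, lh_apply]
    constructor
    · rw [map_neg, map_one]
    · rw [map_pow, hτI]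
  refine ⟨v.val • T3, fun τ σ hc => ?_⟩
  rw [map_nsmul, hlT3 τ hc.fix, jj_nsmul, hjT3, smul_sub, nsmul_tt, hchar τ σ hc, ← tt_neg]
  abel

/-! ### The kernel vectors -/

/-- the equations of a kernel vector -/
structure KV (π : J → Ei) (e : J → ZMod 3) (v : J → ZMod 3) (s : ZMod 3) : Prop where
  eq : ∀ j, ∑ i, e i * cs (π j) (π i) * (v i - v j) = s * rq (π j)
  la : ∑ i, e i * rq (π i) * v i = s * ∑ i, e i * ts 0 (π i)

/-- the exponents of a kernel vector -/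
def yv (e : J → ZMod 3) (v : J → ZMod 3) (s : ZMod 3) : Option J → ZMod 3 :=
  fun o => o.elim s fun j => e j * v j

lemma prod_yv (v : J → ZMod 3) (s : ZMod 3) : ∏ o, pw π o ^ (yv e v s o).val =
    w ^ s.val * ∏ j, π j ^ (e j * v j).val := by
  rw [prod_pw]
  rfl

/-- local solutions at three for the kernel vectors -/
lemma three_sol (hD : Dt π e) (h0 : ∑ j, e j * rq (π j) = 0) {v : J → ZMod 3} {s : ZMod 3}
    (hv : KV π e v s) {I : PadicAlgCl 3} (hI : I ^ 2 + I + 1 = 0) :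
    ∃ s₁ t r, Sol hI (w ^ s.val * ∏ j, π j ^ (e j * v j).val) (pD π e) s₁ t r := by
  obtain ⟨hq3, hqr⟩ := rq_prod Finset.univ (f := fun j => π j ^ (e j * v j).val)
    (fun j => (rq_pow (hD.pq j).three _).1)
  obtain ⟨x, y, hq, hr⟩ := ex_q hq3
  obtain ⟨hm3, hmr⟩ := pD_prim hD
  obtain ⟨a, b, hm, hr'⟩ := ex_q hm3
  rw [hqr] at hr
  rw [hmr, h0] at hr'
  have e1 : ∑ j, rq (π j ^ (e j * v j).val) = ∑ i, e i * rq (π i) * v i := by
    refine Finset.sum_congr rfl fun j _ => ?_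
    rw [(rq_pow (hD.pq j).three _).2, ZMod.natCast_zmod_val]
    ring
  have e2 : ∑ j, e j * ts 0 (π j) = ((b : ℤ) : ZMod 3) := by
    have h1 := (ts_prodf (κ := 0) Finset.univ (f := fun j => π j ^ (e j).val)
      (fun j => (ts_pow (κ := 0) (cp_pq (hD.pq j)) _).1)).2
    have h2 : ∑ j, ts 0 (π j ^ (e j).val) = ∑ j, e j * ts 0 (π j) := by
      refine Finset.sum_congr rfl fun j _ => ?_
      rw [(ts_pow (cp_pq (hD.pq j)) _).2, ZMod.natCast_zmod_val]
    rw [← h2, ← h1]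
    have h3 : ∏ j, π j ^ (e j).val = 1 + 3 * ⟨a, b⟩ := hm
    rw [h3, ts_prim]
    unfold lt
    ring
  refine cub7 hI (σ := s) (x := x) (y := y) (a := a) (b := b) ?_ ?_ ?_ hm
  · exact (ZMod.intCast_zmod_eq_zero_iff_dvd _ 3).1 hr'.symm
  · rw [← hr, e1, hv.la, e2]
  · rw [← hq]

/-- **kernel vectors give locally solvable characters** -/
theorem kloc7 (hD : Dt π e) (h0 : ∑ j, e j * rq (π j) = 0) {u : QB} {a : GK i₀ → ZMod 3}
    (hTw : Tw hi (pD π e) u a) {v : J → ZMod 3} {s : ZMod 3} (hv : KV π e v s)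
    {h : GK i₀ → ZMod 3} (hKc : Kc hi (w ^ s.val * ∏ j, π j ^ (e j * v j).val) h)
    (p : ℕ) [Fact p.Prime] (ι : QB →ₐ[ℚ] PadicAlgCl p) : ∃ R, St1 hi ι a h R := by
  have hB0 : (w ^ s.val * ∏ j, π j ^ (e j * v j).val) ≠ 0 :=
    mul_ne_zero (w_unit.pow _).ne_zero (pr0 hD _)
  have hD0 : pD π e ≠ 0 := pD_ne hD
  by_cases hp3 : p = 3
  · subst hp3
    exact Pool.Agent.Y674.CT.t_PT i₀ hi _ _ hB0 hD0 u a hTw _ hKc 3 ι
      (three_sol hD h0 hv (iota_sq' hi ι))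
  · by_cases hj : ∃ j, ‖ι (ev i₀ hi (π j))‖ < 1
    · obtain ⟨j, hj⟩ := hj
      refine ramc hD hTw (yv e v s) (v j) _ (by rw [prod_yv]; exact hKc)
        j rfl ?_ p ι hp3 hj
      rw [Fintype.sum_option]
      have h11 : cs (π j) (pw π none) = -rq (π j) := by
        rw [pw_none, cs_w (hD.pq j), tq_prim (hD.pq j).three]
      rw [h11]
      have h13 := hv.eq j
      have h14 : ∑ i, cs (π j) (pw π (some i)) * (yv e v s (some i) -
          ew e 0 (some i) * v j) = ∑ i, e i * cs (π j) (π i) * (v i - v j) := by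
        refine Finset.sum_congr rfl fun i _ => ?_
        show cs (π j) (π i) * (e i * v i - e i * v j) = _
        ring
      rw [h14, h13]
      show -rq (π j) * (s - 0 * v j) + s * rq (π j) = 0
      ring
    · have hj' : ∀ o, ¬ ‖ev (ι i₀) (iota_sq' hi ι) (pw π o)‖ < 1 := by
        rintro (_ | j) h1
        · rw [pw_none, norm_unit _ w_unit] at h1
          exact lt_irrefl _ h1
        · apply hj
          refine ⟨j, ?_⟩
          rw [iota_ev]
          exact h1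
      have e1 := prod_yv (π := π) (e := e) v s
      refine Pool.Agent.Y674.CT.t_PT i₀ hi _ _ hB0 hD0 u a hTw _ hKc p ι
        (Pool.Agent.Y379.CT.t_CUB Pool.Agent.Y319.CT.t_FF p hp3 (ι i₀) (iota_sq' hi ι) _ _
          ?_ ?_)
      · rw [← e1]
        exact Pool.Agent.Y363.CT.SELC.not_lt_prod _ hj' _
      · rw [pD_eq]
        exact Pool.Agent.Y363.CT.SELC.not_lt_prod _ hj' _

/-- characters of products: if the product is a cube then all exponents vanish -/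
lemma exp_zero7 (hD : Dt π e) (y : Option J → ZMod 3) {h : GK i₀ → ZMod 3}
    (hk : Kc hi (∏ o, pw π o ^ (y o).val) h) (h0 : ∀ σ, h σ = 0) (o : Option J) :
    y o = 0 := by
  have key : ∀ j, y (some j) = 0 := by
    intro j
    obtain ⟨p, hp, ι, hl⟩ := exists_emb hi (hD.pq j).prime
    have hp3 := odd_of hi ι (hD.pq j).prime hl (not_assoc_lam (hD.pq j))
    have h1 := not_dvd_of_unr (cf_prodw hD y) hk hp3 ι
      (hD.pq j).prime hl (fun τ σ _ _ => h0 σ)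
    by_contra hne'
    apply h1
    refine dvd_trans (dvd_pow_self (π j) ?_) (Finset.dvd_prod_of_mem
      (fun o => pw π o ^ (y o).val) (Finset.mem_univ (some j)))
    rwa [Ne, ZMod.val_eq_zero]
  rcases o with _ | j
  · refine Pool.Agent.Helper68.C2.Selc2.kc_w (hi := hi) (z := ∏ o, pw π o ^ (y o).val) ?_ hk h0
    rw [prod_pw, Finset.prod_eq_one, mul_one]
    intro j _
    rw [key j, ZMod.val_zero, pow_zero]
  · exact key j

/-- a character that is a multiple of `a` comes from a constant vector -/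
theorem const7 (hD : Dt π e) {u : QB} {a : GK i₀ → ZMod 3} (hTw : Tw hi (pD π e) u a)
    {v : J → ZMod 3} {s : ZMod 3} {h : GK i₀ → ZMod 3}
    (hKc : Kc hi (w ^ s.val * ∏ j, π j ^ (e j * v j).val) h)
    {c : ZMod 3} (hc : ∀ σ, h σ = c * a σ) : s = 0 ∧ ∀ i j, v i = v j := by
  have hD0 : pD π e ≠ 0 := pD_ne hD
  have hKc' : Kc hi (∏ o, pw π o ^ (yv e v s o).val) h := by
    rw [prod_yv]
    exact hKc
  have hB0 : (∏ o, pw π o ^ (yv e v s o).val) ≠ 0 := pr0w hD _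
  have hb' : Kc hi (∏ o, pw π o ^ (ew e 0 o).val) (fun σ => -a σ) := by
    rw [← pD_eq]
    exact kc_of hi (root_ne (hi := hi) hD0 hTw.cube) hTw.cube hTw.act
  have hy := kc_mul hB0 (pow_ne_zero c.val (pr0w hD _)) hKc' (kc_pow (pr0w hD _) hb' c.val)
  have ey : (∏ o, pw π o ^ (yv e v s o).val) * (∏ o, pw π o ^ (ew e 0 o).val) ^ c.val =
      ∏ o, pw π o ^ ((yv e v s o).val + (ew e 0 o).val * c.val) := by
    rw [← Finset.prod_pow, ← Finset.prod_mul_distrib]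
    refine Finset.prod_congr rfl fun i _ => ?_
    rw [← pow_mul, ← pow_add]
  rw [ey] at hy
  have hy2 : Kc hi (∏ o, pw π o ^ (yv e v s o + ew e 0 o * c).val)
      (fun σ => h σ + (c.val : ZMod 3) * -a σ) := by
    refine kc_exp (pw_ne hD) (fun i => ?_) hy
    push_cast
    rw [ZMod.natCast_zmod_val, ZMod.natCast_zmod_val, ZMod.natCast_zmod_val,
      ZMod.natCast_zmod_val]
  have hy3 : ∀ σ : GK i₀, h σ + (c.val : ZMod 3) * -a σ = 0 := by
    intro σ
    rw [hc σ, ZMod.natCast_zmod_val]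
    ring
  have h1 := exp_zero7 hD (fun o => yv e v s o + ew e 0 o * c) hy2 hy3
  constructor
  · have h4 : s + 0 * c = 0 := h1 none
    rwa [zero_mul, add_zero] at h4
  · have hvj : ∀ j, v j = -c := by
      intro j
      have h4 : e j * v j + e j * c = 0 := h1 (some j)
      rw [← mul_add] at h4
      exact eq_neg_of_add_eq_zero_left ((mul_eq_zero.1 h4).resolve_left (hD.e0 j))
    intro i j
    rw [hvj i, hvj j]

/-- **SELC7**, the converse. -/
theorem s_SELC7 : S_SELC7 := by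
  intro J _ _ π e hD h0 hker i₀ hi u a hTw hsel
  apply hker
  intro v s hv1 hv2
  have hv : KV π e v s := ⟨hv1, hv2⟩
  have hB0 : (w ^ s.val * ∏ j, π j ^ (e j * v j).val) ≠ 0 :=
    mul_ne_zero (w_unit.pow _).ne_zero (pr0 hD _)
  obtain ⟨β, a', hTw'⟩ := Pool.Agent.Y363.CT.SELC.exists_tw (hi := hi)
    (w ^ s.val * ∏ j, π j ^ (e j * v j).val)
  have hm : ∀ σ τ : GK i₀, -a' (σ * τ) = -a' σ + -a' τ := by
    intro σ τ
    rw [a_mul hB0 hTw' σ τ]
    ring
  have hc : IsLocallyConstant (fun σ : GK i₀ => -a' σ) :=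
    (a_cont hB0 hTw').comp (fun c : ZMod 3 => -c)
  have hKc : Kc hi (w ^ s.val * ∏ j, π j ^ (e j * v j).val) (fun σ => -a' σ) :=
    kc_of hi (root_ne (hi := hi) hB0 hTw'.cube) hTw'.cube hTw'.act
  obtain ⟨c, hc'⟩ := hsel _ hc hm (fun p _ ι => kloc7 hD h0 hTw hv hKc p ι)
  exact const7 hD hTw hKc hc'

end Pool.Agent.Helper68.C7.Selc7
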