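import Pool.Agent.Helper68.C7.Tam1
import Pool.Agent.Helper68.C2.Asm2
import Pool.Graph.R_seed8.Y696.CTK.Val
import Pool.Graph.R_seed8.Y696.CTK.Asm

/-!
# Assembly: the law for `D = ∏ π_j^(e_j)` congruent to one modulo three but not modulo `3 √-3`
-/

set_option autoImplicit false
set_option linter.unusedVariables false

open scoped Classical

namespace Pool.Agent.Helper68.C7.Asm1

open NumberField IsDedekindDomain WeierstrassCurve WithZero
open Pool.Agent.Y692.QS (Ei w toC)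
open Pool.Agent.Y715.T.RecG (Pq)
open Pool.Agent.Y703.CT
open Pool.Agent.Y696 (NonsingRed Cur exists_cur)
open Pool.Agent.Y696.CTK
open Pool.Agent.Y715.T.Gi Pool.Agent.Y715.T.Nr Pool.Agent.Y715.T.Df Pool.Agent.Y715.T.Ell
open Pool.Agent.TH841.NF.D (Sha)
open Pool.Agent.Y715.T.Three (lam_ne sq_three)
open Pool.Agent.Helper68.C2

variable {K : Type} [Field K] [NumberField K] (j : Ei ≃+* 𝓞 K)
variable {J : Type} [Fintype J] {π : J → Ei} {ε : J → ZMod 3}

lemma nonempty_of (hs : ∑ i, ε i * rq (π i) ≠ 0) : Nonempty J := by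
  by_contra h
  rw [not_nonempty_iff] at h
  apply hs
  rw [Finset.univ_eq_empty, Finset.sum_empty]

/-- the group of points is finite and the `3`-part of Sha trivial exactly when the kernel is
trivial -/
theorem tri_iff (hD : Dt π ε) (hs : ∑ i, ε i * rq (π i) ≠ 0) :
    Tri (j (pD π ε)) ↔ Ker π ε := by
  have P := parts
  have hJ : Nonempty J := nonempty_of hs
  have h9 := (sum_ne_iff hD).2 hs
  have hne : pD π ε ≠ 0 := Pool.Agent.Y153.CTRAM.ne_zero_of hD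
  constructor
  · rintro ⟨h1, h2⟩
    by_contra hk
    obtain ⟨e, i₀, hi, u, a, Ψ, g, hdata⟩ := P.trf K j _ hne
    have hT := hdata.1
    have ha := a_ne hD hT
    have hM := P.mwc K j _ hne e i₀ hi u a Ψ g hdata ha h1
    have hS := P.shc P.plc K j _ hne e i₀ hi u a Ψ g hdata h2
    have hsel := Pool.Agent.H70CT.t_SHC _ hne i₀ hi u a hT ha hS hM
    exact Pool.Agent.Y363.CT.SELC.t_SELC Pool.Agent.Y319.CT.t_FF Pool.Agent.Y379.CT.t_CUB
      Pool.Agent.Y100.CT.CUB3.t_cub3 Pool.Agent.Y674.CT.t_PT Pool.Agent.Y379.CT.t_RAMC J π _ hD hk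
      h9 i₀ hi u a hT hsel
  · intro hk
    exact ⟨(P.mwt P.trf K j _ hne fun i₀ hi u a hT => (descK hD hk h9 hT).2).1,
      P.sht P.trf K j _ hne fun i₀ hi u a hT => (descK hD hk h9 hT).1⟩

lemma hl_zero {e : J → ZMod 3} {F : ℂ → ℂ} (h : IsHL π e F) : IsHL2 π e 0 F := by
  refine ⟨h.1, fun s hs => (h.2 s hs).congr_fun fun α => ?_⟩
  rw [zero_mul, ZMod.val_zero, pow_zero, mul_one]

/-- the law for one `D` -/
theorem law_of (hdisc : discr K = -3) (hD : Dt π ε) (hs : ∑ i, ε i * rq (π i) ≠ 0) :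
    Law3 (j (pD π ε)) := by
  have P := parts
  have hJ : Nonempty J := nonempty_of hs
  have h9 := (sum_ne_iff hD).2 hs
  have hne : pD π ε ≠ 0 := Pool.Agent.Y153.CTRAM.ne_zero_of hD
  have h3D : (3 : Ei) ∣ pD π ε - 1 := (pD_prim hD).1
  have htri := tri_iff j hD hs
  obtain ⟨e, i₀, hi, u₀, a, Ψ, g₀, hdata⟩ := P.trf K j _ hne
  obtain ⟨ht1, ht2⟩ := P.tor K j _ hne e i₀ hi u₀ a Ψ g₀ hdata (a_ne hD hdata.1)
  obtain ⟨F, hF, hval⟩ := val_sq hD h9
  obtain ⟨c, hc, m, hm3, hm⟩ := Tam1.s_TAM1 K j J π ε hD hs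
  set N := tors (j (pD π ε)) with hN
  have ht2' : padicValNat 3 N = 1 := ht2
  have hN0 : N ≠ 0 := by
    intro h
    rw [h] at ht2'
    simp at ht2'
  obtain ⟨n', hn'⟩ : 3 ∣ N := by
    have := pow_padicValNat_dvd (p := 3) (n := N)
    rwa [ht2', pow_one] at this
  have hp3 : Fact (Nat.Prime 3) := ⟨Nat.prime_three⟩
  have hn3 : ¬ 3 ∣ n' := by
    rintro ⟨t, rfl⟩
    have h2 : 3 ^ 2 ∣ N := ⟨t, by rw [hn']; ring⟩
    have := (padicValNat_dvd_iff_le hN0).1 h2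
    omega
  have hm0 : m ≠ 0 := by
    rintro rfl
    exact hm3 (dvd_zero 3)
  have hLK : ∀ s : ℂ, 3 / 2 < s.re →
      LSeriesSummable ((fun n : ℤ => (n : ℂ)) ∘ (ED (j (pD π ε) : K)).LFunction) s ∧
        F s * (starRingEnd ℂ) (F ((starRingEnd ℂ) s)) = (ED (j (pD π ε) : K)).LSeries s := by
    intro s hs
    have h := LK2.LK (κ := 0) j Pool.Agent.Y350.CT.rec hD F (hl_zero hF) s hs
    rwa [Tam1.pD2_zero] at h
  refine ⟨ht1, ht2, fun s => F s * (starRingEnd ℂ) (F ((starRingEnd ℂ) s)), c, diff_conj hF.1,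
    hLK, ?_, hc, fun σ => ?_⟩
  · intro hT
    obtain ⟨V, hV⟩ := Pool.Agent.Y715.T.Fin.exists_over_three
    obtain ⟨Ω, hΩ, hC⟩ := exists_cur
    obtain ⟨g, -, hg2, -, hg⟩ := hval V.ValueGroup V.valuation hV _ Ω hC
    rw [hg2 (htri.1 hT), mul_one] at hg
    have hl : V.valuation Pool.Agent.Y715.T.Three.lam ≠ 0 := lam_ne
    intro h0
    have h0' : F 1 * (starRingEnd ℂ) (F 1) = 0 := by
      have : F 1 * (starRingEnd ℂ) (F ((starRingEnd ℂ) 1)) = 0 := h0
      rwa [map_one] at this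
    rw [h0', zero_div, map_zero, zero_mul] at hg
    exact pow_ne_zero _ (mul_ne_zero hl hl) hg.symm
  set τ : Ei →+* ℂ := σ.comp ((algebraMap (𝓞 K) K).comp (j : Ei →+* 𝓞 K)) with hτ
  have hτa : ∀ z, τ z = σ (j z : K) := fun z => rfl
  set d : ℂ := σ (j (pD π ε) : K) with hd
  have hd0 : d ≠ 0 := by
    rw [hd, ← hτa]
    intro h
    apply hne
    apply j.injective
    rw [map_zero]
    have h1 : ((j (pD π ε) : 𝓞 K) : K) = 0 := (map_eq_zero σ).1 h
    exact_mod_cast h1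
  obtain ⟨u, hu⟩ := IsAlgClosed.exists_pow_nat_eq d (n := 3) (by norm_num)
  obtain ⟨hex, hall⟩ := PER d u hd0 hu
  refine ⟨hex, fun Λ k2 k3 => ?_⟩
  obtain ⟨L, Ω, hC, hA⟩ := hall Λ k2 k3
  have hΩ : Ω ≠ 0 := hC.lat.ne
  have hu0 : u ≠ 0 := by
    rintro rfl
    apply hd0
    rw [← hu]
    ring
  have hΩc : (starRingEnd ℂ) Ω ≠ 0 := (map_ne_zero _).2 hΩ
  have huc : (starRingEnd ℂ) u ≠ 0 := (map_ne_zero _).2 hu0
  have hNC : (N : ℂ) ≠ 0 := by exact_mod_cast hN0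
  have hmC : (m : ℂ) ≠ 0 := by exact_mod_cast hm0
  have hs3 : ((Real.sqrt 3 : ℝ) : ℂ) ≠ 0 := by
    rw [Ne, Complex.ofReal_eq_zero]
    positivity
  have hA' : (((2 * |((starRingEnd ℂ) Λ.ω₁ * Λ.ω₂).im| : ℝ)) : ℂ) =
      ((Real.sqrt 3 : ℝ) : ℂ) * (Ω * (starRingEnd ℂ) Ω) / (u * (starRingEnd ℂ) u) := by
    rw [hA, Complex.mul_conj, Complex.mul_conj, Complex.normSq_eq_norm_sq,
      Complex.normSq_eq_norm_sq]
    push_cast
    ring
  have hdis : ((Real.sqrt |(discr K : ℝ)| : ℝ) : ℂ) = ((Real.sqrt 3 : ℝ) : ℂ) := by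
    rw [hdisc]
    norm_num
  refine ⟨F 1 * (starRingEnd ℂ) (F 1) / (Ω * (starRingEnd ℂ) Ω) * (u * (starRingEnd ℂ) u) *
    (N : ℂ) ^ 2 / (3 ^ Fintype.card J * m), ?_, ?_⟩
  · rw [hA', hdis, hm, ← hN]
    push_cast
    rw [map_one]
    field_simp
  · intro Γ _ v hv
    obtain ⟨g, hg1, hg2, hg3, hg⟩ := hval Γ v hv L Ω hC
    have hvm := v_natp hv hm3
    have hvN : v (N : ℂ) = v 3 := by
      rw [hn']
      push_cast
      rw [map_mul, v_natp hv hn3, mul_one]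
    have hvu : v u = 1 := by
      apply v_cube
      rw [hu, hd, ← hτa]
      exact v_emb_unit v hv τ h3D
    have hvu' : v ((starRingEnd ℂ) u) = 1 := by
      apply v_cube
      rw [← map_pow, hu, hd, ← hτa]
      exact v_emb_unit v hv ((starRingEnd ℂ).comp τ) h3D
    have hl : v Pool.Agent.Y715.T.Three.lam ≠ 0 := lam_ne
    obtain ⟨n, hn⟩ : ∃ n, Fintype.card J = n + 1 := ⟨Fintype.card J - 1, by
      have := Fintype.card_pos (α := J)
      omega⟩
    have hv3 : v 3 ≠ 0 := by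
      rw [← sq_three]
      exact mul_ne_zero hl hl
    have key : v (F 1 * (starRingEnd ℂ) (F 1) / (Ω * (starRingEnd ℂ) Ω) *
        (u * (starRingEnd ℂ) u) * (N : ℂ) ^ 2 / (3 ^ Fintype.card J * m)) = g := by
      rw [sq_three, hn, Nat.add_sub_cancel] at hg
      rw [hn, map_div₀, map_mul, map_mul, map_mul v u, map_mul v (3 ^ (n + 1)), map_pow, map_pow,
        hvN, hvu, hvu', hvm, mul_one, mul_one, mul_one]
      rw [div_eq_iff (pow_ne_zero _ hv3)]
      calc _ = (v (F 1 * (starRingEnd ℂ) (F 1) / (Ω * (starRingEnd ℂ) Ω)) * v 3) * v 3 := by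
            rw [pow_two, mul_assoc]
        _ = v 3 ^ n * g * v 3 := by rw [hg]
        _ = _ := by rw [pow_succ]; ac_rfl
    rw [key]
    refine ⟨hg1, ?_⟩
    rw [htri]
    constructor
    · intro h
      by_contra hk
      exact absurd h (hg3 hk).ne
    · exact hg2

end Pool.Agent.Helper68.C7.Asm1
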