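import Pool.Agent.Helper68.C2.Tam2
import Pool.Agent.Helper68.C7.Defs7

/-!
# The Tamagawa numbers of `y² + D y = x³` over `K`, `D = ∏ π_j^(e_j)` congruent to one modulo `3 √-3`
-/

set_option autoImplicit false
set_option linter.unusedSectionVars false
set_option linter.unusedVariables false

namespace Pool.Agent.Helper68.C7.Tam7

open scoped Classical

open NumberField IsDedekindDomain WeierstrassCurve WithZero Filter Topology
open Pool.Agent.Y692.QS (Ei w nr toC)
open Pool.Agent.Y715.T.RecG (Pq)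
open Pool.Agent.Y703.CT
open Pool.Agent.Y696 (NonsingRed)
open Pool.Agent.Y696.CTK
open Pool.Agent.Y350.CTK Pool.Agent.Y350.CTK.Tam
open Pool.Agent.Helper68.C2

/-! ### Cube roots in complete fields -/

section hensel

variable {L : Type} [Field L] [Valued L ℤᵐ⁰]

theorem nonarch : NonarchimedeanAddGroup L where
  is_nonarchimedean U hU := by
    obtain ⟨γ, hγ⟩ := Valued.mem_nhds_zero.1 hU
    refine ⟨⟨Valuation.ltAddSubgroup (Valued.v (R := L)).restrict γ, ?_⟩, ?_⟩
    · exact Valued.isOpen_ball L γ.1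
    · intro x hx
      exact hγ hx

/-- cube roots of the elements congruent to one modulo nine -/
theorem cube_root [CompleteSpace L] [T0Space L] (h3 : Valued.v (3 : L) < 1) (x : L)
    (hx : Valued.v x ≤ 1) : ∃ t : L, (1 - 3 * t) ^ 3 = 1 + 9 * x ∧ Valued.v t ≤ 1 := by
  let T : L → L := fun z => -x + 3 * z ^ 2 - 3 * z ^ 3
  obtain ⟨z, z0, zs⟩ : ∃ z : ℕ → L, z 0 = 0 ∧ ∀ n, z (n + 1) = T (z n) :=
    ⟨fun n => Nat.rec 0 (fun _ y => T y) n, rfl, fun _ => rfl⟩
  have hT : ∀ y y' : L, Valued.v y ≤ 1 → Valued.v y' ≤ 1 →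
      Valued.v (T y - T y') ≤ Valued.v (3 : L) * Valued.v (y - y') := by
    intro y y' hy hy'
    have e : T y - T y' = 3 * ((y + y' - y ^ 2 - y * y' - y' ^ 2) * (y - y')) := by
      simp only [T]
      ring
    rw [e, map_mul, map_mul]
    refine mul_le_mul_right ?_ _
    refine mul_le_of_le_one_left' ?_
    refine vsub (vsub (vsub (vadd hy hy') ?_) ?_) ?_
    · rw [map_pow]; exact pow_le_one₀ zero_le hy
    · rw [map_mul]; exact mul_le_one' hy hy'
    · rw [map_pow]; exact pow_le_one₀ zero_le hy'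
  have hT1 : ∀ y : L, Valued.v y ≤ 1 → Valued.v (T y) ≤ 1 := by
    intro y hy
    refine vsub (vadd ?_ ?_) ?_
    · rw [Valuation.map_neg]; exact hx
    · rw [map_mul, map_pow]; exact mul_le_one' h3.le (pow_le_one₀ zero_le hy)
    · rw [map_mul, map_pow]; exact mul_le_one' h3.le (pow_le_one₀ zero_le hy)
  have hA : ∀ n, Valued.v (z n) ≤ 1 := by
    intro n
    induction n with
    | zero => rw [z0, map_zero]; exact zero_le
    | succ n ih => rw [zs]; exact hT1 _ ih
  have hB : ∀ n, Valued.v (z (n + 1) - z n) ≤ Valued.v ((3 : L) ^ n) := by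
    intro n
    induction n with
    | zero =>
      rw [pow_zero, map_one]
      exact vsub (hA _) (hA _)
    | succ n ih =>
      have h4 := hT (z (n + 1)) (z n) (hA _) (hA _)
      rw [← zs, ← zs] at h4
      refine h4.trans ?_
      rw [pow_succ' (3 : L), map_mul]
      exact mul_le_mul_right ih _
  have := nonarch (L := L)
  have hlim : Tendsto (fun n => z (n + 1) - z n) atTop (𝓝 0) := by
    have h4 : Tendsto (fun n : ℕ => (3 : L) ^ n) atTop (𝓝 0) :=
      Valued.tendsto_zero_pow_of_v_lt_one h3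
    rw [(Valued.hasBasis_nhds_zero L _).tendsto_right_iff] at h4 ⊢
    intro γ hγ
    filter_upwards [h4 γ hγ] with n hn
    have h5 : (Valued.v (R := L)).restrict (z (n + 1) - z n) ≤
        (Valued.v (R := L)).restrict ((3 : L) ^ n) :=
      (Valuation.restrict_le_iff _).2 (hB n)
    exact lt_of_le_of_lt h5 hn
  have hcau : CauchySeq z := NonarchimedeanAddGroup.cauchySeq_of_tendsto_sub_nhds_zero hlim
  obtain ⟨t, ht⟩ := cauchySeq_tendsto_of_complete hcau
  have hTc : Continuous T := by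
    show Continuous fun z : L => -x + 3 * z ^ 2 - 3 * z ^ 3
    fun_prop
  have hw1 : Tendsto (fun n => z (n + 1)) atTop (𝓝 t) := ht.comp (tendsto_add_atTop_nat 1)
  have hw2 : Tendsto (fun n => z (n + 1)) atTop (𝓝 (T t)) := by
    simp only [zs]
    exact (hTc.tendsto t).comp ht
  have : T2Space L := inferInstance
  have hfix : T t = t := tendsto_nhds_unique hw2 hw1
  refine ⟨t, ?_, ?_⟩
  · have h6 : -x + 3 * t ^ 2 - 3 * t ^ 3 = t := hfix
    linear_combination 9 * h6
  · have hcl : IsClosed {y : L | (Valued.v (R := L)).restrict y ≤ 1} :=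
      Valued.isClosed_closedBall L (1 : MonoidWithZeroHom.ValueGroup₀
        (.ofClass (Valued.v (R := L))))
    have h8 : t ∈ {y : L | (Valued.v (R := L)).restrict y ≤ 1} := by
      refine hcl.mem_of_tendsto ht (Eventually.of_forall fun n => ?_)
      show (Valued.v (R := L)).restrict (z n) ≤ 1
      rw [Valuation.restrict_le_one_iff]
      exact hA n
    have h9 : (Valued.v (R := L)).restrict t ≤ 1 := h8
    rwa [Valuation.restrict_le_one_iff] at h9

end hensel

/-! ### The prime above three -/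

section loc

variable {L : Type} [Field L] {D : L}

open WeierstrassCurve.Affine (Point)

/-- the class of a point of singular reduction -/
def Cl (v : Valuation L ℤᵐ⁰) (c : L) (P : (ED D).toAffine.Point) : Prop :=
  ∃ x y, At P x y ∧ v (x + 1) < 1 ∧ v (2 * y + D - c) ≤ exp (-2 : ℤ)

theorem cl_neg {v : Valuation L ℤᵐ⁰} {c : L} {P : (ED D).toAffine.Point} (h : Cl v c P) : Cl v (-c) (-P) := by
  obtain ⟨x, y, hA, h1, h2⟩ := h
  refine ⟨x, _, hA.neg, h1, ?_⟩
  have e : 2 * (-y - D) + D - -c = -(2 * y + D - c) := by ring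
  rw [e, Valuation.map_neg]
  exact h2

theorem two_val {v : Valuation L ℤᵐ⁰} (v3 : v (3 : L) < 1) : v (2 : L) = 1 := by
  have e : (2 : L) = -1 + 3 := by norm_num
  rw [e, Valuation.map_add_eq_of_lt_left v (by rw [Valuation.map_neg, map_one]; exact v3),
    Valuation.map_neg, map_one]

theorem val_u {v : Valuation L ℤᵐ⁰} {u c : L} (hc : v c = exp (-1 : ℤ)) (h : v (u - c) ≤ exp (-2 : ℤ)) :
    v u = exp (-1 : ℤ) := by
  have e : u = c + (u - c) := by ring
  rw [e, Valuation.map_add_eq_of_lt_left v, hc]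
  rw [hc]
  refine lt_of_le_of_lt h ?_
  rw [exp_lt_exp]
  norm_num

theorem one_of_add {v : Valuation L ℤᵐ⁰} {x : L} (h : v (x + 1) < 1) : v x = 1 := by
  have e : x = -1 + (x + 1) := by ring
  rw [e, Valuation.map_add_eq_of_lt_left v (by rw [Valuation.map_neg, map_one]; exact h),
    Valuation.map_neg, map_one]

/-- the points of a class are of singular reduction -/
theorem cl_not {v : Valuation L ℤᵐ⁰} (v3 : v (3 : L) < 1) {c : L} (hc : v c = exp (-1 : ℤ))
    {H : AddSubgroup (ED D).toAffine.Point} (hH : ∀ P, P ∈ H ↔ NonsingRed v (ED D) P)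
    {P : (ED D).toAffine.Point} (h : Cl v c P) : P ∉ H := by
  obtain ⟨x, y, hA, h1, h2⟩ := h
  rw [not_mem_iff hH hA]
  refine ⟨?_, ?_⟩
  · rw [val_u hc h2]
    exact lt_one_iff.2 le_rfl
  · rw [map_mul, map_pow, one_of_add h1, one_pow, mul_one]
    exact v3

/-- two points of the same class differ by a point of nonsingular reduction -/
theorem cl_sub {v : Valuation L ℤᵐ⁰} (v3 : v (3 : L) < 1) {c : L} (hc : v c = exp (-1 : ℤ))
    (hres : ∀ x : L, v x ≤ 1 → v x < 1 ∨ v (x - 1) < 1 ∨ v (x + 1) < 1)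
    {H : AddSubgroup (ED D).toAffine.Point} (hH : ∀ P, P ∈ H ↔ NonsingRed v (ED D) P)
    (hsing : ∀ P, P ∉ H → ∀ x y, At P x y → v (x + 1) < 1)
    {P Q : (ED D).toAffine.Point} (hP : Cl v c P) (hQ : Cl v c Q) : P - Q ∈ H := by
  obtain ⟨x1, y1, hA1, h1, h2⟩ := hP
  obtain ⟨x2, y2, hA2, h3, h4⟩ := hQ
  have v2 := two_val v3
  have v4 : v (4 : L) = 1 := by
    have e : (4 : L) = 2 * 2 := by norm_num
    rw [e, map_mul, v2, one_mul]
  have hu : v (y1 + y2 + D) = exp (-1 : ℤ) := by
    have e : 2 * (y1 + y2 + D) = (2 * y1 + D) + (2 * y2 + D) := by ring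
    have h5 : v (2 * (y1 + y2 + D)) = exp (-1 : ℤ) := by
      have e1 : 2 * (y1 + y2 + D) = 2 * c + ((2 * y1 + D - c) + (2 * y2 + D - c)) := by ring
      rw [e1, Valuation.map_add_eq_of_lt_left v, map_mul, v2, one_mul, hc]
      rw [map_mul, v2, one_mul, hc]
      refine lt_of_le_of_lt (vadd h2 h4) ?_
      rw [exp_lt_exp]
      norm_num
    rwa [map_mul, v2, one_mul] at h5
  by_cases hx : x1 = x2
  · subst hx
    have h5 := hA1.eqn
    have h6 := hA2.eqn
    have h7 : (y1 - y2) * (y1 + y2 + D) = 0 := by linear_combination h5 - h6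
    rcases mul_eq_zero.1 h7 with h8 | h8
    · have h9 : y1 = y2 := sub_eq_zero.1 h8
      subst h9
      rw [hA1.ext hA2, sub_self]
      exact zero_mem _
    · rw [h8, map_zero] at hu
      exact absurd hu.symm exp_ne_zero
  · have hx0 : x1 - x2 ≠ 0 := sub_ne_zero.2 hx
    obtain ⟨y3, hA3⟩ := hA1.add hA2.neg hx
    rw [← sub_eq_add_neg] at hA3
    by_contra hcon
    have h5 := hsing _ hcon _ _ hA3
    set s := (y1 - (-y2 - D)) / (x1 - x2) with hs
    have hs1 : 1 ≤ v s := by
      refine div_ge (k := -1) ?_ ?_ hx0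
      · have e : y1 - (-y2 - D) = y1 + y2 + D := by ring
        rw [e, hu]
      · have e : x1 - x2 = (x1 + 1) - (x2 + 1) := by ring
        rw [e]
        exact lt_one_iff.1 (vsubl h1 h3)
    have h6 : v (s ^ 2 - 1) < 1 := by
      have e : s ^ 2 - 1 = (s ^ 2 - x1 - x2 + 1) + ((x1 + 1) + (x2 + 1)) - 3 - 1 := by ring
      have e' : s ^ 2 - 1 = (s ^ 2 - x1 - x2 + 1) + ((x1 + 1) + (x2 + 1)) - 4 := by ring
      by_contra hc1
      rw [not_lt] at hc1
      -- `s` is integral
      have hs2 : v s ≤ 1 := by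
        by_contra hc2
        rw [not_le] at hc2
        have h7 : v (s ^ 2) ≤ 1 := by
          have e2 : s ^ 2 = (s ^ 2 - x1 - x2 + 1) + ((x1 + 1) + (x2 + 1)) - 3 := by ring
          rw [e2]
          exact (vsubl (vaddl h5 (vaddl h1 h3)) v3).le
        rw [map_pow] at h7
        exact absurd h7 (not_le.2 (one_lt_pow₀ hc2 (by norm_num)))
      have h8 : v (s ^ 2 - 1) < 1 := by
        have e3 : s ^ 2 - 1 = (s - 1) * (s + 1) := by ring
        rcases hres s hs2 with h9 | h9 | h9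
        · exact absurd h9 (not_lt.2 hs1)
        · rw [e3, map_mul]
          exact m2l h9 (vadd hs2 (by rw [map_one]))
        · rw [e3, map_mul]
          exact m1l (vsub hs2 (by rw [map_one])) h9
      exact absurd h8 (not_lt.2 hc1)
    have h7 : v (4 : L) < 1 := by
      have e : (4 : L) = (s ^ 2 - x1 - x2 + 1) + ((x1 + 1) + (x2 + 1)) - (s ^ 2 - 1) := by ring
      rw [e]
      exact vsubl (vaddl h5 (vaddl h1 h3)) h6
    rw [v4] at h7
    exact lt_irrefl _ h7

/-- the classes of the points of singular reduction -/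
theorem cl_ex {v : Valuation L ℤᵐ⁰} {θ m : L} (hθ : θ ^ 2 = -3) (hvθ : v θ = exp (-1 : ℤ)) (hD : D = 1 + θ ^ 3 * m)
    (hm : v m ≤ 1) (hres : ∀ x : L, v x ≤ 1 → v x < 1 ∨ v (x - 1) < 1 ∨ v (x + 1) < 1)
    {x y : L} (he : y ^ 2 + D * y = x ^ 3) (h1 : v (2 * y + D) < 1) (h2 : v (3 * x ^ 2) < 1) :
    v (x + 1) < 1 ∧ (v (2 * y + D - θ) ≤ exp (-2 : ℤ) ∨ v (2 * y + D - -θ) ≤ exp (-2 : ℤ)) := by
  have v3 : v (3 : L) = exp (-2 : ℤ) := by
    have e : (3 : L) = -(θ ^ 2) := by rw [hθ]; ring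
    rw [e, Valuation.map_neg, map_pow, hvθ]
    rfl
  have v3l : v (3 : L) < 1 := by
    rw [v3, lt_one_iff]
    exact exp_le_exp.2 (by norm_num)
  have v3e : v (3 : L) ≤ exp (-2 : ℤ) := v3.le
  have v2 : v (2 : L) = 1 := two_val v3l
  have v4 : v (4 : L) = 1 := by
    have e : (4 : L) = 2 * 2 := by norm_num
    rw [e, map_mul, v2, one_mul]
  have hx : v x ≤ 1 := by
    by_contra hc
    rw [not_le] at hc
    have hx0 : v x ≠ 0 := (lt_trans zero_lt_one hc).ne'
    rw [map_mul, v3, map_pow] at h2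
    have h3 : log (exp (-2 : ℤ) * v x ^ 2) < 0 := by
      rw [← log_one, log_lt_log (mul_ne_zero exp_ne_zero (pow_ne_zero 2 hx0)) one_ne_zero]
      exact h2
    have h4 : 0 < log (v x) := by
      rw [← log_one, log_lt_log one_ne_zero hx0]
      exact hc
    rw [log_mul exp_ne_zero (pow_ne_zero 2 hx0), log_exp, log_pow, nsmul_eq_mul] at h3
    push_cast at h3
    omega
  have v1e : v (2 * y + D) ≤ exp (-1 : ℤ) := lt_one_iff.1 h1
  have vD : v (D ^ 2 - 1) ≤ exp (-3 : ℤ) := by
    have e : D ^ 2 - 1 = θ ^ 3 * (m * (2 + θ ^ 3 * m)) := by rw [hD]; ring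
    have h3 : v (m * (2 + θ ^ 3 * m)) ≤ exp (0 : ℤ) := by
      rw [exp_zero, map_mul]
      refine mul_le_one' hm (vadd v2.le ?_)
      rw [map_mul, map_pow, hvθ]
      exact mul_le_one' (pow_le_one₀ zero_le (by rw [← exp_zero, exp_le_exp]; norm_num)) hm
    rw [e]
    exact vle (vmul (vpow hvθ.le 3) h3) (by norm_num)
  have hsq : (2 * y + D) ^ 2 + 3 = 4 * (x ^ 3 + 1) + (D ^ 2 - 1) := by
    linear_combination 4 * he
  have hc : v (x ^ 3 + 1) < 1 := by
    have h3 : v (4 * (x ^ 3 + 1)) < 1 := by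
      have e : 4 * (x ^ 3 + 1) = (2 * y + D) ^ 2 + 3 - (D ^ 2 - 1) := by rw [hsq]; ring
      rw [e]
      refine vsubl (vaddl ?_ v3l) (lt_of_le_of_lt vD ?_)
      · rw [map_pow]; exact pow_lt_one₀ zero_le h1 (by norm_num)
      · rw [← exp_zero, exp_lt_exp]; norm_num
    rwa [map_mul, v4, one_mul] at h3
  have hx1 : v (x + 1) < 1 := by
    rcases hres x hx with h | h | h
    · exfalso
      have h3 : v (x ^ 3 + 1) = 1 := by
        rw [add_comm, Valuation.map_add_eq_of_lt_left v (by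
          rw [map_one, map_pow]; exact pow_lt_one₀ zero_le h (by norm_num)), map_one]
      rw [h3] at hc
      exact lt_irrefl _ hc
    · exfalso
      have e : x ^ 3 + 1 = 2 + (x - 1) * (x ^ 2 + x + 1) := by ring
      have h4 : v ((x - 1) * (x ^ 2 + x + 1)) < v (2 : L) := by
        rw [v2, map_mul]
        refine m2l h (vadd (vadd ?_ hx) (by rw [map_one]))
        rw [map_pow]
        exact pow_le_one₀ zero_le hx
      rw [e, Valuation.map_add_eq_of_lt_left v h4, v2] at hc
      exact lt_irrefl _ hc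
    · exact h
  refine ⟨hx1, ?_⟩
  have hxe : v (x + 1) ≤ exp (-1 : ℤ) := lt_one_iff.1 hx1
  have hθ0 : θ ≠ 0 := by
    rintro rfl
    rw [map_zero] at hvθ
    exact exp_ne_zero hvθ.symm
  -- `x³ + 1` is divisible by `θ⁴`
  have hcub : v (x ^ 3 + 1) ≤ exp (-4 : ℤ) := by
    set X := x + 1 with hX
    have e : x ^ 3 + 1 = X * ((X - θ) * (X + θ)) - 3 * X ^ 2 := by
      rw [hX]
      linear_combination (x + 1) * hθ
    have hq : v (X / θ) ≤ 1 := by
      rw [map_div₀, hvθ]
      refine div_le_one_of_le₀ hxe zero_le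
    have hprod : v (X * ((X - θ) * (X + θ))) ≤ exp (-4 : ℤ) := by
      have a1 : v (X - θ) ≤ exp (-1 : ℤ) := vsub hxe hvθ.le
      have a2 : v (X + θ) ≤ exp (-1 : ℤ) := vadd hxe hvθ.le
      have aux : ∀ r : L, v (X / θ - r) < 1 → v (X - r * θ) ≤ exp (-2 : ℤ) := by
        intro r hr
        have e3 : X - r * θ = (X / θ - r) * θ := by
          rw [sub_mul, div_mul_cancel₀ _ hθ0]
        rw [e3]
        exact vle (vmul (lt_one_iff.1 hr) hvθ.le) (by norm_num)
      rcases hres _ hq with h | h | h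
      · have h5 := aux 0 (by rwa [sub_zero])
        rw [zero_mul, sub_zero] at h5
        exact vle (vmul h5 (vmul a1 a2)) (by norm_num)
      · have h5 := aux 1 h
        rw [one_mul] at h5
        exact vle (vmul hxe (vmul h5 a2)) (by norm_num)
      · have h5 := aux (-1) (by rwa [sub_neg_eq_add])
        rw [neg_one_mul, sub_neg_eq_add] at h5
        exact vle (vmul hxe (vmul a1 h5)) (by norm_num)
    rw [e]
    refine vsub hprod ?_
    exact vle (vmul v3e (vpow hxe 2)) (by norm_num)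
  have hfin : v ((2 * y + D - θ) * (2 * y + D - -θ)) ≤ exp (-3 : ℤ) := by
    have e : (2 * y + D - θ) * (2 * y + D - -θ) = 4 * (x ^ 3 + 1) + (D ^ 2 - 1) := by
      rw [← hsq]
      linear_combination -hθ
    rw [e]
    refine vadd ?_ vD
    rw [map_mul, v4, one_mul]
    exact vle hcub (by norm_num)
  by_contra hcon
  rw [not_or, not_le, not_le] at hcon
  obtain ⟨c1, c2⟩ := hcon
  have g : ∀ a : L, exp (-2 : ℤ) < v a → exp (-1 : ℤ) ≤ v a := by
    intro a ha
    by_contra hc
    rw [not_le] at hc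
    have : exp (-1 : ℤ) = (exp (-2 + 1 : ℤ) : ℤᵐ⁰) := by norm_num
    rw [this, lt_exp_iff] at hc
    exact absurd ha (not_lt.2 hc)
  have h5 := mul_le_mul' (g _ c1) (g _ c2)
  rw [← map_mul, ← exp_add] at h5
  have h6 := h5.trans hfin
  rw [exp_le_exp] at h6
  norm_num at h6

/-- a horizontal line -/
theorem At.addh {P P' : (ED D).toAffine.Point} {x y x' : L} (h : At P x y) (h' : At P' x' y)
    (hne : x ≠ x') : At (P + P') (-x - x') (-y - D) := by
  obtain ⟨hn, rfl⟩ := h
  obtain ⟨hn', rfl⟩ := h'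
  rw [Point.add_of_X_ne hne]
  have e0 : (ED D).toAffine.slope x x' y y = 0 := by
    rw [WeierstrassCurve.Affine.slope_of_X_ne hne, sub_self, zero_div]
  have e : (ED D).toAffine.addX x x' ((ED D).toAffine.slope x x' y y) = -x - x' := by
    rw [e0, WeierstrassCurve.Affine.addX]
    simp only [ED]
    ring
  have e' : (ED D).toAffine.addY x x' y ((ED D).toAffine.slope x x' y y) = -y - D := by
    rw [WeierstrassCurve.Affine.addY, WeierstrassCurve.Affine.negY, WeierstrassCurve.Affine.negAddY, e0]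
    simp only [ED]
    ring
  rw [← e, ← e']
  exact ⟨_, rfl⟩

theorem at_of {x y : L} (he : y ^ 2 + D * y = x ^ 3) (hu : 2 * y + D ≠ 0) :
    ∃ T : (ED D).toAffine.Point, At T x y := by
  have hn : (ED D).toAffine.Nonsingular x y := by
    rw [WeierstrassCurve.Affine.nonsingular_iff', WeierstrassCurve.Affine.equation_iff]
    simp only [ED]
    refine ⟨by linear_combination he, Or.inr ?_⟩
    have h2 : (2 : L) * y + 0 * x + D = 2 * y + D := by ring
    rw [h2]
    exact hu
  exact ⟨Point.some _ _ hn, hn, rfl⟩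

end loc

open WeierstrassCurve.Affine (Point) in
/-- the index at the prime above three -/
theorem td7 (L : Type) [Field L] [Valued L ℤᵐ⁰] [CompleteSpace L] [T0Space L] (D θ m : L) (hθ : θ ^ 2 = -3)
    (hvθ : Valued.v θ = exp (-1 : ℤ)) (hD : D = 1 + θ ^ 3 * m) (hm : Valued.v m ≤ 1)
    (hres : ∀ x : L, Valued.v x ≤ 1 → Valued.v x < 1 ∨ Valued.v (x - 1) < 1 ∨ Valued.v (x + 1) < 1)
    (H : AddSubgroup (ED D).toAffine.Point)
    (hH : ∀ P, P ∈ H ↔ NonsingRed Valued.v (ED D) P) : H.index = 3 := by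
  have v3 : Valued.v (3 : L) = exp (-2 : ℤ) := by
    have e : (3 : L) = -(θ ^ 2) := by rw [hθ]; ring
    rw [e, Valuation.map_neg, map_pow, hvθ]
    rfl
  have v3l : Valued.v (3 : L) < 1 := by
    rw [v3, lt_one_iff]
    exact exp_le_exp.2 (by norm_num)
  have v2 : Valued.v (2 : L) = 1 := two_val v3l
  have h20 : (2 : L) ≠ 0 := by
    intro h
    rw [h, map_zero] at v2
    exact zero_ne_one v2
  have hcl : ∀ P, P ∉ H → Cl Valued.v θ P ∨ Cl Valued.v (-θ) P := by
    intro P hP
    obtain ⟨x, y, hA⟩ := not_mem_at hP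
    obtain ⟨h1, h2⟩ := (not_mem_iff hH hA).1 hP
    obtain ⟨h3, h4 | h4⟩ := cl_ex hθ hvθ hD hm hres hA.eqn h1 h2
    · exact Or.inl ⟨x, y, hA, h3, h4⟩
    · exact Or.inr ⟨x, y, hA, h3, h4⟩
  have hsing : ∀ P, P ∉ H → ∀ x y, At P x y → Valued.v (x + 1) < 1 := by
    intro P hP x y hA
    obtain ⟨h1, h2⟩ := (not_mem_iff hH hA).1 hP
    exact (cl_ex hθ hvθ hD hm hres hA.eqn h1 h2).1
  have hvθ' : Valued.v (-θ) = exp (-1 : ℤ) := by rw [Valuation.map_neg, hvθ]
  -- the cube root of unity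
  obtain ⟨ω, hω⟩ : ∃ ω : L, 2 * ω + 1 = θ := ⟨(θ - 1) / 2, by field_simp; ring⟩
  have hω2 : ω ^ 2 + ω + 1 = 0 := by
    have h1 : 4 * (ω ^ 2 + ω + 1) = 0 := by
      rw [← hω] at hθ
      linear_combination hθ
    have h40 : (4 : L) ≠ 0 := by
      have : (4 : L) = 2 * 2 := by norm_num
      rw [this]
      exact mul_ne_zero h20 h20
    exact (mul_eq_zero.1 h1).resolve_left h40
  have hω3 : ω ^ 3 = 1 := by linear_combination (ω - 1) * hω2
  have vω : Valued.v ω = 1 := by
    have h1 : Valued.v ω ^ 3 = 1 := by rw [← map_pow, hω3, map_one]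
    exact (pow_eq_one_iff_of_nonneg zero_le (by norm_num)).1 h1
  have vω1 : Valued.v (1 - ω) < 1 := by
    have e : 2 * (1 - ω) = 3 - θ := by rw [← hω]; ring
    have h1 : Valued.v (2 * (1 - ω)) < 1 := by
      rw [e]
      refine vsubl v3l ?_
      rw [hvθ]
      exact lt_one_iff.2 le_rfl
    rwa [map_mul, v2, one_mul] at h1
  have hω1 : ω ≠ 1 := by
    intro h
    rw [h] at hω
    have h1 : θ = 3 := by rw [← hω]; norm_num
    rw [h1, v3, exp_inj] at hvθ
    norm_num at hvθ
  have hvθ1 : Valued.v θ ≤ 1 := by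
    rw [hvθ, ← exp_zero, exp_le_exp]
    norm_num
  -- a point of singular reduction
  obtain ⟨x, y, he, hx1, hy1⟩ : ∃ x y : L, y ^ 2 + D * y = x ^ 3 ∧ Valued.v (x + 1) < 1 ∧
      Valued.v (2 * y + D - θ) ≤ exp (-2 : ℤ) := by
    obtain ⟨t, ht, ht1⟩ := cube_root v3l (-(m ^ 2 * ω ^ 2) + θ * m ^ 2 * ω) (by
      refine vadd ?_ ?_
      · rw [Valuation.map_neg, map_mul, map_pow, map_pow, vω, one_pow, mul_one]
        exact pow_le_one₀ zero_le hm
      · rw [map_mul, map_mul, map_pow, vω, mul_one]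
        exact mul_le_one' hvθ1 (pow_le_one₀ zero_le hm))
    refine ⟨-(1 - 3 * t), ω * (1 + 3 * m), ?_, ?_, ?_⟩
    · have e : (-(1 - 3 * t)) ^ 3 = -(1 + 9 * (-(m ^ 2 * ω ^ 2) + θ * m ^ 2 * ω)) := by
        rw [← ht]; ring
      rw [e, hD]
      have h3 : θ ^ 3 = -3 * θ := by linear_combination θ * hθ
      rw [h3, ← hω]
      linear_combination hω2
    · have e : -(1 - 3 * t) + 1 = 3 * t := by ring
      rw [e, map_mul]
      exact m2l v3l ht1
    · have e : 2 * (ω * (1 + 3 * m)) + D - θ = 3 * (m * (2 * ω - θ)) := by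
        rw [hD]
        have h3 : θ ^ 3 = -3 * θ := by linear_combination θ * hθ
        rw [h3, ← hω]
        ring
      have h5 : Valued.v (m * (2 * ω - θ)) ≤ exp (0 : ℤ) := by
        rw [exp_zero, map_mul]
        refine mul_le_one' hm (vsub ?_ hvθ1)
        rw [map_mul, v2, vω, one_mul]
      rw [e]
      exact vle (vmul v3.le h5) (by norm_num)
  have hu : Valued.v (2 * y + D) = exp (-1 : ℤ) := val_u hvθ hy1
  have hu0 : 2 * y + D ≠ 0 := by
    intro h
    rw [h, map_zero] at hu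
    exact exp_ne_zero hu.symm
  have vx : Valued.v x = 1 := one_of_add hx1
  have hx0 : x ≠ 0 := by
    rintro rfl
    rw [map_zero] at vx
    exact zero_ne_one vx
  have he1 : y ^ 2 + D * y = (ω * x) ^ 3 := by rw [mul_pow, hω3, one_mul, he]
  have he2 : y ^ 2 + D * y = (ω ^ 2 * x) ^ 3 := by
    rw [mul_pow, ← pow_mul, mul_comm 2 3, pow_mul, hω3, one_pow, one_mul, he]
  obtain ⟨T, hT⟩ := at_of he hu0
  obtain ⟨T1, hT1⟩ := at_of he1 hu0
  obtain ⟨T2, hT2⟩ := at_of he2 hu0
  have hωx : Valued.v (ω * x + 1) < 1 := by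
    have e : ω * x + 1 = ω * (x + 1) + (1 - ω) := by ring
    rw [e]
    refine vaddl ?_ vω1
    rw [map_mul, vω, one_mul]
    exact hx1
  have hωx2 : Valued.v (ω ^ 2 * x + 1) < 1 := by
    have e : ω ^ 2 * x + 1 = ω * (ω * x + 1) + (1 - ω) := by ring
    rw [e]
    refine vaddl ?_ vω1
    rw [map_mul, vω, one_mul]
    exact hωx
  have c0 : Cl Valued.v θ T := ⟨_, _, hT, hx1, hy1⟩
  have c1 : Cl Valued.v θ T1 := ⟨_, _, hT1, hωx, hy1⟩
  have c2 : Cl Valued.v θ T2 := ⟨_, _, hT2, hωx2, hy1⟩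
  -- the three collinear points
  have hsum : T + T1 = -T2 := by
    have hne : x ≠ ω * x := by
      intro h
      apply hω1
      have h1 : (ω - 1) * x = 0 := by linear_combination -h
      exact sub_eq_zero.1 ((mul_eq_zero.1 h1).resolve_right hx0)
    have h1 := At.addh hT hT1 hne
    have e : -x - ω * x = ω ^ 2 * x := by linear_combination (-x) * hω2
    rw [e] at h1
    exact h1.ext hT2.neg
  have s1 : T - T1 ∈ H := cl_sub v3l hvθ hres hH hsing c0 c1
  have s2 : T - T2 ∈ H := cl_sub v3l hvθ hres hH hsing c0 c2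
  refine index_of_gen _ T 3 Nat.prime_three (cl_not v3l hvθ hH c0) ?_ ?_
  · have e : 3 • T = (T - T1) + (T - T2) + (T + T1 + T2) := by abel
    rw [e, hsum, neg_add_cancel, add_zero]
    exact add_mem s1 s2
  · intro P
    by_cases hP : P ∈ H
    · exact ⟨0, by simpa using hP⟩
    rcases hcl P hP with h | h
    · refine ⟨1, ?_⟩
      rw [one_zsmul]
      exact cl_sub v3l hvθ hres hH hsing h c0
    · refine ⟨-1, ?_⟩
      rw [neg_one_zsmul]
      exact cl_sub v3l hvθ' hres hH hsing h (cl_neg c0)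

/-! ### The Tamagawa numbers -/

open Pool.Agent.Helper68.C2.Tam2 (td2 pl_three2 pl_inj2)

section glob

variable {J : Type} [Fintype J] {π : J → Ei} {e : J → ZMod 3}

/-- the form of `D` modulo `3 √-3` -/
lemma form7 (hD : Dt π e) (hr : ∑ j, e j * rq (π j) = 0) : ∃ m : Ei, pD π e = 1 + te ^ 3 * m := by
  obtain ⟨h1, h2⟩ := pD_prim hD
  obtain ⟨x, y, hxy, hq⟩ := ex_q h1
  rw [h2, hr] at hq
  have h3 : (3 : ℤ) ∣ x + y := (ZMod.intCast_zmod_eq_zero_iff_dvd _ 3).1 hq.symm
  obtain ⟨c, hc⟩ := h3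
  refine ⟨te * (c : Ei) - (y : Ei) * (1 + w), ?_⟩
  have e1 : (⟨x, y⟩ : Ei) = (x : Ei) + (y : Ei) * w := by
    have h3 : (w : Ei) = ⟨0, 1⟩ := rfl
    ext <;> simp [h3]
  have e2 : (x : Ei) = 3 * (c : Ei) - (y : Ei) := by
    have h4 : x = 3 * c - y := by omega
    rw [h4]
    push_cast
    ring
  have w1 : (w : Ei) = 1 + te * (1 + w) := by decide
  rw [hxy, e1, e2]
  linear_combination ((c : Ei) * (3 - te ^ 2) + (y : Ei) * te * (1 + w)) * te_sq + 3 * (y : Ei) * w1

variable {K : Type} [Field K] [NumberField K] (j : Ei ≃+* 𝓞 K)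

lemma val_D_one7 {v : HeightOneSpectrum (𝓞 K)} (h : ∀ i, j (π i) ∉ v.asIdeal) :
    Valued.v (algebraMap K (v.adicCompletion K) ((j (pD π e) : 𝓞 K) : K)) = 1 := by
  have h1 := Tam2.val_D_one2 (π := π) (e := e) (κ := 0) j h
  have h2 : pD2 π e 0 = pD π e := by
    unfold pD2
    simp
  rwa [h2] at h1

lemma val_D_exp7 (hD : Dt π e) (i : J) :
    Valued.v (algebraMap K ((pl j (hD.pq i).prime).adicCompletion K)
      ((j (pD π e) : 𝓞 K) : K)) = exp (-((e i).val : ℤ)) := by
  have h1 := Tam2.val_D_exp2 (κ := 0) j hD i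
  have h2 : pD2 π e 0 = pD π e := by
    unfold pD2
    simp
  rwa [h2] at h1

lemma pl_te_ne (hD : Dt π e) (i : J) : pl j (hD.pq i).prime ≠ pl j te_prime := by
  intro h
  have h1 : j 3 ∈ (pl j (hD.pq i).prime).asIdeal := by
    rw [h, mem_pl]
    exact ⟨-te, by decide⟩
  exact pl_three2 j hD i h1

/-- the Tamagawa numbers -/
theorem tam7 (hD : Dt π e) (hr : ∑ j, e j * rq (π j) = 0) :
    ∃ c : HeightOneSpectrum (𝓞 K) → ℕ, IsTam (ED (j (pD π e) : K)) c ∧
      ∏ᶠ w, c w = 3 ^ (Fintype.card J + 1) := by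
  obtain ⟨m, hm⟩ := form7 hD hr
  have hcf : Pool.Agent.Y715.T.Gi.CF (pD π e) := Pool.Agent.Y48.CT.SEL.cf_prod hD e
  have hD0 : pD π e ≠ 0 := hcf.1
  have hjD0 : ((j (pD π e) : 𝓞 K) : K) ≠ 0 := by
    intro h
    have h1 : j (pD π e) = 0 := by
      apply RingOfIntegers.ext
      exact h
    exact hD0 ((map_eq_zero_iff j j.injective).1 h1)
  have hte : ¬ te ∣ pD π e := by
    rw [hm]
    intro h
    have h1 := dvd_sub h (dvd_mul_right te (te ^ 2 * m))
    have h2 : 1 + te ^ 3 * m - te * (te ^ 2 * m) = 1 := by ring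
    rw [h2] at h1
    exact te_prime.not_isUnit (isUnit_of_dvd_one h1)
  have hsub : ∀ v : HeightOneSpectrum (𝓞 K), ∃ H : AddSubgroup
      ((ED (j (pD π e) : K)).baseChange (v.adicCompletion K)).toAffine.Point,
      ∀ P, P ∈ H ↔ NonsingRed Valued.v
        ((ED (j (pD π e) : K)).baseChange (v.adicCompletion K)) P := by
    intro v
    apply sub_ex Pool.Agent.Y891.CTK.e0k Valued.v (bc_ED _)
    · have h1 : (27 : v.adicCompletion K) * (algebraMap K (v.adicCompletion K)
          ((j (pD π e) : 𝓞 K) : K)) ^ 4 = algebraMap K (v.adicCompletion K)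
          (27 * ((j (pD π e) : 𝓞 K) : K) ^ 4) := by
        rw [map_mul, map_pow, map_ofNat]
      rw [h1, map_ne_zero]
      exact mul_ne_zero (by norm_num) (pow_ne_zero _ hjD0)
    · rw [val_eq]
      exact v.intValuation_le_one _
  choose H hH using hsub
  -- the indices
  have hA : (H (pl j te_prime)).index = 3 := by
    have hall : ∀ (G : AddSubgroup (ED (algebraMap K ((pl j te_prime).adicCompletion K)
        ((j (pD π e) : 𝓞 K) : K))).toAffine.Point), (∀ P, P ∈ G ↔ NonsingRed Valued.v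
        (ED (algebraMap K ((pl j te_prime).adicCompletion K) ((j (pD π e) : 𝓞 K) : K))) P) → G.index = 3 := by
      intro G hG
      refine td7 _ _
        (algebraMap K ((pl j te_prime).adicCompletion K) ((j te : 𝓞 K) : K))
        (algebraMap K ((pl j te_prime).adicCompletion K) ((j m : 𝓞 K) : K)) ?_ ?_ ?_ ?_ (res j) G hG
      · have h1 : ((j te : 𝓞 K) : K) ^ 2 = -3 := by
          have h2 : (j te) ^ 2 = -3 := by rw [← map_pow, te_sq, map_neg, map_ofNat]
          have h3 := congrArg (algebraMap (𝓞 K) K) h2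
          rw [map_pow, map_neg, map_ofNat] at h3
          exact h3
        rw [← map_pow, h1, map_neg, map_ofNat]
      · rw [val_eq, pl_val]
      · have h1 : ((j (pD π e) : 𝓞 K) : K) =
            1 + ((j te : 𝓞 K) : K) ^ 3 * ((j m : 𝓞 K) : K) := by
          have h2 : j (pD π e) = 1 + (j te) ^ 3 * j m := by
            rw [hm, map_add, map_mul, map_one, map_pow]
          have h3 := congrArg (algebraMap (𝓞 K) K) h2
          rw [map_add, map_mul, map_one, map_pow] at h3
          exact h3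
        rw [h1, map_add, map_mul, map_one, map_pow]
      · rw [val_eq]
        exact (pl j te_prime).intValuation_le_one _
    have key : ∀ (W : WeierstrassCurve ((pl j te_prime).adicCompletion K))
        (hW : W = ED (algebraMap K ((pl j te_prime).adicCompletion K)
          ((j (pD π e) : 𝓞 K) : K))) (G : AddSubgroup W.toAffine.Point),
        (∀ P, P ∈ G ↔ NonsingRed Valued.v W P) → G.index = 3 := by
      rintro W rfl G hG
      exact hall G hG
    exact key _ (bc_ED _) _ (hH _)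
  have hB : ∀ i, (H (pl j (hD.pq i).prime)).index = 3 := by
    intro i
    have h3v : Valued.v (3 : (pl j (hD.pq i).prime).adicCompletion K) = 1 := by
      rw [three_eq j]
      exact val_one _ (pl_three2 j hD i)
    have hm : ((e i).val : ℤ) = 1 ∨ ((e i).val : ℤ) = 2 := by
      have h6 : (e i).val < 3 := ZMod.val_lt _
      have h7 : (e i).val ≠ 0 := by
        intro h8
        exact hD.e0 i ((ZMod.val_eq_zero _).1 h8)
      omega
    have key : ∀ (W : WeierstrassCurve ((pl j (hD.pq i).prime).adicCompletion K))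
        (hW : W = ED (algebraMap K ((pl j (hD.pq i).prime).adicCompletion K)
          ((j (pD π e) : 𝓞 K) : K))) (G : AddSubgroup W.toAffine.Point),
        (∀ P, P ∈ G ↔ NonsingRed Valued.v W P) → G.index = 3 := by
      rintro W rfl G hG
      exact td2 _ Valued.v _ h3v hm (val_D_exp7 j hD i) G hG
    exact key _ (bc_ED _) _ (hH _)
  have hC : ∀ v : HeightOneSpectrum (𝓞 K), j 3 ∉ v.asIdeal → (∀ i, j (π i) ∉ v.asIdeal) →
      (H v).index = 1 := by
    intro v h3 hi
    refine idx_one tg Valued.v (bc_ED _) ?_ ?_ _ (hH _)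
    · rw [three_eq j]
      exact val_one _ h3
    · exact val_D_one7 j hi
  -- the support
  have hsupp : Function.mulSupport (fun v => (H v).index) ⊆
      ((insert (pl j te_prime) (Finset.univ.image fun i => pl j (hD.pq i).prime) :
        Finset (HeightOneSpectrum (𝓞 K))) : Set (HeightOneSpectrum (𝓞 K))) := by
    intro v hv
    rw [Function.mem_mulSupport] at hv
    by_contra hcon
    apply hv
    rw [Finset.mem_coe, Finset.mem_insert, Finset.mem_image] at hcon
    by_cases h3 : j 3 ∈ v.asIdeal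
    · exact absurd (Or.inl (three_mem j h3)) hcon
    · refine hC v h3 fun i hi => hcon (Or.inr ⟨i, Finset.mem_univ _, ?_⟩)
      exact (eq_pl j (hD.pq i).prime hi).symm
  have hnot : pl j te_prime ∉ Finset.univ.image fun i => pl j (hD.pq i).prime := by
    rw [Finset.mem_image]
    rintro ⟨i, -, hi⟩
    exact pl_te_ne j hD i hi
  refine ⟨fun v => (H v).index, ⟨fun v => ⟨Min2.mink2 K j _ hte hcf v, H v, hH v, rfl⟩, ?_⟩, ?_⟩
  · exact (Finset.finite_toSet _).subset hsupp
  · rw [finprod_eq_prod_of_mulSupport_subset _ hsupp, Finset.prod_insert hnot, Finset.prod_image]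
    · rw [Finset.prod_congr rfl fun i _ => hB i, Finset.prod_const, Finset.card_univ, hA, pow_succ,
        mul_comm]
    · intro a _ b _ h
      exact pl_inj2 j hD h

end glob

/-- **TAM7** -/
theorem s_TAM7 : S_TAM7 := by
  intro K _ _ j J _ π e hD hr
  exact tam7 j hD hr

end Pool.Agent.Helper68.C7.Tam7
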