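import Pool.Agent.Helper68.C7.StF

/-!
# The value as a determinant (module of helper21)
-/

set_option autoImplicit false

open Finset

namespace Pool.Agent.Helper68.C7.F3

open Pool.Agent.Y715.T.Comb Matrix

variable {ι F : Type} [Fintype ι] [DecidableEq ι] [Field F]

lemma det_col_op {A B : Matrix ι ι F} (c : ι → F) (k : ι) (hk : c k = 0)
    (h : ∀ i j, A i j = B i j + c j * B i k) : A.det = B.det := by
  rw [← det_transpose A, ← det_transpose B]
  exact det_eq_of_forall_row_eq_smul_add_const c k hk fun i j => h j i

/-- the partial row sums -/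
def Sm (o : ι) (A : Matrix ι ι F) (i : ι) : F := ∑ l, if l = o then 0 else A i l

/-- the column operation -/
def op (o s : ι) (ρ : ι → F) (A : Matrix ι ι F) : Matrix ι ι F :=
  of fun i j => if j = s then Sm o A i else if j = o then A i o else A i j + ρ j * Sm o A i

lemma det_op {o s : ι} (hso : s ≠ o) (ρ : ι → F) (A : Matrix ι ι F) :
    (op o s ρ A).det = A.det := by
  set A1 := A.updateCol s (fun k => ∑ i, (if i = o then (0 : F) else 1) • A k i) with hA1
  have h1 : A1.det = A.det := by
    rw [hA1, det_updateCol_sum, if_neg hso, one_smul]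
  rw [← h1]
  have hs : ∀ i, A1 i s = Sm o A i := by
    intro i
    rw [hA1, updateCol_self, Sm]
    refine sum_congr rfl fun l _ => ?_
    split_ifs <;> simp
  refine det_col_op (fun j => if j = s ∨ j = o then 0 else ρ j) s (by simp) fun i j => ?_
  rw [hs]
  unfold op
  rw [of_apply]
  by_cases h : j = s
  · subst h
    rw [if_pos rfl, hs]
    simp
  · have h2 : A1 i j = A i j := by
      rw [hA1, updateCol_ne h]
    rw [if_neg h, h2]
    by_cases h3 : j = o
    · subst h3; simp
    · rw [if_neg h3, if_neg (by tauto)]

/-- the basic matrix -/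
def Bm (g : ι → ι → F) (o s : ι) (ρ : ι → F) (p q : ι → F) : Matrix ι ι F :=
  of fun i j => if i = o then (if j = o then 1 else 0) else if j = s then p i else
    if j = o then q i else M g univ i j + ρ j * g i o

lemma det_Bm (g : ι → ι → F) {o s : ι} (hso : s ≠ o) (ρ : ι → F) (p q q' : ι → F) :
    (Bm g o s ρ p q).det = (Bm g o s ρ p q').det := by
  refine det_eq_of_forall_row_eq_smul_add_const (fun i => if i = o then 0 else q i - q' i) o
    (by simp) fun i j => ?_
  unfold Bm
  simp only [of_apply]
  by_cases hi : i = o
  · simp [hi]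
  · by_cases hj : j = s
    · subst hj
      simp [hi, hso]
    · by_cases hjo : j = o
      · subst hjo
        simp [hi, Ne.symm hso]
      · simp [hi, hj, hjo]

/-- the entries of the Laplacian -/
lemma M_univ (g : ι → ι → F) (i j : ι) :
    M g univ i j = if i = j then ∑ l, (if l = i then 0 else g i l) else - g i j := by
  unfold M
  simp [of_apply]

lemma sum_M (g : ι → ι → F) (i : ι) : ∑ j, M g univ i j = 0 := by
  simp only [M_univ]
  rw [← add_sum_erase univ _ (mem_univ i), if_pos rfl, ← add_sum_erase univ _ (mem_univ i),
    if_pos rfl, zero_add, ← sum_add_distrib]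
  refine sum_eq_zero fun j hj => ?_
  have := ne_of_mem_erase hj
  rw [if_neg this, if_neg this.symm, add_neg_cancel]

lemma Sm_M (g : ι → ι → F) {i o : ι} (h : i ≠ o) (A : Matrix ι ι F)
    (hA : ∀ j, j ≠ o → A i j = M g univ i j) : Sm o A i = g i o := by
  unfold Sm
  have h1 := sum_M g i
  rw [← add_sum_erase univ _ (mem_univ o), M_univ, if_neg h] at h1
  rw [← add_sum_erase univ _ (mem_univ o), if_pos rfl, zero_add]
  have h2 : ∑ x ∈ univ.erase o, (if x = o then 0 else A i x) = ∑ x ∈ univ.erase o, M g univ i x :=
    sum_congr rfl fun x hx => by rw [if_neg (ne_of_mem_erase hx), hA x (ne_of_mem_erase hx)]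
  rw [h2]
  linear_combination h1

/-- the minor -/
lemma w_Bm (g : ι → ι → F) {o s : ι} (hso : s ≠ o) (ρ : ι → F) (q : ι → F) :
    w g univ o = (Bm g o s ρ (fun i => g i o) q).det := by
  unfold w
  rw [V_eq, ← det_op hso ρ, det_Bm g hso ρ _ q (fun i => - g i o)]
  congr 1
  set A := (M g univ).updateRow o (Pi.single o 1) with hA
  have hAo : ∀ j, A o j = if j = o then 1 else 0 := by
    intro j
    rw [hA, updateRow_self, Pi.single_apply]
  have hAi : ∀ i j, i ≠ o → A i j = M g univ i j := by
    intro i j hi
    rw [hA, updateRow_ne hi]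
  have hSo : Sm o A o = 0 := by
    unfold Sm
    refine sum_eq_zero fun l _ => ?_
    split_ifs with h
    · rfl
    · rw [hAo, if_neg h]
  ext i j
  unfold op Bm
  simp only [of_apply]
  by_cases hi : i = o
  · subst hi
    rw [if_pos rfl, hSo]
    by_cases hj : j = s
    · subst hj
      simp [hso]
    · by_cases hjo : j = i
      · subst hjo
        simp [hj, hAo]
      · simp [hj, hjo, hAo]
  · rw [if_neg hi, Sm_M g hi A (fun j _ => hAi i j hi)]
    by_cases hj : j = s
    · simp [hj]
    · by_cases hjo : j = o
      · subst hjo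
        rw [if_neg hj, if_pos rfl, if_neg hj, if_pos rfl, hAi i j hi, M_univ, if_neg hi]
      · simp [hj, hjo, hAi i j hi]

/-- the bordered matrix -/
def Nm (g : ι → ι → F) (o : ι) (r : ι → F) (Y : F) : Matrix ι ι F :=
  of fun i j => if i = o then (if j = o then Y else - r j) else if j = o then r i else M g univ i j

lemma det_Nm (g : ι → ι → F) {o s : ι} (hso : s ≠ o) {r : ι → F} (hro : r o ≠ 0)
    (hr : ∑ i, r i = 0) (Y : F) (q : ι → F) :
    (Nm g o r Y).det = - (r o * (Bm g o s (fun j => r j / r o) r q).det) + Y * w g univ o := by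
  set ρ : ι → F := fun j => r j / r o with hρ
  have hNi : ∀ i j, i ≠ o → j ≠ o → Nm g o r Y i j = M g univ i j := by
    intro i j hi hj
    simp [Nm, hi, hj]
  have hSo : Sm o (Nm g o r Y) o = r o := by
    unfold Sm
    rw [← add_sum_erase univ _ (mem_univ o)] at hr
    rw [← add_sum_erase univ _ (mem_univ o), if_pos rfl, zero_add]
    have h2 : ∑ x ∈ univ.erase o, (if x = o then 0 else Nm g o r Y o x) =
        - ∑ x ∈ univ.erase o, r x := by
      rw [← sum_neg_distrib]
      refine sum_congr rfl fun x hx => ?_
      have := ne_of_mem_erase hx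
      simp [Nm, this]
    rw [h2]
    linear_combination -hr
  set O := op o s ρ (Nm g o r Y) with hO
  have hOo : ∀ j, O o j = if j = s then r o else if j = o then Y else 0 := by
    intro j
    rw [hO]
    unfold op
    rw [of_apply, hSo]
    by_cases hj : j = s
    · simp [hj]
    · by_cases hjo : j = o
      · subst hjo
        simp [hj, Nm]
      · rw [if_neg hj, if_neg hjo, if_neg hj, if_neg hjo]
        have : Nm g o r Y o j = - r j := by simp [Nm, hjo]
        rw [this, hρ]
        field_simp
        ring
  have hOi : ∀ i j, i ≠ o → O i j = if j = s then g i o else if j = o then r i else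
      M g univ i j + ρ j * g i o := by
    intro i j hi
    rw [hO]
    unfold op
    rw [of_apply, Sm_M g hi _ (fun j hj => hNi i j hi hj)]
    by_cases hj : j = s
    · simp [hj]
    · by_cases hjo : j = o
      · subst hjo
        simp [hj, Nm, hi]
      · rw [if_neg hj, if_neg hjo, if_neg hj, if_neg hjo, hNi i j hi hjo]
  have h1 : O = O.updateRow o (r o • Pi.single s 1 + Y • Pi.single o 1) := by
    ext i j
    by_cases hi : i = o
    · subst hi
      rw [updateRow_self, hOo]
      by_cases hj : j = s
      · subst hj
        simp [Pi.single_apply, hso]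
      · by_cases hjo : j = i
        · subst hjo
          simp [Pi.single_apply, hj]
        · simp [Pi.single_apply, hj, hjo]
    · rw [updateRow_ne hi]
  rw [← det_op hso ρ, ← hO, h1, det_updateRow_add, det_updateRow_smul, det_updateRow_smul]
  have h2 : O.updateRow o (Pi.single o 1) = Bm g o s ρ (fun i => g i o) r := by
    ext i j
    by_cases hi : i = o
    · subst hi
      rw [updateRow_self]
      simp [Bm, Pi.single_apply]
    · rw [updateRow_ne hi, hOi i j hi]
      simp [Bm, hi]
  have h3 : (O.updateRow o (Pi.single s 1)).det = - (Bm g o s ρ r q).det := by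
    rw [det_Bm g hso ρ r q (fun i => g i o)]
    have h4 : Bm g o s ρ r (fun i => g i o) =
        (O.updateRow o (Pi.single s 1)).submatrix id (Equiv.swap s o) := by
      ext i j
      rw [submatrix_apply, id]
      by_cases hi : i = o
      · subst hi
        rw [updateRow_self]
        by_cases hj : j = s
        · subst hj
          rw [Equiv.swap_apply_left]
          simp [Bm, hso, Pi.single_apply, Ne.symm hso]
        · by_cases hjo : j = i
          · subst hjo
            rw [Equiv.swap_apply_right]
            simp [Bm]
          · rw [Equiv.swap_apply_of_ne_of_ne hj hjo]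
            simp [Bm, hjo, Pi.single_apply, hj]
      · rw [updateRow_ne hi, hOi _ _ hi]
        by_cases hj : j = s
        · subst hj
          rw [Equiv.swap_apply_left]
          simp [Bm, hi, Ne.symm hso]
        · by_cases hjo : j = o
          · subst hjo
            rw [Equiv.swap_apply_right]
            simp [Bm, hi, hj]
          · rw [Equiv.swap_apply_of_ne_of_ne hj hjo]
            simp [Bm, hi, hj, hjo]
    rw [h4, det_permute', Equiv.Perm.sign_swap hso]
    simp
  rw [h2, h3, w_Bm g hso ρ r]
  ring

/-- Cramer's rule -/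
lemma D_cramer (a : ι → ι → F) (b : ι → F) {T : Finset ι} {s : ι} (hs : s ∈ T) :
    D a b T = ((M a T).updateCol s (fun i => if i ∈ T then b i else 0)).det := by
  rw [← cramer_apply, cramer_eq_adjugate_mulVec, mulVec, dotProduct]
  simp only [mul_ite, mul_zero]
  rw [← sum_filter, filter_univ_mem]
  unfold D
  refine sum_congr rfl fun k hk => ?_
  have h1 : w a T k = (M a T).adjugate k k := by
    unfold w
    rw [V_eq, ← adjugate_apply]
  rw [h1, adj_eq a T hk hs k, mul_comm]

lemma D_first {g : ι → ι → F} (hg : Sym g) {o s : ι} (hso : s ≠ o) {r : ι → F} (hro : r o ≠ 0)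
    (hr : ∑ i, r i = 0) :
    D (fun j i => g i j - r i / r o * g o j) (fun k => r o * r k) (univ.erase o) =
      r o * (Bm g o s (fun j => r j / r o) r (fun _ => 0)).det := by
  have hs : s ∈ (univ : Finset ι).erase o := mem_erase.2 ⟨hso, mem_univ _⟩
  rw [D_cramer _ _ hs]
  have h0 : (fun i => if i ∈ (univ : Finset ι).erase o then r o * r i else 0) =
      r o • (fun i => if i = o then 0 else r i) := by
    funext i
    by_cases h : i = o
    · simp [h]
    · simp [h]
  rw [h0, det_updateCol_smul]
  congr 2
  ext i j
  by_cases hj : j = s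
  · subst hj
    rw [updateCol_self]
    by_cases hi : i = o
    · subst hi; simp [Bm, hso]
    · simp [Bm, hi]
  rw [updateCol_ne hj]
  by_cases hi : i = o
  · subst hi
    unfold M Bm
    simp [eq_comm]
  by_cases hjo : j = o
  · subst hjo
    unfold M Bm
    simp [hi, hj]
  have hB : Bm g o s (fun j => r j / r o) r (fun _ => 0) i j = M g univ i j + r j / r o * g i o := by
    simp [Bm, hi, hj, hjo]
  rw [hB, M_univ]
  by_cases hij : i = j
  · subst hij
    rw [if_pos rfl]
    have hM : M (fun j i => g i j - r i / r o * g o j) (univ.erase o) i i =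
        ∑ l ∈ univ.erase o, (if l = i then 0 else (g l i - r l / r o * g o i)) := by
      unfold M
      simp [hi]
    rw [hM, ← add_sum_erase univ (fun l => if l = i then (0 : F) else g i l) (mem_univ o),
      if_neg (Ne.symm hi)]
    have h1 : ∀ l ∈ (univ : Finset ι).erase o, (if l = i then (0 : F) else (g l i - r l / r o * g o i)) =
        (if l = i then 0 else g i l) - (r l / r o * g o i) + (if l = i then r i / r o * g o i else 0) := by
      intro l _
      by_cases hl : l = i
      · subst hl; simp
      · rw [if_neg hl, if_neg hl, if_neg hl, hg l i hl, add_zero]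
    rw [sum_congr rfl h1, sum_add_distrib, sum_sub_distrib, ← sum_mul, ← sum_div,
      sum_ite_eq' , if_pos (mem_erase.2 ⟨hi, mem_univ _⟩)]
    have h2 : ∑ l ∈ (univ : Finset ι).erase o, r l = - r o := by
      rw [← add_sum_erase univ _ (mem_univ o)] at hr
      linear_combination hr
    rw [h2, hg i o hi]
    field_simp
    ring
  · rw [if_neg hij]
    have hM : M (fun j i => g i j - r i / r o * g o j) (univ.erase o) i j =
        - (g j i - r j / r o * g o i) := by
      unfold M
      simp [hi, hjo, hij]
    rw [hM, hg j i (Ne.symm hij), hg i o hi]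
    ring

/-- **The value is a determinant.** -/
theorem value {g : ι → ι → F} (hg : Sym g) {o : ι} {r : ι → F} (y : ι → F) (hro : r o ≠ 0)
    (hr : ∑ i, r i = 0) :
    D (fun j i => g i j - r i / r o * g o j) (fun k => r o * r k) (univ.erase o) - D g y univ =
      - (Nm g o r (∑ i, y i)).det := by
  obtain ⟨s, hso⟩ : ∃ s, s ≠ o := by
    by_contra h
    push Not at h
    apply hro
    rw [← hr]
    rw [sum_eq_single o (fun b _ hb => absurd (h b) hb) (fun h => absurd (mem_univ _) h)]
  have h2 : D g y univ = (∑ i, y i) * w g univ o := by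
    unfold D
    rw [sum_mul]
    exact sum_congr rfl fun k _ => by rw [w_eq hg (mem_univ k) (mem_univ o)]
  rw [D_first hg hso hro hr, h2, det_Nm g hso hro hr _ (fun _ => 0)]
  ring

lemma sum_M_mul (g : ι → ι → F) (v : ι → F) (i : ι) :
    ∑ j, M g univ i j * v j = ∑ j, g i j * (v i - v j) := by
  have h := M_apply g univ v i (mem_univ i)
  simpa [mulVec, dotProduct] using h

lemma Nm_mulVec (g : ι → ι → F) (o : ι) (r x : ι → F) (Y : F) {i : ι} (hi : i ≠ o) :
    (Nm g o r Y).mulVec x i = r i * x o +
      ∑ j, g i j * ((if i = o then 0 else x i) - (if j = o then 0 else x j)) := by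
  have h := sum_M_mul g (fun j => if j = o then 0 else x j) i
  rw [← h, mulVec, dotProduct, ← add_sum_erase univ _ (mem_univ o),
    ← add_sum_erase univ (fun j => M g univ i j * (if j = o then 0 else x j)) (mem_univ o), if_pos rfl,
    mul_zero, zero_add]
  congr 1
  · simp [Nm, hi]
  · refine sum_congr rfl fun j hj => ?_
    have := ne_of_mem_erase hj
    simp [Nm, hi, this]

lemma Nm_mulVec_o (g : ι → ι → F) (o : ι) (r x : ι → F) (Y : F) :
    (Nm g o r Y).mulVec x o = Y * x o - ∑ j, r j * (if j = o then 0 else x j) := by
  rw [mulVec, dotProduct, ← add_sum_erase univ _ (mem_univ o),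
    ← add_sum_erase univ (fun j => r j * (if j = o then 0 else x j)) (mem_univ o), if_pos rfl,
    mul_zero, zero_add, sub_eq_add_neg, ← sum_neg_distrib]
  congr 1
  · simp [Nm]
  · refine sum_congr rfl fun j hj => ?_
    have := ne_of_mem_erase hj
    simp [Nm, this]

/-- the total of the Laplacian -/
lemma sum_lap {g : ι → ι → F} (hg : Sym g) (v : ι → F) : ∑ i, ∑ j, g i j * (v i - v j) = 0 :=
  sum_sym hg univ v

lemma flip_lap {g : ι → ι → F} (hg : Sym g) (v : ι → F) (j : ι) :
    ∑ i, g i j * (v i - v j) = - ∑ i, g j i * (v j - v i) := by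
  rw [← sum_neg_distrib]
  refine sum_congr rfl fun i _ => ?_
  by_cases h : i = j
  · subst h; ring
  · rw [hg i j h]; ring

theorem s_F3 : S_F3 := by
  intro ι _ _ g r y o hg hro hr
  have hg' : Sym g := hg
  rw [value hg' y hro hr, neg_ne_zero, Ne, ← Matrix.exists_mulVec_eq_zero_iff]
  constructor
  · intro hdet v s h1 h2
    push Not at hdet
    set x : ι → ZMod 3 := fun i => if i = o then s else v i - v o with hx
    have hxo : x o = s := by rw [hx]; simp
    have hxi : ∀ i, (if i = o then 0 else x i) = v i - v o := by
      intro i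
      by_cases hi : i = o
      · rw [if_pos hi, hi, sub_self]
      · rw [if_neg hi, hx]; simp [hi]
    have hN : (Nm g o r (∑ i, y i)).mulVec x = 0 := by
      ext i
      rw [Pi.zero_apply]
      by_cases hi : i = o
      · subst hi
        rw [Nm_mulVec_o, hxo]
        simp only [hxi]
        have h3 : ∑ j, r j * (v j - v i) = ∑ j, r j * v j - (∑ j, r j) * v i := by
          rw [sum_mul, ← sum_sub_distrib]
          exact sum_congr rfl fun j _ => by ring
        rw [h3, hr, h2]
        ring
      · rw [Nm_mulVec g o r x _ hi, hxo]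
        simp only [hxi]
        have h3 := h1 i
        rw [flip_lap hg' v i] at h3
        have h4 : ∑ j, g i j * (v i - v o - (v j - v o)) = ∑ j, g i j * (v i - v j) :=
          sum_congr rfl fun j _ => by ring
        rw [h4]
        linear_combination -h3
    have hx0 : x = 0 := by
      by_contra hne
      exact hdet x hne hN
    have hv : ∀ i, v i = v o := by
      intro i
      have h3 := hxi i
      rw [hx0] at h3
      simp only [Pi.zero_apply, ite_self] at h3
      linear_combination -h3
    refine ⟨?_, fun i j => by rw [hv i, hv j]⟩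
    rw [← hxo, hx0]; rfl
  · rintro hK ⟨x, hx0, hN⟩
    apply hx0
    set v : ι → ZMod 3 := fun i => if i = o then 0 else x i with hv
    have hrow : ∀ j, j ≠ o → ∑ i, g i j * (v i - v j) = x o * r j := by
      intro j hj
      have h1 := congrFun hN j
      rw [Nm_mulVec g o r x _ hj, Pi.zero_apply] at h1
      rw [flip_lap hg' v j]
      have h2 : ∑ i, g j i * ((if j = o then 0 else x j) - (if i = o then 0 else x i)) =
          ∑ i, g j i * (v j - v i) := rfl
      rw [h2] at h1
      linear_combination -h1
    have hall : ∀ j, ∑ i, g i j * (v i - v j) = x o * r j := by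
      intro j
      by_cases hj : j = o
      · subst hj
        have h1 := sum_lap hg' v
        have h2 : ∑ k, ∑ i, g i k * (v i - v k) = 0 := by
          have h3 : ∑ k, ∑ i, g i k * (v i - v k) = - ∑ k, ∑ i, g k i * (v k - v i) := by
            rw [← sum_neg_distrib]
            exact sum_congr rfl fun k _ => flip_lap hg' v k
          rw [h3, h1, neg_zero]
        rw [← add_sum_erase univ _ (mem_univ j)] at h2
        rw [sum_congr rfl fun k hk => hrow k (ne_of_mem_erase hk), ← mul_sum] at h2
        rw [← add_sum_erase univ _ (mem_univ j)] at hr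
        linear_combination h2 - x j * hr
      · exact hrow j hj
    have hlast : ∑ i, r i * v i = x o * ∑ i, y i := by
      have h1 := congrFun hN o
      rw [Nm_mulVec_o, Pi.zero_apply] at h1
      have h2 : ∑ j, r j * (if j = o then 0 else x j) = ∑ i, r i * v i := rfl
      rw [h2] at h1
      linear_combination -h1
    obtain ⟨hs, hvv⟩ := hK v (x o) hall hlast
    funext i
    by_cases hi : i = o
    · rw [hi, hs]; rfl
    · have h1 := hvv i o
      have h2 : v i = x i := by rw [hv]; simp [hi]
      have h3 : v o = 0 := by rw [hv]; simp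
      rw [h2, h3] at h1
      exact h1

theorem s_F3' : S_F3' := by
  intro ι _ hne _ g y hg
  have hg' : Sym g := hg
  obtain ⟨o⟩ := hne
  have h2 : D g y univ = (∑ i, y i) * w g univ o := by
    unfold D
    rw [sum_mul]
    exact sum_congr rfl fun k _ => by rw [w_eq hg' (mem_univ k) (mem_univ o)]
  rw [h2]
  constructor
  · intro h v s h3 h4
    obtain ⟨hY, hw⟩ := mul_ne_zero_iff.mp h
    have hs : s = 0 := by
      simp only [zero_mul, sum_const_zero] at h4
      rcases mul_eq_zero.mp h4.symm with h5 | h5
      · exact h5
      · exact absurd h5 hY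
    refine ⟨hs, ?_⟩
    subst hs
    have hv : ∀ i, v i - v o = 0 := by
      have hw' : (V g univ univ o).det ≠ 0 := hw
      rw [V_eq, Ne, ← Matrix.exists_mulVec_eq_zero_iff] at hw'
      push Not at hw'
      by_contra hcon
      have hx : (fun i => v i - v o) ≠ 0 := fun h0 => hcon fun i => congrFun h0 i
      apply hw' _ hx
      ext i
      by_cases hi : i = o
      · subst hi
        rw [mulVec, updateRow_self, single_dotProduct]
        simp
      · rw [mulVec, updateRow_ne hi, dotProduct, sum_M_mul, Pi.zero_apply]
        have h5 := h3 i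
        rw [flip_lap hg' v i] at h5
        have h6 : ∑ j, g i j * (v i - v o - (v j - v o)) = ∑ j, g i j * (v i - v j) :=
          sum_congr rfl fun j _ => by ring
        rw [h6]
        linear_combination -h5
    intro i j
    linear_combination hv i - hv j
  · intro hK
    refine mul_ne_zero ?_ ?_
    · intro hY
      have h3 := hK (fun _ => 0) 1 (fun j => by simp) (by rw [hY]; simp)
      exact one_ne_zero h3.1
    · refine w_ne hg' ?_ (mem_univ o)
      intro e he i _ j _
      refine (hK e 0 (fun j => ?_) (by simp)).2 i j
      rw [flip_lap hg' e j, he j (mem_univ j)]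
      simp

end Pool.Agent.Helper68.C7.F3
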