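import Pool.Agent.Helper68.C7.StG
import Pool.Agent.Helper68.C7.F3

/-!
# The combination of the recursions (module of helper21)
-/

set_option autoImplicit false

open Finset

namespace Pool.Agent.Helper68.C7.C3

open Pool.Agent.Y715.T.Comb

variable {ι F : Type} [DecidableEq ι] [Field F]

/-- existence of the solution of a recursion -/
lemma exists_sol (c : Finset ι → Finset ι → F) (f : Finset ι → F) (hc : ∀ S, c S S = 1) :
    ∃ u : Finset ι → F, ∀ S : Finset ι, S.Nonempty →
      ∑ T ∈ S.powerset.erase ∅, c S T * u T = f S := by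
  let u : Finset ι → F := fun S => Finset.strongInduction (p := fun _ => F)
    (fun S ih => f S - ∑ T ∈ (S.ssubsets.erase ∅).attach,
      c S T.1 * ih T.1 (mem_ssubsets.1 (mem_of_mem_erase T.2))) S
  have hu : ∀ S, u S = f S - ∑ T ∈ S.ssubsets.erase ∅, c S T * u T := by
    intro S
    change Finset.strongInduction _ S = _
    rw [Finset.strongInduction_eq]
    congr 1
    rw [← Finset.sum_attach (S.ssubsets.erase ∅) (fun T => c S T * u T)]
  refine ⟨u, fun S hS => ?_⟩
  have h1 : S.powerset.erase ∅ = insert S (S.ssubsets.erase ∅) := by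
    ext T
    simp only [mem_erase, mem_powerset, mem_insert, mem_ssubsets]
    constructor
    · rintro ⟨h1, h2⟩
      rcases eq_or_ssubset_of_subset h2 with h | h
      · exact Or.inl h
      · exact Or.inr ⟨h1, h⟩
    · rintro (h | ⟨h1, h2⟩)
      · exact ⟨h ▸ hS.ne_empty, h ▸ Subset.refl _⟩
      · exact ⟨h1, h2.1⟩
  rw [h1, sum_insert (by simp [mem_ssubsets]), hc, one_mul, hu S]
  ring

/-- uniqueness of the solution of a recursion -/
lemma unique_sol (c : Finset ι → Finset ι → F) (hc : ∀ S, c S S = 1) (u : Finset ι → F)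
    (h : ∀ S : Finset ι, S.Nonempty → ∑ T ∈ S.powerset.erase ∅, c S T * u T = 0) :
    ∀ S : Finset ι, S.Nonempty → u S = 0 := by
  intro S
  induction S using Finset.strongInduction with
  | H S ih =>
    intro hS
    have h1 := h S hS
    rw [sum_eq_single_of_mem S (mem_erase.2 ⟨hS.ne_empty, mem_powerset_self S⟩)] at h1
    · rwa [hc, one_mul] at h1
    · intro T hT hne
      obtain ⟨h2, h3⟩ := mem_erase.1 hT
      rw [mem_powerset] at h3
      rw [ih T (h3.ssubset_of_ne hne) (nonempty_iff_ne_empty.2 h2), mul_zero]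

/-- the products -/
def Pn (g : ι → ι → F) (S T : Finset ι) : F := ∏ j ∈ S \ T, ∑ i ∈ T, g i j

lemma Pn_self (g : ι → ι → F) (S : Finset ι) : Pn g S S = 1 := by simp [Pn]

lemma D_empty [Fintype ι] (a : ι → ι → F) (b : ι → F) : D a b ∅ = 0 := by simp [D]

/-- the recursion for the sums of the minors -/
lemma rec_D [Fintype ι] (a : ι → ι → F) (b : ι → F) (e : F) (S : Finset ι) (hS : S.Nonempty) :
    ∑ T ∈ S.powerset.erase ∅, (∏ j ∈ S \ T, ∑ i ∈ T, a j i) * (-((-1) ^ T.card * (e * D a b T))) =
      if S.card = 1 then e * ∑ i ∈ S, b i else 0 := by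
  split_ifs with h
  · obtain ⟨i, rfl⟩ := card_eq_one.1 h
    have h1 : ({i} : Finset ι).powerset.erase ∅ = {{i}} := by
      ext T
      simp only [mem_erase, mem_powerset, mem_singleton, subset_singleton_iff]
      constructor
      · rintro ⟨h1, h2 | h2⟩
        · exact absurd h2 h1
        · exact h2
      · rintro rfl
        exact ⟨singleton_ne_empty i, Or.inr rfl⟩
    rw [h1, sum_singleton, sum_singleton, D_one]
    simp
  · have h2 : 2 ≤ S.card := by
      have := hS.card_pos
      omega
    have h3 := D_rec a b S h2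
    rw [← add_sum_erase _ _ (empty_mem_powerset S), D_empty, zero_mul, mul_zero, zero_add] at h3
    have h4 : ∑ T ∈ S.powerset.erase ∅,
        (∏ j ∈ S \ T, ∑ i ∈ T, a j i) * (-((-1) ^ T.card * (e * D a b T))) =
        -e * ∑ T ∈ S.powerset.erase ∅, (-1) ^ T.card * (D a b T * ∏ i ∈ S \ T, ∑ j ∈ T, a i j) := by
      rw [mul_sum]
      exact sum_congr rfl fun T _ => by ring
    rw [h4, h3, mul_zero]

/-- for symmetric `g` -/
lemma Pn_sym {g : ι → ι → F} (hg : ∀ i j, i ≠ j → g i j = g j i) (S T : Finset ι) :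
    Pn g S T = ∏ j ∈ S \ T, ∑ i ∈ T, g j i := by
  unfold Pn
  refine prod_congr rfl fun j hj => sum_congr rfl fun i hi => hg i j ?_
  rintro rfl
  exact (mem_sdiff.1 hj).2 hi

theorem s_C3 (hW : S_W3) : S_C3 := by
  intro ι _ hne _ g r y ε hg hε hr
  classical
  -- the value
  let C : ZMod 3 := if h : ∃ o, r o ≠ 0 then
    D (fun j i => g i j - r i / r h.choose * g h.choose j) (fun k => r h.choose * r k)
      (univ.erase h.choose) - D g y univ else - D g y univ
  have hC : C ≠ 0 ↔ Ker3 g r y := by
    by_cases h : ∃ o, r o ≠ 0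
    · have h1 : C = D (fun j i => g i j - r i / r h.choose * g h.choose j)
          (fun k => r h.choose * r k) (univ.erase h.choose) - D g y univ := dif_pos h
      rw [h1]
      exact F3.s_F3 ι g r y h.choose hg h.choose_spec hr
    · have h1 : C = - D g y univ := dif_neg h
      have h2 : r = fun _ => 0 := by
        push Not at h
        exact funext h
      rw [h1, h2, neg_ne_zero]
      exact F3.s_F3' ι g y hg
  refine ⟨C, hC, ?_⟩
  intro e B A m hB hnil hA hm
  have hPs : ∀ S T : Finset ι, (∏ j ∈ S \ T, ∑ i ∈ T, g i j) = ∏ j ∈ S \ T, ∑ i ∈ T, g j i :=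
    fun S T => Pn_sym hg S T
  have hsq : ∀ n : ℕ, ((-1 : ZMod 3) ^ n) * (-1) ^ n = 1 := by
    intro n
    rw [← mul_pow]
    norm_num
  -- the values `A`
  have hAD : ∀ T : Finset ι, T.Nonempty → A T = - D g r T := by
    have h1 := unique_sol (Pn g) (Pn_self g) (fun T => (-1) ^ T.card * A T -
      (-((-1) ^ T.card * (1 * D g r T)))) (fun S hS => by
        have h2 := hA S hS
        have h3 := rec_D g r 1 S hS
        simp only [mul_sub, sum_sub_distrib]
        have h4 : ∑ T ∈ S.powerset.erase ∅, Pn g S T * ((-1) ^ T.card * A T) =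
            if S.card = 1 then ∑ i ∈ S, r i else 0 := by
          rw [← h2]
          exact sum_congr rfl fun T _ => by unfold Pn; ring
        have h5 : ∑ T ∈ S.powerset.erase ∅, Pn g S T * (-((-1) ^ T.card * (1 * D g r T))) =
            if S.card = 1 then ∑ i ∈ S, r i else 0 := by
          rw [one_mul] at h3
          rw [← h3]
          exact sum_congr rfl fun T _ => by unfold Pn; rw [hPs]
        rw [h4, h5, sub_self])
    intro T hT
    have h2 := h1 T hT
    have h3 : (-1 : ZMod 3) ^ T.card * (A T + D g r T) = 0 := by linear_combination h2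
    have h4 := congrArg (fun z => (-1 : ZMod 3) ^ T.card * z) h3
    simp only [mul_zero] at h4
    rw [← mul_assoc, hsq, one_mul] at h4
    linear_combination h4
  obtain ⟨o0⟩ := hne
  have hne' : (univ : Finset ι).Nonempty := ⟨o0, mem_univ _⟩
  have hg' : Sym g := hg
  have hA0 : A univ = 0 := by
    rw [hAD univ hne']
    have h2 : D g r univ = (∑ i, r i) * w g univ o0 := by
      unfold D
      rw [sum_mul]
      exact sum_congr rfl fun k _ => by rw [w_eq hg' (mem_univ k) (mem_univ o0)]
    rw [h2, hr, zero_mul, neg_zero]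
  refine ⟨hA0, ?_⟩
  -- first order terms
  set h : Finset ι → ZMod 3 := fun T => -(e * ((-1) ^ T.card * A T)) with hh
  have hh1 : ∀ S : Finset ι, S.Nonempty →
      ∑ T ∈ S.powerset.erase ∅, (∏ j ∈ S \ T, ∑ i ∈ T, g i j) * h T =
        if S.card = 1 then -(e * ∑ i ∈ S, r i) else 0 := by
    intro S hS
    have h2 := hA S hS
    have h3 : ∑ T ∈ S.powerset.erase ∅, (∏ j ∈ S \ T, ∑ i ∈ T, g i j) * h T =
        -e * ∑ T ∈ S.powerset.erase ∅, (-1) ^ T.card * ((∏ j ∈ S \ T, ∑ i ∈ T, g i j) * A T) := by
      rw [mul_sum]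
      exact sum_congr rfl fun T _ => by rw [hh]; ring
    rw [h3, h2]
    split_ifs
    · ring
    · ring
  -- the second order solution
  obtain ⟨u, hu⟩ := exists_sol (Pn g) (fun S => B S (fun a => ∏ i ∈ S, a i) +
        (∑ T ∈ S.powerset.erase ∅, (∑ i ∈ S \ T, ε i * (∑ l ∈ T, g l i) ^ 2 *
          ∏ j ∈ (S \ T).erase i, ∑ l ∈ T, g l j) * h T) +
        if S.card = 2 then 2 * e * ∏ i ∈ S, r i else 0) (Pn_self g)
  -- the terms with `r`
  have hrr : ∀ S : Finset ι, S.Nonempty →
      ∑ T ∈ S.powerset.erase ∅, (∑ i ∈ S \ T, r i * ∏ j ∈ (S \ T).erase i, ∑ l ∈ T, g l j) * h T =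
        -(if S.card = 2 then 2 * e * ∏ i ∈ S, r i else 0) := by
    intro S hS
    have h1 : ∑ T ∈ S.powerset.erase ∅,
        (∑ i ∈ S \ T, r i * ∏ j ∈ (S \ T).erase i, ∑ l ∈ T, g l j) * h T =
        ∑ i ∈ S, r i * ∑ T ∈ (S.erase i).powerset.erase ∅,
          (∏ j ∈ (S.erase i) \ T, ∑ l ∈ T, g l j) * h T := by
      simp only [sum_mul, mul_sum]
      rw [sum_sigma', sum_sigma']
      refine sum_bij' (fun p _ => ⟨p.2, p.1⟩) (fun p _ => ⟨p.2, p.1⟩) ?_ ?_ ?_ ?_ ?_
      · rintro ⟨T, i⟩ hp
        simp only [mem_sigma, mem_erase, mem_powerset, mem_sdiff] at hp ⊢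
        obtain ⟨⟨h1, h2⟩, h3, h4⟩ := hp
        exact ⟨h3, h1, fun x hx => mem_erase.2 ⟨fun h => h4 (h ▸ hx), h2 hx⟩⟩
      · rintro ⟨i, T⟩ hp
        simp only [mem_sigma, mem_erase, mem_powerset, mem_sdiff] at hp ⊢
        obtain ⟨h1, h2, h3⟩ := hp
        exact ⟨⟨h2, fun x hx => mem_of_mem_erase (h3 hx)⟩, h1, fun hx => (mem_erase.1 (h3 hx)).1 rfl⟩
      · rintro ⟨T, i⟩ _; rfl
      · rintro ⟨i, T⟩ _; rfl
      · rintro ⟨T, i⟩ _
        simp only
        have h5 : (S \ T).erase i = S.erase i \ T := by
          ext x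
          simp only [mem_erase, mem_sdiff]
          tauto
        rw [h5, mul_assoc]
    rw [h1]
    by_cases h2 : S.card = 2
    · rw [if_pos h2]
      obtain ⟨a, b, hab, rfl⟩ := card_eq_two.1 h2
      rw [sum_pair hab, prod_pair hab]
      have e1 : ({a, b} : Finset ι).erase a = {b} := by
        ext x; simp only [mem_erase, mem_insert, mem_singleton]
        constructor
        · rintro ⟨h1, h2 | h2⟩
          · exact absurd h2 h1
          · exact h2
        · rintro rfl; exact ⟨hab.symm, Or.inr rfl⟩
      have e2 : ({a, b} : Finset ι).erase b = {a} := by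
        ext x; simp only [mem_erase, mem_insert, mem_singleton]
        constructor
        · rintro ⟨h1, h2 | h2⟩
          · exact h2
          · exact absurd h2 h1
        · rintro rfl; exact ⟨hab, Or.inl rfl⟩
      rw [e1, e2, hh1 {b} (singleton_nonempty b), hh1 {a} (singleton_nonempty a)]
      simp only [card_singleton, if_true, sum_singleton]
      ring
    · rw [if_neg h2, neg_zero]
      refine sum_eq_zero fun i hi => ?_
      rcases (S.erase i).eq_empty_or_nonempty with h3 | h3
      · rw [h3]; simp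
      · rw [hh1 _ h3, if_neg, mul_zero]
        rw [card_erase_of_mem hi]
        have := card_pos.2 hS
        omega
  -- the difference
  have hM : ∀ S : Finset ι, S.Nonempty →
      (-1) ^ S.card * m S - u S = -((-1) ^ S.card * (e * D g y S)) := by
    have h1 := unique_sol (Pn g) (Pn_self g) (fun T => ((-1) ^ T.card * m T - u T) -
      (-((-1) ^ T.card * (e * D g y T)))) (fun S hS => by
        have h2 := hm S hS
        have h3 := rec_D g y e S hS
        have h4 := hu S hS
        have h6 := hrr S hS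
        simp only [mul_sub, sum_sub_distrib]
        have h5 : ∑ T ∈ S.powerset.erase ∅, Pn g S T * (-((-1) ^ T.card * (e * D g y T))) =
            if S.card = 1 then e * ∑ i ∈ S, y i else 0 := by
          rw [← h3]
          exact sum_congr rfl fun T _ => by unfold Pn; rw [hPs]
        rw [h4, h5]
        have h7 : ∑ T ∈ S.powerset.erase ∅, (-1) ^ T.card * ((∏ j ∈ S \ T, ∑ i ∈ T, g i j) * m T +
            e * A T * ∑ i ∈ S \ T, (ε i * (∑ l ∈ T, g l i) ^ 2 - r i) *
              ∏ j ∈ (S \ T).erase i, ∑ l ∈ T, g l j) =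
            ∑ T ∈ S.powerset.erase ∅, Pn g S T * ((-1) ^ T.card * m T) -
            (∑ T ∈ S.powerset.erase ∅, (∑ i ∈ S \ T, ε i * (∑ l ∈ T, g l i) ^ 2 *
              ∏ j ∈ (S \ T).erase i, ∑ l ∈ T, g l j) * h T) +
            ∑ T ∈ S.powerset.erase ∅,
              (∑ i ∈ S \ T, r i * ∏ j ∈ (S \ T).erase i, ∑ l ∈ T, g l j) * h T := by
          rw [← sum_sub_distrib, ← sum_add_distrib]
          refine sum_congr rfl fun T _ => ?_
          have h8 : ∑ i ∈ S \ T, (ε i * (∑ l ∈ T, g l i) ^ 2 - r i) *
              ∏ j ∈ (S \ T).erase i, ∑ l ∈ T, g l j =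
              (∑ i ∈ S \ T, ε i * (∑ l ∈ T, g l i) ^ 2 * ∏ j ∈ (S \ T).erase i, ∑ l ∈ T, g l j) -
              ∑ i ∈ S \ T, r i * ∏ j ∈ (S \ T).erase i, ∑ l ∈ T, g l j := by
            rw [← sum_sub_distrib]
            exact sum_congr rfl fun i _ => by ring
          rw [h8]
          unfold Pn
          rw [hh]
          ring
        rw [h7, h6] at h2
        linear_combination h2)
    intro S hS
    linear_combination h1 S hS
  have hMu := hM univ hne'
  have hfin : u univ = (-1) ^ (univ : Finset ι).card * (e * (C + D g y univ)) := by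
    by_cases ho : ∃ o, r o ≠ 0
    · have hCe : C = D (fun j i => g i j - r i / r ho.choose * g ho.choose j)
          (fun k => r ho.choose * r k) (univ.erase ho.choose) - D g y univ := dif_pos ho
      set o := ho.choose with hodef
      have hro : r o ≠ 0 := ho.choose_spec
      set gt : ι → ι → ZMod 3 := fun j i => g i j - r i / r o * g o j with hgt
      set b : ι → ZMod 3 := fun k => r o * r k with hb
      have h1 := hW ι g r ε e B h u (fun T => -((-1) ^ T.card * (e * D gt b T))) o hg hε hB hro hr
        hh1 (fun S hS => hu S hS) (by simp [D_empty]) (fun S hS _ => by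
          have h2 := rec_D gt b e S hS
          have h3 : e * ∑ i ∈ S, b i = e * r o * ∑ i ∈ S, r i := by
            rw [hb, ← mul_sum]; ring
          rw [h3] at h2
          rw [← h2, ← add_sum_erase _ _ (empty_mem_powerset S)]
          rw [D_empty, mul_zero, mul_zero, neg_zero, mul_zero, zero_add])
      rw [h1, hCe, card_erase_of_mem (mem_univ o)]
      have hcard : (univ : Finset ι).card = ((univ : Finset ι).card - 1) + 1 := by
        have := card_pos.2 hne'
        omega
      rw [hcard]
      simp only [Nat.add_sub_cancel, pow_succ]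
      ring
    · have hCe : C = - D g y univ := dif_neg ho
      push Not at ho
      have hAz : ∀ T : Finset ι, T.Nonempty → A T = 0 := by
        intro T hT
        rw [hAD T hT, D]
        simp [ho]
      have hu0 := unique_sol (Pn g) (Pn_self g) u (fun S hS => by
        rw [hu S hS, hnil S hS (fun i _ => ho i)]
        have e1 : ∑ T ∈ S.powerset.erase ∅, (∑ i ∈ S \ T, ε i * (∑ l ∈ T, g l i) ^ 2 *
            ∏ j ∈ (S \ T).erase i, ∑ l ∈ T, g l j) * h T = 0 := by
          refine sum_eq_zero fun T hT => ?_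
          have : h T = 0 := by
            rw [hh]
            simp only
            rw [hAz T (nonempty_iff_ne_empty.2 (mem_erase.1 hT).1)]
            ring
          rw [this, mul_zero]
        have e2 : (if S.card = 2 then 2 * e * ∏ i ∈ S, r i else 0) = 0 := by
          split_ifs
          · obtain ⟨i, hi⟩ := hS
            rw [prod_eq_zero hi (ho i), mul_zero]
          · rfl
        rw [e1, e2]
        ring)
      rw [hu0 univ hne', hCe]
      ring
  have h9 : (-1 : ZMod 3) ^ (univ : Finset ι).card * (m univ - e * C) = 0 := by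
    linear_combination hMu + hfin
  have h10 := congrArg (fun z => (-1 : ZMod 3) ^ (univ : Finset ι).card * z) h9
  simp only [mul_zero] at h10
  rw [← mul_assoc, hsq, one_mul] at h10
  linear_combination h10

end Pool.Agent.Helper68.C7.C3
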