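import Pool.Agent.Helper68.C7.D7b
import Pool.Agent.Helper68.C6.SVKey
import Pool.Agent.Helper68.C6.SV
import Pool.Agent.Helper68.C6.SQ

/-!
# The law for the sets whose product is one modulo `3 √-3`

Part 3 of the module D7 (adapted from `Pool.Agent.Helper68.C6.SV`).
-/

set_option autoImplicit false

open scoped Classical
open Finset Filter

namespace Pool.Agent.Helper68.C7.D7

open Pool.Agent.Y692.QS (Ei w nr toC)
open Pool.Agent.Y715.T.Rec (cs)
open Pool.Agent.Y715.T.RecG (Pq)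
open Pool.Agent.Y703.CT (rq rq_mul ex_q)
open Pool.Agent.Y699.E (nrm QB PD prm)
open Pool.Agent.Y703.CX (jj XX eL zz kk eL_tendsto logX_eq rpow_eL HH NN ev_eL one_le_exp
  HH_ge HH_le HH_pos kk_ge kk_le X_pos one_add_log lin_le zz_ge zz_pos)
open Pool.Agent.Y703.CQ (Sml sml_of sml_add)
open Pool.Agent.Y703.XK (HB prs ext c9 sm la bl S_BIL S_EQ S_C9
  sml_eps kk_pos sml_main kap kap_nonneg kap_pow cmp)
open Pool.Agent.Y703.XL (cr cr_pos cr_le)
open Pool.Agent.Helper68.C3 (Bt SS RR Nd S_CNT S_FEW S_LOW S_BAD)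
open Pool.Agent.Helper68.C3.Asy3 (sml_many sml_cut sml_coll t_LOW)
open Pool.Agent.XLK (sm_union)
open Pool.Agent.Helper68.C6.SV (BoxN t_KEY)

/-- the class is a character modulo nine -/
theorem bt_rq : Bt rq := by
  refine ⟨fun a b ha hb => (rq_mul ha hb).2, ?_, ⟨4, ?_, by decide⟩⟩
  · intro a b ha hb hab
    obtain ⟨x, y, e, hr⟩ := ex_q ha
    obtain ⟨x', y', e', hr'⟩ := ex_q hb
    rw [hr, hr']
    obtain ⟨k, hk⟩ := hab
    have h3 : (3 : Ei) ≠ 0 := by decide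
    have h2 : (⟨x, y⟩ : Ei) = ⟨x', y'⟩ + 3 * k := by
      apply mul_left_cancel₀ h3
      rw [e, e'] at hk
      linear_combination hk
    have h4 : (3 : Ei) = ⟨3, 0⟩ := rfl
    rw [h4] at h2
    have hx := congrArg QuadraticAlgebra.re h2
    have hy := congrArg QuadraticAlgebra.im h2
    simp at hx hy
    rw [hx, hy, ← sub_eq_zero, ← Int.cast_sub, ZMod.intCast_zmod_eq_zero_iff_dvd]
    push_cast
    exact ⟨k.re + k.im, by ring⟩
  · exact ⟨1, by decide⟩

/-- the sets whose product is one modulo `3 √-3` -/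
noncomputable def S0 (X : ℕ) : Finset (Finset Ei) := (SS X).filter fun S => ∑ π ∈ S, rq π = 0

theorem rq_prod_of {S : Finset Ei} (h : ∀ π ∈ S, Pq π) :
    (3 : Ei) ∣ ∏ π ∈ S, π - 1 ∧ rq (∏ π ∈ S, π) = ∑ π ∈ S, rq π := by
  induction S using Finset.induction_on with
  | empty =>
    rw [Finset.prod_empty, sub_self, Finset.sum_empty]
    exact ⟨dvd_zero _, by decide⟩
  | insert i S hi ih =>
    have ih' := ih fun π hπ => h π (mem_insert_of_mem hπ)
    obtain ⟨h1, h2⟩ := rq_mul (h i (mem_insert_self _ _)).three ih'.1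
    rw [Finset.prod_insert hi, Finset.sum_insert hi]
    refine ⟨h1, ?_⟩
    rw [h2, ih'.2]

theorem low0 : ∃ (c : ℝ) (X₀ : ℕ), 0 < c ∧ ∀ X : ℕ, X₀ ≤ X → c * X ≤ ((S0 X).card : ℝ) := by
  obtain ⟨c, hc, h⟩ := Pool.Agent.Helper68.C6.SQ.s_SQD
  have h1 := h 1 (by rw [sub_self]; exact dvd_zero _)
  have h2 : ∀ᶠ X : ℕ in atTop, c / 2 < (((SS X).filter fun S =>
      (9 : Ei) ∣ (∏ π ∈ S, π) - 1).card : ℝ) / (X : ℝ) :=
    h1.eventually (lt_mem_nhds (by linarith))
  obtain ⟨X₀, h3⟩ := eventually_atTop.1 h2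
  refine ⟨c / 2, X₀ + 1, by positivity, fun X hX => ?_⟩
  have hX0 : (0 : ℝ) < X := by
    have : 0 < X := by omega
    exact_mod_cast this
  have h4 := h3 X (by omega)
  rw [lt_div_iff₀ hX0] at h4
  refine h4.le.trans ?_
  have h5 : ((SS X).filter fun S => (9 : Ei) ∣ (∏ π ∈ S, π) - 1) ⊆ S0 X := by
    intro S hS
    rw [mem_filter] at hS
    unfold S0
    rw [mem_filter]
    refine ⟨hS.1, ?_⟩
    obtain ⟨h6, -⟩ := Pool.Agent.Helper68.C3.Cnt3.SS_pr hS.1
    obtain ⟨h7, h8⟩ := rq_prod_of h6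
    rw [← h8, bt_rq.per _ 1 h7 (by unfold prm; rw [sub_self]; exact dvd_zero _) hS.2]
    decide
  exact_mod_cast card_le_card h5

/-- the sets outside the regular part -/
theorem out_sub0 (X z H k V : ℕ) :
    S0 X \ ((RR X z H k (V + 1)).filter fun S => W7 (sm z S) (la z S)) ⊆
      (((((SS X).filter fun S => k < S.card) ∪
      ((SS X).filter fun S => S.card ≤ k ∧
        X < (∏ π ∈ sm z S, nrm π) * ∏ π ∈ la z S, XX H (bl H π))) ∪
      ((SS X).filter fun S => ¬ Set.InjOn (bl H) (la z S : Set Ei))) ∪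
      ((SS X).filter fun S => S.card ≤ k ∧ (la z S).card ≤ (sm z S).card + (V + 2))) ∪
      ((SS X).filter fun S => S.card ≤ k ∧ ¬ Nd rq (sm z S) (la z S)) := by
  intro S hS
  rw [Finset.mem_sdiff, Finset.mem_filter] at hS
  obtain ⟨h1', h2⟩ := hS
  unfold S0 at h1'
  rw [mem_filter] at h1'
  obtain ⟨h1, h0⟩ := h1'
  simp only [mem_union, mem_filter]
  by_contra hc
  push Not at hc
  obtain ⟨⟨⟨⟨c1, c2⟩, c3⟩, c4⟩, c5⟩ := hc
  have d1 : S.card ≤ k := c1 h1
  have d2 := c2 h1 d1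
  have d3 := c3 h1
  have d4 := c4 h1 d1
  have d5 := c5 h1 d1
  apply h2
  refine ⟨?_, d5, ?_⟩
  · unfold RR
    rw [mem_filter]
    exact ⟨h1, d3, d1, d2, by omega⟩
  · rw [sm_union]
    exact h0

/-- the number of the solutions -/
def G7 (r : ℕ) (S : Finset Ei) : Prop := n7 S = 3 ^ (r + 1)

theorem t_D7 (h1 : S_BIL) (hBx : ∀ r : ℕ, BoxN W7 (G7 r) (cr r) (3 ^ (r + 1)))
    (hC : S_CNT) (hB : S_BAD rq) (hF : S_FEW) (hc9 : S_C9) (r : ℕ) :
    Tendsto (fun X : ℕ => (((S0 X).filter (G7 r)).card : ℝ) / ((S0 X).card : ℝ))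
      atTop (nhds (cr r)) := by
  obtain ⟨C, hC1, hkey⟩ := t_KEY h1 (by positivity) (hBx r)
  obtain ⟨D, hD⟩ := hC
  obtain ⟨c, X₀, hc, hlow⟩ := low0
  rw [Metric.tendsto_nhds]
  intro ε hε
  obtain ⟨K, hKd⟩ : ∃ K : ℝ, K = 3 ^ (r + 1) := ⟨_, rfl⟩
  have hKp : 0 < K := by rw [hKd]; positivity
  have hD1 : (1 : ℝ) ≤ D := hD.one
  have hD0 : (0 : ℝ) < D := by linarith
  obtain ⟨V, hV⟩ := exists_pow_lt_of_lt_one (show (0 : ℝ) < c * ε / (2 * (K * D)) by positivity)
    (show (1 / 3 : ℝ) < 1 by norm_num)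
  have s1 := sml_many hD
  have s2 := sml_cut hD
  have s3 := sml_coll hD
  have s4 := sml_eps (hF (V + 2))
  have s5 := sml_eps hB
  have s6 := sml_main hC1
  have s := sml_add (sml_add (sml_add (sml_add (sml_add s1 s2) s3) s4) s5) s6
  have hδ : (0 : ℝ) < c * ε / 4 := by positivity
  filter_upwards [s (c * ε / 4) hδ, ev_eL 1, eventually_ge_atTop X₀] with X hX hl hX0
  rw [neg_zero, zero_mul, Real.exp_zero, mul_one] at hX
  have hl0 : 0 < eL X := by linarith
  have hlo := hlow X hX0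
  have hXp := X_pos hl0
  have hXp' : (0 : ℝ) < X := by exact_mod_cast hXp
  have hSpos : (0 : ℝ) < ((S0 X).card : ℝ) := by
    refine lt_of_lt_of_le ?_ hlo
    positivity
  have hN : (HH X : ℝ) * Real.log X < NN X := by
    unfold NN
    push_cast
    exact Nat.lt_floor_add_one _
  have hmain := hkey X (zz X) (HH X) (kk X) V (NN X) (kap C X) hXp (HH_pos hl0) (zz_pos hl)
    (kap_nonneg hC1 X) (kap_pow hC1 hl) hN
  set T := (RR X (zz X) (HH X) (kk X) (V + 1)).filter fun S => W7 (sm (zz X) S) (la (zz X) S) with hT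
  have hTG : (RR X (zz X) (HH X) (kk X) (V + 1)).filter
      (fun S => W7 (sm (zz X) S) (la (zz X) S) ∧ G7 r S) = T.filter (G7 r) := by
    rw [hT, filter_filter]
  rw [hTG] at hmain
  have hTS : T ⊆ S0 X := by
    intro S hS
    rw [hT, mem_filter] at hS
    obtain ⟨h2, -, h3⟩ := hS
    rw [sm_union] at h3
    unfold RR at h2
    rw [mem_filter] at h2
    unfold S0
    rw [mem_filter]
    exact ⟨h2.1, h3⟩
  have hRS : ((RR X (zz X) (HH X) (kk X) (V + 1)).card : ℝ) ≤ D * X := by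
    refine le_trans ?_ (hD.all X hXp)
    exact_mod_cast card_le_card (filter_subset _ _)
  have hcmp := cmp (G7 r) T (S0 X) hTS (cr r) (cr_pos hc9 r).le (cr_le hc9 r)
  have hout : ((S0 X \ T).card : ℝ) ≤
      ((((SS X).filter fun S => kk X < S.card).card : ℝ) +
      (((SS X).filter fun S => S.card ≤ kk X ∧
        X < (∏ π ∈ sm (zz X) S, nrm π) * ∏ π ∈ la (zz X) S, XX (HH X) (bl (HH X) π)).card : ℝ) +
      (((SS X).filter fun S => ¬ Set.InjOn (bl (HH X)) (la (zz X) S : Set Ei)).card : ℝ) +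
      (((SS X).filter fun S => S.card ≤ kk X ∧
        (la (zz X) S).card ≤ (sm (zz X) S).card + (V + 2)).card : ℝ)) +
      (((SS X).filter fun S => S.card ≤ kk X ∧ ¬ Nd rq (sm (zz X) S) (la (zz X) S)).card : ℝ) := by
    have g := card_le_card (out_sub0 X (zz X) (HH X) (kk X) V)
    rw [← hT] at g
    have g2 := (g.trans (card_union_le _ _)).trans (Nat.add_le_add_right ((card_union_le _ _).trans
      (Nat.add_le_add_right ((card_union_le _ _).trans
      (Nat.add_le_add_right (card_union_le _ _) _)) _)) _)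
    exact_mod_cast g2
  rw [← hKd] at hmain
  have htot : |(((S0 X).filter (G7 r)).card : ℝ) - cr r * ((S0 X).card : ℝ)| ≤
      K * (1 / 3 : ℝ) ^ V * (D * X) + c * ε / 4 * X := by
    have g1 : K * (1 / 3 : ℝ) ^ V * ((RR X (zz X) (HH X) (kk X) (V + 1)).card : ℝ) ≤
        K * (1 / 3 : ℝ) ^ V * (D * X) := mul_le_mul_of_nonneg_left hRS (by positivity)
    linarith
  rw [Real.dist_eq]
  have e3 : (((S0 X).filter (G7 r)).card : ℝ) / ((S0 X).card : ℝ) - cr r =
      ((((S0 X).filter (G7 r)).card : ℝ) - cr r * ((S0 X).card : ℝ)) /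
        ((S0 X).card : ℝ) := by
    field_simp
  rw [e3, abs_div, abs_of_pos hSpos, div_lt_iff₀ hSpos]
  refine lt_of_le_of_lt htot ?_
  have g3 : K * (1 / 3 : ℝ) ^ V * (D * X) ≤ K * (c * ε / (2 * (K * D))) * (D * X) := by
    gcongr
  have g5 : K * (c * ε / (2 * (K * D))) * (D * X) = ε / 2 * (c * X) := by
    field_simp
  rw [g5] at g3
  have g2 : c * ε / 4 * X = ε / 4 * (c * X) := by ring
  have g6 : ε * (c * X) ≤ ε * ((S0 X).card : ℝ) := mul_le_mul_of_nonneg_left hlo hε.le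
  have g4 : 0 < ε * (c * X) := by positivity
  linarith

/-- **the law** -/
theorem s_D7 : S_D7 := by
  intro r
  have h := t_D7 Pool.Agent.Y363.XK.t_BIL
    (fun r => t_BOX Pool.Agent.Y710.XK.t_EQ Pool.Agent.Y703.XL.t_LA r)
    Pool.Agent.Helper68.C3.Cnt3.t_CNT (Pool.Agent.Helper68.C3.Few3.t_BAD bt_rq)
    Pool.Agent.Helper68.C3.Few3.t_FEW Pool.Agent.Y703.XL.t_C9 r
  refine h.congr fun X => ?_
  unfold S0 G7
  rw [filter_filter]
  congr!

end Pool.Agent.Helper68.C7.D7
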