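import Pool.Agent.Helper68.C7.StT
import Pool.Agent.Helper68.C6.PT

/-!
# Moments of a function on the residue classes, the last class (proof of S_T3, written by seat
helper55; the first lemmas are adapted from C6/PT.lean of seat helper48)
-/

set_option autoImplicit false
set_option linter.unusedSectionVars false

open Finset

namespace Pool.Agent.Helper68.C7.T3

open H667R3 Pool.Agent.TH936.CM Pool.Agent.TH936.PU
open Pool.Agent.Y715.Dist Pool.Agent.Y715.Idn Pool.Agent.Y696 Pool.Agent.Helper68.C6
open Pool.Agent.Helper68.C6.PT (Sk_eq Sk_congr Sk_shift Sk_mul Sk_div Sk_bij Tk_def Tk_congr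
  Tk_add Tk_mul_left Tk_sum cop_per Tk_bij omr_cop)

/-! ### sums over the orbits of a permutation of order three -/

lemma sum_orb {α M : Type*} [DecidableEq α] [AddCommMonoid M] (σ : α → α) (f : α → M) :
    ∀ (n : ℕ) (A : Finset α), A.card = n → (∀ x ∈ A, σ x ∈ A) → (∀ x ∈ A, σ (σ (σ x)) = x) →
      (∀ x ∈ A, σ x ≠ x) → (∀ x ∈ A, f x + f (σ x) + f (σ (σ x)) = 0) → ∑ x ∈ A, f x = 0 := by
  intro n
  induction n using Nat.strong_induction_on with
  | _ n ih =>
    intro A hA h1 h3 hne hf
    rcases A.eq_empty_or_nonempty with rfl | ⟨x, hx⟩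
    · simp
    have hx1 := h1 x hx
    have hx2 := h1 _ hx1
    have n1 : σ x ≠ x := hne x hx
    have n2 : σ (σ x) ≠ σ x := hne _ hx1
    have n3 : σ (σ x) ≠ x := by
      intro h
      have := h3 x hx
      rw [h] at this
      exact n1 this
    set B : Finset α := {x, σ x, σ (σ x)} with hB
    have hBA : B ⊆ A := by
      intro y hy
      simp only [hB, mem_insert, mem_singleton] at hy
      rcases hy with rfl | rfl | rfl <;> assumption
    have hsB : ∑ y ∈ B, f y = 0 := by
      rw [hB, sum_insert, sum_insert, sum_singleton, ← add_assoc]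
      · exact hf x hx
      · simp only [mem_singleton]; exact n2.symm
      · simp only [mem_insert, mem_singleton, not_or]; exact ⟨n1.symm, n3.symm⟩
    have hcard : (A \ B).card < n := by
      rw [← hA]
      apply card_lt_card
      refine ⟨sdiff_subset, fun h => ?_⟩
      have := h hx
      rw [mem_sdiff] at this
      exact this.2 (by simp [hB])
    have := ih _ hcard (A \ B) rfl ?_ (fun y hy => h3 y (mem_sdiff.1 hy).1)
      (fun y hy => hne y (mem_sdiff.1 hy).1) (fun y hy => hf y (mem_sdiff.1 hy).1)
    · rw [← sum_sdiff hBA, this, hsB, add_zero]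
    · intro y hy
      obtain ⟨hyA, hyB⟩ := mem_sdiff.1 hy
      refine mem_sdiff.2 ⟨h1 y hyA, fun h => hyB ?_⟩
      have hy3 := h3 y hyA
      have hx3 := h3 x hx
      simp only [hB, mem_insert, mem_singleton] at h ⊢
      rcases h with h | h | h
      · rw [h] at hy3
        right; right; exact hy3.symm
      · rw [h, hx3] at hy3
        left; exact hy3.symm
      · rw [h, hx3] at hy3
        right; left; exact hy3.symm

/-- functions whose sums over the orbits of the cube root of unity vanish -/
lemma Tk_orb {K : Type} [Field K] {c : eis} (hfin : Finite (eis ⧸ Pool.Agent.W192.HK.sp c)) {F : eis → K}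
    (hF : ∀ x z : eis, x - z ∈ Pool.Agent.W192.HK.sp c → F x = F z)
    (hne : ∀ x, IsCoprime x c → omr * x - x ∉ Pool.Agent.W192.HK.sp c)
    (h0 : ∀ x, IsCoprime x c → F x + F (omr * x) + F (omr ^ 2 * x) = 0) : Tk c F = 0 := by
  classical
  have : Fintype (eis ⧸ Pool.Agent.W192.HK.sp c) := Fintype.ofFinite _
  have hG : ∀ x z : eis, x - z ∈ Pool.Agent.W192.HK.sp c →
      (if IsCoprime x c then F x else 0) = if IsCoprime z c then F z else 0 := by
    intro x z h
    rw [hF x z h]
    by_cases hx : IsCoprime x c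
    · rw [if_pos hx, if_pos ((cop_per h).1 hx)]
    · rw [if_neg hx, if_neg (fun h' => hx ((cop_per h).2 h'))]
  unfold Tk
  rw [Sk_eq]
  rw [← Finset.sum_filter (fun z : eis ⧸ Pool.Agent.W192.HK.sp c => IsCoprime z.out c) (fun z => F z.out)]
  have hcw : ∀ x : eis, IsCoprime x c → IsCoprime (omr * x) c := fun x hx =>
    (omr_cop c).mul_left hx
  set W : eis ⧸ Pool.Agent.W192.HK.sp c := Ideal.Quotient.mk (Pool.Agent.W192.HK.sp c) omr with hW
  have hW3 : W * (W * W) = 1 := by
    rw [hW, ← map_mul, ← map_mul, ← map_one (Ideal.Quotient.mk (Pool.Agent.W192.HK.sp c))]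
    congr 1
    linear_combination omr_cube
  have hout : ∀ z : eis ⧸ Pool.Agent.W192.HK.sp c, (W * z).out - omr * z.out ∈ Pool.Agent.W192.HK.sp c := by
    intro z
    rw [← Ideal.Quotient.mk_eq_mk_iff_sub_mem, Ideal.Quotient.mk_out, map_mul,
      Ideal.Quotient.mk_out]
  refine sum_orb (fun z : eis ⧸ Pool.Agent.W192.HK.sp c => W * z) (fun z => F z.out) _ _ rfl ?_ ?_ ?_ ?_
  · intro z hz
    simp only [mem_filter, mem_univ, true_and] at hz ⊢
    exact (cop_per (hout _)).2 (hcw _ hz)
  · intro z hz
    show W * (W * (W * z)) = z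
    linear_combination z * hW3
  · intro z hz h
    simp only [mem_filter, mem_univ, true_and] at hz
    apply hne _ hz
    rw [← Ideal.Quotient.mk_eq_mk_iff_sub_mem, map_mul, Ideal.Quotient.mk_out]
    exact h
  · intro z hz
    simp only [mem_filter, mem_univ, true_and] at hz
    show F z.out + F (W * z).out + F (W * (W * z)).out = 0
    have h2 : (W * (W * z)).out - omr ^ 2 * z.out ∈ Pool.Agent.W192.HK.sp c := by
      have e1 : (W * (W * z)).out - omr ^ 2 * z.out =
          ((W * (W * z)).out - omr * (W * z).out) + omr * ((W * z).out - omr * z.out) := by ring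
      rw [e1]
      exact add_mem (hout _) (Ideal.mul_mem_left _ _ (hout z))
    rw [hF _ _ (hout z), hF _ _ h2]
    exact h0 _ hz

section main

variable {ι : Type} [Fintype ι] [DecidableEq ι] {π : ι → eis} {l : ι → eis → ZMod 3}
  {g : ι → ι → ZMod 3} {r ε : ι → ZMod 3} {e : ZMod 3} {U : Finset ι → eis → ZMod 3}
  (hW : Wd3 π l g r ε e U) (hfin : ∀ q : eis, q ≠ 0 → Finite (eis ⧸ Pool.Agent.W192.HK.sp q))

include hW

lemma cop_iff (i : ι) (x : eis) : IsCoprime x (π i) ↔ x ∉ Pool.Agent.W192.HK.sp (π i) := by
  constructor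
  · rintro ⟨u, w, huw⟩ h
    apply (hW.max i).ne_top
    rw [Ideal.eq_top_iff_one, ← huw]
    exact add_mem (Ideal.mul_mem_left _ _ h) (Ideal.mul_mem_left _ _ (Ideal.mem_span_singleton_self _))
  · intro h
    have h2 := (Ideal.isMaximal_iff.1 (hW.max i)).2 (Pool.Agent.W192.HK.sp (π i) ⊔ Pool.Agent.W192.HK.sp x) x le_sup_left h
      (Ideal.mem_sup_right (Ideal.mem_span_singleton_self x))
    rw [Submodule.mem_sup] at h2
    obtain ⟨a, ha, b, hb, hab⟩ := h2
    rw [Ideal.mem_span_singleton'] at ha hb
    obtain ⟨u, rfl⟩ := ha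
    obtain ⟨w, rfl⟩ := hb
    exact ⟨w, u, by linear_combination hab⟩

lemma cop_cc (S : Finset ι) (x : eis) : IsCoprime x (cc π S) ↔ ∀ i ∈ S, x ∉ Pool.Agent.W192.HK.sp (π i) := by
  unfold cc
  rw [IsCoprime.prod_right_iff]
  exact forall₂_congr fun i _ => cop_iff hW i x

lemma cc_ne (S : Finset ι) : cc π S ≠ 0 := Finset.prod_ne_zero_iff.2 fun i _ => hW.ne i

lemma pi_cop {i : ι} {S : Finset ι} (hi : i ∉ S) : IsCoprime (π i) (cc π S) :=
  IsCoprime.prod_right fun j hj => hW.cop i j (fun e => hi (e ▸ hj))

lemma omr_notMem (i : ι) : omr ∉ Pool.Agent.W192.HK.sp (π i) := (cop_iff hW i omr).1 (omr_cop _)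

lemma pi_notMem (i j : ι) (hij : i ≠ j) : π j ∉ Pool.Agent.W192.HK.sp (π i) :=
  (cop_iff hW i (π j)).1 (hW.cop i j hij).symm

/-- the orbits of the root of unity have three elements -/
lemma om_ne {S : Finset ι} (hS : S.Nonempty) (x : eis) (hx : IsCoprime x (cc π S)) :
    omr * x - x ∉ Pool.Agent.W192.HK.sp (cc π S) := by
  obtain ⟨i, hi⟩ := hS
  intro h
  have h1 : (omr - 1) * x ∈ Pool.Agent.W192.HK.sp (π i) := by
    have h2 := cc_mem hi h
    have e1 : (omr - 1) * x = omr * x - x := by ring
    rw [e1]
    exact h2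
  have h3 := ((hW.max i).isPrime.mem_or_mem h1).resolve_right ((cop_cc hW S x).1 hx i hi)
  apply (cop_iff hW i (3 : eis)).1 (hW.three i)
  have h4 : (3 : eis) = -(omr ^ 2 * (omr - 1)) * (omr - 1) := by
    linear_combination (omr ^ 2 - 3 * omr + 3) * omr_sq
  rw [h4]
  exact Ideal.mul_mem_left _ _ h3

lemma res_per {S : Finset ι} (p : (ι → ZMod 3) → ZMod 3) {x y : eis}
    (h : x - y ∈ Pool.Agent.W192.HK.sp (cc π S)) :
    p (fun i => if i ∈ S then l i x else 0) = p (fun i => if i ∈ S then l i y else 0) := by
  congr 1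
  funext i
  split_ifs with hi
  · exact hW.lper i x y (cc_mem hi h)
  · rfl

include hfin

/-- one more prime -/
lemma TT_insert {S : Finset ι} (hS : S.Nonempty) {j : ι} (hj : j ∉ S) {h : eis → ZMod 3}
    (hh : ∀ x y, x - y ∈ Pool.Agent.W192.HK.sp (cc π S) → h x = h y) :
    Tk (cc π (insert j S)) (fun x => h x * U (insert j S) x) =
      Tk (cc π S) (fun x => h x * U S x) - ε j * r j * e * Tk (cc π S) h -
        Tk (cc π S) (fun x => h (π j * x) * U S x) := by
  classical
  have hpc := pi_cop hW hj
  have hc := cc_ne hW S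
  have ha := hW.ne j
  rw [cc_insert hj]
  set F : eis → ZMod 3 := fun x => if IsCoprime x (cc π S) then h x * U (insert j S) x else 0 with hF
  have hFp : ∀ x y, x - y ∈ Pool.Agent.W192.HK.sp (π j * cc π S) → F x = F y := by
    intro x y hxy
    have h1 : x - y ∈ Pool.Agent.W192.HK.sp (cc π S) := sp_mul_le hxy
    simp only [hF]
    rw [hh x y h1, hW.uper (insert j S) x y (by rw [cc_insert hj]; exact hxy)]
    by_cases hx : IsCoprime x (cc π S)
    · rw [if_pos hx, if_pos ((cop_per h1).1 hx)]
    · rw [if_neg hx, if_neg (fun h' => hx ((cop_per h1).2 h'))]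
  have e1 : Tk (π j * cc π S) (fun x => h x * U (insert j S) x) =
      Sk (π j * cc π S) F - Sk (π j * cc π S) (fun x => if x ∈ Pool.Agent.W192.HK.sp (π j) then F x else 0) := by
    rw [Tk_def]
    unfold Sk
    rw [← Finset.sum_sub_distrib]
    refine Finset.sum_congr rfl fun x _ => ?_
    simp only [hF]
    by_cases hx : x ∈ Pool.Agent.W192.HK.sp (π j)
    · have h1 : ¬ IsCoprime x (π j * cc π S) := fun h' =>
        (cop_iff hW j x).1 h'.of_mul_right_left hx
      rw [if_neg h1, if_pos hx, sub_self]
    · rw [if_neg hx, sub_zero]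
      by_cases hx' : IsCoprime x (cc π S)
      · rw [if_pos hx', if_pos (((cop_iff hW j x).2 hx).mul_right hx')]
      · rw [if_neg hx', if_neg (fun h' => hx' h'.of_mul_right_right)]
  rw [e1, Sk_mul hc hfin ha hFp, Sk_div hc hfin ha hFp, Tk_def, Tk_def, Tk_def]
  congr 1
  · rw [Finset.mul_sum, ← Finset.sum_sub_distrib]
    unfold Sk
    refine Finset.sum_congr rfl fun x _ => ?_
    have h2 : ∀ t, F (x + cc π S * t) = if IsCoprime x (cc π S) then
        h x * U (insert j S) (x + cc π S * t) else 0 := by
      intro t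
      have h1 : x + cc π S * t - x ∈ Pool.Agent.W192.HK.sp (cc π S) :=
        Ideal.mem_span_singleton'.2 ⟨t, by ring⟩
      simp only [hF]
      rw [hh _ x h1]
      by_cases hx : IsCoprime x (cc π S)
      · rw [if_pos hx, if_pos ((cop_per h1).2 hx)]
      · rw [if_neg hx, if_neg (fun h' => hx ((cop_per h1).1 h'))]
    simp only [h2]
    by_cases hx : IsCoprime x (cc π S)
    · simp only [if_pos hx]
      rw [← Finset.mul_sum]
      have h3 : ∑ t ∈ rp (π j), U (insert j S) (x + cc π S * t) = U S x - ε j * r j * e :=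
        hW.udist S j x hS hj hx
      rw [h3]
      ring
    · simp only [if_neg hx, mul_zero, sub_zero]
      exact Finset.sum_const_zero
  · unfold Sk
    refine Finset.sum_congr rfl fun x _ => ?_
    simp only [hF]
    by_cases hx : IsCoprime x (cc π S)
    · rw [if_pos hx, if_pos (hpc.mul_left hx), hW.uemb S j x hS hj hx]
    · rw [if_neg hx, if_neg (fun h' => hx h'.of_mul_left_right)]

omit hfin in
/-- an element which changes only the logarithm at one prime -/
lemma ex_y {S : Finset ι} {i : ι} : ∃ y, IsCoprime y (cc π S) ∧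
    (∀ j ∈ S, j ≠ i → ∀ x, l j (y * x) = l j x) ∧
    ∀ x, x ∉ Pool.Agent.W192.HK.sp (π i) → l i (y * x) = l i x + 1 := by
  obtain ⟨y0, hy0, hl⟩ := hW.lsurj i
  obtain ⟨u, w, huw⟩ := pi_cop hW (Finset.notMem_erase i S)
  have hmem : ∀ j ∈ S, j ≠ i → u * π i + w * cc π (S.erase i) * y0 - 1 ∈ Pool.Agent.W192.HK.sp (π j) := by
    intro j hj hji
    have h1 : cc π (S.erase i) ∈ Pool.Agent.W192.HK.sp (π j) :=
      cc_mem (Finset.mem_erase.2 ⟨hji, hj⟩) (Ideal.mem_span_singleton_self _)
    have h2 : u * π i + w * cc π (S.erase i) * y0 - 1 = (w * (y0 - 1)) * cc π (S.erase i) := by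
      linear_combination huw
    rw [h2]
    exact Ideal.mul_mem_left _ _ h1
  have hmem' : u * π i + w * cc π (S.erase i) * y0 - y0 ∈ Pool.Agent.W192.HK.sp (π i) := by
    have h2 : u * π i + w * cc π (S.erase i) * y0 - y0 = (u * (1 - y0)) * π i := by
      linear_combination y0 * huw
    rw [h2]
    exact Ideal.mul_mem_left _ _ (Ideal.mem_span_singleton_self _)
  set y := u * π i + w * cc π (S.erase i) * y0 with hy
  have hyi : y ∉ Pool.Agent.W192.HK.sp (π i) := by
    intro h
    have := sub_mem h hmem'
    rw [sub_sub_cancel] at this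
    exact hy0 this
  refine ⟨y, (cop_cc hW S y).2 fun j hj => ?_, fun j hj hji x => ?_, fun x hx => ?_⟩
  · by_cases hji : j = i
    · rw [hji]; exact hyi
    · intro h
      have h1 := sub_mem h (hmem j hj hji)
      rw [sub_sub_cancel] at h1
      exact (hW.max j).ne_top ((Ideal.eq_top_iff_one _).2 h1)
  · apply hW.lper
    have h1 : y * x - x = x * (y - 1) := by ring
    rw [h1]
    exact Ideal.mul_mem_left _ _ (hmem j hj hji)
  · rw [hW.lmul i y x hyi hx, hW.lper i y y0 hmem', hl, add_comm]

/-- the values of the logarithm are equidistributed -/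
lemma Z1 (k : ι) (f : ZMod 3 → ZMod 3) :
    Tk (π k) (fun x => f (l k x)) = -(ε k * r k) * ∑ b, f b := by
  classical
  obtain ⟨m, hm, hmr⟩ := hW.card k
  have hf : Finite (eis ⧸ Pool.Agent.W192.HK.sp (π k)) := hfin _ (hW.ne k)
  have : Fintype (eis ⧸ Pool.Agent.W192.HK.sp (π k)) := Fintype.ofFinite _
  obtain ⟨y, hy, hy1⟩ := hW.lsurj k
  have hyc : IsCoprime (π k) y := ((cop_iff hW k y).2 hy).symm
  let N : ZMod 3 → ℕ := fun a => Sk (π k) (fun x => if IsCoprime x (π k) ∧ l k x = a then 1 else 0)
  have hN : ∀ a b : ZMod 3, a = b + 1 → N a = N b := by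
    intro a b hab
    have h4 := Sk_bij (M := ℕ) hf hyc
      (F := fun x => if IsCoprime x (π k) ∧ l k x = a then 1 else 0) (by
        intro x z hxz
        show (if IsCoprime x (π k) ∧ l k x = a then 1 else 0) =
          if IsCoprime z (π k) ∧ l k z = a then 1 else 0
        rw [hW.lper k x z hxz]
        simp only [cop_per hxz])
    refine Eq.trans h4.symm ?_
    refine Sk_congr fun x => ?_
    have h5 : (IsCoprime (y * x) (π k) ∧ l k (y * x) = a) ↔ (IsCoprime x (π k) ∧ l k x = b) := by
      constructor
      · rintro ⟨h6, h7⟩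
        have h8 : IsCoprime x (π k) := h6.of_mul_left_right
        rw [hW.lmul k y x hy ((cop_iff hW k x).1 h8), hy1, hab] at h7
        exact ⟨h8, by linear_combination h7⟩
      · rintro ⟨h6, h7⟩
        refine ⟨hyc.symm.mul_left h6, ?_⟩
        rw [hW.lmul k y x hy ((cop_iff hW k x).1 h6), hy1, hab, h7, add_comm]
    simp only [h5]
  have hN1 : N 1 = N 0 := hN 1 0 (by decide)
  have hN2 : N 2 = N 1 := hN 2 1 (by decide)
  -- the total number
  have hone : Sk (π k) (fun x => if x ∈ Pool.Agent.W192.HK.sp (π k) then 1 else 0) = (1 : ℕ) := by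
    rw [Sk_eq]
    have h6 : ∀ z : eis ⧸ Pool.Agent.W192.HK.sp (π k), z.out ∈ Pool.Agent.W192.HK.sp (π k) ↔ z = 0 := by
      intro z
      rw [← Ideal.Quotient.eq_zero_iff_mem, Ideal.Quotient.mk_out]
    simp only [h6]
    rw [Finset.sum_ite_eq', if_pos (Finset.mem_univ _)]
  have hall : Sk (π k) (fun _ => (1 : ℕ)) = 3 * m + 1 := by
    rw [Sk_eq, ← hm, Nat.card_eq_fintype_card]
    simp
  have hz : ∀ a : ZMod 3, a = 0 ∨ a = 1 ∨ a = 2 := by decide
  have h01 : (0 : ZMod 3) ≠ 1 := by decide
  have h02 : (0 : ZMod 3) ≠ 2 := by decide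
  have h12 : (1 : ZMod 3) ≠ 2 := by decide
  have hsum' : N 0 + N 1 + N 2 + Sk (π k) (fun x => if x ∈ Pool.Agent.W192.HK.sp (π k) then 1 else 0) =
      Sk (π k) (fun _ => (1 : ℕ)) := by
    simp only [N]
    unfold Sk
    rw [← Finset.sum_add_distrib, ← Finset.sum_add_distrib, ← Finset.sum_add_distrib]
    refine Finset.sum_congr rfl fun x _ => ?_
    by_cases hx : x ∈ Pool.Agent.W192.HK.sp (π k)
    · have hx' : ¬ IsCoprime x (π k) := fun h => (cop_iff hW k x).1 h hx
      simp [hx, hx']
    · have hx' : IsCoprime x (π k) := (cop_iff hW k x).2 hx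
      rcases hz (l k x) with h | h | h
      · simp [hx, hx', h, h01, h02]
      · simp [hx, hx', h, h01.symm, h12]
      · simp [hx, hx', h, h02.symm, h12.symm]
  rw [hall, hone] at hsum'
  have hNm : N 0 = m ∧ N 1 = m ∧ N 2 = m := by omega
  have hfin2 : Tk (π k) (fun x => f (l k x)) =
      (N 0 : ZMod 3) * f 0 + (N 1 : ZMod 3) * f 1 + (N 2 : ZMod 3) * f 2 := by
    rw [Tk_def]
    simp only [N]
    unfold Sk
    rw [Nat.cast_sum, Nat.cast_sum, Nat.cast_sum, Finset.sum_mul, Finset.sum_mul, Finset.sum_mul,
      ← Finset.sum_add_distrib, ← Finset.sum_add_distrib]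
    refine Finset.sum_congr rfl fun x _ => ?_
    by_cases hx' : IsCoprime x (π k)
    · rcases hz (l k x) with h | h | h
      · simp [hx', h, h01, h02]
      · simp [hx', h, h01.symm, h12]
      · simp [hx', h, h02.symm, h12.symm]
    · simp [hx']
  have hs3 : ∑ b : ZMod 3, f b = f 0 + f 1 + f 2 := Fin.sum_univ_three f
  rw [hfin2, hNm.1, hNm.2.1, hNm.2.2, hmr, hs3]
  ring

/-- the sums over the invertible classes of a function of the logarithms -/
lemma cnt (S : Finset ι) : ∀ p : (ι → ZMod 3) → ZMod 3,
    Tk (cc π S) (fun x => p (fun i => if i ∈ S then l i x else 0)) =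
      (∏ i ∈ S, -(ε i * r i)) * ∑ a ∈ Pool.Agent.Helper68.C7.sp S, p a := by
  classical
  induction S using Finset.induction_on with
  | empty =>
    intro p
    have h1 : cc π (∅ : Finset ι) = 1 := Finset.prod_empty
    rw [h1, Tk_def, Finset.prod_empty, one_mul]
    have h2 : Pool.Agent.Helper68.C7.sp (∅ : Finset ι) = {0} := by
      ext a
      simp only [Pool.Agent.Helper68.C7.sp, mem_filter, mem_univ, true_and, notMem_empty,
        not_false_eq_true, forall_true_left, mem_singleton]
      exact ⟨fun h => funext h, fun h i => by rw [h]; rfl⟩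
    rw [h2, sum_singleton]
    have hf : Finite (eis ⧸ Pool.Agent.W192.HK.sp (1 : eis)) := hfin 1 one_ne_zero
    have : Fintype (eis ⧸ Pool.Agent.W192.HK.sp (1 : eis)) := Fintype.ofFinite _
    have h3 : ∑ x ∈ rp (1 : eis), (if IsCoprime x 1 then
        p (fun i => if i ∈ (∅ : Finset ι) then l i x else 0) else 0) =
        Sk (1 : eis) (fun _ => p 0) := by
      unfold Sk
      refine Finset.sum_congr rfl fun x _ => ?_
      rw [if_pos isCoprime_one_right]
      congr 1
    rw [h3, Sk_eq]
    have h4 : Subsingleton (eis ⧸ Pool.Agent.W192.HK.sp (1 : eis)) :=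
      Ideal.Quotient.subsingleton_iff.2 Ideal.span_singleton_one
    rw [Fintype.sum_subsingleton _ (0 : eis ⧸ Pool.Agent.W192.HK.sp (1 : eis))]
  | insert j S hj ih =>
    intro p
    have hpc := pi_cop hW hj
    have hc := cc_ne hW S
    have ha := hW.ne j
    have hf : Finite (eis ⧸ Pool.Agent.W192.HK.sp (π j)) := hfin _ ha
    rw [cc_insert hj, prod_insert hj]
    -- the function with the coordinate at `j`
    have hres : ∀ y : eis, (fun i => if i ∈ insert j S then l i y else 0) =
        Function.update (fun i => if i ∈ S then l i y else 0) j (l j y) := by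
      intro y
      funext i
      by_cases hi : i = j
      · subst hi
        simp
      · simp [hi, Function.update_of_ne]
    set F : eis → ZMod 3 := fun x => if IsCoprime x (π j * cc π S) then
      p (fun i => if i ∈ insert j S then l i x else 0) else 0 with hF
    have hFp : ∀ x y, x - y ∈ Pool.Agent.W192.HK.sp (π j * cc π S) → F x = F y := by
      intro x y hxy
      have h2 : p (fun i => if i ∈ insert j S then l i x else 0) =
          p (fun i => if i ∈ insert j S then l i y else 0) :=
        res_per hW p (by rw [cc_insert hj]; exact hxy)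
      simp only [hF]
      rw [h2]
      by_cases hx : IsCoprime x (π j * cc π S)
      · rw [if_pos hx, if_pos ((cop_per hxy).1 hx)]
      · rw [if_neg hx, if_neg (fun h' => hx ((cop_per hxy).2 h'))]
    have e1 : Tk (π j * cc π S) (fun x => p (fun i => if i ∈ insert j S then l i x else 0)) =
        Sk (π j * cc π S) F := rfl
    rw [e1, Sk_mul hc hfin ha hFp]
    -- the inner sum
    set q : (ι → ZMod 3) → ZMod 3 := fun a => ∑ b, p (Function.update a j b) with hq
    have e2 : ∀ x : eis, Sk (π j) (fun t => F (x + cc π S * t)) =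
        if IsCoprime x (cc π S) then
          -(ε j * r j) * q (fun i => if i ∈ S then l i x else 0) else 0 := by
      intro x
      set G : eis → ZMod 3 := fun y => if IsCoprime y (π j) then
        p (Function.update (fun i => if i ∈ S then l i x else 0) j (l j y)) else 0 with hG
      have hGp : ∀ y z, y - z ∈ Pool.Agent.W192.HK.sp (π j) → G y = G z := by
        intro y z hyz
        simp only [hG]
        rw [hW.lper j y z hyz]
        by_cases hx : IsCoprime y (π j)
        · rw [if_pos hx, if_pos ((cop_per hyz).1 hx)]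
        · rw [if_neg hx, if_neg (fun h' => hx ((cop_per hyz).2 h'))]
      have hxt : ∀ t : eis, x + cc π S * t - x ∈ Pool.Agent.W192.HK.sp (cc π S) := fun t =>
        Ideal.mem_span_singleton'.2 ⟨t, by ring⟩
      by_cases hx : IsCoprime x (cc π S)
      · rw [if_pos hx]
        have e3 : ∀ t, F (x + cc π S * t) = G (x + cc π S * t) := by
          intro t
          have h1 : IsCoprime (x + cc π S * t) (cc π S) := (cop_per (hxt t)).2 hx
          have h2 : (fun i => if i ∈ S then l i (x + cc π S * t) else 0) =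
              (fun i => if i ∈ S then l i x else 0) := by
            funext i
            split_ifs with hi
            · exact hW.lper i _ _ (cc_mem hi (hxt t))
            · rfl
          simp only [hF, hG]
          rw [hres, h2]
          by_cases h3 : IsCoprime (x + cc π S * t) (π j)
          · rw [if_pos h3, if_pos (h3.mul_right h1)]
          · rw [if_neg h3, if_neg (fun h' => h3 h'.of_mul_right_left)]
        rw [Sk_congr e3]
        have e4 : Sk (π j) (fun t => G (x + cc π S * t)) = Sk (π j) (fun y => G (x + y)) :=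
          Sk_bij hf hpc (F := fun y => G (x + y)) (fun y z hyz => hGp _ _ (by
            rw [add_sub_add_left_eq_sub]; exact hyz))
        rw [e4, Sk_shift hf x hGp]
        exact Z1 hW hfin j (fun b => p (Function.update (fun i => if i ∈ S then l i x else 0) j b))
      · rw [if_neg hx]
        refine Finset.sum_eq_zero fun t _ => ?_
        simp only [hF]
        rw [if_neg]
        intro h'
        exact hx ((cop_per (hxt t)).1 h'.of_mul_right_right)
    have e5 : Sk (cc π S) (fun x => Sk (π j) (fun t => F (x + cc π S * t))) =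
        Tk (cc π S) (fun x => -(ε j * r j) * q (fun i => if i ∈ S then l i x else 0)) := by
      rw [Tk_def]
      exact Sk_congr e2
    rw [e5, Tk_mul_left, ih q, mul_assoc]
    congr 1
    congr 1
    -- the sum over the functions
    simp only [hq]
    rw [Finset.sum_sigma']
    refine Finset.sum_bij' (fun (a : (_ : ι → ZMod 3) × ZMod 3) _ => Function.update a.1 j a.2)
      (fun b _ => ⟨Function.update b j 0, b j⟩) ?_ ?_ ?_ ?_ ?_
    · rintro ⟨a, b⟩ h
      simp only [Pool.Agent.Helper68.C7.sp, mem_filter, mem_univ, true_and, mem_sigma,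
        mem_insert, not_or] at h ⊢
      rintro i ⟨h1, h2⟩
      rw [Function.update_of_ne h1]
      exact h.1 i h2
    · intro b h
      simp only [Pool.Agent.Helper68.C7.sp, mem_filter, mem_univ, true_and, mem_sigma,
        mem_insert, not_or, and_true] at h ⊢
      intro i hi
      by_cases hij : i = j
      · subst hij; simp
      · rw [Function.update_of_ne hij]
        exact h i ⟨hij, hi⟩
    · rintro ⟨a, b⟩ h
      simp only [Pool.Agent.Helper68.C7.sp, mem_filter, mem_univ, true_and, mem_sigma] at h
      simp only [Function.update_idem, Function.update_self]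
      have : Function.update a j 0 = a := by
        rw [← h.1 j hj]
        exact Function.update_eq_self j a
      rw [this]
    · intro b h
      simp
    · rintro ⟨a, b⟩ h
      rfl

omit hfin in
lemma l_om {S : Finset ι} {x : eis} (hx : IsCoprime x (cc π S)) {i : ι} (hi : i ∈ S) :
    l i (omr * x) = l i x + r i := by
  rw [hW.lmul i omr x (omr_notMem hW i) ((cop_cc hW S x).1 hx i hi), hW.lom, add_comm]

/-- invariant functions: the sum depends only on the orbit sums -/
lemma claim {S : Finset ι} (hS : S.Nonempty) {h V W : eis → ZMod 3}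
    (hh : ∀ x y, x - y ∈ Pool.Agent.W192.HK.sp (cc π S) → h x = h y) (hV : ∀ x y, x - y ∈ Pool.Agent.W192.HK.sp (cc π S) → V x = V y)
    (hW' : ∀ x y, x - y ∈ Pool.Agent.W192.HK.sp (cc π S) → W x = W y)
    (hi : ∀ x, IsCoprime x (cc π S) → h (omr * x) = h x)
    (ho : ∀ x, IsCoprime x (cc π S) → V x + V (omr * x) + V (omr ^ 2 * x) =
      W x + W (omr * x) + W (omr ^ 2 * x)) :
    Tk (cc π S) (fun x => h x * V x) = Tk (cc π S) (fun x => h x * W x) := by
  have hf := hfin _ (cc_ne hW S)
  have e1 : Tk (cc π S) (fun x => h x * V x + (-1) * (h x * W x)) = 0 := by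
    refine Tk_orb hf ?_ (om_ne hW hS) ?_
    · intro x z hxz
      show h x * V x + (-1) * (h x * W x) = h z * V z + (-1) * (h z * W z)
      rw [hh x z hxz, hV x z hxz, hW' x z hxz]
    · intro x hx
      have h1 := hi x hx
      have h2 : h (omr ^ 2 * x) = h x := by
        have h3 := hi (omr * x) ((omr_cop _).mul_left hx)
        rw [h1] at h3
        rw [← h3]
        congr 1
        ring
      show h x * V x + (-1) * (h x * W x) +
        (h (omr * x) * V (omr * x) + (-1) * (h (omr * x) * W (omr * x))) +
        (h (omr ^ 2 * x) * V (omr ^ 2 * x) + (-1) * (h (omr ^ 2 * x) * W (omr ^ 2 * x))) = 0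
      rw [h1, h2]
      linear_combination (h x) * ho x hx
  rw [Tk_add, Tk_mul_left] at e1
  linear_combination e1

end main

theorem s_T3 : S_T3 := by
  classical
  intro ι _ _ π l g r ε e U hfin hW
  have hε2 : ∀ i, ε i * ε i = 1 := by
    intro i
    have h1 : ∀ a : ZMod 3, a ≠ 0 → a * a = 1 := by decide
    exact h1 _ (hW.eps i)
  have hprod : ∀ S : Finset ι, (∏ i ∈ S, ε i) * (∏ i ∈ S, -(ε i * r i)) = ∏ i ∈ S, -r i := by
    intro S
    rw [← prod_mul_distrib]
    refine prod_congr rfl fun i _ => ?_
    linear_combination (-r i) * hε2 i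
  refine ⟨⟨?_, ?_, ?_, ?_, ?_, ?_⟩, ?_⟩
  · -- add
    intro S p q
    unfold BB
    rw [← mul_add, ← Tk_add]
    congr 1
    exact Tk_congr fun x _ => by ring
  · -- smul
    intro S c p
    unfold BB
    have h1 : Tk (cc π S) (fun x => c * p (fun i => if i ∈ S then l i x else 0) * U S x) =
        c * Tk (cc π S) (fun x => p (fun i => if i ∈ S then l i x else 0) * U S x) := by
      rw [← Tk_mul_left]
      exact Tk_congr fun x _ => by ring
    rw [h1]
    ring
  · -- dep
    intro S p q h
    unfold BB
    congr 1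
    refine Tk_congr fun x _ => ?_
    rw [h]
    simp only [Pool.Agent.Helper68.C7.sp, mem_filter, mem_univ, true_and]
    intro i hi
    rw [if_neg hi]
  · -- one
    intro j
    unfold BB
    have h1 : cc π {j} = π j := Finset.prod_singleton _ _
    rw [h1, prod_singleton]
    simp only [one_mul]
    rw [hW.uone j]
    linear_combination (-r j * e) * hε2 j
  · -- ins
    intro S j p hS hj hp
    unfold BB
    have h1 : Tk (cc π (insert j S)) (fun x => p (fun i => if i ∈ insert j S then l i x else 0) *
        U (insert j S) x) = Tk (cc π (insert j S)) (fun x =>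
        (fun y => p (fun i => if i ∈ S then l i y else 0)) x * U (insert j S) x) := by
      refine Tk_congr fun x _ => ?_
      congr 1
      apply hp
      intro i hi
      rw [if_pos hi, if_pos (mem_insert_of_mem hi)]
    rw [h1, TT_insert hW hfin hS hj (fun x y hxy => res_per hW p hxy), cnt hW hfin S p,
      prod_insert hj]
    have h2 : Tk (cc π S) (fun x => (fun y => p (fun i => if i ∈ S then l i y else 0)) (π j * x) *
        U S x) = Tk (cc π S) (fun x => (fun a => p (fun i => a i + ε j * g i j))
          (fun i => if i ∈ S then l i x else 0) * U S x) := by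
      refine Tk_congr fun x hx => ?_
      congr 1
      show p _ = p _
      apply hp
      intro i hi
      have hij : i ≠ j := fun h => hj (h ▸ hi)
      show (if i ∈ S then l i (π j * x) else 0) = (if i ∈ S then l i x else 0) + ε j * g i j
      rw [if_pos hi, if_pos hi, hW.lmul i (π j) x (pi_notMem hW i j hij)
        ((cop_cc hW S x).1 hx i hi), hW.lpi i j hij, add_comm]
    rw [h2]
    linear_combination (-(r j * e) * (∏ i ∈ S, ε i) * (∏ i ∈ S, -(ε i * r i)) *
      ∑ a ∈ Pool.Agent.Helper68.C7.sp S, p a) * hε2 j -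
      (r j * e * ∑ a ∈ Pool.Agent.Helper68.C7.sp S, p a) * hprod S
  · -- tr
    intro S k p hk hrk hp hinv
    have hf := hfin _ (cc_ne hW S)
    set c := cc π S with hc
    set h : eis → ZMod 3 := fun x => p (fun i => if i ∈ S then l i x else 0) with hh
    have hhp : ∀ x y, x - y ∈ Pool.Agent.W192.HK.sp c → h x = h y := fun x y hxy => res_per hW p hxy
    have hom : ∀ x, IsCoprime x c → h (omr * x) = h x := by
      intro x hx
      simp only [hh]
      rw [← hinv (fun i => if i ∈ S then l i x else 0)]
      apply hp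
      intro i hi
      simp only [if_pos hi]
      exact l_om hW hx hi
    have hcop1 : ∀ x, IsCoprime x c → IsCoprime (omr * x) c := fun x hx =>
      (omr_cop _).mul_left hx
    have hcop2 : ∀ x, IsCoprime x c → IsCoprime (omr ^ 2 * x) c := fun x hx => by
      have := hcop1 _ (hcop1 x hx)
      rwa [← mul_assoc, ← pow_two] at this
    have hom2 : ∀ x, IsCoprime x c → h (omr ^ 2 * x) = h x := by
      intro x hx
      have h3 := hom (omr * x) (hcop1 x hx)
      rw [hom x hx] at h3
      rw [← h3]
      congr 1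
      ring
    set δ : eis → ZMod 3 := fun x => if l k x = 0 then 1 else 0 with hδ
    have hδp : ∀ x y, x - y ∈ Pool.Agent.W192.HK.sp c → δ x = δ y := by
      intro x y hxy
      simp only [hδ]
      rw [hW.lper k x y (cc_mem hk hxy)]
    have hUp : ∀ x y, x - y ∈ Pool.Agent.W192.HK.sp c → U S x = U S y := fun x y hxy => hW.uper S x y hxy
    have hmulp : ∀ a x y : eis, x - y ∈ Pool.Agent.W192.HK.sp c → a * x - a * y ∈ Pool.Agent.W192.HK.sp c := by
      intro a x y hxy
      rw [← mul_sub]
      exact Ideal.mul_mem_left _ _ hxy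
    have h1 : Tk c (fun x => h x * U S x) = Tk c (fun x => h x * U S x * δ x) +
        Tk c (fun x => h x * U S x * δ (omr * x)) +
        Tk c (fun x => h x * U S x * δ (omr ^ 2 * x)) := by
      rw [← Tk_add, ← Tk_add]
      refine Tk_congr fun x hx => ?_
      have h2 : δ x + δ (omr * x) + δ (omr ^ 2 * x) = 1 := by
        have h3 : l k (omr ^ 2 * x) = l k x + r k + r k := by
          have h4 := l_om hW (hcop1 x hx) hk
          rw [l_om hW hx hk] at h4
          rw [← h4]
          congr 1
          ring
        simp only [hδ]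
        rw [l_om hW hx hk, h3]
        have h5 : ∀ a b : ZMod 3, b ≠ 0 → (if a = 0 then (1 : ZMod 3) else 0) +
          (if a + b = 0 then 1 else 0) + (if a + b + b = 0 then 1 else 0) = 1 := by decide
        exact h5 _ _ hrk
      linear_combination (-(h x * U S x)) * h2
    have h2 : Tk c (fun x => h x * U S x * δ (omr * x)) =
        Tk c (fun x => h x * U S (omr ^ 2 * x) * δ x) := by
      have h3 := Tk_bij hf (y := omr ^ 2) ((omr_cop c).pow_left (m := 2))
        (F := fun x => h x * U S x * δ (omr * x)) (fun x z hxz => by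
          show h x * U S x * δ (omr * x) = h z * U S z * δ (omr * z)
          rw [hhp x z hxz, hUp x z hxz, hδp _ _ (hmulp omr x z hxz)])
      rw [← h3]
      refine Tk_congr fun x hx => ?_
      show h (omr ^ 2 * x) * U S (omr ^ 2 * x) * δ (omr * (omr ^ 2 * x)) = _
      have h4 : omr * (omr ^ 2 * x) = x := by linear_combination x * omr_cube
      rw [hom2 x hx, h4]
    have h3 : Tk c (fun x => h x * U S x * δ (omr ^ 2 * x)) =
        Tk c (fun x => h x * U S (omr * x) * δ x) := by
      have h3 := Tk_bij hf (y := omr) (omr_cop c)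
        (F := fun x => h x * U S x * δ (omr ^ 2 * x)) (fun x z hxz => by
          show h x * U S x * δ (omr ^ 2 * x) = h z * U S z * δ (omr ^ 2 * z)
          rw [hhp x z hxz, hUp x z hxz, hδp _ _ (hmulp (omr ^ 2) x z hxz)])
      rw [← h3]
      refine Tk_congr fun x hx => ?_
      show h (omr * x) * U S (omr * x) * δ (omr ^ 2 * (omr * x)) = _
      have h4 : omr ^ 2 * (omr * x) = x := by linear_combination x * omr_cube
      rw [hom x hx, h4]
    have h4 : Tk c (fun x => h x * U S x) = e * Tk c (fun x => h x * δ x) := by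
      rw [h1, h2, h3, ← Tk_mul_left, ← Tk_add, ← Tk_add]
      refine Tk_congr fun x hx => ?_
      linear_combination (h x * δ x) * hW.utr S x ⟨k, hk⟩ hx
    have h5 : Tk c (fun x => h x * δ x) = (∏ i ∈ S, -(ε i * r i)) *
        ∑ a ∈ Pool.Agent.Helper68.C7.sp S, p a * (if a k = 0 then 1 else 0) := by
      rw [← cnt hW hfin S (fun a => p a * (if a k = 0 then 1 else 0))]
      refine Tk_congr fun x hx => ?_
      simp only [hh, hδ, if_pos hk]
    have h6 : ∑ a ∈ Pool.Agent.Helper68.C7.sp S, p a * (if a k = 0 then 1 else 0) =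
        ∑ a ∈ (Pool.Agent.Helper68.C7.sp S).filter (fun a => a k = 0), p a := by
      rw [sum_filter]
      refine sum_congr rfl fun a _ => ?_
      split_ifs
      · rw [mul_one]
      · rw [mul_zero]
    unfold BB
    show (∏ i ∈ S, ε i) * Tk c (fun x => h x * U S x) = _
    rw [h4, h5, h6]
    linear_combination (e * ∑ a ∈ (Pool.Agent.Helper68.C7.sp S).filter (fun a => a k = 0), p a) *
      hprod S
  · -- nil
    intro S hS hr
    obtain ⟨i, hi⟩ := hS
    have hf := hfin _ (cc_ne hW S)
    obtain ⟨y, hy, hy1, hy2⟩ := ex_y hW (S := S) (i := i)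
    unfold BB
    apply mul_eq_zero_of_right
    set c := cc π S with hc
    have hUp : ∀ x y, x - y ∈ Pool.Agent.W192.HK.sp c → U S x = U S y := fun x y hxy => hW.uper S x y hxy
    set P : eis → ZMod 3 := fun x => ∏ j ∈ S.erase i, l j x with hP
    have hPp : ∀ x z, x - z ∈ Pool.Agent.W192.HK.sp c → P x = P z := by
      intro x z hxz
      exact prod_congr rfl fun j hj => hW.lper j x z (cc_mem (mem_of_mem_erase hj) hxz)
    have hlp : ∀ x z, x - z ∈ Pool.Agent.W192.HK.sp c → l i x = l i z := fun x z hxz =>
      hW.lper i x z (cc_mem hi hxz)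
    have hPom : ∀ x, IsCoprime x c → P (omr * x) = P x := by
      intro x hx
      refine prod_congr rfl fun j hj => ?_
      rw [l_om hW hx (mem_of_mem_erase hj), hr j (mem_of_mem_erase hj), add_zero]
    have hlom : ∀ x, IsCoprime x c → l i (omr * x) = l i x := by
      intro x hx
      rw [l_om hW hx hi, hr i hi, add_zero]
    have hPy : ∀ x, P (y * x) = P x := by
      intro x
      exact prod_congr rfl fun j hj => hy1 j (mem_of_mem_erase hj) (mem_erase.1 hj).1 x
    have hly : ∀ x, IsCoprime x c → l i (y * x) = l i x + 1 := fun x hx =>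
      hy2 x ((cop_cc hW S x).1 hx i hi)
    -- `G1 (a + 1) - G1 a = a`
    set h : eis → ZMod 3 := fun x => P x * (2 * l i x * (l i x - 1)) with hh
    have hhp : ∀ x z, x - z ∈ Pool.Agent.W192.HK.sp c → h x = h z := by
      intro x z hxz
      simp only [hh]
      rw [hPp x z hxz, hlp x z hxz]
    have e1 : Tk c (fun x => h (y * x) * U S (y * x)) = Tk c (fun x => h x * U S x) :=
      Tk_bij hf hy (F := fun x => h x * U S x) (fun x z hxz => by
        show h x * U S x = h z * U S z
        rw [hhp x z hxz, hUp x z hxz])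
    set h' : eis → ZMod 3 := fun x => P x * (2 * (l i x + 1) * l i x) with hh'
    have e2 : Tk c (fun x => h (y * x) * U S (y * x)) = Tk c (fun x => h' x * U S (y * x)) := by
      refine Tk_congr fun x hx => ?_
      simp only [hh, hh']
      rw [hPy x, hly x hx]
      ring
    have e3 : Tk c (fun x => h' x * U S (y * x)) = Tk c (fun x => h' x * U S x) := by
      refine claim hW hfin ⟨i, hi⟩ (h := h') (V := fun x => U S (y * x)) (W := U S) ?_ ?_ hUp ?_ ?_
      · intro x z hxz
        simp only [hh']
        rw [hPp x z hxz, hlp x z hxz]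
      · intro x z hxz
        apply hUp
        rw [← mul_sub]
        exact Ideal.mul_mem_left _ _ hxz
      · intro x hx
        simp only [hh']
        rw [hPom x hx, hlom x hx]
      · intro x hx
        have h7 := hW.utr S (y * x) ⟨i, hi⟩ (hy.mul_left hx)
        have h8 := hW.utr S x ⟨i, hi⟩ hx
        have h9 : y * (omr * x) = omr * (y * x) := by ring
        have h10 : y * (omr ^ 2 * x) = omr ^ 2 * (y * x) := by ring
        show U S (y * x) + U S (y * (omr * x)) + U S (y * (omr ^ 2 * x)) = _
        rw [h9, h10, h7, h8]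
    have e4 : Tk c (fun x => (∏ i ∈ S, (if i ∈ S then l i x else 0)) * U S x) =
        Tk c (fun x => h' x * U S x) - Tk c (fun x => h x * U S x) := by
      have e5 : Tk c (fun x => h' x * U S x) = Tk c (fun x => h x * U S x) +
          Tk c (fun x => (∏ i ∈ S, (if i ∈ S then l i x else 0)) * U S x) := by
        rw [← Tk_add]
        refine Tk_congr fun x hx => ?_
        have e6 : ∏ i ∈ S, (if i ∈ S then l i x else 0) = l i x * P x := by
          rw [prod_congr rfl (fun j hj => if_pos hj), ← mul_prod_erase _ _ hi]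
        rw [e6]
        simp only [hh, hh']
        have h3 : (3 : ZMod 3) = 0 := by decide
        linear_combination (P x * l i x * U S x) * h3
      rw [e5]
      ring
    show Tk c (fun x => (∏ i ∈ S, (if i ∈ S then l i x else 0)) * U S x) = 0
    rw [e4, ← e3, ← e2, e1, sub_self]

end Pool.Agent.Helper68.C7.T3
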