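import Pool.Agent.Helper68.C7.W3h

/-!
# Second moments (module S_W3 for helper68), part 9: the values at one

Written by helper48.
-/

set_option autoImplicit false
set_option linter.unusedSectionVars false

open Finset MvPolynomial

namespace Pool.Agent.Helper68.C7.W3

variable {ι : Type} [Fintype ι] [DecidableEq ι]

/-- the evaluation at one -/
noncomputable def ev : Rg ι →ₐ[ZMod 3] ZMod 3 := aeval (fun _ => 1)

lemma ev_X (i : ι) : ev (X i : Rg ι) = 1 := aeval_X _ i

lemma ev_C (c : ZMod 3) : ev (C c : Rg ι) = c := by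
  have := (ev (ι := ι)).commutes c
  exact this

lemma ev_Lf (g : ι → ι → ZMod 3) (T : Finset ι) (j : ι) : ev (Lf g T j) = ∑ i ∈ T, g i j := by
  rw [Lf, map_sum]
  refine Finset.sum_congr rfl fun i _ => ?_
  rw [map_mul, ev_C, ev_X, mul_one]

lemma ev_Kf (g : ι → ι → ZMod 3) (S T : Finset ι) :
    ev (Kf g S T) = ∏ j ∈ S \ T, ∑ i ∈ T, g i j := by
  rw [Kf, map_prod]
  exact Finset.prod_congr rfl fun j _ => ev_Lf g T j

lemma ev_K2 (g : ι → ι → ZMod 3) (ε : ι → ZMod 3) (S T : Finset ι) :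
    ev (K2 g ε S T) = ∑ i ∈ S \ T, ε i * (∑ l ∈ T, g l i) ^ 2 *
      ∏ j ∈ (S \ T).erase i, ∑ l ∈ T, g l j := by
  rw [K2, map_sum]
  refine Finset.sum_congr rfl fun i _ => ?_
  rw [map_mul, map_mul, map_pow, ev_C, ev_Lf, map_prod]
  congr 1
  exact Finset.prod_congr rfl fun j _ => ev_Lf g T j

/-- the kernel with values in the field -/
def KK (g : ι → ι → ZMod 3) (S T : Finset ι) : ZMod 3 := ∏ j ∈ S \ T, ∑ i ∈ T, g i j

lemma KK_self (g : ι → ι → ZMod 3) (S : Finset ι) : KK g S S = 1 := by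
  rw [KK, sdiff_self]
  exact prod_empty

lemma sum_erase_empty (S : Finset ι) (f : Finset ι → ZMod 3) (hf : f ∅ = 0) :
    ∑ T ∈ S.powerset.erase ∅, f T = ∑ T ∈ S.powerset, f T := Finset.sum_erase _ hf

lemma ev_H1_sum (g : ι → ι → ZMod 3) (r : ι → ZMod 3) (e : ZMod 3) {S : Finset ι}
    (hS : S.Nonempty) : ∑ T ∈ S.powerset.erase ∅, KK g S T * ev (H1 g r e T) =
      if S.card = 1 then -(e * ∑ i ∈ S, r i) else 0 := by
  rw [sum_erase_empty S _ (by rw [H1_empty, map_zero, mul_zero])]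
  have h := congrArg ev (Hs_sum g (fun i => C (-(e * r i))) hS)
  rw [map_sum] at h
  have h1 : ∑ T ∈ S.powerset, KK g S T * ev (H1 g r e T) =
      ∑ T ∈ S.powerset, ev (Kf g S T * Hs g (fun i => C (-(e * r i))) T) := by
    refine Finset.sum_congr rfl fun T _ => ?_
    rw [map_mul, ev_Kf]
    rfl
  rw [h1, h]
  split_ifs with hc
  · rw [map_sum, mul_sum, ← sum_neg_distrib]
    exact Finset.sum_congr rfl fun i _ => ev_C _
  · exact map_zero _

lemma ev_Ps_sum (g : ι → ι → ZMod 3) (r ε : ι → ZMod 3) (e : ZMod 3)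
    (B : Finset ι → ((ι → ZMod 3) → ZMod 3) → ZMod 3) {S : Finset ι}
    (hS : S.Nonempty) : ∑ T ∈ S.powerset.erase ∅, KK g S T * ev (Ps g r ε e B T) =
      B S (fun a => ∏ i ∈ S, a i) +
        (∑ T ∈ S.powerset.erase ∅, (∑ i ∈ S \ T, ε i * (∑ l ∈ T, g l i) ^ 2 *
          ∏ j ∈ (S \ T).erase i, ∑ l ∈ T, g l j) * ev (H1 g r e T)) +
        if S.card = 2 then 2 * e * ∏ i ∈ S, r i else 0 := by
  rw [sum_erase_empty S _ (by rw [Ps_empty, map_zero, mul_zero]),
    sum_erase_empty S _ (by rw [H1_empty, map_zero, mul_zero])]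
  have h := congrArg ev (Ps_sum g r ε e B hS)
  rw [map_sum] at h
  have h1 : ∑ T ∈ S.powerset, KK g S T * ev (Ps g r ε e B T) =
      ∑ T ∈ S.powerset, ev (Kf g S T * Ps g r ε e B T) := by
    refine Finset.sum_congr rfl fun T _ => ?_
    rw [map_mul, ev_Kf]
    rfl
  rw [h1, h, sP, map_add, map_add, map_mul, ev_C, map_prod, map_sum]
  congr 1
  · congr 1
    · rw [Finset.prod_eq_one fun i _ => ev_X i, mul_one]
    · refine Finset.sum_congr rfl fun T _ => ?_
      rw [map_mul, ev_K2]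
  · unfold s3
    split_ifs with hc
    · rw [map_mul, ev_C, map_sum]
      have h2 : ∑ i ∈ S, ev ((X i : Rg ι) ^ 2) = 2 := by
        have : ∀ i ∈ S, ev ((X i : Rg ι) ^ 2) = 1 := fun i _ => by rw [map_pow, ev_X, one_pow]
        rw [Finset.sum_congr rfl this, sum_const, hc]
        simp
      rw [h2]
      ring
    · exact map_zero _

lemma ev_wp_sum {g : ι → ι → ZMod 3} (hg : ∀ i j, i ≠ j → g i j = g j i) {r ε : ι → ZMod 3}
    {e : ZMod 3} {B : Finset ι → ((ι → ZMod 3) → ZMod 3) → ZMod 3} (hB : Bd g r ε e B)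
    (hε : ∀ i, ε i ≠ 0) {o : ι} (ho : r o ≠ 0) {S : Finset ι} (hS : S.Nonempty) (hoS : o ∉ S) :
    ∑ T ∈ S.powerset, KK (gt g r o) S T * ev (wp g r ε e B o T) =
      if S.card = 1 then e * r o * ∑ i ∈ S, r i else 0 := by
  have h := congrArg ev (Psi_eq hg hB hε ho hS hoS)
  rw [map_sum] at h
  have h1 : ∑ T ∈ S.powerset, KK (gt g r o) S T * ev (wp g r ε e B o T) =
      ∑ T ∈ S.powerset, ev (Kf (gt g r o) S T * wp g r ε e B o T) := by
    refine Finset.sum_congr rfl fun T _ => ?_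
    rw [map_mul, ev_Kf]
    rfl
  rw [h1, h]
  split_ifs with hc
  · obtain ⟨i, rfl⟩ := card_eq_one.1 hc
    rw [map_mul, ev_C, prod_insert hoS, prod_singleton, prod_singleton, sum_singleton, map_pow,
      ev_X]
    ring
  · exact map_zero _

lemma ev_su {r : ι → ZMod 3} {o : ι} (ho : r o ≠ 0) (hr : ∑ i, r i = 0) (f : Rg ι) :
    ev (su o (la r o univ) f) = ev f := by
  have h1 : ev (la r o univ) = 1 := by
    rw [la, map_sum]
    have h2 : ∑ l ∈ univ.erase o, ev (C (-(r l / r o)) * X l : Rg ι) =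
        ∑ l ∈ univ.erase o, -(r l / r o) := by
      refine Finset.sum_congr rfl fun l _ => ?_
      rw [map_mul, ev_C, ev_X, mul_one]
    have h3 : r o + ∑ l ∈ univ.erase o, r l = 0 := by
      rw [Finset.add_sum_erase _ _ (mem_univ o), hr]
    rw [h2, sum_neg_distrib, ← sum_div, eq_neg_of_add_eq_zero_right h3, neg_div, neg_neg,
      div_self ho]
  have h4 : (ev : Rg ι →ₐ[ZMod 3] ZMod 3).comp (su o (la r o univ)) = ev := by
    refine MvPolynomial.algHom_ext fun i => ?_
    rw [AlgHom.comp_apply]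
    by_cases h : i = o
    · rw [h, su_self, h1, ev_X]
    · rw [su_ne h]
  exact DFunLike.congr_fun h4 f

/-- **Statement W3.** -/
theorem s_W3 : S_W3 := by
  intro ι _ _ g r ε e B h u w o hg hε hB ho hr hh hu hw0 hw
  have hone : univ.erase o ≠ (∅ : Finset ι) := by
    intro h1
    have h3 : r o + ∑ l ∈ univ.erase o, r l = 0 := by
      rw [Finset.add_sum_erase _ _ (mem_univ o), hr]
    rw [h1, sum_empty, add_zero] at h3
    exact ho h3
  -- the first order terms
  have e1 : ∀ S : Finset ι, S.Nonempty → h S = ev (H1 g r e S) :=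
    sol_uniq (K := KK g) (KK_self g) (s := fun S => if S.card = 1 then -(e * ∑ i ∈ S, r i) else 0)
      (fun S hS => hh S hS) (fun S hS => ev_H1_sum g r e hS)
  -- the second order terms
  have e2 : ∀ S : Finset ι, S.Nonempty → u S = ev (Ps g r ε e B S) := by
    refine sol_uniq (K := KK g) (KK_self g) (s := fun S => B S (fun a => ∏ i ∈ S, a i) +
        (∑ T ∈ S.powerset.erase ∅, (∑ i ∈ S \ T, ε i * (∑ l ∈ T, g l i) ^ 2 *
          ∏ j ∈ (S \ T).erase i, ∑ l ∈ T, g l j) * h T) +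
        if S.card = 2 then 2 * e * ∏ i ∈ S, r i else 0) (fun S hS => hu S hS) (fun S hS => ?_)
    rw [ev_Ps_sum g r ε e B hS]
    congr 2
    refine Finset.sum_congr rfl fun T hT => ?_
    rw [e1 T (nonempty_iff_ne_empty.2 (mem_erase.1 hT).1)]
  -- the twisted recursion
  have e3 : ∀ S : Finset ι, o ∉ S → w S = ev (wp g r ε e B o S) := by
    intro S
    induction S using Finset.strongInduction with
    | H S ih =>
      intro hoS
      rcases S.eq_empty_or_nonempty with rfl | hS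
      · rw [hw0, wp_empty, map_zero]
      · have h1 := (hw S hS hoS).trans (ev_wp_sum hg hB hε ho hS hoS).symm
        have h2 : ∑ T ∈ S.powerset, KK (gt g r o) S T * w T =
            ∑ T ∈ S.powerset, KK (gt g r o) S T * ev (wp g r ε e B o T) := h1
        rw [sum_powerset_eq S (fun T => KK (gt g r o) S T * w T),
          sum_powerset_eq S (fun T => KK (gt g r o) S T * ev (wp g r ε e B o T)), KK_self, one_mul,
          one_mul] at h2
        have h3 : ∑ T ∈ S.ssubsets, KK (gt g r o) S T * w T =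
            ∑ T ∈ S.ssubsets, KK (gt g r o) S T * ev (wp g r ε e B o T) := by
          refine Finset.sum_congr rfl fun T hT => ?_
          have hT' := mem_ssubsets.1 hT
          rw [ih T hT' (fun h => hoS (hT'.1 h))]
        rw [h3] at h2
        exact add_right_cancel h2
  have hun : (univ : Finset ι).Nonempty := ⟨o, mem_univ o⟩
  rw [e2 univ hun, e3 (univ.erase o) (notMem_erase _ _), wp, insert_erase (mem_univ o),
    ev_su ho hr]

end Pool.Agent.Helper68.C7.W3
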