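import Pool.Agent.Helper68.C7.Rec7c
import Pool.Graph.R_seed8.Y715.CT.AN1b

/-!
# The valuation of the central value, class `D = 1` modulo `3 √-3`
-/

set_option autoImplicit false
set_option linter.unusedSectionVars false

open scoped Topology PeriodPair Classical

namespace Pool.Agent.Helper68.N7.AN7

open H667R3 Pool.Agent.W192.HK Pool.Agent.TH936.CM Pool.Agent.TH936.PU
open Pool.Agent.Y692.QS (Ei w toC nr nr_nonneg)
open Pool.Agent.Y703.CT
open Pool.Agent.Y715.Dist Pool.Agent.Y715.Idn Pool.Agent.Y715.T.Lat Pool.Agent.Y696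
open Pool.Agent.Y715.Two (v_unit v_mul_le_of)
open Pool.Agent.Y715.T.Three Pool.Agent.Y715.T.Cg
open Pool.Agent.Y715.T.Rs (eq0)
open Pool.Agent.Y703.CT.Ana (om_val SQ kap_ne)
open Pool.Agent.Helper68.C7 (S_T3 S_C3 Ker3)
open Pool.Agent.Helper68.N7.Wd7 (g7 r7 y7)
open Pool.Agent.Helper68.N7.Rec7 Pool.Agent.Helper68.N7.Dig7

variable {Γ : Type*} [LinearOrderedCommGroupWithZero Γ] {v : Valuation ℂ Γ}
variable {J : Type} {π : J → Ei} {e : J → ZMod 3}

lemma v_sg (_h3 : v 3 < 1) {c : ZMod 3} (hc : c ≠ 0) : v ((sg c : ℤ) : ℂ) = 1 := by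
  have h1 : ∀ c : ZMod 3, c ≠ 0 → c.valMinAbs = 1 ∨ c.valMinAbs = -1 := by decide
  unfold sg
  rcases h1 c hc with h | h <;> rw [h]
  · rw [Int.cast_one, map_one]
  · rw [Int.cast_neg, Int.cast_one, v.map_neg, map_one]

lemma v_kS (h3 : v 3 < 1) (h : Dt π e) (T : Finset J) : v (kS e T) = 1 := by
  unfold kS
  rw [map_prod]
  exact Finset.prod_eq_one fun i _ => v_sg h3 (h.e0 i)

lemma kS_ne (h : Dt π e) (T : Finset J) : kS e T ≠ 0 := by
  unfold kS
  refine Finset.prod_ne_zero_iff.2 fun i _ => ?_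
  exact_mod_cast sg_ne (h.e0 i)

lemma v_val (h3 : v 3 < 1) {C : ZMod 3} (hC : C ≠ 0) : v ((C.val : ℕ) : ℂ) = 1 := by
  have h1 : ∀ C : ZMod 3, C ≠ 0 → C.val = 1 ∨ C.val = 2 := by decide
  rcases h1 C hC with h | h <;> rw [h]
  · rw [Nat.cast_one, map_one]
  · exact_mod_cast v_two h3

/-- **The valuation of the central value.** -/
theorem an7 (hT : S_T3) (hC3 : S_C3) : S_AN7 := by
  intro J _ _ π e h hs
  have : Fintype (eis ⧸ (sp 3 : Ideal eis)) :=
    @Fintype.ofFinite _ (fin_quot _ Pool.Agent.Y696.three_ne)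
  obtain ⟨C, hCk, hmain⟩ := main7 hT hC3 h hs
  obtain ⟨F, hF, hval⟩ := Pool.Agent.Y715.CT.AN1b.an1b J π e h
  refine ⟨F, hF, ?_⟩
  intro Γ _ v hv L Ω hC
  have h7 := hmain Γ v hv L Ω hC
  obtain ⟨ρ, n, hn, hρ, hval⟩ := hval L Ω hC
  have hκ := kap_ne hC
  have hl : v lam ≠ 0 := lam_ne
  have hlp := lam_pos (v := v)
  have ht := th_ne
  have hkS := kS_ne h (Finset.univ : Finset J)
  have e1 : SPt L Ω π e Finset.univ = Pool.Agent.Y715.T.Lat.kap L Ω *
      (3 * th ^ (Fintype.card J - 1)) * s7 L Ω π e Finset.univ / kS e Finset.univ := by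
    unfold s7
    rw [Finset.card_univ]
    have : SPt L Ω π e Finset.univ = SQ L Ω (fun i => eq0 (π i)) (Xc π e) Finset.univ := rfl
    rw [this]
    field_simp
  have hc : v (∏ j, toC (π j)) = 1 := by
    rw [map_prod]
    refine Finset.prod_eq_one fun i _ => ?_
    apply v_unit
    exact ((fy (v := v) hv h).lin i).trans_lt hv
  have h18 : v 18 = v lam ^ 4 := by
    have : (18 : ℂ) = 2 * 9 := by norm_num
    rw [this, map_mul, v_two hv, one_mul, Pool.Agent.Y715.T.Three.v_nine]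
  have hmain2 : v ((starRingEnd ℂ) (F 1) / Ω) * v lam =
      v lam ^ (Fintype.card J - 1) * v (s7 L Ω π e Finset.univ) := by
    rw [hval, e1]
    simp only [map_mul, map_div₀, map_inv₀, map_pow, hc, z_pow hn hρ, kap_val hv hC, th_val hv,
      h18, v_kS hv h, inv_one, mul_one, div_one]
    rw [← sq_three]
    field_simp
  refine ⟨v (s7 L Ω π e Finset.univ) / v lam, ?_, ?_, ?_⟩
  · intro hk
    have hC0 := hCk.2 hk
    have h8 : v ((C.val : ℂ) * (1 - om)) = v lam := by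
      rw [map_mul, v_val hv hC0, one_mul, om_val hv]
    have h9 : v (s7 L Ω π e Finset.univ) = v lam := by
      have e2 : s7 L Ω π e Finset.univ = (s7 L Ω π e Finset.univ - (C.val : ℂ) * (1 - om)) +
          (C.val : ℂ) * (1 - om) := by ring
      rw [e2, v.map_add_eq_of_lt_right (by rw [h8]; exact h7), h8]
    rw [h9, div_self hl]
  · intro hk
    have hC0 : C = 0 := by
      by_contra hne
      exact hk (hCk.1 hne)
    rw [hC0, ZMod.val_zero, Nat.cast_zero, zero_mul, sub_zero] at h7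
    exact (div_lt_one₀ hlp).2 h7
  · have h8 : v lam ^ (Fintype.card J - 1) * (v (s7 L Ω π e Finset.univ) / v lam) =
        v ((starRingEnd ℂ) (F 1) / Ω) * v lam / v lam := by
      rw [hmain2, mul_div_assoc]
    rw [h8, mul_div_cancel_right₀ _ hl]

end Pool.Agent.Helper68.N7.AN7
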