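import Pool.Graph.R_seed8.Y703.XL.Stm

/-!
# The bordered system of a symmetric matrix with vanishing border sum is a Laplacian system

Part 1 of the module D7 (linear algebra).
-/

set_option autoImplicit false

open scoped Classical

namespace Pool.Agent.Helper68.C7.D7

open Finset
open Pool.Agent.Y703.XK (prs)
open Pool.Agent.Y703.XL (nA)

/-- a value at one place -/
noncomputable def dl {V : Type} (z z₀ : V) (x : ZMod 3) : ZMod 3 := if z = z₀ then x else 0

theorem dl_pos {V : Type} {z z₀ : V} (h : z = z₀) (x : ZMod 3) : dl z z₀ x = x := if_pos h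

theorem dl_neg {V : Type} {z z₀ : V} (h : z ≠ z₀) (x : ZMod 3) : dl z z₀ x = 0 := if_neg h

/-- the weights on `Option V` -/
noncomputable def ww {V : Type} (c : V → V → ZMod 3) (β : V → ZMod 3) (κ : ZMod 3) (z₀ : V)
    (a b : Option V) : ZMod 3 :=
  a.elim (b.elim 0 fun ρ => -β ρ + dl ρ z₀ κ)
    fun π => b.elim (-β π + dl π z₀ κ)
      fun ρ => c π ρ + (dl ρ z₀ (β π) + dl π z₀ (β ρ))

theorem ww_symm {V : Type} {c : V → V → ZMod 3} (hc : ∀ a b, c a b = c b a) (β : V → ZMod 3)
    (κ : ZMod 3) (z₀ : V) (a b : Option V) : ww c β κ z₀ a b = ww c β κ z₀ b a := by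
  rcases a with _ | a <;> rcases b with _ | b
  · rfl
  · rfl
  · rfl
  · show c a b + _ = c b a + _
    rw [hc a b, add_comm (dl b z₀ (β a))]

section
variable {V : Type} [Fintype V] (c : V → V → ZMod 3) (β : V → ZMod 3) (κ : ZMod 3) (z₀ : V)

/-- the bordered system -/
def Sys (q : (V → ZMod 3) × ZMod 3) : Prop :=
  (∀ π, ∑ ρ, c π ρ * (q.1 ρ - q.1 π) = q.2 * β π) ∧ ∑ π, β π * q.1 π = -(q.2 * κ)

/-- the Laplacian system -/
def Lap {T : Type} [Fintype T] (w : T → T → ZMod 3) (x : T → ZMod 3) : Prop :=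
  ∀ a, ∑ b, w a b * (x b - x a) = 0

/-- the change of variables -/
def chg : (V → ZMod 3) × ZMod 3 ≃ (Option V → ZMod 3) where
  toFun q := fun a => a.elim (q.2 + q.1 z₀) q.1
  invFun x := (fun π => x (some π), x none - x (some z₀))
  left_inv q := by
    refine Prod.ext rfl ?_
    show q.2 + q.1 z₀ - q.1 z₀ = q.2
    ring
  right_inv x := by
    funext a
    rcases a with _ | a
    · show x none - x (some z₀) + x (some z₀) = x none
      ring
    · rfl

theorem lap_none (hβ : ∑ π, β π = 0) (v : V → ZMod 3) (s : ZMod 3) :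
    ∑ b, ww c β κ z₀ none b * (chg z₀ (v, s) b - chg z₀ (v, s) none) =
      -(∑ π, β π * v π + s * κ) := by
  rw [Fintype.sum_option]
  have e1 : ∀ π : V, ww c β κ z₀ none (some π) * (chg z₀ (v, s) (some π) - chg z₀ (v, s) none) =
      -(β π * v π) + β π * (s + v z₀) + (if π = z₀ then κ * (v π - (s + v z₀)) else 0) := by
    intro π
    show (-β π + dl π z₀ κ) * (v π - (s + v z₀)) = _
    unfold dl
    split_ifs <;> ring
  rw [sum_congr rfl fun π _ => e1 π, sum_add_distrib, sum_add_distrib, ← sum_mul, hβ, sum_neg_distrib,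
    Finset.sum_ite_eq' univ z₀, if_pos (mem_univ z₀)]
  ring

theorem lap_some (hβ : ∑ π, β π = 0) (v : V → ZMod 3) (s : ZMod 3) (π : V) :
    ∑ b, ww c β κ z₀ (some π) b * (chg z₀ (v, s) b - chg z₀ (v, s) (some π)) =
      (∑ ρ, c π ρ * (v ρ - v π) - s * β π) +
        (if π = z₀ then (∑ π, β π * v π + s * κ) else 0) := by
  rw [Fintype.sum_option]
  have e1 : ∀ ρ : V, ww c β κ z₀ (some π) (some ρ) *
      (chg z₀ (v, s) (some ρ) - chg z₀ (v, s) (some π)) =
      c π ρ * (v ρ - v π) + (if ρ = z₀ then β π * (v ρ - v π) else 0) +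
        (if π = z₀ then β ρ * v ρ - β ρ * v π else 0) := by
    intro ρ
    show (c π ρ + (dl ρ z₀ (β π) + dl π z₀ (β ρ))) * (v ρ - v π) = _
    unfold dl
    split_ifs <;> ring
  have e0 : ww c β κ z₀ (some π) none * (chg z₀ (v, s) none - chg z₀ (v, s) (some π)) =
      (-β π + (if π = z₀ then κ else 0)) * (s + v z₀ - v π) := rfl
  rw [e0, sum_congr rfl fun ρ _ => e1 ρ, sum_add_distrib, sum_add_distrib,
    Finset.sum_ite_eq' univ z₀, if_pos (mem_univ z₀)]
  by_cases h : π = z₀
  · simp only [if_pos h]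
    rw [sum_sub_distrib, ← sum_mul, hβ, h]
    ring
  · simp only [if_neg h]
    rw [sum_const_zero]
    ring

theorem sys_iff (hβ : ∑ π, β π = 0) (q : (V → ZMod 3) × ZMod 3) :
    Sys c β κ q ↔ Lap (ww c β κ z₀) (chg z₀ q) := by
  obtain ⟨v, s⟩ := q
  unfold Sys Lap
  constructor
  · rintro ⟨h1, h2⟩ a
    have hF : ∑ π, β π * v π + s * κ = 0 := by
      have h2' : ∑ π, β π * v π = -(s * κ) := h2
      rw [h2']
      ring
    rcases a with _ | π
    · rw [lap_none c β κ z₀ hβ, hF, neg_zero]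
    · rw [lap_some c β κ z₀ hβ, hF]
      have h1' : ∑ ρ, c π ρ * (v ρ - v π) = s * β π := h1 π
      rw [h1']
      split_ifs <;> ring
  · intro h
    have hF : ∑ π, β π * v π + s * κ = 0 := by
      have h0 := h none
      rw [lap_none c β κ z₀ hβ] at h0
      exact neg_eq_zero.1 h0
    refine ⟨fun π => ?_, ?_⟩
    · have h1 := h (some π)
      rw [lap_some c β κ z₀ hβ, hF] at h1
      have h2 : (∑ ρ, c π ρ * (v ρ - v π) - s * β π) = 0 := by
        rw [← h1]
        split_ifs <;> ring
      exact sub_eq_zero.1 h2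
    · show ∑ π, β π * v π = -(s * κ)
      exact eq_neg_of_add_eq_zero_left hF

theorem card_sys (hβ : ∑ π, β π = 0) :
    Nat.card {q : (V → ZMod 3) × ZMod 3 // Sys c β κ q} =
      Nat.card {x : Option V → ZMod 3 // Lap (ww c β κ z₀) x} :=
  Nat.card_congr (Equiv.subtypeEquiv (chg z₀) fun q => sys_iff c β κ z₀ hβ q)

end

/-! ### Blocks -/

/-- the vertices of the first block -/
def ii {U J : Type} (u : Option U) : Option (U ⊕ J) := u.map Sum.inl

section
variable {U J : Type} [Fintype U] [Fintype J]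

theorem sum_blk (f : Option (U ⊕ J) → ZMod 3) :
    ∑ b, f b = ∑ u : Option U, f (ii u) + ∑ l : J, f (some (Sum.inr l)) := by
  rw [Fintype.sum_option, Fintype.sum_option, Fintype.sum_sum_type]
  show f none + (∑ u, f (some (Sum.inl u)) + _) = f none + ∑ u, f (some (Sum.inl u)) + _
  rw [add_assoc]

/-- the two blocks of a function -/
def sp : (Option (U ⊕ J) → ZMod 3) ≃ (Option U → ZMod 3) × (J → ZMod 3) where
  toFun x := (fun u => x (ii u), fun l => x (some (Sum.inr l)))
  invFun p := fun a => a.elim (p.1 none) fun z => z.elim (fun u => p.1 (some u)) p.2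
  left_inv x := by
    funext a
    rcases a with _ | u | l <;> rfl
  right_inv p := by
    refine Prod.ext (funext fun u => ?_) rfl
    rcases u with _ | u <;> rfl

theorem card_lap {w : Option (U ⊕ J) → Option (U ⊕ J) → ZMod 3} (hw : ∀ a b, w a b = w b a) :
    Nat.card {x : Option (U ⊕ J) → ZMod 3 // Lap w x} =
      nA (fun u v : Option U => w (ii u) (ii v)) (fun (u : Option U) (l : J) =>
        w (ii u) (some (Sum.inr l))) (fun k l : J => w (some (Sum.inr k)) (some (Sum.inr l))) := by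
  unfold nA
  refine Nat.card_congr (Equiv.subtypeEquiv sp fun x => ?_)
  unfold Lap
  constructor
  · intro h
    refine ⟨fun u => ?_, fun k => ?_⟩
    · have h1 := h (ii u)
      rw [sum_blk] at h1
      exact h1
    · have h1 := h (some (Sum.inr k))
      rw [sum_blk] at h1
      rw [← h1]
      refine congrArg₂ _ (sum_congr rfl fun u _ => ?_) rfl
      show w (ii u) (some (Sum.inr k)) * _ = w (some (Sum.inr k)) (ii u) * _
      rw [hw (ii u)]
      rfl
  · rintro ⟨h1, h2⟩ a
    rcases a with _ | u | k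
    · rw [sum_blk]
      exact h1 none
    · rw [sum_blk]
      exact h1 (some u)
    · rw [sum_blk, ← h2 k]
      refine congrArg₂ _ (sum_congr rfl fun u _ => ?_) rfl
      show w (some (Sum.inr k)) (ii u) * _ = w (ii u) (some (Sum.inr k)) * _
      rw [hw (ii u)]
      rfl

omit [Fintype U] in
theorem nA_congr {U : Type} [Fintype U] {A : U → U → ZMod 3} {B : U → J → ZMod 3}
    {R R' : J → J → ZMod 3} (h : ∀ k l, k ≠ l → R k l = R' k l) : nA A B R = nA A B R' := by
  unfold nA
  have h1 : ∀ (p : (U → ZMod 3) × (J → ZMod 3)) (k : J), ∑ l, R k l * (p.2 l - p.2 k) =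
      ∑ l, R' k l * (p.2 l - p.2 k) := by
    intro p k
    refine sum_congr rfl fun l _ => ?_
    by_cases hkl : k = l
    · rw [hkl, sub_self, mul_zero, mul_zero]
    · rw [h k l hkl]
  simp only [h1]

end

end Pool.Agent.Helper68.C7.D7
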