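import Pool.Agent.Helper68.C7.D7a
import Pool.Agent.Helper68.C7.Defs7
import Pool.Agent.Helper68.C6.SVBox

/-!
# The count in a box for the sets whose product is one modulo `3 √-3`

Part 2 of the module D7 (adapted from `Pool.Agent.Helper68.C6.SVBox`).
-/

set_option autoImplicit false

open scoped Classical

namespace Pool.Agent.Helper68.C7.D7

open Finset
open Pool.Agent.Y692.QS (Ei)
open Pool.Agent.Y715.T.Rec (cs)
open Pool.Agent.Y715.T.RecG (Pq)
open Pool.Agent.Y703.CT (rq)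
open Pool.Agent.Y703.XK (HB prs S_EQ)
open Pool.Agent.Y703.XL (nA cr S_LA)
open Pool.Agent.Y688.XK (cs_symm HB_sub ez0 ez0_coe)
open Pool.Agent.Y170.XL (em em_bij sum_em)
open Pool.Agent.Helper68.C5.Chr5 (ts)
open Pool.Agent.Helper68.C3 (Nd)
open Pool.Agent.Helper68.C6.SV (BoxN)

/-- non-degenerate labels and the class -/
def W7 (S₀ S₁ : Finset Ei) : Prop := Nd rq S₀ S₁ ∧ ∑ π ∈ S₀ ∪ S₁, rq π = 0

/-- the label of a prime: `rq`, `ts 0` and the symbols with the small primes -/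
noncomputable def lb (S₀ : Finset Ei) (x : Ei) : Option (Option S₀) → ZMod 3 :=
  fun u => u.elim (rq x) fun u => u.elim (ts 0 x) fun u => cs u x

section
variable {ι : Type} [Fintype ι] (S₀ : Finset Ei) (b : ι → Option (Option S₀) → ZMod 3)

/-- the border -/
noncomputable def bet (z : S₀ ⊕ ι) : ZMod 3 :=
  z.elim (fun u : S₀ => rq (u : Ei)) fun l => b l none

/-- the corner -/
noncomputable def kp : ZMod 3 := -(∑ u : S₀, ts 0 (u : Ei) + ∑ l, b l (some none))

/-- the symbols -/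
noncomputable def cc (R : ι → ι → ZMod 3) (z z' : S₀ ⊕ ι) : ZMod 3 :=
  z.elim (fun u : S₀ => z'.elim (fun v : S₀ => cs (u : Ei) v) fun l => b l (some (some u)))
    fun k => z'.elim (fun v : S₀ => b k (some (some v))) fun l => R k l

/-- the weights -/
noncomputable def wt (R : ι → ι → ZMod 3) (z₀ : S₀ ⊕ ι) : Option (S₀ ⊕ ι) → Option (S₀ ⊕ ι) → ZMod 3 :=
  ww (cc S₀ b R) (bet S₀ b) (kp S₀ b) z₀

/-- the small block -/
noncomputable def AA (z₀ : S₀ ⊕ ι) (u v : Option S₀) : ZMod 3 :=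
  wt S₀ b (fun _ _ => 0) z₀ (ii u) (ii v)

/-- the labels of the large primes -/
noncomputable def BB (z₀ : S₀ ⊕ ι) (u : Option S₀) (l : ι) : ZMod 3 :=
  wt S₀ b (fun _ _ => 0) z₀ (ii u) (some (Sum.inr l))

/-- the shift of the large block -/
noncomputable def shf (z₀ : S₀ ⊕ ι) (k l : ι) : ZMod 3 :=
  dl (Sum.inr l : S₀ ⊕ ι) z₀ (b k none) + dl (Sum.inr k : S₀ ⊕ ι) z₀ (b l none)

variable {S₀ b}

omit [Fintype ι] in
theorem cc_symm (h : ∀ u ∈ S₀, Pq u) {R : ι → ι → ZMod 3} (hR : ∀ k l, R k l = R l k)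
    (z z' : S₀ ⊕ ι) : cc S₀ b R z z' = cc S₀ b R z' z := by
  rcases z with u | k <;> rcases z' with v | l
  · exact cs_symm (h u u.2) (h v v.2)
  · rfl
  · rfl
  · exact hR k l

/-- non-degenerate labels -/
def LN (S₀ : Finset Ei) (b : ι → Option (Option S₀) → ZMod 3) : Prop :=
  ∀ (t : ZMod 3) (w : S₀ → ZMod 3), (t ≠ 0 ∨ ∃ u, w u ≠ 0) →
    ∃ i, t * b i none + ∑ u, w u * b i (some (some u)) ≠ 0

theorem BB_none (z₀ : S₀ ⊕ ι) (k : ι) : BB S₀ b z₀ none k =
    -b k none + dl (Sum.inr k : S₀ ⊕ ι) z₀ (kp S₀ b) := rfl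

theorem BB_some (z₀ : S₀ ⊕ ι) (u : S₀) (k : ι) : BB S₀ b z₀ (some u) k =
    b k (some (some u)) + (dl (Sum.inr k : S₀ ⊕ ι) z₀ (rq (u : Ei)) +
      dl (Sum.inl u : S₀ ⊕ ι) z₀ (b k none)) := rfl

/-- the choice of the special vertex -/
def Ch (S₀ : Finset Ei) (z₀ : S₀ ⊕ ι) : Prop := (∃ u₀, z₀ = Sum.inl u₀) ∨ (S₀ = ∅)

omit [Fintype ι] in
theorem exists_ch [Nonempty ι] (S₀ : Finset Ei) : ∃ z₀ : S₀ ⊕ ι, Ch S₀ z₀ := by
  by_cases h : S₀ = ∅
  · exact ⟨Sum.inr (Classical.arbitrary ι), Or.inr h⟩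
  · obtain ⟨u, hu⟩ := Finset.nonempty_iff_ne_empty.2 h
    exact ⟨Sum.inl ⟨u, hu⟩, Or.inl ⟨_, rfl⟩⟩

theorem BB_nd {z₀ : S₀ ⊕ ι} (hz : Ch S₀ z₀) (hL : LN S₀ b)
    (hs : ∑ u : S₀, rq (u : Ei) + ∑ l, b l none = 0) (w : Option S₀ → ZMod 3)
    (hw : ∃ u, w u ≠ 0) : ∃ k, ∑ u, w u * BB S₀ b z₀ u k ≠ 0 := by
  rcases hz with ⟨u₀, rfl⟩ | hE
  · -- a small prime
    obtain ⟨i, hi⟩ := hL (w (some u₀) - w none) (fun u => w (some u)) (by
      by_cases h : ∃ u : S₀, w (some u) ≠ 0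
      · exact Or.inr h
      · left
        push Not at h
        obtain ⟨u, hu⟩ := hw
        rcases u with _ | u
        · rw [h u₀, zero_sub]
          exact neg_ne_zero.2 hu
        · exact absurd (h u) hu)
    refine ⟨i, fun h0 => hi ?_⟩
    rw [← h0, Fintype.sum_option, BB_none, dl_neg (by simp)]
    have e : ∀ u : S₀, w (some u) * BB S₀ b (Sum.inl u₀) (some u) i =
        w (some u) * b i (some (some u)) + (if u = u₀ then w (some u) * b i none else 0) := by
      intro u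
      rw [BB_some, dl_neg (by simp)]
      by_cases h : u = u₀
      · rw [dl_pos (by rw [h]), if_pos h]
        ring
      · rw [dl_neg (fun h' => h (Sum.inl_injective h')), if_neg h]
        ring
    rw [sum_congr rfl fun u _ => e u, sum_add_distrib, Finset.sum_ite_eq' univ u₀,
      if_pos (mem_univ u₀)]
    ring
  · -- no small prime
    subst hE
    have hwn : w none ≠ 0 := by
      obtain ⟨u, hu⟩ := hw
      rcases u with _ | u
      · exact hu
      · exact absurd u.2 (Finset.notMem_empty _)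
    have hs' : ∑ l, b l none = 0 := by
      have h0 : ∑ u : (∅ : Finset Ei), rq (u : Ei) = 0 := by simp
      rw [h0, zero_add] at hs
      exact hs
    obtain ⟨i, hi⟩ := hL 1 (fun _ => 0) (Or.inl one_ne_zero)
    have hi' : b i none ≠ 0 := by
      intro h
      apply hi
      rw [h]
      simp
    have hk : ∃ k, (Sum.inr k : (∅ : Finset Ei) ⊕ ι) ≠ z₀ ∧ b k none ≠ 0 := by
      by_contra hc
      push Not at hc
      -- `z₀ = inr i`
      have h1 : (Sum.inr i : (∅ : Finset Ei) ⊕ ι) = z₀ := by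
        by_contra h
        exact hi' (hc i h)
      apply hi'
      rw [← hs']
      symm
      refine Finset.sum_eq_single i (fun k _ hki => ?_) (fun h => absurd (mem_univ i) h)
      refine hc k fun h2 => hki ?_
      rw [← h1] at h2
      exact Sum.inr_injective h2
    obtain ⟨k, hk1, hk2⟩ := hk
    refine ⟨k, fun h0 => ?_⟩
    rw [Fintype.sum_option, BB_none, dl_neg hk1] at h0
    have h3 : ∑ u : (∅ : Finset Ei), w (some u) * BB ∅ b z₀ (some u) k = 0 := by simp
    rw [h3, add_zero, add_zero, mul_neg, neg_eq_zero, mul_eq_zero] at h0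
    rcases h0 with h0 | h0
    · exact hwn h0
    · exact hk2 h0

end

/-! ### The numbers of solutions -/

/-- reindexing -/
theorem sys_reindex {V V' : Type} [Fintype V] [Fintype V'] (e : V' ≃ V) (c : V → V → ZMod 3)
    (β : V → ZMod 3) (κ : ZMod 3) :
    Nat.card {q : (V → ZMod 3) × ZMod 3 // Sys c β κ q} =
      Nat.card {q : (V' → ZMod 3) × ZMod 3 //
        Sys (fun a b => c (e a) (e b)) (fun a => β (e a)) κ q} := by
  refine Nat.card_congr (Equiv.subtypeEquiv
    ((e.symm.arrowCongr (Equiv.refl (ZMod 3))).prodCongr (Equiv.refl (ZMod 3))) fun q => ?_)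
  obtain ⟨v, s⟩ := q
  unfold Sys
  have h1 : ((e.symm.arrowCongr (Equiv.refl (ZMod 3))).prodCongr (Equiv.refl (ZMod 3))) (v, s) =
      (fun a => v (e a), s) := by
    refine Prod.ext (funext fun a => ?_) rfl
    simp
  rw [h1]
  simp only
  constructor
  · rintro ⟨h2, h3⟩
    refine ⟨fun a => ?_, ?_⟩
    · rw [← h2 (e a), ← e.sum_comp]
    · rw [← h3, ← e.sum_comp]
  · rintro ⟨h2, h3⟩
    refine ⟨fun a => ?_, ?_⟩
    · have h4 := h2 (e.symm a)
      rw [e.apply_symm_apply] at h4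
      rw [← h4, ← e.sum_comp]
    · rw [← h3, ← e.sum_comp]

section one
variable {ι : Type} [Fintype ι] [LinearOrder ι] {S₀ : Finset Ei} {p : ι → Ei}

theorem ext_shf (b : ι → Option (Option S₀) → ZMod 3) (z₀ : S₀ ⊕ ι) (hpr : ∀ i, Pq (p i))
    (k l : ι) (hkl : k ≠ l) : cs (p k) (p l) + shf S₀ b z₀ k l =
      Pool.Agent.Y703.XK.ext (fun e : prs ι => cs (p e.1.1) (p e.1.2) +
        shf S₀ b z₀ e.1.1 e.1.2) k l := by
  unfold Pool.Agent.Y703.XK.ext
  by_cases h : (k, l) ∈ prs ι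
  · rw [dif_pos h]
  · rw [dif_neg h]
    have h' : (l, k) ∈ prs ι := by
      unfold prs at h ⊢
      rw [mem_filter] at h ⊢
      simp only [mem_univ, true_and, not_lt] at h ⊢
      exact lt_of_le_of_ne h (Ne.symm hkl)
    rw [dif_pos h']
    show _ = cs (p l) (p k) + shf S₀ b z₀ l k
    rw [cs_symm (hpr l) (hpr k)]
    congr 1
    unfold shf
    exact add_comm _ _

theorem n7_eq (hp : Function.Injective p) (hpr : ∀ i, Pq (p i)) (hS₀ : ∀ u ∈ S₀, Pq u)
    (hd : ∀ i, p i ∉ S₀)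
    (hs : ∑ u : S₀, rq (u : Ei) + ∑ l, lb S₀ (p l) none = 0) (z₀ : S₀ ⊕ ι) :
    n7 (S₀ ∪ univ.image p) = nA (AA S₀ (fun l => lb S₀ (p l)) z₀)
      (BB S₀ (fun l => lb S₀ (p l)) z₀)
      (Pool.Agent.Y703.XK.ext fun e : prs ι => cs (p e.1.1) (p e.1.2) +
        shf S₀ (fun l => lb S₀ (p l)) z₀ e.1.1 e.1.2) := by
  set b : ι → Option (Option S₀) → ZMod 3 := fun l => lb S₀ (p l) with hb
  have e1 : n7 (S₀ ∪ univ.image p) = Nat.card {q : (↥(S₀ ∪ univ.image p) → ZMod 3) × ZMod 3 //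
      Sys (fun π ρ : ↥(S₀ ∪ univ.image p) => cs (π : Ei) ρ)
        (fun π : ↥(S₀ ∪ univ.image p) => rq (π : Ei))
        (-∑ π : ↥(S₀ ∪ univ.image p), ts 0 (π : Ei)) q} := by
    unfold n7
    refine Nat.card_congr (Equiv.subtypeEquivRight fun q => ?_)
    unfold Sys
    rw [mul_neg, neg_neg]
  have e2 : -∑ π : ↥(S₀ ∪ univ.image p), ts 0 (π : Ei) = kp S₀ b := by
    rw [sum_em hp hd]
    rfl
  rw [e1, e2, sys_reindex (Equiv.ofBijective _ (em_bij hp hd))]
  have e3 : (fun z z' : S₀ ⊕ ι => cs ((Equiv.ofBijective _ (em_bij hp hd) z : ↥(S₀ ∪ univ.image p)) : Ei)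
      ((Equiv.ofBijective _ (em_bij hp hd) z' : ↥(S₀ ∪ univ.image p)) : Ei)) =
      cc S₀ b (fun k l => cs (p k) (p l)) := by
    funext z z'
    rcases z with u | k <;> rcases z' with v | l
    · rfl
    · rfl
    · show cs (p k) v = cs v (p k)
      exact cs_symm (hpr k) (hS₀ v v.2)
    · rfl
  have e4 : (fun z : S₀ ⊕ ι =>
      rq ((Equiv.ofBijective _ (em_bij hp hd) z : ↥(S₀ ∪ univ.image p)) : Ei)) = bet S₀ b := by
    funext z
    rcases z with u | k
    · rfl
    · rfl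
  have e5 : ∑ z, bet S₀ b z = 0 := by
    rw [Fintype.sum_sum_type]
    exact hs
  rw [e3, e4, card_sys _ _ _ z₀ e5, card_lap (ww_symm (cc_symm hS₀ fun k l =>
    cs_symm (hpr k) (hpr l)) _ _ _)]
  have e6 : nA (fun u v : Option S₀ => ww (cc S₀ b fun k l => cs (p k) (p l)) (bet S₀ b)
        (kp S₀ b) z₀ (ii u) (ii v))
      (fun (u : Option S₀) (l : ι) => ww (cc S₀ b fun k l => cs (p k) (p l)) (bet S₀ b)
        (kp S₀ b) z₀ (ii u) (some (Sum.inr l)))
      (fun k l : ι => ww (cc S₀ b fun k l => cs (p k) (p l)) (bet S₀ b)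
        (kp S₀ b) z₀ (some (Sum.inr k)) (some (Sum.inr l))) =
      nA (AA S₀ b z₀) (BB S₀ b z₀) (fun k l : ι => cs (p k) (p l) + shf S₀ b z₀ k l) := by
    congr 1
    · funext u v
      rcases u with _ | u <;> rcases v with _ | v <;> rfl
    · funext u l
      rcases u with _ | u <;> rfl
  rw [e6]
  exact nA_congr fun k l hkl => ext_shf b z₀ hpr k l hkl

omit [LinearOrder ι] in
theorem nd_iff : Nd rq S₀ (univ.image p) ↔ LN S₀ (fun i => lb S₀ (p i)) := by
  unfold Nd LN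
  constructor
  · intro h t w hw
    obtain ⟨x, hx, hx2⟩ := h t (ez0 w) (by
      rcases hw with hw | ⟨u, hu⟩
      · exact Or.inl hw
      · exact Or.inr ⟨u, u.2, by rw [ez0_coe]; exact hu⟩)
    rw [Finset.mem_image] at hx
    obtain ⟨i, -, rfl⟩ := hx
    refine ⟨i, ?_⟩
    rw [← Finset.sum_coe_sort S₀] at hx2
    intro h0
    apply hx2
    rw [← h0]
    refine congrArg₂ _ rfl (Finset.sum_congr rfl fun u _ => ?_)
    rw [ez0_coe]
    rfl
  · intro h t w hw
    obtain ⟨i, hi⟩ := h t (fun u => w u) (by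
      rcases hw with hw | ⟨u, hu0, hu⟩
      · exact Or.inl hw
      · exact Or.inr ⟨⟨u, hu0⟩, hu⟩)
    refine ⟨p i, Finset.mem_image_of_mem _ (Finset.mem_univ _), ?_⟩
    rw [← Finset.sum_coe_sort S₀]
    exact hi

omit [LinearOrder ι] in
theorem sum_iff (hp : Function.Injective p) (hd : ∀ i, p i ∉ S₀) :
    ∑ π ∈ S₀ ∪ univ.image p, rq π = ∑ u : S₀, rq (u : Ei) + ∑ l, lb S₀ (p l) none := by
  rw [← Finset.sum_coe_sort (S₀ ∪ univ.image p), sum_em hp hd]
  rfl

end one

/-- **The count in a box.** -/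
theorem t_BOX (hEQ : S_EQ) (hLA : S_LA) (r : ℕ) :
    BoxN W7 (fun S => n7 S = 3 ^ (r + 1)) (cr r) (3 ^ (r + 1)) := by
  intro ι _ _ C X κ S₀ hκ hCX hHB hS₀ hC hdis hcard
  have hcO : Fintype.card (Option S₀) = S₀.card + 1 := by
    rw [Fintype.card_option, Fintype.card_coe]
  have hcOO : Fintype.card (Option (Option S₀)) = S₀.card + 2 := by
    rw [Fintype.card_option, Fintype.card_option, Fintype.card_coe]
  have hne : Nonempty ι := Fintype.card_pos_iff.1 (by omega)
  obtain ⟨z₀, hz₀⟩ := exists_ch (ι := ι) S₀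
  obtain ⟨cc, hcc⟩ : ∃ cc : ℝ, cc = 3 ^ (r + 1) * (3 ^ (S₀.card + 2) / 3 ^ Fintype.card ι) :=
    ⟨_, rfl⟩
  obtain ⟨R, hR⟩ : ∃ R : ℝ, R = 3 ^ (prs ι).card * (κ * ∏ j, (X j : ℝ)) := ⟨_, rfl⟩
  have hcc0 : 0 ≤ cc := by rw [hcc]; positivity
  have hR0 : 0 ≤ R := by
    rw [hR]
    exact mul_nonneg (by positivity)
      (mul_nonneg hκ (Finset.prod_nonneg fun j _ => by positivity))
  -- facts on tuples
  have hinj : ∀ p ∈ Fintype.piFinset C, Function.Injective p := by
    intro p hp i j hij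
    rw [Fintype.mem_piFinset] at hp
    by_contra hne
    have h1 := Finset.disjoint_left.1 (hdis i j hne) (hp i)
    rw [hij] at h1
    exact h1 (hp j)
  have hd : ∀ p ∈ Fintype.piFinset C, ∀ i, p i ∉ S₀ := by
    intro p hp i
    rw [Fintype.mem_piFinset] at hp
    exact (hC i _ (hp i)).2
  have hpr : ∀ p ∈ Fintype.piFinset C, ∀ i, Pq (p i) := by
    intro p hp i
    rw [Fintype.mem_piFinset] at hp
    exact (hC i _ (hp i)).1
  -- the part with given labels
  have h1 : ∀ b : ι → Option (Option S₀) → ZMod 3, LN S₀ b →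
      ∑ u : S₀, rq (u : Ei) + ∑ l, b l none = 0 →
      |(((Fintype.piFinset C).filter fun p => (fun i => lb S₀ (p i)) = b ∧
          n7 (S₀ ∪ univ.image p) = 3 ^ (r + 1)).card : ℝ) -
        cr r * (((Fintype.piFinset C).filter fun p =>
          (fun i => lb S₀ (p i)) = b).card : ℝ)| ≤
      cc * (((Fintype.piFinset C).filter fun p =>
        (fun i => lb S₀ (p i)) = b).card : ℝ) + R := by
    intro b hb hbs
    obtain ⟨C', hC'⟩ : ∃ C' : ι → Finset Ei,
      C' = fun i => (C i).filter fun q => lb S₀ q = b i := ⟨_, rfl⟩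
    have hpi : (Fintype.piFinset C).filter (fun p => (fun i => lb S₀ (p i)) = b) =
        Fintype.piFinset C' := by
      ext p
      simp only [Finset.mem_filter, Fintype.mem_piFinset, hC']
      constructor
      · rintro ⟨h2, h3⟩ i
        exact ⟨h2 i, congrFun h3 i⟩
      · intro h2
        exact ⟨fun i => (h2 i).1, funext fun i => (h2 i).2⟩
    have h2 := hLA r (Option S₀) ι (AA S₀ b z₀) (BB S₀ b z₀)
      (by rw [hcO]; omega)
      (fun u v => ww_symm (cc_symm hS₀ fun _ _ => rfl) _ _ _ _ _)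
      (fun w hw => BB_nd hz₀ hb hbs w hw)
    obtain ⟨sh, hsh⟩ : ∃ sh : prs ι → ZMod 3, sh = fun e => shf S₀ b z₀ e.1.1 e.1.2 := ⟨_, rfl⟩
    obtain ⟨Q, hQ⟩ : ∃ Q : (prs ι → ZMod 3) → Prop, Q = fun α =>
        nA (AA S₀ b z₀) (BB S₀ b z₀)
          (Pool.Agent.Y703.XK.ext (fun e => α e + sh e)) = 3 ^ (r + 1) := ⟨_, rfl⟩
    have h3 := hEQ ι C' X κ hκ
      (fun i => (Finset.card_le_card (by rw [hC']; exact Finset.filter_subset _ _)).trans (hCX i))
      (by rw [hC']; exact HB_sub hHB fun i q => lb S₀ q = b i) Q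
    have h4 : ((Fintype.piFinset C).filter fun p => (fun i => lb S₀ (p i)) = b ∧
        n7 (S₀ ∪ univ.image p) = 3 ^ (r + 1)) = ((Fintype.piFinset C').filter fun p =>
          Q fun e => cs (p e.1.1) (p e.1.2)) := by
      rw [← hpi, Finset.filter_filter]
      refine Finset.filter_congr fun p hp => ?_
      refine and_congr_right fun hl => ?_
      subst hl
      rw [n7_eq (hinj p hp) (hpr p hp) hS₀ (hd p hp) hbs z₀, hQ, hsh]
    have h5 : (((Fintype.piFinset C').card : ℕ) : ℝ) = ∏ j, ((C' j).card : ℝ) := by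
      rw [Fintype.card_piFinset]
      push_cast
      rfl
    rw [h4, hpi, h5]
    rw [← hR] at h3
    obtain ⟨n, hn⟩ : ∃ n : ℝ, n = (((Fintype.piFinset C').filter fun p =>
          Q fun e => cs (p e.1.1) (p e.1.2)).card : ℝ) := ⟨_, rfl⟩
    obtain ⟨q, hq⟩ : ∃ q : ℝ, q = ((univ.filter Q).card : ℝ) / 3 ^ (prs ι).card := ⟨_, rfl⟩
    obtain ⟨P, hP⟩ : ∃ P : ℝ, P = ∏ j, ((C' j).card : ℝ) := ⟨_, rfl⟩
    have hP0 : 0 ≤ P := by
      rw [hP]
      exact Finset.prod_nonneg fun j _ => by positivity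
    have h2' : |q - cr r| ≤ cc := by
      have e : (univ.filter Q).card = (univ.filter fun α : prs ι → ZMod 3 =>
          nA (AA S₀ b z₀) (BB S₀ b z₀) (Pool.Agent.Y703.XK.ext α) = 3 ^ (r + 1)).card := by
        refine Finset.card_bij (fun α _ e => α e + sh e) ?_ ?_ ?_
        · intro α hα
          rw [Finset.mem_filter] at hα ⊢
          rw [hQ] at hα
          exact ⟨mem_univ _, hα.2⟩
        · intro α _ α' _ h
          funext e
          exact add_right_cancel (congrFun h e)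
        · intro α hα
          refine ⟨fun e => α e - sh e, ?_, ?_⟩
          · rw [Finset.mem_filter] at hα ⊢
            rw [hQ]
            refine ⟨mem_univ _, ?_⟩
            simp only [sub_add_cancel]
            exact hα.2
          · funext e
            exact sub_add_cancel _ _
      rw [hq, e]
      refine h2.trans ?_
      rw [hcO, hcc]
      have h6 : (3 : ℝ) ^ (S₀.card + 1) ≤ 3 ^ (S₀.card + 2) :=
        pow_le_pow_right₀ (by norm_num) (by omega)
      gcongr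
    rw [← hn, ← hq, ← hP] at h3
    rw [← hn, ← hP]
    have h6 : |n - cr r * P| ≤ |n - q * P| + |q - cr r| * P := by
      have h7 : n - cr r * P = (n - q * P) + (q - cr r) * P := by ring
      have h8 : |(q - cr r) * P| = |q - cr r| * P := by rw [abs_mul, abs_of_nonneg hP0]
      rw [h7, ← h8]
      exact abs_add_le _ _
    have h7 : |q - cr r| * P ≤ cc * P := mul_le_mul_of_nonneg_right h2' hP0
    linarith
  -- sum over the labels
  obtain ⟨LL, hLL⟩ : ∃ LL : Finset (ι → Option (Option S₀) → ZMod 3),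
    LL = univ.filter (fun b => LN S₀ b ∧ ∑ u : S₀, rq (u : Ei) + ∑ l, b l none = 0) := ⟨_, rfl⟩
  have hW : ∀ p ∈ Fintype.piFinset C, (W7 S₀ (univ.image p) ↔
      LN S₀ (fun i => lb S₀ (p i)) ∧ ∑ u : S₀, rq (u : Ei) + ∑ l, lb S₀ (p l) none = 0) := by
    intro p hp
    unfold W7
    rw [nd_iff, sum_iff (hinj p hp) (hd p hp)]
  have hfib : ∀ T : (ι → Ei) → Prop,
      (((Fintype.piFinset C).filter fun p => W7 S₀ (univ.image p) ∧ T p).card : ℝ) =
      ∑ b ∈ LL, (((Fintype.piFinset C).filter fun p =>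
        (fun i => lb S₀ (p i)) = b ∧ T p).card : ℝ) := by
    intro T
    rw [Finset.card_eq_sum_card_fiberwise (f := fun (p : ι → Ei) (i : ι) => lb S₀ (p i))
      (t := LL) (by
        intro p hp
        rw [Finset.mem_coe, Finset.mem_filter] at hp
        rw [Finset.mem_coe, hLL, Finset.mem_filter]
        exact ⟨Finset.mem_univ _, (hW p hp.1).1 hp.2.1⟩)]
    push_cast
    refine Finset.sum_congr rfl fun b hb => ?_
    rw [hLL, Finset.mem_filter] at hb
    congr 2
    ext p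
    simp only [Finset.mem_filter]
    constructor
    · rintro ⟨⟨h3, h4, h4'⟩, h5⟩
      exact ⟨h3, h5, h4'⟩
    · rintro ⟨h3, h4, h5⟩
      refine ⟨⟨h3, ?_, h5⟩, h4⟩
      rw [hW p h3]
      subst h4
      exact hb.2
  have hf1 := hfib fun p => n7 (S₀ ∪ univ.image p) = 3 ^ (r + 1)
  have hf2 : (((Fintype.piFinset C).filter fun p => W7 S₀ (univ.image p)).card : ℝ) =
      ∑ b ∈ LL, (((Fintype.piFinset C).filter fun p => (fun i => lb S₀ (p i)) = b).card : ℝ) := by
    have h2 := hfib fun _ => True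
    simpa only [and_true] using h2
  have hst : ∀ b ∈ LL, |(((Fintype.piFinset C).filter fun p => (fun i => lb S₀ (p i)) = b ∧
          n7 (S₀ ∪ univ.image p) = 3 ^ (r + 1)).card : ℝ) -
        cr r * (((Fintype.piFinset C).filter fun p =>
          (fun i => lb S₀ (p i)) = b).card : ℝ)| ≤
      cc * (((Fintype.piFinset C).filter fun p =>
        (fun i => lb S₀ (p i)) = b).card : ℝ) + R := by
    intro b hb
    rw [hLL] at hb
    exact h1 b (Finset.mem_filter.1 hb).2.1 (Finset.mem_filter.1 hb).2.2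
  rw [← hcc, hf1, hf2, Finset.mul_sum, ← Finset.sum_sub_distrib]
  refine (Finset.abs_sum_le_sum_abs _ _).trans ?_
  refine le_trans (le_of_eq (Finset.sum_congr rfl fun b _ => ?_))
    ((Finset.sum_le_sum hst).trans ?_)
  · congr!
  rw [Finset.sum_add_distrib, ← Finset.mul_sum, Finset.sum_const, nsmul_eq_mul]
  have h5 : ((LL.card : ℕ) : ℝ) ≤ 3 ^ ((S₀.card + 2) * Fintype.card ι) := by
    have h6 : LL.card ≤ Fintype.card (ι → Option (Option S₀) → ZMod 3) :=
      Finset.card_le_univ _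
    rw [Fintype.card_fun, Fintype.card_fun, ZMod.card, hcOO, ← pow_mul] at h6
    exact_mod_cast h6
  have h6 := mul_le_mul_of_nonneg_right h5 hR0
  rw [pow_add, mul_assoc, ← hR]
  linarith

end Pool.Agent.Helper68.C7.D7
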