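import Pool.Agent.Helper68.C7.Wd7

/-!
# Two digits
-/

set_option autoImplicit false
set_option linter.unusedSectionVars false

open scoped Topology PeriodPair Classical

namespace Pool.Agent.Helper68.N7.Dig7

open Pool.Agent.Y696 (om om_cube om_sq)
open Pool.Agent.Y715.Two (v_int v_unit v_mul_le_of)
open Pool.Agent.Y715.T.Three Pool.Agent.Y715.T.Cg
open Pool.Agent.Y703.CT.Ana (om_val)
open Pool.Agent.Helper68.N7.Rd7

variable {Γ : Type*} [LinearOrderedCommGroupWithZero Γ] {v : Valuation ℂ Γ}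

/-- `x = p + (1 - ω) q` up to small elements -/
def C2 (v : Valuation ℂ Γ) (x : ℂ) (a b : ZMod 3) : Prop :=
  ∃ p q : ℤ, (p : ZMod 3) = a ∧ (q : ZMod 3) = b ∧ v (x - (p + (1 - om) * q)) < v lam

lemma C2.mk {x : ℂ} (p q : ℤ) (h : v (x - (p + (1 - om) * q)) < v lam) :
    C2 v x (p : ZMod 3) (q : ZMod 3) := ⟨p, q, rfl, rfl, h⟩

lemma C2.exact {x : ℂ} (p q : ℤ) (h : x = p + (1 - om) * q) :
    C2 v x (p : ZMod 3) (q : ZMod 3) := ⟨p, q, rfl, rfl, by
  rw [h, sub_self, map_zero]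
  exact lam_pos⟩

lemma C2.cast {x : ℂ} {a b a' b' : ZMod 3} (h : C2 v x a b) (ha : a = a') (hb : b = b') :
    C2 v x a' b' := by
  rw [← ha, ← hb]
  exact h

lemma C2.small {x y : ℂ} {a b : ZMod 3} (h : C2 v x a b) (hy : v (y - x) < v lam) :
    C2 v y a b := by
  obtain ⟨p, q, h1, h2, h4⟩ := h
  refine ⟨p, q, h1, h2, ?_⟩
  have e : y - (p + (1 - om) * q) = (y - x) + (x - (p + (1 - om) * q)) := by ring
  rw [e]
  exact v.map_add_lt hy h4

variable (h3 : v 3 < 1)

include h3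

lemma v_om_le : v (1 - om) ≤ 1 := by
  rw [om_val h3]
  exact (lam_lt h3).le

lemma C2.le {x : ℂ} {a b : ZMod 3} (h : C2 v x a b) : v x ≤ 1 := by
  obtain ⟨p, q, -, -, h4⟩ := h
  have e : x = (x - (p + (1 - om) * q)) + (p + (1 - om) * q) := by ring
  rw [e]
  exact v.map_add_le (h4.le.trans (lam_lt h3).le)
    (v.map_add_le (v_int _) (v_mul_le_of (v_om_le h3) (v_int _)))

lemma C2.add {x y : ℂ} {a b a' b' : ZMod 3} (h : C2 v x a b) (h' : C2 v y a' b') :
    C2 v (x + y) (a + a') (b + b') := by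
  obtain ⟨p, q, h1, h2, h4⟩ := h
  obtain ⟨p', q', h1', h2', h4'⟩ := h'
  refine ⟨p + p', q + q', by push_cast; rw [h1, h1'], by push_cast; rw [h2, h2'], ?_⟩
  have e : x + y - (((p + p' : ℤ) : ℂ) + (1 - om) * ((q + q' : ℤ) : ℂ)) =
      (x - (p + (1 - om) * q)) + (y - (p' + (1 - om) * q')) := by
    push_cast
    ring
  rw [e]
  exact v.map_add_lt h4 h4'

lemma om_sq_lt : v ((1 - om) * (1 - om)) < v lam := by
  rw [map_mul, om_val h3]
  calc v lam * v lam < v lam * 1 := mul_lt_mul_of_pos_left (lam_lt h3) lam_pos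
    _ = v lam := mul_one _

omit h3 in
lemma small_mul {x y : ℂ} (hx : v x < v lam) (hy : v y ≤ 1) : v (x * y) < v lam := by
  rw [map_mul]
  calc v x * v y ≤ v x * 1 := mul_le_mul' le_rfl hy
    _ = v x := mul_one _
    _ < v lam := hx

lemma C2.mul {x y : ℂ} {a b a' b' : ZMod 3} (h : C2 v x a b) (h' : C2 v y a' b') :
    C2 v (x * y) (a * a') (a * b' + a' * b) := by
  have hle := C2.le h3 h'
  obtain ⟨p, q, h1, h2, h4⟩ := h
  obtain ⟨p', q', h1', h2', h4'⟩ := h'
  refine ⟨p * p', p * q' + p' * q, by push_cast; rw [h1, h1'],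
    by push_cast; rw [h1, h1', h2, h2'], ?_⟩
  have e : x * y - (((p * p' : ℤ) : ℂ) + (1 - om) * ((p * q' + p' * q : ℤ) : ℂ)) =
      (x - (p + (1 - om) * q)) * y + (y - (p' + (1 - om) * q')) * (p + (1 - om) * q) +
        (1 - om) * (1 - om) * (q * q') := by
    push_cast
    ring
  rw [e]
  refine v.map_add_lt (v.map_add_lt (small_mul h4 hle) (small_mul h4' ?_))
    (small_mul (om_sq_lt h3) ?_)
  · exact v.map_add_le (v_int _) (v_mul_le_of (v_om_le h3) (v_int _))
  · exact v_mul_le_of (v_int _) (v_int _)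

lemma C2.prod {ι : Type*} [DecidableEq ι] (S : Finset ι) {x : ι → ℂ} {a b : ι → ZMod 3}
    (h : ∀ i ∈ S, C2 v (x i) (a i) (b i)) :
    C2 v (∏ i ∈ S, x i) (∏ i ∈ S, a i) (∑ i ∈ S, b i * ∏ k ∈ S.erase i, a k) := by
  induction S using Finset.induction_on with
  | empty =>
    rw [Finset.prod_empty, Finset.prod_empty, Finset.sum_empty]
    exact (C2.exact (v := v) 1 0 (by push_cast; ring)).cast (by push_cast; rfl) (by push_cast; rfl)
  | insert i S hi ih =>
    rw [Finset.prod_insert hi, Finset.prod_insert hi]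
    have h1 := (h i (Finset.mem_insert_self i S)).mul h3
      (ih fun j hj => h j (Finset.mem_insert_of_mem hj))
    refine h1.cast rfl ?_
    rw [Finset.sum_insert hi, Finset.erase_insert hi, Finset.mul_sum, add_comm, mul_comm (b i)]
    congr 1
    refine Finset.sum_congr rfl fun j hj => ?_
    have hji : i ≠ j := fun e => hi (e ▸ hj)
    rw [Finset.erase_insert_of_ne hji, Finset.prod_insert (fun h5 => hi (Finset.mem_of_mem_erase h5))]
    ring

lemma C2.sum {ι : Type*} (S : Finset ι) {x : ι → ℂ} {a b : ι → ZMod 3}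
    (h : ∀ i ∈ S, C2 v (x i) (a i) (b i)) :
    C2 v (∑ i ∈ S, x i) (∑ i ∈ S, a i) (∑ i ∈ S, b i) := by
  induction S using Finset.induction_on with
  | empty =>
    rw [Finset.sum_empty, Finset.sum_empty, Finset.sum_empty]
    exact (C2.exact (v := v) 0 0 (by push_cast; ring)).cast (by push_cast; rfl) (by push_cast; rfl)
  | insert i S hi ih =>
    rw [Finset.sum_insert hi, Finset.sum_insert hi, Finset.sum_insert hi]
    exact (h i (Finset.mem_insert_self i S)).add h3
      (ih fun j hj => h j (Finset.mem_insert_of_mem hj))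

omit h3 in
lemma C2.int (n : ℤ) : C2 v (n : ℂ) (n : ZMod 3) 0 :=
  (C2.exact (v := v) n 0 (by push_cast; ring)).cast rfl (by push_cast; rfl)

lemma C2.om_pow (k : ℕ) : C2 v (om ^ k) 1 (-(k : ZMod 3)) := by
  induction k with
  | zero =>
    exact (C2.exact (v := v) 1 0 (by push_cast; ring)).cast (by push_cast; rfl) (by push_cast; ring)
  | succ k ih =>
    have h1 : C2 v om 1 (-1) :=
      (C2.exact (v := v) 1 (-1) (by push_cast; ring)).cast (by push_cast; rfl) (by push_cast; rfl)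
    rw [pow_succ]
    exact (ih.mul h3 h1).cast (by ring) (by push_cast; ring)

/-- `ω - ω²` -/
noncomputable def th : ℂ := om * (1 - om)

omit h3 in
lemma th_sq : th * th = -3 := by
  unfold th
  linear_combination (om ^ 2 - 3 * om + 3) * om_sq

omit h3 in
lemma th_ne : th ≠ 0 := by
  intro h
  have := th_sq
  rw [h, mul_zero] at this
  norm_num at this

lemma th_val : v th = v lam := by
  unfold th
  rw [map_mul, om_val h3, z_pow (by norm_num) om_cube, one_mul]

/-- the sum of the natural numbers below `m` -/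
lemma sum_range (m : ℕ) : ∑ k ∈ Finset.range m, (-(k : ZMod 3)) = (m : ZMod 3) ^ 2 - m := by
  have h9 : (3 : ZMod 3) = 0 := by decide
  induction m with
  | zero => simp
  | succ m ih =>
    rw [Finset.sum_range_succ, ih]
    push_cast
    linear_combination (-(m : ZMod 3)) * h9

/-- the quotient `(1 - ω^m) / (ω - ω²)` -/
lemma C2.quot (m : ℕ) : C2 v ((1 - om ^ m) / th) (m : ZMod 3) ((m : ZMod 3) ^ 2) := by
  have h1 : C2 v (∑ k ∈ Finset.range m, om ^ k) (∑ k ∈ Finset.range m, 1)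
      (∑ k ∈ Finset.range m, (-(k : ZMod 3))) := C2.sum h3 _ fun k _ => C2.om_pow h3 k
  have h2 := h1.mul h3 (C2.om_pow (v := v) h3 2)
  have e : (1 - om ^ m) / th = (∑ k ∈ Finset.range m, om ^ k) * om ^ 2 := by
    rw [div_eq_iff th_ne]
    have h5 := geom_sum_mul om m
    unfold th
    linear_combination h5 + (-(∑ k ∈ Finset.range m, om ^ k) * (1 - om)) * om_cube
  rw [e]
  refine h2.cast ?_ ?_
  · rw [Finset.sum_const, Finset.card_range, nsmul_eq_mul, mul_one, mul_one]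
  · rw [sum_range h3, Finset.sum_const, Finset.card_range, nsmul_eq_mul, mul_one]
    have h9 : (3 : ZMod 3) = 0 := by decide
    push_cast
    linear_combination (-(m : ZMod 3)) * h9

/-- the quotient `(π - 1) / (ω - ω²)` -/
lemma C2.lin (x y : ℤ) {P : ℂ} (hP : P = 1 + 3 * (x + y * om)) :
    C2 v ((P - 1) / th) 0 (-((x + y : ℤ) : ZMod 3)) := by
  have e : (P - 1) / th = (om * (1 - om)) * (-(x + y * om)) := by
    rw [div_eq_iff th_ne, hP]
    have := th_sq
    unfold th at this ⊢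
    linear_combination ((x : ℂ) + y * om) * this
  rw [e]
  have h1 : C2 v om 1 (-1) :=
    (C2.exact (v := v) 1 (-1) (by push_cast; ring)).cast (by push_cast; rfl) (by push_cast; rfl)
  have h2 : C2 v (1 - om) 0 1 :=
    (C2.exact (v := v) 0 1 (by push_cast; ring)).cast (by push_cast; rfl) (by push_cast; rfl)
  have h4 : C2 v (-(x + y * om)) (-((x + y : ℤ) : ZMod 3)) ((y : ℤ) : ZMod 3) :=
    (C2.exact (v := v) (-(x + y)) y (by push_cast; ring)).cast (by push_cast; ring) rfl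
  exact ((h1.mul h3 h2).mul h3 h4).cast (by ring) (by ring)

/-- the functional of a product -/
lemma fn_mul {φ : ℂ → ZMod 3} (hφ : Fn v φ) {x s : ℂ} {a b A : ZMod 3} (hx : C2 v x a b)
    (hs : Cg v s A) : v (x * s) ≤ 1 ∧ φ (x * s) = a * A * φ 1 + b * A * φ (1 - om) +
      a * φ (s - (A.val : ℂ)) := by
  have hle := C2.le h3 hx
  obtain ⟨p, q, h1, h2, h4⟩ := hx
  obtain ⟨m, hm⟩ : ∃ m, m = s - (A.val : ℂ) := ⟨_, rfl⟩
  have hm1 : v m < 1 := by rw [hm]; exact hs.lt
  have hone : v (1 : ℂ) ≤ 1 := by rw [map_one]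
  have hn : v ((A.val : ℕ) : ℂ) ≤ 1 := Pool.Agent.Y715.Two.v_nat _
  refine ⟨v_mul_le_of hle hs.le, ?_⟩
  have e : x * s = (((p * A.val : ℤ) : ℂ) * 1 + ((q * A.val : ℤ) : ℂ) * (1 - om) + (p : ℂ) * m) +
      ((x - (p + (1 - om) * q)) * s + ((1 - om) * m) * q) := by
    rw [hm]
    push_cast
    ring
  have hsm : v ((x - (p + (1 - om) * q)) * s + ((1 - om) * m) * q) < v lam := by
    refine v.map_add_lt (small_mul h4 hs.le) (small_mul ?_ (v_int _))
    rw [map_mul, om_val h3]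
    calc v lam * v m < v lam * 1 := mul_lt_mul_of_pos_left hm1 lam_pos
      _ = v lam := mul_one _
  have k1 : v (((p * A.val : ℤ) : ℂ) * 1) ≤ 1 := v_mul_le_of (v_int _) hone
  have k2 : v (((q * A.val : ℤ) : ℂ) * (1 - om)) ≤ 1 := v_mul_le_of (v_int _) (v_om_le h3)
  have k3 : v ((p : ℂ) * m) ≤ 1 := v_mul_le_of (v_int _) hm1.le
  rw [e, hφ.add _ _ (v.map_add_le (v.map_add_le k1 k2) k3) (hsm.le.trans (lam_lt h3).le),
    hφ.small _ hsm, add_zero, hφ.add _ _ (v.map_add_le k1 k2) k3, hφ.add _ _ k1 k2,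
    hφ.int _ hone, hφ.int _ (v_om_le h3), hφ.int _ hm1.le, hm]
  push_cast
  rw [ZMod.natCast_zmod_val, h1, h2]

/-- the functional of a product with a small factor -/
lemma fn_mul' {φ : ℂ → ZMod 3} (hφ : Fn v φ) {x s : ℂ} {a b : ZMod 3} (hx : C2 v x a b)
    (hs : v s < 1) : v (x * s) ≤ 1 ∧ φ (x * s) = a * φ s := by
  have h1 : Cg v s 0 := Cg.zero hs
  obtain ⟨k1, k2⟩ := fn_mul h3 hφ hx h1
  refine ⟨k1, ?_⟩
  rw [k2, ZMod.val_zero, Nat.cast_zero, sub_zero]
  ring

end Pool.Agent.Helper68.N7.Dig7
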