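import Pool.Agent.Helper68.C7.Defs7
import Pool.Agent.Helper68.C6.Loc6

/-!
# The local condition at the prime above three, twisting element one modulo `3 √-3`
-/

set_option autoImplicit false
set_option linter.unusedSectionVars false
set_option linter.unusedVariables false

namespace Pool.Agent.Helper68.C7.Loc7

open WeierstrassCurve
open Pool.Agent.Y692.QS
open Pool.Agent.Y715.T.Gi Pool.Agent.Y715.T.Nr Pool.Agent.Y715.T.Df Pool.Agent.Y715.T.Ell
open Pool.Agent.Y715.T.Red Pool.Agent.Y715.T.Thr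
open Pool.Agent.Y703.CT
open Pool.Agent.Y180.CT
open Pool.Agent.Helper68.C6.Loc6 (cube_unit' lam_pow_dvd comp_three sg concl1 ev_sg sg_sq)

open scoped Classical

variable {I : PadicAlgCl 3}

/-- the cubes of the units are `1` or `-1` modulo `lam ^ 4` -/
lemma cube_unit4 (hI : I ^ 2 + I + 1 = 0) {y : PadicAlgCl 3} (hy : y ∈ Kl I) (h1 : ‖y‖ = 1) :
    ∃ x : Fin 2, ‖y ^ 3 - ev I hI (sg x)‖ ≤ ‖1 + 2 * I‖ ^ 4 := by
  have hl := norm_lam hI
  have hlp := lam_pos hI
  have hl1 := norm_lam_lt hI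
  have hlm : (1 + 2 * I) ∈ Kl I := by
    have h := ev_mem hI lam
    rwa [ev_lam] at h
  have hl2 : (1 + 2 * I) ^ 2 = -3 := by linear_combination 4 * hI
  have hl0 : (1 + 2 * I) ≠ 0 := norm_pos_iff.1 hlp
  obtain ⟨L, hL⟩ : ∃ L, L = 1 + 2 * I := ⟨_, rfl⟩
  rw [← hL] at hl hlp hl1 hlm hl2 hl0
  have h3 : ‖(3 : PadicAlgCl 3)‖ = ‖L‖ ^ 2 := by rw [norm_three', hl]
  have key : ∀ ε : PadicAlgCl 3, ε ^ 2 = 1 → ε ∈ Kl I → ‖y - ε‖ < 1 →
      ‖y ^ 3 - ε‖ ≤ ‖L‖ ^ 4 := by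
    intro ε hε hεm h
    have h4 : ‖y - ε‖ ≤ ‖L‖ := by
      rw [hL]
      exact le_lam hI (Kl_le (sub_mem hy hεm)) h
    have hεn : ‖ε‖ = 1 := by
      have := congrArg norm hε
      rw [norm_pow, norm_one] at this
      exact (pow_eq_one_iff_of_nonneg (norm_nonneg _) two_ne_zero).1 this
    obtain ⟨x, hx⟩ : ∃ x, x = (y - ε) / L := ⟨_, rfl⟩
    have hxm : x ∈ Kl I := by rw [hx]; exact div_mem (sub_mem hy hεm) hlm
    have hxn : ‖x‖ ≤ 1 := by
      rw [hx, norm_div]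
      exact div_le_one_of_le₀ h4 hlp.le
    have ht : y - ε = L * x := by rw [hx]; field_simp
    have hcx : ‖x ^ 3 - x‖ ≤ ‖L‖ := by
      rw [hL]
      refine le_lam hI (Kl_le (sub_mem (pow_mem hxm 3) hxm)) ?_
      have e : x ^ 3 - x = x * (x - 1) * (x + 1) := by ring
      have a1 : ‖x - 1‖ ≤ 1 := by
        rw [sub_eq_add_neg]
        exact add_le hxn (by rw [norm_neg, norm_one])
      have a2 : ‖x + 1‖ ≤ 1 := add_le hxn (by rw [norm_one])
      rw [e, norm_mul, norm_mul]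
      rcases residue3 hI hxn hxm with h5 | h5 | h5
      · have b1 : ‖x‖ * ‖x - 1‖ ≤ ‖x‖ := mul_le_of_le_one_right (norm_nonneg _) a1
        have b2 : ‖x‖ * ‖x - 1‖ * ‖x + 1‖ ≤ ‖x‖ * ‖x - 1‖ :=
          mul_le_of_le_one_right (by positivity) a2
        linarith
      · have b1 : ‖x‖ * ‖x - 1‖ ≤ ‖x - 1‖ := mul_le_of_le_one_left (norm_nonneg _) hxn
        have b2 : ‖x‖ * ‖x - 1‖ * ‖x + 1‖ ≤ ‖x‖ * ‖x - 1‖ :=
          mul_le_of_le_one_right (by positivity) a2
        linarith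
      · have b1 : ‖x‖ * ‖x - 1‖ ≤ 1 := mul_le_one₀ hxn (norm_nonneg _) a1
        have b2 : ‖x‖ * ‖x - 1‖ * ‖x + 1‖ ≤ ‖x + 1‖ :=
          mul_le_of_le_one_left (norm_nonneg _) b1
        linarith
    have e : y ^ 3 - ε = L ^ 3 * (x ^ 3 - x) + 3 * (ε * (L * x) ^ 2) := by
      have e1 : y = ε + L * x := by rw [← ht]; ring
      rw [e1]
      linear_combination (ε + 3 * L * x) * hε + (L * x) * hl2
    rw [e]
    refine add_le ?_ ?_
    · rw [norm_mul, norm_pow, pow_succ ‖L‖ 3]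
      exact mul_le_mul_of_nonneg_left hcx (by positivity)
    · rw [norm_mul, norm_mul, norm_pow, hεn, one_mul, h3, ← ht]
      calc ‖L‖ ^ 2 * ‖y - ε‖ ^ 2 ≤ ‖L‖ ^ 2 * ‖L‖ ^ 2 :=
            mul_le_mul_of_nonneg_left (pow_le_pow_left₀ (norm_nonneg _) h4 2) (by positivity)
        _ = ‖L‖ ^ 4 := by ring
  rw [← hL]
  rcases residue3 hI h1.le hy with h | h | h
  · rw [h1] at h
    exact absurd h (lt_irrefl _)
  · obtain ⟨x, hx⟩ := ev_sg hI (ε := 1) (Or.inl rfl)
    refine ⟨x, ?_⟩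
    rw [hx, Int.cast_one]
    exact key 1 (one_pow 2) (one_mem _) h
  · obtain ⟨x, hx⟩ := ev_sg hI (ε := -1) (Or.inr rfl)
    refine ⟨x, ?_⟩
    rw [hx, Int.cast_neg, Int.cast_one]
    refine key (-1) (by norm_num) (neg_mem (one_mem _)) ?_
    rw [sub_neg_eq_add]
    exact h

lemma lam_four : lam ^ 4 = 9 := by decide

/-- the components of a multiple of `9` -/
lemma comp_nine {a : Ei} (h : (9 : Ei) ∣ a) : (9 : ℤ) ∣ a.re ∧ (9 : ℤ) ∣ a.im := by
  obtain ⟨b, rfl⟩ := h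
  have e2 : (9 : Ei).re = 9 := rfl
  have e3 : (9 : Ei).im = 0 := rfl
  rw [mul_re, mul_im, e2, e3]
  exact ⟨⟨b.re, by ring⟩, ⟨b.im, by ring⟩⟩

lemma sg0 : sg 0 = 1 := by decide

lemma sg1 : sg 1 = -1 := by decide

lemma zcast {a b : ℤ} (h : (3 : ℤ) ∣ a - b) : (a : ZMod 3) = (b : ZMod 3) := by
  have h1 := (ZMod.intCast_zmod_eq_zero_iff_dvd _ 3).2 h
  push_cast at h1
  exact sub_eq_zero.1 h1

lemma re_E (c d A q : Ei) : (1 + c * (1 + 3 * A + 3 * q) - d * (1 + 6 * q)).re =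
    1 + (c.re * (1 + 3 * A.re + 3 * q.re) - c.im * (3 * A.im + 3 * q.im)) -
      (d.re * (1 + 6 * q.re) - d.im * (6 * q.im)) := by
  have e1 : (1 : Ei).re = 1 := rfl
  have e2 : (1 : Ei).im = 0 := rfl
  have e3 : (3 : Ei).re = 3 := rfl
  have e4 : (3 : Ei).im = 0 := rfl
  have e5 : (6 : Ei).re = 6 := rfl
  have e6 : (6 : Ei).im = 0 := rfl
  simp only [QuadraticAlgebra.re_add, QuadraticAlgebra.im_add, QuadraticAlgebra.re_sub,
    mul_re, mul_im, e1, e2, e3, e4, e5, e6]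
  ring

lemma im_E (c d A q : Ei) : (1 + c * (1 + 3 * A + 3 * q) - d * (1 + 6 * q)).im =
    (c.re * (3 * A.im + 3 * q.im) + c.im * (1 + 3 * A.re + 3 * q.re) -
      c.im * (3 * A.im + 3 * q.im)) -
      (d.re * (6 * q.im) + d.im * (1 + 6 * q.re) - d.im * (6 * q.im)) := by
  have e1 : (1 : Ei).re = 1 := rfl
  have e2 : (1 : Ei).im = 0 := rfl
  have e3 : (3 : Ei).re = 3 := rfl
  have e4 : (3 : Ei).im = 0 := rfl
  have e5 : (6 : Ei).re = 6 := rfl
  have e6 : (6 : Ei).im = 0 := rfl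
  simp only [QuadraticAlgebra.re_add, QuadraticAlgebra.im_add, QuadraticAlgebra.im_sub,
    mul_re, mul_im, e1, e2, e3, e4, e5, e6]
  ring

lemma w_pows : ∀ σ : ZMod 3, σ = 0 ∧ w ^ σ.val = (⟨1, 0⟩ : Ei) ∧ (w ^ σ.val) ^ 2 = (⟨1, 0⟩ : Ei) ∨
    σ = 1 ∧ w ^ σ.val = (⟨0, 1⟩ : Ei) ∧ (w ^ σ.val) ^ 2 = (⟨-1, -1⟩ : Ei) ∨
    σ = 2 ∧ w ^ σ.val = (⟨-1, -1⟩ : Ei) ∧ (w ^ σ.val) ^ 2 = (⟨0, 1⟩ : Ei) := by
  decide

lemma sg_cases : ∀ x : Fin 2, sg x = (⟨1, 0⟩ : Ei) ∨ sg x = (⟨-1, 0⟩ : Ei) := by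
  decide

/-- the conclusion from the congruence -/
lemma concl4 {σ : ZMod 3} {q A : Ei} {x y : Fin 2} (hA : (3 : ℤ) ∣ A.re + A.im)
    (h : (9 : Ei) ∣ 1 + sg y * ((1 + 3 * A) * (w ^ σ.val * (1 + 3 * q))) -
      sg x * (w ^ σ.val * (1 + 3 * q)) ^ 2) :
    ((q.re + q.im : ℤ) : ZMod 3) = σ * ((A.im : ℤ) : ZMod 3) := by
  have h1 : (9 : Ei) ∣ 1 + (sg y * w ^ σ.val) * (1 + 3 * A + 3 * q) -
      (sg x * (w ^ σ.val) ^ 2) * (1 + 6 * q) := by
    obtain ⟨c, hc⟩ := h
    refine ⟨c - sg y * (w ^ σ.val * (A * q)) + sg x * ((w ^ σ.val) ^ 2 * q ^ 2), ?_⟩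
    linear_combination hc
  obtain ⟨b1, b2⟩ := comp_nine h1
  rw [re_E] at b1
  rw [im_E] at b2
  rcases w_pows σ with ⟨s0, s1, s2⟩ | ⟨s0, s1, s2⟩ | ⟨s0, s1, s2⟩ <;>
    rcases sg_cases x with hx | hx <;> rcases sg_cases y with hy | hy <;>
    rw [s2, hx, mul_re, mul_im, s1, hy, mul_re, mul_im] at b1 b2 <;> clear s1 s2 h h1 hx hy <;>
    dsimp only at b1 b2 <;> subst s0 <;>
    first
    | (exfalso; omega)
    | (rw [one_mul]; exact zcast (by omega))
    | (have h2 := zcast (a := q.re + q.im) (b := 2 * A.im) (by omega)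
       rw [h2, Int.cast_mul]
       rfl)

section final

variable {i₀ : QB} {hi : i₀ ^ 2 + i₀ + 1 = 0} {D : Ei} {u : QB} {a h : GK i₀ → ZMod 3}
  {ι : QB →ₐ[ℚ] PadicAlgCl 3} {R : Pt (PadicAlgCl 3)}

/-- **The local condition.** -/
theorem core7 {σ' : ZMod 3} {A q : Ei} (hDd : D = 1 + 3 * A) (hA : (3 : ℤ) ∣ A.re + A.im)
    (hT : Tw hi D u a) (hK : Kc hi (w ^ σ'.val * (1 + 3 * q)) h)
    (hS : St1 hi ι a h R) : ((q.re + q.im : ℤ) : ZMod 3) = σ' * ((A.im : ℤ) : ZMod 3) := by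
  have hI := iota_sq' hi ι
  have hlp := lam_pos hI
  have hl1 := norm_lam_lt hI
  have hl := norm_lam hI
  obtain ⟨r, hr⟩ : ∃ r, r = ‖1 + 2 * ι i₀‖ := ⟨_, rfl⟩
  have h3r : ‖(3 : PadicAlgCl 3)‖ = r ^ 2 := by rw [hr, norm_three', hl]
  have hwn : ∀ n : ℕ, ‖ev (ι i₀) hI (w ^ n)‖ = 1 := by
    intro n
    have h3 : ι i₀ ^ 3 = 1 := by linear_combination (ι i₀ - 1) * hI
    have h4 : ‖ι i₀‖ = 1 := by
      have := congrArg norm h3
      rw [norm_pow, norm_one] at this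
      exact (pow_eq_one_iff_of_nonneg (norm_nonneg _) three_ne_zero).1 this
    rw [map_pow, ev_w, norm_pow, h4, one_pow]
  have hqn : ∀ q : Ei, ‖ev (ι i₀) hI (1 + 3 * q)‖ = 1 := by
    intro q
    rw [map_add, map_one, map_mul, map_ofNat]
    exact norm_one_add (ev_le hI q)
  obtain ⟨δ, hδ⟩ : ∃ δ, δ = ev (ι i₀) hI D := ⟨_, rfl⟩
  have hδm : δ ∈ Kl (ι i₀) := by rw [hδ]; exact ev_mem hI D
  have hδ1 : ‖δ‖ = 1 := by rw [hδ, hDd]; exact hqn A
  -- `D` is one modulo `lam ^ 3`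
  have hδ3 : ‖δ - 1‖ ≤ r ^ 3 := by
    obtain ⟨k, hk⟩ := hA
    have hlA : lam ∣ A := by
      refine ⟨⟨A.im - k, A.im - 2 * k⟩, ?_⟩
      have e1 : lam.re = 1 := by decide
      have e2 : lam.im = 2 := by decide
      refine QuadraticAlgebra.ext ?_ ?_
      · rw [mul_re, e1, e2]
        dsimp only
        linarith
      · rw [mul_im, e1, e2]
        dsimp only
        linarith
    obtain ⟨B, hB⟩ := hlA
    have e : δ - 1 = 3 * ((1 + 2 * ι i₀) * ev (ι i₀) hI B) := by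
      rw [hδ, hDd, hB, map_add, map_one, map_mul, map_mul, map_ofNat, ev_lam]
      ring
    rw [e, norm_mul, norm_mul, h3r, ← hr]
    calc r ^ 2 * (r * ‖ev (ι i₀) hI B‖) ≤ r ^ 2 * (r * 1) := by
          rw [← hr] at hlp
          have := ev_le hI B
          gcongr
      _ = r ^ 3 := by ring
  have hU3 : ι u ^ 3 = δ := by
    rw [← map_pow, hT.cube, iota_ev' hi ι, hδ]
  rw [← hr] at hlp hl1
  have hδ0 : δ ≠ 0 := by
    intro h0
    rw [h0, norm_zero] at hδ1
    exact zero_ne_one hδ1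
  have hU0 : ι u ≠ 0 := by
    intro h0
    rw [h0, zero_pow three_ne_zero] at hU3
    exact hδ0 hU3.symm
  -- the cube root
  obtain ⟨z, hz⟩ : ∃ z, z = w ^ σ'.val * (1 + 3 * q) := ⟨_, rfl⟩
  rw [← hz] at hK
  obtain ⟨s, hs⟩ := IsAlgClosed.exists_pow_nat_eq (ev i₀ hi z) (n := 3) (by norm_num)
  obtain ⟨Z, hZd⟩ : ∃ Z, Z = ev (ι i₀) hI z := ⟨_, rfl⟩
  have hZ : ι s ^ 3 = Z := by
    rw [← map_pow, hs, iota_ev' hi ι, hZd]
  have hts : ∀ (τ : Au 3) (σ : GK i₀), Cmp ι τ σ → τ (ι s) = ι i₀ ^ (h σ).val * ι s := by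
    intro τ σ hc
    rw [hc, hK s hs σ, map_mul, map_pow]
  have hZn : ‖Z‖ = 1 := by
    rw [hZd, hz, map_mul, norm_mul, hwn, hqn, one_mul]
  have hZ0 : Z ≠ 0 := by
    intro h0
    rw [h0, norm_zero] at hZn
    exact zero_ne_one hZn
  have hs0 : ι s ≠ 0 := fun h0 => hZ0 (by rw [← hZ, h0, zero_pow three_ne_zero])
  have hsn : ‖ι s‖ = 1 := by
    have h1 : ‖ι s‖ ^ 3 = 1 := by rw [← norm_pow, hZ, hZn]
    exact (pow_eq_one_iff_of_nonneg (norm_nonneg _) three_ne_zero).1 h1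
  have hZm : Z ∈ Kl (ι i₀) := by rw [hZd]; exact ev_mem hI _
  -- the conclusion from a cube close to `Z`
  have key : ∀ c : PadicAlgCl 3, c ∈ Kl (ι i₀) → ‖c‖ = 1 → ‖Z - c ^ 3‖ ≤ r ^ 3 →
      ((q.re + q.im : ℤ) : ZMod 3) = σ' * ((A.im : ℤ) : ZMod 3) := by
    intro c hc hc1 hcz
    obtain ⟨x, hx⟩ := cube_unit' hI hc hc1
    have h1 : ‖ev (ι i₀) hI (z - sg x)‖ ≤ ‖1 + 2 * ι i₀‖ ^ 3 := by
      have e : ev (ι i₀) hI (z - sg x) = (Z - c ^ 3) + (c ^ 3 - ev (ι i₀) hI (sg x)) := by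
        rw [map_sub, hZd]
        ring
      rw [e]
      rw [hr] at hcz
      exact add_le hcz hx
    have h2 := lam_pow_dvd hI 3 _ h1
    rw [hz] at h2
    obtain ⟨h3, h4⟩ := concl1 h2
    rw [h3, h4, zero_mul]
  by_cases hQ0 : R - im (isE _) hI R = 0
  · -- `R` is a multiple of `T`
    obtain ⟨c, hc⟩ := ker_tt hI hQ0
    have hm : ι s ∈ Kl (ι i₀) := by
      intro τ hτ
      obtain ⟨σ, hcm⟩ := exists_cmp ι τ hτ
      have h1 := hS τ σ hcm
      rw [hc, pm_tt, jj_tt, sub_self] at h1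
      have h2 := tt_eq_zero.1 h1.symm
      rw [hts τ σ hcm, h2, ZMod.val_zero, pow_zero, one_mul]
    exact key (ι s) hm hsn (by rw [hZ, sub_self, norm_zero]; positivity)
  · obtain ⟨x, y, hn, hR⟩ : ∃ x y, ∃ hn : (W0.baseChange (PadicAlgCl 3)).toAffine.Nonsingular x y,
        R = .some x y hn := by
      rcases R with _ | ⟨x, y, hn⟩
      · exfalso
        apply hQ0
        show (0 : Pt (PadicAlgCl 3)) - im (isE _) hI 0 = 0
        rw [map_zero, sub_zero]
      · exact ⟨x, y, hn, rfl⟩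
    have he := ((isE _).eqn x y).1 hn.1
    have hx : x ≠ 0 := by
      intro h0
      apply hQ0
      rw [hR, im_some, sub_eq_zero, Affine.Point.some.injEq]
      exact ⟨by rw [h0, mul_zero], rfl⟩
    obtain ⟨XQ, hnQ, eQ⟩ : ∃ XQ, ∃ hnQ : (W0.baseChange (PadicAlgCl 3)).toAffine.Nonsingular XQ
        (gg (ι i₀) R ^ 3), R - im (isE _) hI R = .some XQ _ hnQ := by
      rw [hR]
      obtain ⟨XQ, hnQ, eQ, -⟩ := one_sub_im (isE _) hI hn hx
      exact ⟨XQ, hnQ, eQ⟩
    by_cases hG : gg (ι i₀) R = 0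
    · -- `R - J R = T`
      have hlam := lam_ne (isE (PadicAlgCl 3)) hI
      have hy : y = ι i₀ ^ 2 := by
        rw [hR, gg_some, div_eq_zero_iff] at hG
        rcases hG with h1 | h1
        · exact sub_eq_zero.1 h1
        · exact absurd h1 (mul_ne_zero hlam hx)
      have h0 := (isE (PadicAlgCl 3)).neg_nons hn
      have hR' : -R = .some x (-y - 1) h0 := by
        rw [hR]
        exact (isE _).neg_eq hn h0
      have hgg : gg (ι i₀) (-R) = 1 / x := by
        rw [hR', gg_some, hy, div_eq_div_iff (mul_ne_zero hlam hx) hx]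
        linear_combination (-2 * x) * hI
      have hx3 : x ^ 3 = -1 := by
        rw [← he, hy]
        linear_combination (ι i₀ ^ 2 - ι i₀ + 1) * hI
      have hW3 : (ι u * gg (ι i₀) (-R)) ^ 3 = -δ := by
        rw [hgg, mul_pow, hU3, div_pow, hx3]
        ring
      have hm : ι s / (ι u * gg (ι i₀) (-R)) ∈ Kl (ι i₀) := by
        intro τ hτ
        obtain ⟨σ, hcm⟩ := exists_cmp ι τ hτ
        rw [map_div₀, hts τ σ hcm, tau_g hT (st1_neg hS) hR' hx hcm]
        have h1 := pow_three hI (-h σ)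
        rw [neg_neg] at h1
        rw [← h1, mul_div_mul_left]
        exact pow_ne_zero _ (I_ne (isE (PadicAlgCl 3)) hI)
      obtain ⟨c, hcd⟩ : ∃ c, c = ι s / (ι u * gg (ι i₀) (-R)) := ⟨_, rfl⟩
      rw [← hcd] at hm
      have hc3 : c ^ 3 = -(Z / δ) := by
        rw [hcd, div_pow, hZ, hW3, div_neg]
      have hc1 : ‖-c‖ = 1 := by
        have h5 : ‖-c‖ ^ 3 = 1 := by
          rw [norm_neg, ← norm_pow, hc3, norm_neg, norm_div, hZn, hδ1, div_one]
        exact (pow_eq_one_iff_of_nonneg (norm_nonneg _) three_ne_zero).1 h5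
      refine key (-c) (neg_mem hm) hc1 ?_
      have e : Z - (-c) ^ 3 = Z / δ * (δ - 1) := by
        have e1 : (-c) ^ 3 = Z / δ := by
          rw [neg_pow, hc3]
          ring
        rw [e1]
        field_simp
      rw [e, norm_mul, norm_div, hZn, hδ1, div_one, one_mul]
      exact hδ3
    · -- the general case
      have hW0 : ι u * gg (ι i₀) R ≠ 0 := mul_ne_zero hU0 hG
      have hm : ι s * (ι u * gg (ι i₀) R) ∈ Kl (ι i₀) := by
        intro τ hτ
        obtain ⟨σ, hcm⟩ := exists_cmp ι τ hτ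
        rw [map_mul, hts τ σ hcm, tau_g hT hS hR hx hcm]
        have h1 := pow_cancel hI (h σ)
        linear_combination (ι s * (ι u * gg (ι i₀) R)) * h1
      obtain ⟨W, hW⟩ : ∃ W, W = ι u * gg (ι i₀) R := ⟨_, rfl⟩
      rw [← hW] at hm hW0
      have hYm : W ^ 3 ∈ Kl (ι i₀) := by
        have e : W ^ 3 = (ι s * W) ^ 3 / Z := by
          rw [mul_pow, hZ, mul_div_cancel_left₀ _ hZ0]
        rw [e]
        exact div_mem (pow_mem hm 3) hZm
      obtain ⟨X, hX⟩ : ∃ X, X = ι u ^ 2 * XQ := ⟨_, rfl⟩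
      have hXm : X ∈ Kl (ι i₀) := by rw [hX]; exact tau_X hT hS eQ
      have heq := ((isE _).eqn _ _).1 hnQ.1
      have heY : (W ^ 3) ^ 2 + δ * W ^ 3 = X ^ 3 := by
        rw [hX, hW, ← hU3]
        linear_combination (ι u ^ 6) * heq
      obtain ⟨Y, hY⟩ : ∃ Y, Y = W ^ 3 := ⟨_, rfl⟩
      rw [← hY] at heY hYm
      have hY0 : Y ≠ 0 := by rw [hY]; exact pow_ne_zero 3 hW0
      obtain ⟨V, hV⟩ : ∃ V, V = ι s * W := ⟨_, rfl⟩
      rw [← hV] at hm
      have hV3 : V ^ 3 = Z * Y := by rw [hV, mul_pow, hZ, hY]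
      have hV0 : V ≠ 0 := by rw [hV]; exact mul_ne_zero hs0 hW0
      have hYn : ‖V‖ ^ 3 = ‖Y‖ := by rw [← norm_pow, hV3, norm_mul, hZn, one_mul]
      have hXn : ‖X‖ ^ 3 = ‖Y‖ * ‖Y + δ‖ := by
        rw [← norm_pow, ← heY, ← norm_mul]
        congr 1
        ring
      have h31 : r ^ 3 < 1 := pow_lt_one₀ hlp.le hl1 (by norm_num)
      rcases lt_trichotomy ‖V‖ 1 with h1 | h1 | h1
      · -- `Y` is small
        have h2 : ‖V‖ ≤ r := by rw [hr]; exact le_lam hI (Kl_le hm) h1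
        have h3 : ‖Y‖ ≤ r ^ 3 := by
          rw [← hYn]
          exact pow_le_pow_left₀ (norm_nonneg _) h2 3
        have h4 : ‖Y + δ‖ = 1 := by
          rw [add_comm, eq_of_lt, hδ1]
          rw [hδ1]
          exact h3.trans_lt h31
        have hX0 : X ≠ 0 := by
          rintro rfl
          rw [h4, norm_zero, zero_pow three_ne_zero, mul_one] at hXn
          exact hY0 (norm_eq_zero.1 hXn.symm)
        have hc3 : (V / X) ^ 3 = Z / (Y + δ) := by
          have h5 : Y + δ ≠ 0 := by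
            intro h0
            rw [h0, norm_zero] at h4
            exact zero_ne_one h4
          rw [div_pow, hV3, ← heY, div_eq_div_iff _ h5]
          · ring
          · rw [heY]
            exact pow_ne_zero 3 hX0
        have hc1 : ‖V / X‖ = 1 := by
          have h5 : ‖V / X‖ ^ 3 = 1 := by
            rw [← norm_pow, hc3, norm_div, hZn, h4, div_one]
          exact (pow_eq_one_iff_of_nonneg (norm_nonneg _) three_ne_zero).1 h5
        refine key (V / X) (div_mem hm hXm) hc1 ?_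
        have h5 : Y + δ ≠ 0 := by
          intro h0
          rw [h0, norm_zero] at h4
          exact zero_ne_one h4
        have e : Z - (V / X) ^ 3 = Z / (Y + δ) * (Y + (δ - 1)) := by
          rw [hc3]
          field_simp
          ring
        rw [e, norm_mul, norm_div, hZn, h4, div_one, one_mul]
        exact add_le h3 hδ3
      · -- `Y` is a unit
        have h2 : ‖Y‖ = 1 := by rw [← hYn, h1, one_pow]
        rw [h2, one_mul] at hXn
        rcases lt_or_ge ‖X‖ 1 with h3 | h3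
        · have h4 : ‖X‖ ≤ r := by rw [hr]; exact le_lam hI (Kl_le hXm) h3
          have h5 : ‖Y + δ‖ ≤ r ^ 3 := by
            rw [← hXn]
            exact pow_le_pow_left₀ (norm_nonneg _) h4 3
          refine key (-V) (neg_mem hm) (by rw [norm_neg, h1]) ?_
          have e : Z - (-V) ^ 3 = Z * ((Y + δ) - (δ - 1)) := by
            rw [neg_pow, hV3]
            ring
          rw [e, norm_mul, hZn, one_mul, sub_eq_add_neg]
          exact add_le h5 (by rw [norm_neg]; exact hδ3)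
        · have h4 : ‖X‖ = 1 := by
            refine le_antisymm ?_ h3
            have h5 : ‖Y + δ‖ ≤ 1 := add_le h2.le hδ1.le
            rw [← hXn] at h5
            by_contra hcon
            push Not at hcon
            have h6 : 1 < ‖X‖ ^ 3 := one_lt_pow₀ hcon three_ne_zero
            linarith
          obtain ⟨x', hx'⟩ := cube_unit4 hI hXm h4
          obtain ⟨y', hy'⟩ := cube_unit4 hI hm h1
          rw [← hr] at hx' hy'
          refine concl4 (x := x') (y := y') hA ?_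
          rw [← lam_four]
          refine lam_pow_dvd hI 4 _ ?_
          rw [← hz, ← hDd, map_sub, map_add, map_mul, map_mul, map_mul, map_pow, map_one, ← hZd,
            ← hδ, ← hr]
          set ex := ev (ι i₀) hI (sg x')
          set ey := ev (ι i₀) hI (sg y') with hey
          have hey2 : ey ^ 2 = 1 := by rw [hey, ← map_pow, sg_sq, map_one]
          have heyn : ‖ey‖ = 1 := by
            have := congrArg norm hey2
            rw [norm_pow, norm_one] at this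
            exact (pow_eq_one_iff_of_nonneg (norm_nonneg _) two_ne_zero).1 this
          have e : 1 + ey * (δ * Z) - ex * Z ^ 2 =
              (Z ^ 2 * (X ^ 3 - ex)) + (-((V ^ 3 - ey) * (V ^ 3 + ey)) +
                -(δ * Z * (V ^ 3 - ey))) := by
            rw [← heY, hV3]
            linear_combination -hey2
          rw [e]
          refine add_le ?_ (add_le ?_ ?_)
          · rw [norm_mul, norm_pow, hZn, one_pow, one_mul]
            exact hx'
          · rw [norm_neg, norm_mul]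
            have h5 : ‖V ^ 3 + ey‖ ≤ 1 := add_le (by rw [norm_pow, h1, one_pow]) heyn.le
            calc ‖V ^ 3 - ey‖ * ‖V ^ 3 + ey‖ ≤ r ^ 4 * 1 :=
                  mul_le_mul hy' h5 (norm_nonneg _) (by positivity)
              _ = r ^ 4 := mul_one _
          · rw [norm_neg, norm_mul, norm_mul, hδ1, hZn, one_mul, one_mul]
            exact hy'
      · -- `Y` is large
        have h2 : ‖V⁻¹‖ ≤ r := by
          rw [hr]
          refine le_lam hI (Kl_le (inv_mem hm)) ?_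
          rw [norm_inv]
          exact inv_lt_one_of_one_lt₀ h1
        have h3 : ‖δ / Y‖ ≤ r ^ 3 := by
          have e : ‖δ / Y‖ = ‖V⁻¹‖ ^ 3 := by
            rw [norm_div, hδ1, norm_inv, inv_pow, hYn, one_div]
          rw [e]
          exact pow_le_pow_left₀ (norm_nonneg _) h2 3
        have hc3 : (V * X / Y) ^ 3 = Z * (1 + δ / Y) := by
          rw [div_pow, mul_pow, hV3, ← heY]
          field_simp
        have hc1 : ‖V * X / Y‖ = 1 := by
          have h5 : ‖V * X / Y‖ ^ 3 = 1 := by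
            rw [← norm_pow, hc3, norm_mul, hZn, one_mul, eq_of_lt, norm_one]
            rw [norm_one]
            exact h3.trans_lt h31
          exact (pow_eq_one_iff_of_nonneg (norm_nonneg _) three_ne_zero).1 h5
        refine key (V * X / Y) (div_mem (mul_mem hm hXm) hYm) hc1 ?_
        have e : Z - (V * X / Y) ^ 3 = -(Z * (δ / Y)) := by
          rw [hc3]
          ring
        rw [e, norm_neg, norm_mul, hZn, one_mul]
        exact h3

end final

/-- **L7** -/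
theorem s_L7 : S_L7 := by
  intro i₀ hi D u a h ι R σ' A q hD hA hT hK hS
  exact core7 hD ((ZMod.intCast_zmod_eq_zero_iff_dvd _ 3).1 hA) hT hK hS

end Pool.Agent.Helper68.C7.Loc7
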