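import Pool.Agent.Helper68.C7.Vv7

/-!
# Functionals on the integers modulo the elements smaller than `√-3`
-/

set_option autoImplicit false
set_option linter.unusedSectionVars false

namespace Pool.Agent.Helper68.N7.Rd7

open Pool.Agent.Y715.T.Three Pool.Agent.Y715.T.Cg
open Pool.Agent.Y715.Two (v_nat v_int v_unit v_mul_le_of)

variable {Γ : Type*} [LinearOrderedCommGroupWithZero Γ] (v : Valuation ℂ Γ)

/-- the integral elements -/
def OO : AddSubgroup ℂ where
  carrier := {x | v x ≤ 1}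
  add_mem' := fun ha hb => v.map_add_le ha hb
  zero_mem' := by
    show v 0 ≤ 1
    rw [map_zero]
    exact zero_le_one
  neg_mem' := fun {x} ha => by
    show v (-x) ≤ 1
    rw [v.map_neg]
    exact ha

/-- the small elements -/
def M2 : AddSubgroup (OO v) where
  carrier := {x | v (x : ℂ) < v lam}
  add_mem' := fun {a b} ha hb => by
    show v ((a : ℂ) + b) < v lam
    exact v.map_add_lt ha hb
  zero_mem' := by
    show v 0 < v lam
    rw [map_zero]
    exact lam_pos
  neg_mem' := fun {x} ha => by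
    show v (-(x : ℂ)) < v lam
    rw [v.map_neg]
    exact ha

/-- a functional: additive on the integral elements, zero on the small elements -/
structure Fn (φ : ℂ → ZMod 3) : Prop where
  add : ∀ x y, v x ≤ 1 → v y ≤ 1 → φ (x + y) = φ x + φ y
  small : ∀ x, v x < v lam → φ x = 0

variable {v}

variable {φ : ℂ → ZMod 3} (h : Fn v φ) (h3 : v 3 < 1)

include h

lemma Fn.zero : φ 0 = 0 := h.small 0 (by rw [map_zero]; exact lam_pos)

lemma Fn.neg {x : ℂ} (hx : v x ≤ 1) : φ (-x) = -φ x := by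
  have h1 := h.add x (-x) hx (by rwa [v.map_neg])
  rw [add_neg_cancel, h.zero] at h1
  linear_combination -h1

lemma Fn.sub {x y : ℂ} (hx : v x ≤ 1) (hy : v y ≤ 1) : φ (x - y) = φ x - φ y := by
  rw [sub_eq_add_neg, h.add x (-y) hx (by rwa [v.map_neg]), h.neg hy, sub_eq_add_neg]

lemma Fn.congr {x y : ℂ} (hx : v x ≤ 1) (hy : v y ≤ 1) (hxy : v (x - y) < v lam) : φ x = φ y := by
  rw [← sub_eq_zero, ← h.sub hx hy]
  exact h.small _ hxy

lemma Fn.sum {ι : Type*} (s : Finset ι) (f : ι → ℂ) (hf : ∀ i ∈ s, v (f i) ≤ 1) :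
    φ (∑ i ∈ s, f i) = ∑ i ∈ s, φ (f i) := by
  classical
  induction s using Finset.induction_on with
  | empty => rw [Finset.sum_empty, Finset.sum_empty, h.zero]
  | insert i s hi ih =>
    rw [Finset.sum_insert hi, Finset.sum_insert hi, h.add _ _ (hf i (Finset.mem_insert_self i s))
      (v.map_sum_le fun j hj => hf j (Finset.mem_insert_of_mem hj)),
      ih fun j hj => hf j (Finset.mem_insert_of_mem hj)]

lemma Fn.nat (n : ℕ) {x : ℂ} (hx : v x ≤ 1) : φ (n * x) = (n : ZMod 3) * φ x := by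
  induction n with
  | zero => rw [Nat.cast_zero, zero_mul, h.zero, Nat.cast_zero, zero_mul]
  | succ n ih =>
    have e : ((n + 1 : ℕ) : ℂ) * x = n * x + x := by push_cast; ring
    rw [e, h.add _ _ (v_mul_le_of (v_nat n) hx) hx, ih]
    push_cast
    ring

lemma Fn.int (n : ℤ) {x : ℂ} (hx : v x ≤ 1) : φ (n * x) = (n : ZMod 3) * φ x := by
  obtain ⟨m, rfl | rfl⟩ := n.eq_nat_or_neg
  · exact_mod_cast h.nat m hx
  · push_cast
    rw [neg_mul, h.neg (v_mul_le_of (v_nat m) hx), h.nat m hx]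
    ring

/-- multiplication by an element of the prime field, represented by a residue -/
lemma Fn.val (c : ZMod 3) {x : ℂ} (hx : v x ≤ 1) : φ ((c.val : ℂ) * x) = c * φ x := by
  rw [h.nat _ hx, ZMod.natCast_zmod_val]

omit h

/-- the functionals separate the elements -/
theorem sep (h3 : v 3 < 1) {x y : ℂ} (hx : v x ≤ 1) (hy : v y ≤ 1)
    (hxy : ∀ φ : ℂ → ZMod 3, Fn v φ → φ x = φ y) : v (x - y) < v lam := by
  classical
  have h3l : v 3 < v lam := by
    rw [← sq_three]
    calc v lam * v lam < v lam * 1 := mul_lt_mul_of_pos_left (lam_lt h3) lam_pos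
      _ = v lam := mul_one _
  have htor : ∀ q : OO v ⧸ M2 v, 3 • q = 0 := by
    intro q
    obtain ⟨a, rfl⟩ := QuotientAddGroup.mk_surjective q
    rw [← QuotientAddGroup.mk_nsmul, QuotientAddGroup.eq_zero_iff]
    show v (((3 • a : OO v) : ℂ)) < v lam
    have e : ((3 • a : OO v) : ℂ) = 3 * (a : ℂ) := by
      rw [AddSubgroup.coe_nsmul, nsmul_eq_mul]
      norm_num
    rw [e, map_mul]
    have ha : v (a : ℂ) ≤ 1 := a.2
    calc v 3 * v (a : ℂ) ≤ v 3 * 1 := mul_le_mul' le_rfl ha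
      _ = v 3 := mul_one _
      _ < v lam := h3l
  let _ : Module (ZMod 3) (OO v ⧸ M2 v) := AddCommGroup.zmodModule htor
  have hfact : Fact (Nat.Prime 3) := ⟨Nat.prime_three⟩
  by_contra hcon
  set a : OO v := ⟨x, hx⟩ - ⟨y, hy⟩ with ha
  have hne : (QuotientAddGroup.mk a : OO v ⧸ M2 v) ≠ 0 := by
    intro h0
    rw [QuotientAddGroup.eq_zero_iff] at h0
    exact hcon h0
  have h1 : ∃ f : Module.Dual (ZMod 3) (OO v ⧸ M2 v), f (QuotientAddGroup.mk a) ≠ 0 := by
    by_contra hno
    push Not at hno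
    exact hne ((Module.forall_dual_apply_eq_zero_iff (ZMod 3) _).1 hno)
  obtain ⟨f, hf⟩ := h1
  set φ : ℂ → ZMod 3 := fun z => if hz : v z ≤ 1 then f (QuotientAddGroup.mk (⟨z, hz⟩ : OO v))
    else 0 with hφ
  have hof : ∀ (z : ℂ) (hz : v z ≤ 1), φ z = f (QuotientAddGroup.mk (⟨z, hz⟩ : OO v)) :=
    fun z hz => dif_pos hz
  have hFn : Fn v φ := by
    refine ⟨fun p q hp hq => ?_, fun p hp => ?_⟩
    · rw [hof p hp, hof q hq, hof (p + q) (v.map_add_le hp hq), ← map_add]
      rfl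
    · have hp1 : v p ≤ 1 := hp.le.trans (lam_lt h3).le
      rw [hof p hp1]
      have : (QuotientAddGroup.mk (⟨p, hp1⟩ : OO v) : OO v ⧸ M2 v) = 0 := by
        rw [QuotientAddGroup.eq_zero_iff]
        exact hp
      rw [this, map_zero]
  apply hf
  have h2 := hxy φ hFn
  rw [hof x hx, hof y hy, ← sub_eq_zero, ← map_sub] at h2
  exact h2

end Pool.Agent.Helper68.N7.Rd7
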