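import Pool.Agent.Helper68.C7.StF

/-!
# The last class: the combination of the recursions, statement
-/

set_option autoImplicit false

open Finset

namespace Pool.Agent.Helper68.C7

/-- **Statement C3.** `s = A + m` solves the recursion
`∑_T (-1)^|T| ∏_(j ∉ T) (n_j + ϖ (ε_j n_j² - r_j)) s_T = [|S| = 1] (r + ϖ y) + B_S (∏ a)`,
`n_j = ∑_(i ∈ T) g i j`, where `ϖ² = ϖ m = 0`; the value at the full set is `ϖ C`, with `C ≠ 0`
exactly when the bordered system has only the constant solutions. -/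
def S_C3 : Prop :=
  ∀ (ι : Type) [Fintype ι] [Nonempty ι] [DecidableEq ι] (g : ι → ι → ZMod 3)
    (r y ε : ι → ZMod 3), (∀ i j, i ≠ j → g i j = g j i) → (∀ i, ε i ≠ 0) → ∑ i, r i = 0 →
    ∃ C : ZMod 3, (C ≠ 0 ↔ Ker3 g r y) ∧
      ∀ (e : ZMod 3) (B : Finset ι → ((ι → ZMod 3) → ZMod 3) → ZMod 3)
        (A m : Finset ι → ZMod 3), Bd g r ε e B →
        (∀ S : Finset ι, S.Nonempty → (∀ i ∈ S, r i = 0) → B S (fun a => ∏ i ∈ S, a i) = 0) →
        (∀ S : Finset ι, S.Nonempty →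
          ∑ T ∈ S.powerset.erase ∅, (-1) ^ T.card * ((∏ j ∈ S \ T, ∑ i ∈ T, g i j) * A T) =
            if S.card = 1 then ∑ i ∈ S, r i else 0) →
        (∀ S : Finset ι, S.Nonempty →
          ∑ T ∈ S.powerset.erase ∅, (-1) ^ T.card * ((∏ j ∈ S \ T, ∑ i ∈ T, g i j) * m T +
            e * A T * ∑ i ∈ S \ T, (ε i * (∑ l ∈ T, g l i) ^ 2 - r i) *
              ∏ j ∈ (S \ T).erase i, ∑ l ∈ T, g l j) =
            (if S.card = 1 then e * ∑ i ∈ S, y i else 0) + B S (fun a => ∏ i ∈ S, a i)) →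
        A univ = 0 ∧ m univ = e * C

end Pool.Agent.Helper68.C7
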