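import Pool.Agent.Helper68.C7.Dig7
import Pool.Agent.Helper68.C7.StG

/-!
# The recursion
-/

set_option autoImplicit false
set_option linter.unusedSectionVars false

open scoped Topology PeriodPair Classical

namespace Pool.Agent.Helper68.N7.Rec7

open H667R3 Pool.Agent.W192.HK Pool.Agent.TH936.CM Pool.Agent.TH936.PU
open Pool.Agent.Y692.QS (Ei w toC nr nr_nonneg)
open Pool.Agent.Y703.CT
open Pool.Agent.Y715.Dist Pool.Agent.Y715.Idn Pool.Agent.Y715.T.Lat Pool.Agent.Y696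
open Pool.Agent.Y715.Two (v_int v_unit v_mul_le_of)
open Pool.Agent.Y715.T.Three Pool.Agent.Y715.T.Cg
open Pool.Agent.Y715.T.Comb (D D_one D_rec)
open Pool.Agent.Y715.T.Rs (eq0)
open Pool.Agent.Y715.T.Rec (cs)
open Pool.Agent.Y715.T.RecG (Pq cs_mul cs_congr)
open Pool.Agent.Y703.CT.Ana (om_val Fy.cop_iff Fy.three_cc Fy.cc_top SQ SQ_empty sT sT_cg dl PX
  PX_zero kap_ne)
open Pool.Agent.Helper68.C2.Chr (tq tq_prim)
open Pool.Agent.Helper68.C5.Chr5 (ts ts_prim lt)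
open Pool.Agent.Helper68.C6 (Sk Tk)
open Pool.Agent.Helper68.C6.Mom6 (lg lg_of lg_zero lg_per lg_mul lg_surj lg_om lg_card card_quo'
)
open Pool.Agent.Helper68.C6.Ana6 (Pt6)
open Pool.Agent.Helper68.C7 (Wd3 BB Bd Dp S_T3 S_C3)
open Pool.Agent.Helper68.N7.Vv7 Pool.Agent.Helper68.N7.Rd7
open Pool.Agent.Helper68.N7.Wd7 (l7 g7 r7 y7 U7 esq pt_cc)
open Pool.Agent.Helper68.N7.Dig7

variable {Γ : Type*} [LinearOrderedCommGroupWithZero Γ] {v : Valuation ℂ Γ}
variable {ι : Type} {π : ι → Ei} {e : ι → ZMod 3} {L : PeriodPair} {Ω : ℂ}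

/-- the representative `0`, `1` or `-1` -/
def sg (c : ZMod 3) : ℤ := c.valMinAbs

lemma sg_cast (c : ZMod 3) : ((sg c : ℤ) : ZMod 3) = c := ZMod.coe_valMinAbs c

lemma sg_ne {c : ZMod 3} (h : c ≠ 0) : sg c ≠ 0 := by
  intro h1
  apply h
  rw [← sg_cast c, h1, Int.cast_zero]

/-- the sign of a set -/
noncomputable def kS (e : ι → ZMod 3) (T : Finset ι) : ℂ := ∏ i ∈ T, ((sg (e i) : ℤ) : ℂ)

lemma C2.toCg {x : ℂ} {a b : ZMod 3} (h3 : v 3 < 1) (h : C2 v x a b) : Cg v x a := by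
  obtain ⟨p, q, h1, -, h4⟩ := h
  rw [← h1]
  have h5 := Pool.Agent.Y715.T.Cg.Cg.int h3 p
  refine Cg.of_sub (t := (p : ℂ)) ?_ h5
  have e1 : x - p = (x - (p + (1 - om) * q)) + (1 - om) * q := by ring
  rw [e1]
  refine v.map_add_lt (h4.trans (lam_lt h3)) ?_
  rw [map_mul, om_val h3]
  calc v lam * v (q : ℂ) ≤ v lam * 1 := mul_le_mul' le_rfl (Pool.Agent.Y715.Two.v_int _)
    _ = v lam := mul_one _
    _ < 1 := lam_lt h3

lemma toC_w : toC w = om := Pool.Agent.Helper68.C2.Lim.toC_w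

section main

variable [DecidableEq ι]

section s7

variable [Fintype (eis ⧸ (sp 3 : Ideal eis))]

/-- the normalized sums -/
noncomputable def s7 (L : PeriodPair) (Ω : ℂ) (π : ι → Ei) (e : ι → ZMod 3) (T : Finset ι) : ℂ :=
  kS e T * SQ L Ω (fun i => eq0 (π i)) (Xc π e) T / (kap L Ω * (3 * th ^ (T.card - 1)))

end s7

/-- the sums modulo the maximal ideal -/
noncomputable def A7 [Fintype ι] (π : ι → Ei) (e : ι → ZMod 3) (T : Finset ι) : ZMod 3 :=
  (∏ i ∈ T, e i) * D (am π e) (fun i => -rq (π i)) T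

lemma w_zt (h3 : v 3 < 1) : Zt v (toC w) := zt_of_prim h3 (k := 1) le_rfl (by
    rw [pow_one]
    exact Pool.Agent.Y715.T.Fin.prim_w)

lemma w_val (h3 : v 3 < 1) : v (1 - toC w) = v lam := by
  rw [toC_w]
  exact om_val h3

variable [Fintype (eis ⧸ (sp 3 : Ideal eis))]
variable (h3 : v 3 < 1) (hC : Cur L Ω) (h : Dt π e) {φ : ℂ → ZMod 3} (hφ : Fn v φ)

omit [Fintype (eis ⧸ (sp 3 : Ideal eis))] in
lemma am_g (_h : Dt π e) (i l : ι) : g7 π e l i = e i * am π e i l := by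
  unfold g7 am
  ring

include h3 hC h in
lemma s7_cg [Fintype ι] {T : Finset ι} (hT : T.Nonempty) : Cg v (s7 L Ω π e T) (A7 π e T) := by
  have hfin := Pool.Agent.Y715.T.LF.fin_quot
  have hfy := fy (v := v) h3 h
  have hz := w_zt (v := v) h3
  have hzl := w_val (v := v) h3
  have h3π : ∀ i, eq0 (π i) - 1 ∈ (sp 3 : Ideal eis) := fun i =>
    Pool.Agent.Y715.T.Ex.three_mem.2 (h.pq i).three
  have h1 := sT_cg h3 hC hfin hfy hz hzl h3π T hT
  have h2 : Cg v (kS e T) (∏ i ∈ T, e i) := by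
    unfold kS
    refine Cg.prod h3 _ fun i _ => ?_
    have := Pool.Agent.Y715.T.Cg.Cg.int h3 (sg (e i))
    rwa [sg_cast] at this
  have h4 : Cg v ((om ^ 2) ^ (T.card - 1)) 1 := by
    rw [← pow_mul]
    exact C2.toCg h3 (C2.om_pow h3 _)
  have e1 : s7 L Ω π e T = kS e T * (sT L Ω (fun i => eq0 (π i)) (Xc π e) (toC w) T *
      (om ^ 2) ^ (T.card - 1)) := by
    unfold s7 sT
    rw [toC_w]
    have h5 : (1 - om) = th * om ^ 2 := by
      unfold th
      linear_combination (-(1 - om)) * om_cube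
    have h6 : om ≠ 0 := by
      intro h0
      have := om_cube
      rw [h0] at this
      norm_num at this
    have hk := kap_ne hC
    have ht := th_ne
    have h7 : (1 - om) ^ (T.card - 1) = th ^ (T.card - 1) * (om ^ 2) ^ (T.card - 1) := by
      rw [h5, mul_pow]
    rw [h7]
    field_simp
  rw [e1]
  unfold A7
  have := h2.mul h3 (h1.mul h3 h4)
  rwa [mul_one] at this

include h3 h in
/-- the factors -/
lemma fac {T : Finset ι} {i : ι} (hi : i ∉ T) :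
    C2 v (((sg (e i) : ℤ) : ℂ) * ((((eq0 (π i) : eis) : ℂ) - XT (Xc π e) T (eq0 (π i))) / th))
      (∑ l ∈ T, g7 π e l i) (e i * (∑ l ∈ T, g7 π e l i) ^ 2 - r7 π e i) := by
  have hfy := fy (v := v) h3 h
  have h7 : ∀ j ∈ T, ∃ n : ℕ, Xc π e j (eq0 (π i)) = toC w ^ n ∧ (n : ZMod 3) = am π e i j :=
    fun j hj => hfy.cub i j fun hij => hi (hij ▸ hj)
  choose! m hm1 hm2 using h7
  have h8 : XT (Xc π e) T (eq0 (π i)) = om ^ (∑ j ∈ T, m j) := by
    unfold XT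
    rw [← toC_w, ← Finset.prod_pow_eq_pow_sum]
    exact Finset.prod_congr rfl fun j hj => hm1 j hj
  obtain ⟨x, y, h1, hr⟩ := ex_q (h.pq i).three
  have e1 : ((eq0 (π i) : eis) : ℂ) = 1 + 3 * (x + y * om) := by
    rw [Pool.Agent.Y715.T.Rs.eq0_coe, h1, map_add, map_mul, map_one, map_ofNat, toC_eq']
  have e2 : (((eq0 (π i) : eis) : ℂ) - XT (Xc π e) T (eq0 (π i))) / th =
      (((eq0 (π i) : eis) : ℂ) - 1) / th + (1 - om ^ (∑ j ∈ T, m j)) / th := by
    rw [h8]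
    ring
  rw [e2]
  have h9 := (C2.lin h3 x y e1).add h3 (C2.quot (v := v) h3 (∑ j ∈ T, m j))
  have h10 := (C2.int (v := v) (sg (e i))).mul h3 h9
  have e3 : ((∑ j ∈ T, m j : ℕ) : ZMod 3) = ∑ j ∈ T, am π e i j := by
    push_cast
    exact Finset.sum_congr rfl fun j hj => hm2 j hj
  have e4 : ∑ l ∈ T, g7 π e l i = e i * ∑ j ∈ T, am π e i j := by
    rw [Finset.mul_sum]
    exact Finset.sum_congr rfl fun l _ => am_g h i l
  refine h10.cast ?_ ?_
  · rw [sg_cast, e3, e4, zero_add]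
  · rw [sg_cast, e3, e4, ← hr]
    unfold r7
    have := esq h i
    linear_combination (-(e i) * (∑ j ∈ T, am π e i j) ^ 2) * this

include hC h h3 in
/-- the identity -/
theorem main_id {S : Finset ι} (hS : S.Nonempty) :
    ∑ T ∈ S.powerset.erase ∅, (-1) ^ T.card * ((∏ i ∈ S \ T, (((sg (e i) : ℤ) : ℂ) *
      ((((eq0 (π i) : eis) : ℂ) - XT (Xc π e) T (eq0 (π i))) / th))) * s7 L Ω π e T) =
      kS e S * (∏ i ∈ S, ((Nat.card (eis ⧸ (sp (eq0 (π i)) : Ideal eis)) : ℂ) - 1) -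
        ∏ i ∈ S, (((eq0 (π i) : eis) : ℂ) - 1)) / (3 * th ^ (S.card - 1)) +
      kS e S * Sm (cc (fun i => eq0 (π i)) S) (fun x => PX (fun i => eq0 (π i)) (Xc π e) S x *
        dl L Ω (Ω * x / cc (fun i => eq0 (π i)) S)) / (3 * th ^ (S.card - 1)) := by
  have hfin := Pool.Agent.Y715.T.LF.fin_quot
  have hfy := fy (v := v) h3 h
  have h3π : ∀ i, eq0 (π i) - 1 ∈ (sp 3 : Ideal eis) := fun i =>
    Pool.Agent.Y715.T.Ex.three_mem.2 (h.pq i).three
  have hk := kap_ne hC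
  have ht := th_ne
  have hid := Pool.Agent.Y703.CT.Ana.idn hC hfin hfy h3π hS
  set P : ι → eis := fun i => eq0 (π i) with hP
  rw [← Finset.add_sum_erase _ _ (Finset.empty_mem_powerset S), SQ_empty hfin] at hid
  have hcard := Finset.card_pos.2 hS
  -- the terms
  have hterm : ∀ T ∈ S.powerset.erase ∅, (-1) ^ T.card * ((∏ i ∈ S \ T, (((sg (e i) : ℤ) : ℂ) *
      (((P i : eis) : ℂ) - XT (Xc π e) T (P i)) / th)) * s7 L Ω π e T) =
      kS e S / (kap L Ω * (3 * th ^ (S.card - 1))) * ((-1) ^ T.card * ((∏ i ∈ S \ T,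
        (((P i : eis) : ℂ) - XT (Xc π e) T (P i))) * SQ L Ω P (Xc π e) T)) := by
    intro T hT
    rw [Finset.mem_erase, Finset.mem_powerset] at hT
    have hTc : 0 < T.card := Finset.card_pos.2 (Finset.nonempty_iff_ne_empty.2 hT.1)
    have h5 : (S \ T).card + (T.card - 1) = S.card - 1 := by
      rw [Finset.card_sdiff_of_subset hT.2]
      have := Finset.card_le_card hT.2
      omega
    have h6 : kS e S = kS e (S \ T) * kS e T := by
      unfold kS
      rw [Finset.prod_sdiff hT.2]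
    have h7 : ∏ i ∈ S \ T, (((sg (e i) : ℤ) : ℂ) * (((P i : eis) : ℂ) - XT (Xc π e) T (P i)) / th) =
        kS e (S \ T) * (∏ i ∈ S \ T, (((P i : eis) : ℂ) - XT (Xc π e) T (P i))) /
          th ^ (S \ T).card := by
      unfold kS
      rw [Finset.prod_div_distrib, Finset.prod_mul_distrib, Finset.prod_const]
    rw [h7, h6]
    unfold s7
    rw [← h5, pow_add]
    field_simp
    rfl
  have hsum : ∑ T ∈ S.powerset.erase ∅, (-1) ^ T.card * ((∏ i ∈ S \ T, (((sg (e i) : ℤ) : ℂ) *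
      ((((P i : eis) : ℂ) - XT (Xc π e) T (P i)) / th))) * s7 L Ω π e T) =
      kS e S / (kap L Ω * (3 * th ^ (S.card - 1))) * ∑ T ∈ S.powerset.erase ∅, ((-1) ^ T.card *
        ((∏ i ∈ S \ T, (((P i : eis) : ℂ) - XT (Xc π e) T (P i))) * SQ L Ω P (Xc π e) T)) := by
    rw [Finset.mul_sum]
    refine Finset.sum_congr rfl fun T hT => ?_
    rw [← hterm T hT]
    simp only [mul_div_assoc]
  have hprod : ∏ i ∈ S, (((P i : eis) : ℂ) - XT (Xc π e) ∅ (P i)) =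
      ∏ i ∈ S, (((P i : eis) : ℂ) - 1) := Finset.prod_congr rfl fun i _ => by
    have : XT (Xc π e) ∅ (P i) = 1 := Finset.prod_empty
    rw [this]
  rw [Finset.card_empty, pow_zero, one_mul, Finset.sdiff_empty, hprod] at hid
  have hrest := eq_sub_of_add_eq' hid.symm
  rw [hsum, hrest]
  obtain ⟨R, hR⟩ : ∃ R, R = Sm (cc P S) (fun x => PX P (Xc π e) S x * dl L Ω (Ω * x / cc P S)) :=
    ⟨_, rfl⟩
  obtain ⟨B, hB⟩ : ∃ B, B = ∏ i ∈ S, ((Nat.card (eis ⧸ (sp (P i) : Ideal eis)) : ℂ) - 1) :=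
    ⟨_, rfl⟩
  obtain ⟨Q, hQ⟩ : ∃ Q, Q = ∏ i ∈ S, (((P i : eis) : ℂ) - 1) := ⟨_, rfl⟩
  rw [← hR, ← hB, ← hQ]
  field_simp
  ring

end main

end Pool.Agent.Helper68.N7.Rec7
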