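import Pool.Agent.Helper68.C7.Rec7

/-!
# The right hand side of the recursion and the final formula
-/

set_option autoImplicit false
set_option linter.unusedSectionVars false

open scoped Topology PeriodPair Classical

namespace Pool.Agent.Helper68.N7.Rec7

open H667R3 Pool.Agent.W192.HK Pool.Agent.TH936.CM Pool.Agent.TH936.PU
open Pool.Agent.Y692.QS (Ei w toC nr nr_nonneg)
open Pool.Agent.Y703.CT
open Pool.Agent.Y715.Dist Pool.Agent.Y715.Idn Pool.Agent.Y715.T.Lat Pool.Agent.Y696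
open Pool.Agent.Y715.Two (v_unit v_mul_le_of)
open Pool.Agent.Y715.T.Three Pool.Agent.Y715.T.Cg
open Pool.Agent.Y715.T.Comb (D D_one D_rec)
open Pool.Agent.Y715.T.Rs (eq0)
open Pool.Agent.Y715.T.Rec (cs)
open Pool.Agent.Y715.T.RecG (Pq cs_mul cs_congr)
open Pool.Agent.Y703.CT.Ana (om_val Fy.cop_iff Fy.three_cc Fy.cc_top SQ SQ_empty sT sT_cg dl PX
  PX_zero kap_ne)
open Pool.Agent.Helper68.C2.Chr (tq tq_prim)
open Pool.Agent.Helper68.C5.Chr5 (ts ts_prim lt)
open Pool.Agent.Helper68.C6 (Sk Tk)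
open Pool.Agent.Helper68.C6.Mom6 (lg lg_of lg_zero lg_per lg_mul lg_surj lg_om lg_card card_quo')
open Pool.Agent.Helper68.C6.Ana6 (Pt6)
open Pool.Agent.Helper68.C7 (Wd3 BB Bd Dp S_T3 S_C3 Ker3)
open Pool.Agent.Helper68.N7.Vv7 Pool.Agent.Helper68.N7.Rd7
open Pool.Agent.Helper68.N7.Wd7 (l7 g7 r7 y7 U7 esq pt_cc)
open Pool.Agent.Helper68.N7.Dig7

variable {Γ : Type*} [LinearOrderedCommGroupWithZero Γ] {v : Valuation ℂ Γ}
variable {ι : Type} {π : ι → Ei} {e : ι → ZMod 3} {L : PeriodPair} {Ω : ℂ}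

section main

variable [DecidableEq ι] [Fintype (eis ⧸ (sp 3 : Ideal eis))]
variable (h3 : v 3 < 1) (hC : Cur L Ω) (h : Dt π e) {φ : ℂ → ZMod 3} (hφ : Fn v φ)

omit [DecidableEq ι] [Fintype (eis ⧸ (sp 3 : Ideal eis))] in
include h3 hφ in
lemma fn_C2 {x : ℂ} {a b : ZMod 3} (hx : C2 v x a b) : φ x = a * φ 1 + b * φ (1 - om) := by
  have h1 : Cg v (1 : ℂ) 1 := by
    have := Pool.Agent.Y715.T.Cg.Cg.int h3 1
    simpa using this
  obtain ⟨-, k2⟩ := fn_mul h3 hφ hx h1
  rw [mul_one] at k2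
  rw [k2]
  have h4 : ((1 : ZMod 3).val : ℂ) = 1 := by
    have : (1 : ZMod 3).val = 1 := rfl
    rw [this, Nat.cast_one]
  rw [h4, sub_self, hφ.zero]
  ring

omit [DecidableEq ι] [Fintype (eis ⧸ (sp 3 : Ideal eis))] in
lemma kS_le (T : Finset ι) : v (kS e T) ≤ 1 := by
  unfold kS
  rw [map_prod]
  exact Finset.prod_le_one' fun i _ => Pool.Agent.Y715.Two.v_int _

omit [DecidableEq ι] [Fintype (eis ⧸ (sp 3 : Ideal eis))] in
include h in
/-- the digits of the norm and of the prime -/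
lemma digits (i : ι) : ∃ x y n : ℤ, rq (π i) = ((x + y : ℤ) : ZMod 3) ∧
    ts 0 (π i) = (y : ZMod 3) ∧ ((eq0 (π i) : eis) : ℂ) = 1 + 3 * (x + y * om) ∧
    (Nat.card (eis ⧸ (sp (eq0 (π i)) : Ideal eis)) : ℂ) = 1 + 3 * (2 * x - y + 3 * n) := by
  obtain ⟨x, y, h1, hr⟩ := ex_q (h.pq i).three
  refine ⟨x, y, nr (⟨x, y⟩ : Ei), hr, ?_, ?_, ?_⟩
  · rw [h1, ts_prim]
    unfold lt
    ring
  · rw [Pool.Agent.Y715.T.Rs.eq0_coe, h1, map_add, map_mul, map_one, map_ofNat, toC_eq']
  · have h2 := card_quo' (π := π) i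
    have h3' : (Nat.card (eis ⧸ (sp (eq0 (π i)) : Ideal eis)) : ℂ) = ((nr (π i) : ℤ) : ℂ) := by
      rw [← h2]
      push_cast
      rfl
    rw [h3', h1, nr_form]
    push_cast
    ring

omit [DecidableEq ι] [Fintype (eis ⧸ (sp 3 : Ideal eis))] in
include h3 h hφ in
/-- the first part of the right hand side -/
lemma fn_P {S : Finset ι} (hS : S.Nonempty) :
    v (kS e S * (∏ i ∈ S, ((Nat.card (eis ⧸ (sp (eq0 (π i)) : Ideal eis)) : ℂ) - 1) -
        ∏ i ∈ S, (((eq0 (π i) : eis) : ℂ) - 1)) / (3 * th ^ (S.card - 1))) ≤ 1 ∧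
    φ (kS e S * (∏ i ∈ S, ((Nat.card (eis ⧸ (sp (eq0 (π i)) : Ideal eis)) : ℂ) - 1) -
        ∏ i ∈ S, (((eq0 (π i) : eis) : ℂ) - 1)) / (3 * th ^ (S.card - 1))) =
      if S.card = 1 then φ 1 * ∑ i ∈ S, r7 π e i + φ (1 - om) * ∑ i ∈ S, y7 π e i else 0 := by
  have hl := lam_pos (v := v)
  have hl1 := lam_lt h3
  have hcard := Finset.card_pos.2 hS
  have h3l : v 3 < v lam := by
    rw [← sq_three]
    calc v lam * v lam < v lam * 1 := mul_lt_mul_of_pos_left hl1 hl
      _ = v lam := mul_one _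
  by_cases h1 : S.card = 1
  · obtain ⟨i, rfl⟩ := Finset.card_eq_one.1 h1
    rw [if_pos h1]
    obtain ⟨x, y, n, hr, ht, hP, hN⟩ := digits h i
    rw [Finset.prod_singleton, Finset.prod_singleton, Finset.sum_singleton, Finset.sum_singleton,
      Finset.card_singleton, Nat.sub_self, pow_zero, mul_one]
    unfold kS
    rw [Finset.prod_singleton]
    have e1 : ((sg (e i) : ℤ) : ℂ) * ((Nat.card (eis ⧸ (sp (eq0 (π i)) : Ideal eis)) : ℂ) - 1 -
        (((eq0 (π i) : eis) : ℂ) - 1)) / 3 =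
        ((sg (e i) : ℤ) : ℂ) * ((2 * x - y + 3 * n) - (x + y * om)) := by
      rw [hP, hN]
      ring
    have h4 : C2 v (((2 : ℂ) * x - y + 3 * n) - (x + y * om)) ((x + y : ℤ) : ZMod 3)
        ((y : ℤ) : ZMod 3) := by
      refine C2.mk (x + y) y ?_
      have e2 : ((2 : ℂ) * x - y + 3 * n) - (x + y * om) - (((x + y : ℤ) : ℂ) +
          (1 - om) * ((y : ℤ) : ℂ)) = 3 * ((n - y : ℤ) : ℂ) := by
        push_cast
        ring
      rw [e2]
      exact (v_mul_le_of le_rfl (Pool.Agent.Y715.Two.v_int _)).trans_lt h3l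
    have h5 := (C2.int (v := v) (sg (e i))).mul h3 h4
    rw [e1]
    refine ⟨C2.le h3 h5, ?_⟩
    rw [fn_C2 h3 hφ h5, sg_cast, ← hr, ← ht]
    unfold r7 y7
    ring
  · rw [if_neg h1]
    have hsmall : v (kS e S * (∏ i ∈ S, ((Nat.card (eis ⧸ (sp (eq0 (π i)) : Ideal eis)) : ℂ) - 1) -
        ∏ i ∈ S, (((eq0 (π i) : eis) : ℂ) - 1)) / (3 * th ^ (S.card - 1))) < v lam := by
      have hfy := fy (v := v) h3 h
      by_cases h2 : S.card = 2
      · obtain ⟨i, k, hik, rfl⟩ := Finset.card_eq_two.1 h2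
        obtain ⟨x, y, n, hr, ht, hP, hN⟩ := digits h i
        obtain ⟨x', y', n', hr', ht', hP', hN'⟩ := digits h k
        rw [Finset.prod_pair hik, Finset.prod_pair hik, h2, hP, hN, hP', hN']
        have e1 : kS e {i, k} * (((1 : ℂ) + 3 * (2 * x - y + 3 * n) - 1) *
            (1 + 3 * (2 * x' - y' + 3 * n') - 1) -
            (1 + 3 * (x + y * om) - 1) * (1 + 3 * (x' + y' * om) - 1)) / (3 * th ^ (2 - 1)) =
            kS e {i, k} * (3 * ((2 * x - y + 3 * n) * (2 * x' - y' + 3 * n') -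
              (x + y * om) * (x' + y' * om))) / th := by
          rw [show 2 - 1 = 1 from rfl, pow_one]
          have := th_ne
          field_simp
          ring
        rw [e1, map_div₀, th_val h3, div_lt_iff₀ hl, map_mul, map_mul]
        have h4 : v (((2 : ℂ) * x - y + 3 * n) * (2 * x' - y' + 3 * n') -
              (x + y * om) * (x' + y' * om)) < 1 := by
          have e2 : ((2 : ℂ) * x - y + 3 * n) * (2 * x' - y' + 3 * n') -
              (x + y * om) * (x' + y' * om) =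
              3 * ((x * x' - x * y' + 2 * x * n' + -y * x' + -y * n' + n * (2 * x' - y' + 3 * n') : ℤ) : ℂ) +
              (1 - om) * ((x * y' + y * x' : ℤ) + y * y' * (1 + om) : ℂ) := by
            push_cast
            ring
          rw [e2]
          refine v.map_add_lt ((v_mul_le_of le_rfl (Pool.Agent.Y715.Two.v_int _)).trans_lt h3) ?_
          have h6 : v om ≤ 1 := (z_pow (by norm_num) om_cube).le
          refine (v_mul_le_of le_rfl ?_).trans_lt (by rw [om_val h3]; exact hl1)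
          refine v.map_add_le (Pool.Agent.Y715.Two.v_int _) (v_mul_le_of (v_mul_le_of
            (Pool.Agent.Y715.Two.v_int _) (Pool.Agent.Y715.Two.v_int _)) (v.map_add_le ?_ h6))
          rw [map_one]
        calc v (kS e {i, k}) * (v 3 * v (((2 : ℂ) * x - y + 3 * n) * (2 * x' - y' + 3 * n') -
              (x + y * om) * (x' + y' * om))) ≤
              1 * (v 3 * v (((2 : ℂ) * x - y + 3 * n) * (2 * x' - y' + 3 * n') -
              (x + y * om) * (x' + y' * om))) := mul_le_mul' (kS_le _) le_rfl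
          _ = v 3 * v (((2 : ℂ) * x - y + 3 * n) * (2 * x' - y' + 3 * n') -
              (x + y * om) * (x' + y' * om)) := one_mul _
          _ < v 3 * 1 := by
              refine mul_lt_mul_of_pos_left h4 ?_
              rw [← sq_three]
              exact mul_pos hl hl
          _ = v lam * v lam := by rw [mul_one, sq_three]
      · have hc3 : 3 ≤ S.card := by omega
        have h4 : v (∏ i ∈ S, ((Nat.card (eis ⧸ (sp (eq0 (π i)) : Ideal eis)) : ℂ) - 1) -
            ∏ i ∈ S, (((eq0 (π i) : eis) : ℂ) - 1)) ≤ (v 3) ^ S.card := by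
          refine v.map_sub_le ?_ ?_
          · rw [map_prod]
            exact Finset.prod_le_pow_card _ _ _ fun i _ => hfy.card i
          · rw [map_prod]
            exact Finset.prod_le_pow_card _ _ _ fun i _ => hfy.lin i
        rw [map_div₀, map_mul, map_mul, map_pow, th_val h3, div_lt_iff₀ (by
          rw [← sq_three]
          exact mul_pos (mul_pos hl hl) (pow_pos hl _))]
        calc v (kS e S) * v (∏ i ∈ S, ((Nat.card (eis ⧸ (sp (eq0 (π i)) : Ideal eis)) : ℂ) - 1) -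
            ∏ i ∈ S, (((eq0 (π i) : eis) : ℂ) - 1)) ≤ 1 * (v 3) ^ S.card :=
              mul_le_mul' (kS_le _) h4
          _ = v lam ^ (2 * S.card) := by rw [one_mul, ← sq_three, ← pow_two, ← pow_mul]
          _ < v lam ^ (1 + (2 + (S.card - 1))) := pow_lt_pow_right_of_lt_one₀ hl hl1 (by omega)
          _ = v lam * (v 3 * v lam ^ (S.card - 1)) := by
              rw [pow_add, pow_add, pow_one, ← sq_three, ← pow_two]
    exact ⟨hsmall.le.trans hl1.le, hφ.small _ hsmall⟩

include h3 hC h hφ in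
/-- the second part of the right hand side -/
lemma fn_R {S : Finset ι} (hS : S.Nonempty) :
    v (kS e S * Sm (cc (fun i => eq0 (π i)) S) (fun x => PX (fun i => eq0 (π i)) (Xc π e) S x *
        dl L Ω (Ω * x / cc (fun i => eq0 (π i)) S)) / (3 * th ^ (S.card - 1))) ≤ 1 ∧
    φ (kS e S * Sm (cc (fun i => eq0 (π i)) S) (fun x => PX (fun i => eq0 (π i)) (Xc π e) S x *
        dl L Ω (Ω * x / cc (fun i => eq0 (π i)) S)) / (3 * th ^ (S.card - 1))) =
      BB (fun i => eq0 (π i)) (l7 π e) e (U7 φ L Ω π) S (fun a => ∏ i ∈ S, a i) := by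
  have hfin := Pool.Agent.Y715.T.LF.fin_quot
  have hfy := fy (v := v) h3 h
  set P : ι → eis := fun i => eq0 (π i) with hP
  have hcard := Finset.card_pos.2 hS
  have ht := th_ne
  have hom0 : (1 - om) ≠ 0 := by
    intro h0
    apply ht
    unfold th
    rw [h0, mul_zero]
  set F : eis → ℂ := fun x => kS e S * (PX P (Xc π e) S x * dl L Ω (Ω * x / cc P S)) /
    (3 * th ^ (S.card - 1)) with hF
  have e1 : kS e S * Sm (cc P S) (fun x => PX P (Xc π e) S x *
        dl L Ω (Ω * x / cc P S)) / (3 * th ^ (S.card - 1)) = Sm (cc P S) F := by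
    unfold Sm
    rw [Finset.mul_sum, Finset.sum_div]
  -- the terms
  have key : ∀ x : eis, v (F x) ≤ 1 ∧ φ (F x) = if IsCoprime x (cc P S) then
      (∏ i ∈ S, e i) * ((∏ i ∈ S, l7 π e i x) * U7 φ L Ω π S x) else 0 := by
    intro x
    by_cases hx : IsCoprime x (cc P S)
    · rw [if_pos hx]
      have hxi := hfy.cop_iff.1 hx
      have hV := Vv_lt h3 hC hfin (pt_cc (v := v) h3 h hS hx)
      have hnot : x ∉ (sp (cc P S) : Ideal eis) :=
        notMem_of_cop (pt_cc (v := v) h3 h hS hx).top hx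
      have hdl : dl L Ω (Ω * x / cc P S) = 3 * Vv L Ω (cc P S) x / (1 - om) := by
        rw [Vv_notMem hC hnot]
        field_simp
      have hPX : PX P (Xc π e) S x = ∏ i ∈ S, (1 - om ^ (l7 π e i x).val) := by
        unfold PX
        refine Finset.prod_congr rfl fun i hi => ?_
        have h5 := hxi i hi
        have h6 := h5
        rw [mem_iff] at h6
        rw [ind_notMem h5, Xc_of h6, toC_w]
        unfold l7
        rw [lg_of h6]
      have e2 : F x = (kS e S * (∏ i ∈ S, ((1 - om ^ (l7 π e i x).val) / th)) * om ^ 1) *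
          Vv L Ω (cc P S) x := by
        rw [hF]
        beta_reduce
        rw [hdl, hPX, Finset.prod_div_distrib, Finset.prod_const]
        obtain ⟨m, hm⟩ : ∃ m, S.card = m + 1 := ⟨S.card - 1, by omega⟩
        rw [hm, Nat.add_sub_cancel, pow_succ]
        have h7 : th = om * (1 - om) := rfl
        have h8 : om = th / (1 - om) := by rw [h7]; field_simp
        rw [pow_one]
        obtain ⟨Q, hQ⟩ : ∃ Q, Q = ∏ i ∈ S, (1 - om ^ (l7 π e i x).val) := ⟨_, rfl⟩
        rw [← hQ]
        obtain ⟨o, ho⟩ : ∃ o, o = 1 - om := ⟨_, rfl⟩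
        rw [← ho] at h8 hom0 ⊢
        rw [show kS e S * (Q / (th ^ m * th)) * om * Vv L Ω (cc P S) x =
          kS e S * (Q / (th ^ m * th)) * (th / o) * Vv L Ω (cc P S) x by rw [← h8]]
        field_simp
      have h9 : C2 v (kS e S) (∏ i ∈ S, e i) (∑ i ∈ S, 0 * ∏ k ∈ S.erase i, e k) := by
        unfold kS
        refine C2.prod h3 S (x := fun i => ((sg (e i) : ℤ) : ℂ)) (a := e) (b := fun _ => 0)
          fun i _ => ?_
        have := C2.int (v := v) (sg (e i))
        rwa [sg_cast] at this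
      have h10 := C2.prod h3 S (x := fun i => (1 - om ^ (l7 π e i x).val) / th)
        (a := fun i => (((l7 π e i x).val : ℕ) : ZMod 3))
        (b := fun i => (((l7 π e i x).val : ℕ) : ZMod 3) ^ 2) fun i _ => C2.quot h3 _
      have h11 := (h9.mul h3 h10).mul h3 (C2.om_pow (v := v) h3 1)
      obtain ⟨k1, k2⟩ := fn_mul' h3 hφ h11 hV
      rw [e2]
      refine ⟨k1, ?_⟩
      rw [k2, mul_one, mul_assoc]
      unfold U7
      congr 2
      exact Finset.prod_congr rfl fun i _ => ZMod.natCast_zmod_val _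
    · rw [if_neg hx]
      have e2 : F x = 0 := by
        rw [hF]
        beta_reduce
        rw [PX_zero hfy hx, zero_mul, mul_zero, zero_div]
      rw [e2]
      exact ⟨by rw [map_zero]; exact zero_le_one, hφ.zero⟩
  rw [e1]
  refine ⟨v.map_sum_le fun x _ => (key x).1, ?_⟩
  unfold Sm
  rw [hφ.sum _ _ fun x _ => (key x).1]
  unfold BB Tk Sk
  rw [Finset.mul_sum]
  refine Finset.sum_congr rfl fun x _ => ?_
  rw [(key x).2]
  beta_reduce
  split_ifs with hx
  · rfl
  · rw [mul_zero]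

end main

end Pool.Agent.Helper68.N7.Rec7
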