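import Pool.Agent.Helper68.C7.StC
import Pool.Graph.R_seed8.Y715.T.Comb

/-!
# The last class: statements which use the library module `Comb`
-/

set_option autoImplicit false

open Finset

namespace Pool.Agent.Helper68.C7

open Pool.Agent.Y715.T.Comb

/-- the bordered system has only the constant solutions -/
def Ker3 {ι : Type} [Fintype ι] (g : ι → ι → ZMod 3) (r y : ι → ZMod 3) : Prop :=
  ∀ (v : ι → ZMod 3) (s : ZMod 3), (∀ j, ∑ i, g i j * (v i - v j) = s * r j) →
    ∑ i, r i * v i = s * ∑ i, y i → s = 0 ∧ ∀ i j, v i = v j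

/-- **Statement F3.** The value as a determinant, `r o ≠ 0`. -/
def S_F3 : Prop :=
  ∀ (ι : Type) [Fintype ι] [DecidableEq ι] (g : ι → ι → ZMod 3) (r y : ι → ZMod 3) (o : ι),
    (∀ i j, i ≠ j → g i j = g j i) → r o ≠ 0 → ∑ i, r i = 0 →
    (D (fun j i => g i j - r i / r o * g o j) (fun k => r o * r k) (univ.erase o) -
      D g y univ ≠ 0 ↔ Ker3 g r y)

/-- **Statement F3'.** The same for `r = 0`. -/
def S_F3' : Prop :=
  ∀ (ι : Type) [Fintype ι] [Nonempty ι] [DecidableEq ι] (g : ι → ι → ZMod 3) (y : ι → ZMod 3),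
    (∀ i j, i ≠ j → g i j = g j i) → (D g y univ ≠ 0 ↔ Ker3 g (fun _ => 0) y)

end Pool.Agent.Helper68.C7
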