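import Pool.Agent.Helper68.C7.Wd7
import Pool.Agent.Helper68.C7.StF
import Pool.Agent.Helper68.C7.Defs7

/-!
# The central value, class `D = 1` modulo `3 √-3`: statement
-/

set_option autoImplicit false

open scoped Classical

namespace Pool.Agent.Helper68.N7

open Pool.Agent.Y692.QS (Ei w toC)
open Pool.Agent.Y703.CT
open Pool.Agent.Y715.T.Three (lam)
open Pool.Agent.Y696 (Cur)
open Pool.Agent.Helper68.C7 (Ker3 Ker7)
open Pool.Agent.Helper68.N7.Wd7 (g7 r7 y7)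

/-- **AN7**, the valuation of the central value. -/
def S_AN7 : Prop := ∀ (J : Type) [Fintype J] [Nonempty J] (π : J → Ei) (e : J → ZMod 3), Dt π e →
  ∑ j, e j * rq (π j) = 0 → ∃ F : ℂ → ℂ, IsHL π e F ∧
    ∀ (Γ : Type) [LinearOrderedCommGroupWithZero Γ] (v : Valuation ℂ Γ), v 3 < 1 →
      ∀ (L : PeriodPair) (Ω : ℂ), Cur L Ω → ∃ g : Γ,
        (Ker3 (g7 π e) (r7 π e) (y7 π e) → g = 1) ∧
        (¬ Ker3 (g7 π e) (r7 π e) (y7 π e) → g < 1) ∧
        v ((starRingEnd ℂ) (F 1) / Ω) = v lam ^ (Fintype.card J - 1) * g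

/-- the criterion of the two sides -/
def S_KER7 : Prop := ∀ (J : Type) [Fintype J] (π : J → Ei) (e : J → ZMod 3), Dt π e →
  (Ker3 (g7 π fun j => -e j) (r7 π fun j => -e j) (y7 π fun j => -e j) ↔ Ker7 π e)

end Pool.Agent.Helper68.N7
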