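import Pool.Agent.Helper68.C7.Rec7b
import Pool.Agent.Helper68.C7.StA

/-!
# The central value, class `D = 1` modulo `3 √-3`
-/

set_option autoImplicit false
set_option linter.unusedSectionVars false

open scoped Topology PeriodPair Classical

namespace Pool.Agent.Helper68.N7.Rec7

open H667R3 Pool.Agent.W192.HK Pool.Agent.TH936.CM Pool.Agent.TH936.PU
open Pool.Agent.Y692.QS (Ei w toC nr nr_nonneg)
open Pool.Agent.Y703.CT
open Pool.Agent.Y715.Dist Pool.Agent.Y715.Idn Pool.Agent.Y715.T.Lat Pool.Agent.Y696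
open Pool.Agent.Y715.Two (v_unit v_mul_le_of)
open Pool.Agent.Y715.T.Three Pool.Agent.Y715.T.Cg
open Pool.Agent.Y715.T.Comb (D D_one D_rec)
open Pool.Agent.Y715.T.Rs (eq0)
open Pool.Agent.Y715.T.Rec (cs)
open Pool.Agent.Y703.CT.Ana (om_val SQ sT kap_ne)
open Pool.Agent.Helper68.C7 (Wd3 BB Bd Dp S_T3 S_C3 Ker3)
open Pool.Agent.Helper68.N7.Vv7 Pool.Agent.Helper68.N7.Rd7
open Pool.Agent.Helper68.N7.Wd7 (l7 g7 r7 y7 U7 esq pt_cc wd)
open Pool.Agent.Helper68.N7.Dig7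

section main

variable {ι : Type} {π : ι → Ei} {e : ι → ZMod 3}

lemma g7_sym (h : Dt π e) (i j : ι) (hij : i ≠ j) : g7 π e i j = g7 π e j i := by
  unfold g7
  rw [Pool.Agent.Y350.CT.rec (π i) (π j) (h.pq i) (h.pq j) (h.nd i j hij)]
  ring

variable [Fintype ι] [DecidableEq ι]

/-- the first order recursion -/
lemma A7_rec (h : Dt π e) {S : Finset ι} (hS : S.Nonempty) :
    ∑ T ∈ S.powerset.erase ∅, (-1) ^ T.card * ((∏ j ∈ S \ T, ∑ i ∈ T, g7 π e i j) * A7 π e T) =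
      if S.card = 1 then ∑ i ∈ S, r7 π e i else 0 := by
  have hcard := Finset.card_pos.2 hS
  by_cases h1 : S.card = 1
  · obtain ⟨i, rfl⟩ := Finset.card_eq_one.1 h1
    rw [if_pos h1, Finset.sum_singleton]
    have hp : ({i} : Finset ι).powerset.erase ∅ = {{i}} := by
      ext T
      rw [Finset.mem_erase, Finset.mem_powerset, Finset.subset_singleton_iff,
        Finset.mem_singleton]
      constructor
      · rintro ⟨a, b | b⟩
        · exact absurd b a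
        · exact b
      · rintro rfl
        exact ⟨Finset.singleton_ne_empty i, Or.inr rfl⟩
    rw [hp, Finset.sum_singleton, Finset.card_singleton, Finset.sdiff_self, Finset.prod_empty]
    unfold A7 r7
    rw [Finset.prod_singleton, D_one]
    ring
  · rw [if_neg h1]
    have h2 := D_rec (am π e) (fun i => -rq (π i)) S (by omega)
    rw [← Finset.add_sum_erase _ _ (Finset.empty_mem_powerset S)] at h2
    have h0 : D (am π e) (fun i => -rq (π i)) ∅ = 0 := by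
      unfold D
      rw [Finset.sum_empty]
    rw [h0, zero_mul, mul_zero, zero_add] at h2
    have h3 : ∀ T ∈ S.powerset.erase ∅, (-1) ^ T.card * ((∏ j ∈ S \ T, ∑ i ∈ T, g7 π e i j) *
        A7 π e T) = (∏ i ∈ S, e i) * ((-1) ^ T.card * (D (am π e) (fun i => -rq (π i)) T *
          ∏ i ∈ S \ T, ∑ j ∈ T, am π e i j)) := by
      intro T hT
      rw [Finset.mem_erase, Finset.mem_powerset] at hT
      have h4 : ∏ j ∈ S \ T, ∑ i ∈ T, g7 π e i j = (∏ j ∈ S \ T, e j) *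
          ∏ j ∈ S \ T, ∑ i ∈ T, am π e j i := by
        rw [← Finset.prod_mul_distrib]
        refine Finset.prod_congr rfl fun j _ => ?_
        rw [Finset.mul_sum]
        exact Finset.sum_congr rfl fun i _ => am_g h j i
      rw [h4, ← Finset.prod_sdiff hT.2]
      unfold A7
      ring
    rw [Finset.sum_congr rfl h3, ← Finset.mul_sum, h2, mul_zero]

variable [Fintype (eis ⧸ (sp 3 : Ideal eis))]

section one

variable {Γ : Type*} [LinearOrderedCommGroupWithZero Γ] {v : Valuation ℂ Γ}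
variable {L : PeriodPair} {Ω : ℂ}
variable (h3 : v 3 < 1) (hC : Cur L Ω) (h : Dt π e) {φ : ℂ → ZMod 3} (hφ : Fn v φ)

include h3 hC h hφ in
/-- the second order recursion -/
lemma m7_rec {S : Finset ι} (hS : S.Nonempty) :
    ∑ T ∈ S.powerset.erase ∅, (-1) ^ T.card * ((∏ j ∈ S \ T, ∑ i ∈ T, g7 π e i j) *
        φ (s7 L Ω π e T - ((A7 π e T).val : ℂ)) +
      φ (1 - om) * A7 π e T * ∑ i ∈ S \ T, (e i * (∑ l ∈ T, g7 π e l i) ^ 2 - r7 π e i) *
        ∏ j ∈ (S \ T).erase i, ∑ l ∈ T, g7 π e l j) =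
      (if S.card = 1 then φ (1 - om) * ∑ i ∈ S, y7 π e i else 0) +
        BB (fun i => eq0 (π i)) (l7 π e) e (U7 φ L Ω π) S (fun a => ∏ i ∈ S, a i) := by
  have hid := main_id h3 hC h hS
  obtain ⟨p1, p2⟩ := fn_P h3 h hφ hS
  obtain ⟨q1, q2⟩ := fn_R h3 hC h hφ hS
  have hφid := congrArg φ hid
  rw [hφ.add _ _ p1 q1, p2, q2] at hφid
  -- the terms
  have hC2 : ∀ T ∈ S.powerset.erase ∅, C2 v (∏ i ∈ S \ T, (((sg (e i) : ℤ) : ℂ) *
      ((((eq0 (π i) : eis) : ℂ) - XT (Xc π e) T (eq0 (π i))) / th)))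
      (∏ j ∈ S \ T, ∑ i ∈ T, g7 π e i j)
      (∑ i ∈ S \ T, (e i * (∑ l ∈ T, g7 π e l i) ^ 2 - r7 π e i) *
        ∏ j ∈ (S \ T).erase i, ∑ l ∈ T, g7 π e l j) := by
    intro T _
    exact C2.prod h3 (S \ T) fun i hi => fac h3 h (Finset.mem_sdiff.1 hi).2
  have hterm : ∀ T ∈ S.powerset.erase ∅,
      v ((-1) ^ T.card * ((∏ i ∈ S \ T, (((sg (e i) : ℤ) : ℂ) *
      ((((eq0 (π i) : eis) : ℂ) - XT (Xc π e) T (eq0 (π i))) / th))) * s7 L Ω π e T)) ≤ 1 ∧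
      φ ((-1) ^ T.card * ((∏ i ∈ S \ T, (((sg (e i) : ℤ) : ℂ) *
      ((((eq0 (π i) : eis) : ℂ) - XT (Xc π e) T (eq0 (π i))) / th))) * s7 L Ω π e T)) =
      (-1) ^ T.card * ((∏ j ∈ S \ T, ∑ i ∈ T, g7 π e i j) * A7 π e T * φ 1 +
        (∑ i ∈ S \ T, (e i * (∑ l ∈ T, g7 π e l i) ^ 2 - r7 π e i) *
          ∏ j ∈ (S \ T).erase i, ∑ l ∈ T, g7 π e l j) * A7 π e T * φ (1 - om) +
        (∏ j ∈ S \ T, ∑ i ∈ T, g7 π e i j) * φ (s7 L Ω π e T - ((A7 π e T).val : ℂ))) := by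
    intro T hT
    have hne : T.Nonempty := Finset.nonempty_iff_ne_empty.2 (Finset.mem_erase.1 hT).1
    obtain ⟨k1, k2⟩ := fn_mul h3 hφ (hC2 T hT) (s7_cg h3 hC h hne)
    have e1 : ((-1 : ℂ)) ^ T.card = (((-1 : ℤ) ^ T.card : ℤ) : ℂ) := by push_cast; rfl
    rw [e1]
    refine ⟨v_mul_le_of (Pool.Agent.Y715.Two.v_int _) k1, ?_⟩
    rw [hφ.int _ k1, k2]
    push_cast
    rfl
  rw [hφ.sum _ _ fun T hT => (hterm T hT).1, Finset.sum_congr rfl fun T hT => (hterm T hT).2]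
    at hφid
  have hA := A7_rec h hS
  have hsplit : ∑ T ∈ S.powerset.erase ∅, (-1) ^ T.card * ((∏ j ∈ S \ T, ∑ i ∈ T, g7 π e i j) *
        φ (s7 L Ω π e T - ((A7 π e T).val : ℂ)) +
      φ (1 - om) * A7 π e T * ∑ i ∈ S \ T, (e i * (∑ l ∈ T, g7 π e l i) ^ 2 - r7 π e i) *
        ∏ j ∈ (S \ T).erase i, ∑ l ∈ T, g7 π e l j) =
      (∑ T ∈ S.powerset.erase ∅, (-1) ^ T.card * ((∏ j ∈ S \ T, ∑ i ∈ T, g7 π e i j) * A7 π e T *
        φ 1 + (∑ i ∈ S \ T, (e i * (∑ l ∈ T, g7 π e l i) ^ 2 - r7 π e i) *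
          ∏ j ∈ (S \ T).erase i, ∑ l ∈ T, g7 π e l j) * A7 π e T * φ (1 - om) +
        (∏ j ∈ S \ T, ∑ i ∈ T, g7 π e i j) * φ (s7 L Ω π e T - ((A7 π e T).val : ℂ)))) -
      φ 1 * ∑ T ∈ S.powerset.erase ∅, (-1) ^ T.card * ((∏ j ∈ S \ T, ∑ i ∈ T, g7 π e i j) *
        A7 π e T) := by
    rw [Finset.mul_sum, ← Finset.sum_sub_distrib]
    exact Finset.sum_congr rfl fun T _ => by ring
  rw [hsplit, hφid, hA]
  split_ifs with h1
  · ring
  · ring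

end one

/-- **The formula.** -/
theorem main7 (hT : S_T3) (hC3 : S_C3) [Nonempty ι] (h : Dt π e)
    (hs : ∑ i, e i * rq (π i) = 0) :
    ∃ C : ZMod 3, (C ≠ 0 ↔ Ker3 (g7 π e) (r7 π e) (y7 π e)) ∧
      ∀ (Γ : Type) [LinearOrderedCommGroupWithZero Γ] (v : Valuation ℂ Γ), v 3 < 1 →
        ∀ (L : PeriodPair) (Ω : ℂ), Cur L Ω →
          v (s7 L Ω π e Finset.univ - (C.val : ℂ) * (1 - om)) < v lam := by
  obtain ⟨C, hCk, hall⟩ := hC3 ι (g7 π e) (r7 π e) (y7 π e) e (fun i j hij => g7_sym h i j hij)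
    h.e0 hs
  refine ⟨C, hCk, ?_⟩
  intro Γ _ v h3 L Ω hC
  have hfin := Pool.Agent.Y715.T.LF.fin_quot
  have hcg := s7_cg h3 hC h (T := Finset.univ) Finset.univ_nonempty
  have hx : v (s7 L Ω π e Finset.univ) ≤ 1 := hcg.le
  have hy : v ((C.val : ℂ) * (1 - om)) ≤ 1 :=
    v_mul_le_of (Pool.Agent.Y715.Two.v_nat _) (v_om_le h3)
  refine sep h3 hx hy fun φ hφ => ?_
  have hwd := wd h3 hC h hφ
  obtain ⟨hBd, hnil⟩ := hT ι (fun i => eq0 (π i)) (l7 π e) (g7 π e) (r7 π e) e (φ (1 - om))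
    (U7 φ L Ω π) hfin hwd
  obtain ⟨h1, h2⟩ := hall (φ (1 - om)) (BB (fun i => eq0 (π i)) (l7 π e) e (U7 φ L Ω π))
    (A7 π e) (fun T => φ (s7 L Ω π e T - ((A7 π e T).val : ℂ))) hBd hnil
    (fun S hS => A7_rec h hS) (fun S hS => m7_rec h3 hC h hφ hS)
  rw [hφ.val _ (v_om_le h3)]
  rw [h1, ZMod.val_zero, Nat.cast_zero, sub_zero] at h2
  rw [h2]
  ring

end main

end Pool.Agent.Helper68.N7.Rec7
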