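import Mathlib

/-!
# Second moments: definitions and statements (Mathlib only)

Everything is over `ZMod 3`. `B S p` is a functional on the functions `p` of `a : ι → ZMod 3`
which only sees the coordinates in `S`.
-/

set_option autoImplicit false

open Finset

namespace Pool.Agent.Helper68.C7

/-- the functions supported on `S` -/
def sp {ι : Type} [Fintype ι] [DecidableEq ι] (S : Finset ι) : Finset (ι → ZMod 3) :=
  univ.filter fun a => ∀ i, i ∉ S → a i = 0

/-- `p` depends only on the coordinates in `S` -/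
def Dp {ι : Type} (S : Finset ι) (p : (ι → ZMod 3) → ZMod 3) : Prop :=
  ∀ a b : ι → ZMod 3, (∀ i ∈ S, a i = b i) → p a = p b

/-- the moment data -/
structure Bd {ι : Type} [Fintype ι] [DecidableEq ι] (g : ι → ι → ZMod 3) (r ε : ι → ZMod 3)
    (e : ZMod 3) (B : Finset ι → ((ι → ZMod 3) → ZMod 3) → ZMod 3) : Prop where
  add : ∀ S p q, B S (fun a => p a + q a) = B S p + B S q
  smul : ∀ S c p, B S (fun a => c * p a) = c * B S p
  dep : ∀ S p q, (∀ a ∈ sp S, p a = q a) → B S p = B S q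
  one : ∀ j, B {j} (fun _ => 1) = -(e * r j)
  ins : ∀ S j p, S.Nonempty → j ∉ S → Dp S p →
    B (insert j S) p = ε j * (B S p - B S (fun a => p (fun i => a i + ε j * g i j))) -
      e * r j * (∏ i ∈ S, -r i) * ∑ a ∈ sp S, p a
  tr : ∀ S k p, k ∈ S → r k ≠ 0 → Dp S p → (∀ a, p (fun i => a i + r i) = p a) →
    B S p = e * (∏ i ∈ S, -r i) * ∑ a ∈ (sp S).filter (fun a => a k = 0), p a

/-- **Statement W3.** The solution `u` of the first recursion at the full set is the solution `w`
of the second recursion (over the sets containing a vertex `o` with `r o ≠ 0`), if `∑ r = 0`. -/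
def S_W3 : Prop :=
  ∀ (ι : Type) [Fintype ι] [DecidableEq ι] (g : ι → ι → ZMod 3) (r ε : ι → ZMod 3) (e : ZMod 3)
    (B : Finset ι → ((ι → ZMod 3) → ZMod 3) → ZMod 3) (h u w : Finset ι → ZMod 3) (o : ι),
    (∀ i j, i ≠ j → g i j = g j i) → (∀ i, ε i ≠ 0) → Bd g r ε e B →
    r o ≠ 0 → ∑ i, r i = 0 →
    -- the first order terms
    (∀ S : Finset ι, S.Nonempty →
      ∑ T ∈ S.powerset.erase ∅, (∏ j ∈ S \ T, ∑ i ∈ T, g i j) * h T =
        if S.card = 1 then -(e * ∑ i ∈ S, r i) else 0) →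
    -- the second order terms
    (∀ S : Finset ι, S.Nonempty →
      ∑ T ∈ S.powerset.erase ∅, (∏ j ∈ S \ T, ∑ i ∈ T, g i j) * u T =
        B S (fun a => ∏ i ∈ S, a i) +
        (∑ T ∈ S.powerset.erase ∅, (∑ i ∈ S \ T, ε i * (∑ l ∈ T, g l i) ^ 2 *
          ∏ j ∈ (S \ T).erase i, ∑ l ∈ T, g l j) * h T) +
        if S.card = 2 then 2 * e * ∏ i ∈ S, r i else 0) →
    -- the twisted recursion, `S` runs over the subsets without `o`
    (w ∅ = 0) →
    (∀ S : Finset ι, S.Nonempty → o ∉ S →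
      ∑ T ∈ S.powerset, (∏ j ∈ S \ T, ∑ i ∈ T, (g i j - r i / r o * g o j)) * w T =
        if S.card = 1 then e * r o * ∑ i ∈ S, r i else 0) →
    u univ = w (univ.erase o)

end Pool.Agent.Helper68.C7
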