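import Pool.Agent.Helper68.C6.WtDef
import Pool.Agent.Helper68.C7.StC

/-!
# The last class: moments of a function on the residue classes, statement
-/

set_option autoImplicit false
set_option linter.unusedSectionVars false

namespace Pool.Agent.Helper68.C7

open Finset
open H667R3 Pool.Agent.TH936.CM Pool.Agent.TH936.PU
open Pool.Agent.Y715.Dist Pool.Agent.Y715.Idn Pool.Agent.Y696 Pool.Agent.Helper68.C6

/-- the data: primes `π i`, logarithms `l i` modulo `π i` and functions `U S` modulo the product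
of the primes in `S` -/
structure Wd3 {ι : Type} [DecidableEq ι] (π : ι → eis) (l : ι → eis → ZMod 3)
    (g : ι → ι → ZMod 3) (r ε : ι → ZMod 3) (e : ZMod 3) (U : Finset ι → eis → ZMod 3) :
    Prop where
  ne : ∀ i, π i ≠ 0
  cop : ∀ i j, i ≠ j → IsCoprime (π i) (π j)
  max : ∀ i, (Pool.Agent.W192.HK.sp (π i)).IsMaximal
  three : ∀ i, IsCoprime (3 : eis) (π i)
  eps : ∀ i, ε i ≠ 0
  lper : ∀ i x y, x - y ∈ Pool.Agent.W192.HK.sp (π i) → l i x = l i y
  lmul : ∀ i x y, x ∉ Pool.Agent.W192.HK.sp (π i) → y ∉ Pool.Agent.W192.HK.sp (π i) → l i (x * y) = l i x + l i y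
  lsurj : ∀ i, ∃ y, y ∉ Pool.Agent.W192.HK.sp (π i) ∧ l i y = 1
  lpi : ∀ i j, i ≠ j → l i (π j) = ε j * g i j
  lom : ∀ i, l i omr = r i
  card : ∀ i, ∃ m : ℕ, Nat.card (eis ⧸ Pool.Agent.W192.HK.sp (π i)) = 3 * m + 1 ∧ (m : ZMod 3) = -(ε i * r i)
  uper : ∀ S x y, x - y ∈ Pool.Agent.W192.HK.sp (cc π S) → U S x = U S y
  utr : ∀ S x, S.Nonempty → IsCoprime x (cc π S) →
    U S x + U S (omr * x) + U S (omr ^ 2 * x) = e
  udist : ∀ S j x, S.Nonempty → j ∉ S → IsCoprime x (cc π S) →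
    Sk (π j) (fun t => U (insert j S) (x + cc π S * t)) = U S x - ε j * r j * e
  uemb : ∀ S j x, S.Nonempty → j ∉ S → IsCoprime x (cc π S) → U (insert j S) (π j * x) = U S x
  uone : ∀ j, Tk (π j) (U {j}) = -(ε j * r j * e)

/-- the functional -/
noncomputable def BB {ι : Type} [DecidableEq ι] (π : ι → eis) (l : ι → eis → ZMod 3)
    (ε : ι → ZMod 3) (U : Finset ι → eis → ZMod 3) (S : Finset ι)
    (p : (ι → ZMod 3) → ZMod 3) : ZMod 3 :=
  (∏ i ∈ S, ε i) * Tk (cc π S) (fun x => p (fun i => if i ∈ S then l i x else 0) * U S x)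

/-- **Statement T3.** -/
def S_T3 : Prop :=
  ∀ (ι : Type) [Fintype ι] [DecidableEq ι] (π : ι → eis) (l : ι → eis → ZMod 3)
    (g : ι → ι → ZMod 3) (r ε : ι → ZMod 3) (e : ZMod 3) (U : Finset ι → eis → ZMod 3),
    (∀ q : eis, q ≠ 0 → Finite (eis ⧸ Pool.Agent.W192.HK.sp q)) → Wd3 π l g r ε e U →
    Bd g r ε e (BB π l ε U) ∧
    ∀ S : Finset ι, S.Nonempty → (∀ i ∈ S, r i = 0) → BB π l ε U S (fun a => ∏ i ∈ S, a i) = 0

end Pool.Agent.Helper68.C7
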