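import Pool.Agent.Helper68.C2.Tam2
import Pool.Agent.Helper68.C7.Defs7

/-!
# The Tamagawa numbers of `y² + D y = x³`, `D = ∏ π_j^(e_j)` congruent to one modulo three but not
modulo `3 √-3`
-/

set_option autoImplicit false
set_option linter.unusedSectionVars false

namespace Pool.Agent.Helper68.C7.Tam1

open scoped Classical

open NumberField IsDedekindDomain WeierstrassCurve WithZero
open Pool.Agent.Y692.QS (Ei w nr toC)
open Pool.Agent.Y715.T.RecG (Pq)
open Pool.Agent.Y703.CT
open Pool.Agent.Y696 (NonsingRed)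
open Pool.Agent.Y696.CTK
open Pool.Agent.Y350.CTK Pool.Agent.Y350.CTK.Tam
open Pool.Agent.Helper68.C2 Pool.Agent.Helper68.C2.Tam2

variable {J : Type} [Fintype J] {π : J → Ei} {e : J → ZMod 3}

lemma pD2_zero : pD2 π e 0 = pD π e := by
  unfold pD2
  rw [ZMod.val_zero, pow_zero, one_mul]

/-- the form of `D` -/
lemma form1 (hD : Dt π e) (hs : ∑ j, e j * rq (π j) ≠ 0) :
    ∃ m : Ei, pD π e = 1 + 3 * m ∧ ¬ te ∣ m := by
  obtain ⟨m, hm⟩ := (pD_prim hD).1
  have hm' : pD π e = 1 + 3 * m := by linear_combination hm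
  refine ⟨m, hm', ?_⟩
  have h9 := (sum_ne_iff hD).2 hs
  rw [hm'] at h9
  exact te_m h9

theorem s_TAM1 : S_TAM1 := by
  intro K _ _ j J _ π e hD hs
  obtain ⟨m, hm, hm0⟩ := form1 hD hs
  have hcf : Pool.Agent.Y715.T.Gi.CF (pD π e) := Pool.Agent.Y48.CT.SEL.cf_prod hD e
  have hD0 : pD π e ≠ 0 := hcf.1
  have hjD0 : ((j (pD π e) : 𝓞 K) : K) ≠ 0 := by
    intro h
    have h1 : j (pD π e) = 0 := by
      apply RingOfIntegers.ext
      exact h
    exact hD0 ((map_eq_zero_iff j j.injective).1 h1)
  have hte : ¬ te ∣ pD π e := by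
    rw [hm]
    intro h
    have h3 : te ∣ 3 * m := ⟨-(te * m), by linear_combination m * te_sq⟩
    have h1 := dvd_sub h h3
    rw [add_sub_cancel_right] at h1
    exact te_prime.not_isUnit (isUnit_of_dvd_one h1)
  have hsub : ∀ v : HeightOneSpectrum (𝓞 K), ∃ H : AddSubgroup
      ((ED (j (pD π e) : K)).baseChange (v.adicCompletion K)).toAffine.Point,
      ∀ P, P ∈ H ↔ NonsingRed Valued.v
        ((ED (j (pD π e) : K)).baseChange (v.adicCompletion K)) P := by
    intro v
    apply sub_ex Pool.Agent.Y891.CTK.e0k Valued.v (bc_ED _)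
    · have h1 : (27 : v.adicCompletion K) * (algebraMap K (v.adicCompletion K)
          ((j (pD π e) : 𝓞 K) : K)) ^ 4 = algebraMap K (v.adicCompletion K)
          (27 * ((j (pD π e) : 𝓞 K) : K) ^ 4) := by
        rw [map_mul, map_pow, map_ofNat]
      rw [h1, map_ne_zero]
      exact mul_ne_zero (by norm_num) (pow_ne_zero _ hjD0)
    · rw [val_eq]
      exact v.intValuation_le_one _
  choose H hH using hsub
  -- the indices
  have hA : (H (pl j te_prime)).index = 1 ∨ (H (pl j te_prime)).index = 2 ∨
      (H (pl j te_prime)).index = 4 := by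
    refine idx_t t3 Valued.v (bc_ED _)
      (θ := algebraMap K ((pl j te_prime).adicCompletion K) ((j te : 𝓞 K) : K))
      (m := algebraMap K ((pl j te_prime).adicCompletion K) ((j m : 𝓞 K) : K)) ?_ ?_ ?_ ?_
      (res j) _ (hH _)
    · have h1 : ((j te : 𝓞 K) : K) ^ 2 = -3 := by
        have h2 : (j te) ^ 2 = -3 := by rw [← map_pow, te_sq, map_neg, map_ofNat]
        have h3 := congrArg (algebraMap (𝓞 K) K) h2
        rw [map_pow, map_neg, map_ofNat] at h3
        exact h3
      rw [← map_pow, h1, map_neg, map_ofNat]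
    · rw [val_eq, pl_val]
    · have h1 : ((j (pD π e) : 𝓞 K) : K) = 1 + 3 * ((j m : 𝓞 K) : K) := by
        have h2 : j (pD π e) = 1 + 3 * j m := by
          rw [hm, map_add, map_mul, map_one, map_ofNat]
        have h3 := congrArg (algebraMap (𝓞 K) K) h2
        rw [map_add, map_mul, map_one, map_ofNat] at h3
        exact h3
      rw [h1, map_add, map_mul, map_one, map_ofNat]
    · apply val_one
      rw [mem_pl]
      exact hm0
  have hB : ∀ i, (H (pl j (hD.pq i).prime)).index = 3 := by
    intro i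
    have h3v : Valued.v (3 : (pl j (hD.pq i).prime).adicCompletion K) = 1 := by
      rw [three_eq j]
      exact val_one _ (pl_three2 j hD i)
    have hm : ((e i).val : ℤ) = 1 ∨ ((e i).val : ℤ) = 2 := by
      have h6 : (e i).val < 3 := ZMod.val_lt _
      have h7 : (e i).val ≠ 0 := by
        intro h8
        exact hD.e0 i ((ZMod.val_eq_zero _).1 h8)
      omega
    have hval : Valued.v (algebraMap K ((pl j (hD.pq i).prime).adicCompletion K)
        ((j (pD π e) : 𝓞 K) : K)) = exp (-((e i).val : ℤ)) := by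
      have := val_D_exp2 (κ := 0) j hD i
      rwa [pD2_zero] at this
    have key : ∀ (W : WeierstrassCurve ((pl j (hD.pq i).prime).adicCompletion K))
        (hW : W = ED (algebraMap K ((pl j (hD.pq i).prime).adicCompletion K)
          ((j (pD π e) : 𝓞 K) : K))) (G : AddSubgroup W.toAffine.Point),
        (∀ P, P ∈ G ↔ NonsingRed Valued.v W P) → G.index = 3 := by
      rintro W rfl G hG
      exact td2 _ Valued.v _ h3v hm hval G hG
    exact key _ (bc_ED _) _ (hH _)
  have hC : ∀ v : HeightOneSpectrum (𝓞 K), j 3 ∉ v.asIdeal → (∀ i, j (π i) ∉ v.asIdeal) →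
      (H v).index = 1 := by
    intro v h3 hi
    refine idx_one tg Valued.v (bc_ED _) ?_ ?_ _ (hH _)
    · rw [three_eq j]
      exact val_one _ h3
    · have := val_D_one2 (κ := 0) (e := e) j hi
      rwa [pD2_zero] at this
  -- the support
  have hsupp : Function.mulSupport (fun v => (H v).index) ⊆
      ((insert (pl j te_prime) (Finset.univ.image fun i => pl j (hD.pq i).prime) :
        Finset (HeightOneSpectrum (𝓞 K))) : Set (HeightOneSpectrum (𝓞 K))) := by
    intro v hv
    rw [Function.mem_mulSupport] at hv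
    by_contra hcon
    apply hv
    rw [Finset.mem_coe, Finset.mem_insert, Finset.mem_image, not_or] at hcon
    refine hC v (fun h => hcon.1 (three_mem j h)) fun i hi => hcon.2 ⟨i, Finset.mem_univ _, ?_⟩
    exact (eq_pl j (hD.pq i).prime hi).symm
  refine ⟨fun v => (H v).index, ⟨fun v => ⟨Min2.mink2 K j _ hte hcf v, H v, hH v, rfl⟩,
    ?_⟩, (H (pl j te_prime)).index, ?_, ?_⟩
  · exact (Finset.finite_toSet _).subset hsupp
  · rcases hA with h | h | h <;> rw [h] <;> norm_num
  · rw [finprod_eq_prod_of_mulSupport_subset _ hsupp, Finset.prod_insert, Finset.prod_image]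
    · rw [Finset.prod_congr rfl fun i _ => hB i, Finset.prod_const, Finset.card_univ]
      ring
    · intro a _ b _ h
      exact pl_inj2 j hD h
    · intro h
      rw [Finset.mem_image] at h
      obtain ⟨i, -, hi⟩ := h
      apply pl_three2 j hD i
      rw [hi, mem_pl]
      exact ⟨-te, by linear_combination te_sq⟩

end Pool.Agent.Helper68.C7.Tam1
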