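import Pool.Agent.Helper68.C7.StA
import Pool.Agent.Helper68.C2.Val2

/-!
# The valuation of the square of the central value, class `D = 1` modulo `3 √-3`
-/

set_option autoImplicit false
set_option linter.unusedVariables false
set_option linter.unusedSectionVars false

open scoped Classical

namespace Pool.Agent.Helper68.N7.Val7

open Pool.Agent.Y692.QS (Ei w toC)
open Pool.Agent.Y715.T.Rec (cs)
open Pool.Agent.Y715.T.RecG (Pq)
open Pool.Agent.Y703.CT
open Pool.Agent.Y715.T.Three (lam)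
open Pool.Agent.Y696 (Cur)
open Pool.Agent.Helper68.C5.Chr5 (ts)
open Pool.Agent.Helper68.C7 (Ker3 Ker7)
open Pool.Agent.Helper68.N7.Wd7 (g7 r7 y7)

variable {J : Type} [Fintype J] {π : J → Ei} {e : J → ZMod 3}

/-- the first equations -/
lemma eq_one (hD : Dt π e) (v : J → ZMod 3) (s : ZMod 3) (j : J) :
    (∑ i, g7 π (fun j => -e j) i j * (v i - v j) = s * r7 π (fun j => -e j) j) ↔
      ∑ i, e i * cs (π j) (π i) * (v i - v j) = s * rq (π j) := by
  have h1 : ∑ i, g7 π (fun j => -e j) i j * (v i - v j) =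
      -e j * ∑ i, e i * cs (π j) (π i) * (v i - v j) := by
    rw [Finset.mul_sum]
    refine Finset.sum_congr rfl fun i _ => ?_
    by_cases hij : i = j
    · rw [hij, sub_self, mul_zero, mul_zero, mul_zero]
    · unfold g7
      rw [Pool.Agent.Y350.CT.rec (π j) (π i) (hD.pq j) (hD.pq i) (hD.nd j i (Ne.symm hij))]
      ring
  rw [h1]
  unfold r7
  have he : e j * e j = 1 := by
    have h0 := hD.e0 j
    revert h0
    generalize e j = c
    revert c
    decide
  constructor
  · intro h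
    linear_combination (-e j) * h - (∑ i, e i * cs (π j) (π i) * (v i - v j) - s * rq (π j)) * he
  · intro h
    linear_combination (-e j) * h

/-- the second equation -/
lemma eq_two (v : J → ZMod 3) (s : ZMod 3) :
    (∑ i, r7 π (fun j => -e j) i * v i = s * ∑ i, y7 π (fun j => -e j) i) ↔
      ∑ i, e i * rq (π i) * v i = s * ∑ i, e i * ts 0 (π i) := by
  have h1 : ∑ i, r7 π (fun j => -e j) i * v i = -∑ i, e i * rq (π i) * v i := by
    rw [← Finset.sum_neg_distrib]
    refine Finset.sum_congr rfl fun i _ => ?_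
    unfold r7
    ring
  have h2 : ∑ i, y7 π (fun j => -e j) i = -∑ i, e i * ts 0 (π i) := by
    rw [← Finset.sum_neg_distrib]
    refine Finset.sum_congr rfl fun i _ => ?_
    unfold y7
    ring
  rw [h1, h2, mul_neg, neg_inj]

/-- **KER7** -/
theorem s_KER7 : S_KER7 := by
  intro J _ π e hD
  unfold Ker3 Ker7
  constructor
  · intro h v s h1 h2
    exact h v s (fun j => (eq_one hD v s j).2 (h1 j)) ((eq_two v s).2 h2)
  · intro h v s h1 h2
    exact h v s (fun j => (eq_one hD v s j).1 (h1 j)) ((eq_two v s).1 h2)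

/-- the valuation of `|F(1)|²` -/
theorem val_sq (hA : S_AN7) [Nonempty J] (hD : Dt π e) (hr : ∑ j, e j * rq (π j) = 0) :
    ∃ F : ℂ → ℂ, IsHL π (fun j => -e j) F ∧
      ∀ (Γ : Type) [LinearOrderedCommGroupWithZero Γ] (v : Valuation ℂ Γ), v 3 < 1 →
        ∀ (L : PeriodPair) (Ω : ℂ), Cur L Ω → ∃ g : Γ, g ≤ 1 ∧ (Ker7 π e → g = 1) ∧
          (¬ Ker7 π e → g < 1) ∧
          v (F 1 * (starRingEnd ℂ) (F 1) / (Ω * (starRingEnd ℂ) Ω)) =
            (v lam * v lam) ^ (Fintype.card J - 1) * g := by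
  have hr' : ∑ j, -e j * rq (π j) = 0 := by
    have h1 : ∑ j, -e j * rq (π j) = -∑ j, e j * rq (π j) := by
      rw [← Finset.sum_neg_distrib]
      exact Finset.sum_congr rfl fun i _ => by ring
    rw [h1, hr, neg_zero]
  obtain ⟨F, hF, hval⟩ := hA J π (fun j => -e j) hD.neg hr'
  have hk := s_KER7 J π e hD
  refine ⟨F, hF, ?_⟩
  intro Γ _ v hv L Ω hC
  have hv' : (v.comap (starRingEnd ℂ)) 3 < 1 := by
    rw [Valuation.comap_apply, map_ofNat]
    exact hv
  obtain ⟨s, hs1, hs2, h1⟩ := hval Γ v hv L Ω hC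
  obtain ⟨s', hs1', hs2', h1'⟩ := hval Γ (v.comap (starRingEnd ℂ)) hv' L Ω hC
  rw [hk] at hs1 hs1' hs2 hs2'
  have h2 : (v.comap (starRingEnd ℂ)) lam = v lam := by
    rw [Valuation.comap_apply, conj_lam, v.map_neg]
  rw [h2] at h1'
  have h3 : (v.comap (starRingEnd ℂ)) ((starRingEnd ℂ) (F 1) / Ω) =
      v (F 1 / (starRingEnd ℂ) Ω) := by
    rw [Valuation.comap_apply, map_div₀ (starRingEnd ℂ), Complex.conj_conj]
  rw [h3] at h1'
  have hle : ∀ {t : Γ}, (Ker7 π e → t = 1) → (¬ Ker7 π e → t < 1) → t ≤ 1 := by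
    intro t a b
    by_cases c : Ker7 π e
    · exact (a c).le
    · exact (b c).le
  refine ⟨s * s', ?_, fun hk => ?_, fun hk => ?_, ?_⟩
  · exact mul_le_one' (hle hs1 hs2) (hle hs1' hs2')
  · rw [hs1 hk, hs1' hk, one_mul]
  · exact mul_lt_one_of_lt_of_le (hs2 hk) (hle hs1' hs2')
  · have e : F 1 * (starRingEnd ℂ) (F 1) / (Ω * (starRingEnd ℂ) Ω) =
        ((starRingEnd ℂ) (F 1) / Ω) * (F 1 / (starRingEnd ℂ) Ω) := by
      rw [div_mul_div_comm]
      ring
    rw [e, map_mul, h1, h1', mul_pow]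
    ac_rfl

end Pool.Agent.Helper68.N7.Val7
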