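import Pool.Agent.Helper68.C6.Mom6b

/-!
# The values of the function of order three at the points of order prime to three
-/

set_option autoImplicit false
set_option linter.unusedSectionVars false

open Filter
open scoped Topology PeriodPair

namespace Pool.Agent.Helper68.N7.Vv7

open H667R3 Pool.Agent.W192.HK Pool.Agent.TH936.CM Pool.Agent.TH936.PU
open Pool.Agent.Y692.QS (Ei w toC)
open Pool.Agent.Y715.Dist Pool.Agent.Y715.Idn Pool.Agent.Y715.T.Lat Pool.Agent.Y696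
open Pool.Agent.Y715.Two (v_nat v_int v_unit v_mul_le_of)
open Pool.Agent.Y715.T.Three Pool.Agent.Y715.T.Cg
open Pool.Agent.Y703.CT.Ana (ej Ef eo_j ej_prim lim_j HH_tot dl kap_ne dat' del om_val big)
open Pool.Agent.Helper68.C6.Ana6 (Pt6)

variable {Γ : Type*} [LinearOrderedCommGroupWithZero Γ] {v : Valuation ℂ Γ}
  {L : PeriodPair} {Ω : ℂ}

section fn

variable [Fintype (eis ⧸ (sp 3 : Ideal eis))]

/-- the sum over the three characters -/
noncomputable def Ps (L : PeriodPair) (Ω : ℂ) (c x : eis) : ℂ :=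
  ∑ j : Fin 3, Ph L Ω 3 (ej j) (Ef L Ω j) c x

lemma Ps_mem {c x : eis} (h : x ∈ (sp c : Ideal eis)) : Ps L Ω c x = kap L Ω := by
  unfold Ps
  rw [Finset.sum_congr rfl fun j _ => Ph_of_mem h, Fin.sum_univ_three]
  unfold Ef
  rw [if_pos rfl, if_neg (by decide), if_neg (by decide)]
  ring

lemma Ps_notMem (hC : Cur L Ω) {c x : eis} (h : x ∉ (sp c : Ideal eis)) :
    Ps L Ω c x = kap L Ω * (1 + dl L Ω (Ω * x / c)) := by
  have hP := hC.x0
  have hP0 : ℘[L] (Ω / 3) ≠ 0 := by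
    intro h4
    rw [h4] at hP
    norm_num at hP
  unfold Ps
  rw [Finset.sum_congr rfl fun j _ => Ph_of_notMem h, Finset.sum_add_distrib, HH_tot hC,
    Fin.sum_univ_three]
  unfold Ef
  rw [if_pos rfl, if_neg (by decide), if_neg (by decide)]
  unfold dl kap
  field_simp
  ring

/-- the values -/
noncomputable def Vv (L : PeriodPair) (Ω : ℂ) (c x : eis) : ℂ :=
  (1 - om) / 3 * (Ps L Ω c x / kap L Ω - 1)

lemma Vv_mem (hC : Cur L Ω) {c x : eis} (h : x ∈ (sp c : Ideal eis)) : Vv L Ω c x = 0 := by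
  unfold Vv
  rw [Ps_mem h, div_self (kap_ne hC), sub_self, mul_zero]

lemma Vv_notMem (hC : Cur L Ω) {c x : eis} (h : x ∉ (sp c : Ideal eis)) :
    Vv L Ω c x = (1 - om) / 3 * dl L Ω (Ω * x / c) := by
  unfold Vv
  rw [Ps_notMem hC h, mul_div_cancel_left₀ _ (kap_ne hC), add_sub_cancel_left]

lemma Ps_per (hC : Cur L Ω) {c x y : eis} (hc : c ≠ 0) (h : x - y ∈ (sp c : Ideal eis)) :
    Ps L Ω c x = Ps L Ω c y :=
  Finset.sum_congr rfl fun _ _ => Ph_per hC.lat hc h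

lemma Vv_per (hC : Cur L Ω) {c x y : eis} (hc : c ≠ 0) (h : x - y ∈ (sp c : Ideal eis)) :
    Vv L Ω c x = Vv L Ω c y := by
  unfold Vv
  rw [Ps_per hC hc h]

lemma Vv_emb (hC : Cur L Ω) {a c x : eis} (ha : a ≠ 0) :
    Vv L Ω (a * c) (a * x) = Vv L Ω c x := by
  have hiff : a * x ∈ (sp (a * c) : Ideal eis) ↔ x ∈ (sp c : Ideal eis) := by
    rw [Ideal.mem_span_singleton', Ideal.mem_span_singleton']
    constructor
    · rintro ⟨b, hb⟩
      exact ⟨b, mul_left_cancel₀ ha (by linear_combination hb)⟩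
    · rintro ⟨b, hb⟩
      exact ⟨b, by rw [← hb]; ring⟩
  by_cases h : x ∈ (sp c : Ideal eis)
  · rw [Vv_mem hC h, Vv_mem hC (hiff.2 h)]
  · rw [Vv_notMem hC h, Vv_notMem hC (fun h' => h (hiff.1 h'))]
    have ha0 := coe_ne ha
    congr 2
    push_cast
    rw [mul_left_comm, mul_div_mul_left _ _ ha0]

lemma Vv_dist (hC : Cur L Ω) (hfin : ∀ q : eis, q ≠ 0 → Finite (eis ⧸ sp q)) {a c : eis}
    (hc : c ≠ 0) (ha : a ≠ 0) (h3c : IsCoprime 3 c) (h3a : IsCoprime 3 a)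
    (ha1 : a - 1 ∈ (sp 3 : Ideal eis)) (x : eis) :
    Sm a (fun t => Vv L Ω (a * c) (x + c * t)) = a * Vv L Ω c x +
      (1 - om) / 3 * (a - (Nat.card (eis ⧸ (sp a : Ideal eis)) : ℂ)) := by
  have : Finite (eis ⧸ (sp a : Ideal eis)) := hfin a ha
  have : Fintype (eis ⧸ (sp a : Ideal eis)) := Fintype.ofFinite _
  have key : ∀ j : Fin 3, Sm a (fun t => Ph L Ω 3 (ej j) (Ef L Ω j) (a * c) (x + c * t)) =
      a * Ph L Ω 3 (ej j) (Ef L Ω j) c x := fun j =>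
    dist_Ph hC.lat hfin Pool.Agent.Y696.three_ne hc ha h3c h3a (eo_j j) (ej_prim j ha1)
      (lim_j hC j) x
  have h1 : Sm a (fun t => Ps L Ω (a * c) (x + c * t)) = a * Ps L Ω c x := by
    have h2 := Finset.sum_congr rfl fun (j : Fin 3) (_ : j ∈ Finset.univ) => key j
    rw [← Finset.mul_sum] at h2
    rw [show Ps L Ω c x = ∑ j : Fin 3, Ph L Ω 3 (ej j) (Ef L Ω j) c x from rfl, ← h2]
    unfold Sm Ps
    rw [Finset.sum_comm]
  have h2 : Sm a (fun t => Vv L Ω (a * c) (x + c * t)) = (1 - om) / 3 *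
      (Sm a (fun t => Ps L Ω (a * c) (x + c * t)) / kap L Ω -
        (Nat.card (eis ⧸ (sp a : Ideal eis)) : ℂ)) := by
    unfold Vv Sm
    rw [← Finset.mul_sum, Finset.sum_sub_distrib, Finset.sum_const, rp_card, nsmul_eq_mul, mul_one,
      Nat.card_eq_fintype_card, Finset.sum_div]
  rw [h2, h1]
  unfold Vv
  ring

end fn

section est

variable [Fintype (eis ⧸ (sp 3 : Ideal eis))]
variable (h3 : v 3 < 1) (hC : Cur L Ω) (hfin : ∀ q : eis, q ≠ 0 → Finite (eis ⧸ sp q))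

include h3 hC hfin

lemma notMem {c x : eis} (h : Pt6 c x) : x ∉ (sp c : Ideal eis) := notMem_of_cop h.top h.cop

lemma X_small {c x : eis} (h : Pt6 c x) :
    v (4 * ℘[L] (Ω * x / c) ^ 3 + 1) ≤ v lam ^ 3 := by
  have hD := dat' hC h.ne h.three h.top hfin
  have hu : Ω * x / c ∉ L.lattice := by
    rw [div_mem_iff hC.lat h.ne]
    exact notMem_of_cop h.top h.cop
  have h4 := X_le h3 hD ⟨x, h.cop⟩
  have h5 : XX L Ω c ⟨x, h.cop⟩ = 4 * ℘[L] (Ω * x / c) ^ 3 + 1 := hC.ode hu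
  rwa [h5] at h4

lemma Vv_lt {c x : eis} (h : Pt6 c x) : v (Vv L Ω c x) < 1 := by
  have hl := lam_pos (v := v)
  rw [Vv_notMem hC (notMem_of_cop h.top h.cop), map_mul, map_div₀, om_val h3]
  have h6 : v (dl L Ω (Ω * x / c)) < v lam :=
    del h3 (by have := hC.x0; linear_combination this) (X_small h3 hC hfin h)
  rw [← sq_three]
  have h7 : v lam / (v lam * v lam) * v lam = 1 := by
    have := hl.ne'
    field_simp
  calc v lam / (v lam * v lam) * v (dl L Ω (Ω * x / c)) < v lam / (v lam * v lam) * v lam := by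
        refine mul_lt_mul_of_pos_left h6 ?_
        exact div_pos hl (mul_pos hl hl)
    _ = 1 := h7

lemma Vv_trace {c x : eis} (h : Pt6 c x) :
    v (Vv L Ω c x + Vv L Ω c (omr * x) + Vv L Ω c (omr ^ 2 * x) - (1 - om)) < v lam := by
  have hl := lam_pos (v := v)
  have hl1 := lam_lt h3
  have hX := X_small h3 hC hfin h
  have hom : IsUnit omr := (unit_list omr).2 (by simp)
  have hom2 : IsUnit (omr ^ 2) := hom.pow 2
  have h1 := h.unit hom
  have h2 := h.unit hom2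
  rw [Vv_notMem hC (notMem_of_cop h.top h.cop), Vv_notMem hC (notMem_of_cop h1.top h1.cop),
    Vv_notMem hC (notMem_of_cop h2.top h2.cop)]
  have e1 : Ω * ((omr * x : eis) : ℂ) / c = ((omr : eis) : ℂ) * (Ω * x / c) := by
    push_cast
    ring
  have e2 : Ω * ((omr ^ 2 * x : eis) : ℂ) / c = ((omr ^ 2 : eis) : ℂ) * (Ω * x / c) := by
    push_cast
    ring
  have hP := hC.x0
  unfold dl
  rw [e1, e2, wp_unit hC.lat hom, wp_unit hC.lat hom2]
  obtain ⟨Q, hQ⟩ : ∃ Q, Q = ℘[L] (Ω * x / c) := ⟨_, rfl⟩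
  obtain ⟨P, hPd⟩ : ∃ P, P = ℘[L] (Ω / 3) := ⟨_, rfl⟩
  rw [← hQ] at hX
  rw [← hPd] at hP
  rw [← hQ, ← hPd]
  have h31 := om_cube
  have hs := om_sq
  have ho1 : (((omr : eis) : ℂ) ^ 2)⁻¹ = om := by
    rw [omr_coe]
    rw [inv_eq_iff_eq_inv, ← one_div, eq_div_iff (by
      intro h0
      rw [h0] at h31
      norm_num at h31)]
    linear_combination h31
  have ho2 : ((((omr ^ 2 : eis) : ℂ)) ^ 2)⁻¹ = om ^ 2 := by
    push_cast
    rw [omr_coe]
    rw [inv_eq_iff_eq_inv, ← one_div, eq_div_iff (by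
      intro h0
      have h5 : om = 0 := pow_eq_zero_iff (two_ne_zero) |>.1 h0
      rw [h5] at h31
      norm_num at h31)]
    linear_combination (om ^ 3 + 1) * h31
  rw [ho1, ho2]
  have hX3 : v (4 * Q ^ 3 + 1 + 3) = v 3 := add_ne h3 hX
  have hv3 : v 3 ≠ 0 := by
    rw [← sq_three]
    exact (mul_pos hl hl).ne'
  have hX0 : 4 * Q ^ 3 + 1 + 3 ≠ 0 := by
    intro h0
    rw [h0, map_zero] at hX3
    exact hv3 hX3.symm
  have hfac : (P - Q) * ((P - om * Q) * (P - om ^ 2 * Q)) = P ^ 3 - Q ^ 3 := by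
    linear_combination (P * Q ^ 2 * om - P ^ 2 * Q) * hs + (P * Q ^ 2 - Q ^ 3 - P * Q ^ 2) * h31
  have hPQ : P ^ 3 - Q ^ 3 ≠ 0 := by
    intro h0
    apply hX0
    linear_combination (-4) * h0 + 4 * hP
  rw [← hfac] at hPQ
  have n1 : P - Q ≠ 0 := left_ne_zero_of_mul hPQ
  have n2 : P - om * Q ≠ 0 := left_ne_zero_of_mul (right_ne_zero_of_mul hPQ)
  have n3 : P - om ^ 2 * Q ≠ 0 := right_ne_zero_of_mul (right_ne_zero_of_mul hPQ)
  have hP0 : P ≠ 0 := by
    rintro rfl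
    norm_num at hP
  have key : (1 - om) / 3 * (3 / (2 * P ^ 2 * (P - Q))) +
      (1 - om) / 3 * (3 / (2 * P ^ 2 * (P - om * Q))) +
      (1 - om) / 3 * (3 / (2 * P ^ 2 * (P - om ^ 2 * Q))) - (1 - om) =
      -((1 - om) * (9 + (4 * Q ^ 3 + 1)) / (4 * Q ^ 3 + 1 + 3)) := by
    have e5 : 1 / (P - Q) + 1 / (P - om * Q) + 1 / (P - om ^ 2 * Q) = 3 * P ^ 2 / (P ^ 3 - Q ^ 3) := by
      have e8 : ∀ a b c : ℂ, a ≠ 0 → b ≠ 0 → c ≠ 0 →
          1 / a + 1 / b + 1 / c = (b * c + a * c + a * b) / (a * (b * c)) := by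
        intro a b c ha hb hc
        field_simp
      rw [← hfac, e8 _ _ _ n1 n2 n3]
      congr 1
      linear_combination (Q ^ 2 * om - 2 * P * Q) * hs
    have e6 : (1 - om) / 3 * (3 / (2 * P ^ 2 * (P - Q))) +
      (1 - om) / 3 * (3 / (2 * P ^ 2 * (P - om * Q))) +
      (1 - om) / 3 * (3 / (2 * P ^ 2 * (P - om ^ 2 * Q))) =
      (1 - om) / (2 * P ^ 2) * (1 / (P - Q) + 1 / (P - om * Q) + 1 / (P - om ^ 2 * Q)) := by
      field_simp
    rw [e6, e5]
    have e7 : P ^ 3 - Q ^ 3 = -(4 * Q ^ 3 + 1 + 3) / 4 := by linear_combination hP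
    rw [e7]
    field_simp
    ring
  rw [key, v.map_neg, map_div₀, map_mul, om_val h3, hX3]
  have h9 : v (9 + (4 * Q ^ 3 + 1)) ≤ v lam ^ 3 := by
    refine v.map_add_le ?_ hX
    rw [v_nine]
    exact pow_le_pow_right_of_le_one' hl1.le (by norm_num)
  rw [div_lt_iff₀ (zero_lt_iff.2 hv3), ← sq_three]
  calc v lam * v (9 + (4 * Q ^ 3 + 1)) ≤ v lam * v lam ^ 3 := mul_le_mul' le_rfl h9
    _ = v lam ^ 4 := by rw [pow_succ' (v lam) 3]
    _ < v lam ^ 3 := pow_lt_pow_right_of_lt_one₀ hl hl1 (by norm_num)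
    _ = v lam * (v lam * v lam) := by rw [pow_succ' (v lam) 2, pow_two]

end est

end Pool.Agent.Helper68.N7.Vv7
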