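import Mathlib

/-!
# Second moments (module S_W3 for helper68), part 1: the filtration by the order modulo cubes

Written by helper48.
-/

set_option autoImplicit false
set_option linter.unusedSectionVars false

open Finset MvPolynomial

namespace Pool.Agent.Helper68.C7.W3

variable {ι : Type}

/-- the polynomial ring -/
abbrev Rg (ι : Type) := MvPolynomial ι (ZMod 3)

lemma three_eq : (3 : Rg ι) = 0 := by
  have := CharP.cast_eq_zero (Rg ι) 3
  exact_mod_cast this

/-- the polynomials without monomials of degree `< d` and exponents at most two -/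
def Vd (ι : Type) (d : ℕ) : Ideal (Rg ι) where
  carrier := {f | ∀ m : ι →₀ ℕ, (∀ i, m i ≤ 2) → Finsupp.degree m < d → coeff m f = 0}
  add_mem' := by
    intro f g hf hg m h2 hd
    rw [coeff_add, hf m h2 hd, hg m h2 hd, add_zero]
  zero_mem' := fun m _ _ => coeff_zero m
  smul_mem' := by
    classical
    intro c f hf m h2 hd
    rw [smul_eq_mul, coeff_mul]
    refine Finset.sum_eq_zero fun x hx => ?_
    have hx' := mem_antidiagonal.1 hx
    have h1 : ∀ i, x.2 i ≤ m i := fun i => by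
      rw [← hx', Finsupp.add_apply]
      exact Nat.le_add_left _ _
    have h3 : Finsupp.degree x.2 ≤ Finsupp.degree m := by
      rw [← hx', map_add]
      exact Nat.le_add_left _ _
    rw [hf x.2 (fun i => (h1 i).trans (h2 i)) (lt_of_le_of_lt h3 hd), mul_zero]

lemma mem_Vd {d : ℕ} {f : Rg ι} : f ∈ Vd ι d ↔
    ∀ m : ι →₀ ℕ, (∀ i, m i ≤ 2) → Finsupp.degree m < d → coeff m f = 0 := Iff.rfl

/-- the polynomials all of whose monomials have an exponent at least three -/
def Vi (ι : Type) : Ideal (Rg ι) where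
  carrier := {f | ∀ m : ι →₀ ℕ, (∀ i, m i ≤ 2) → coeff m f = 0}
  add_mem' := by
    intro f g hf hg m h2
    rw [coeff_add, hf m h2, hg m h2, add_zero]
  zero_mem' := fun m _ => coeff_zero m
  smul_mem' := by
    classical
    intro c f hf m h2
    rw [smul_eq_mul, coeff_mul]
    refine Finset.sum_eq_zero fun x hx => ?_
    have hx' := mem_antidiagonal.1 hx
    have h1 : ∀ i, x.2 i ≤ m i := fun i => by
      rw [← hx', Finsupp.add_apply]
      exact Nat.le_add_left _ _
    rw [hf x.2 (fun i => (h1 i).trans (h2 i)), mul_zero]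

lemma mem_Vi {f : Rg ι} : f ∈ Vi ι ↔ ∀ m : ι →₀ ℕ, (∀ i, m i ≤ 2) → coeff m f = 0 := Iff.rfl

lemma Vi_le (d : ℕ) : Vi ι ≤ Vd ι d := fun _ hf m h2 _ => hf m h2

lemma Vd_zero (f : Rg ι) : f ∈ Vd ι 0 := fun _ _ h => absurd h (Nat.not_lt_zero _)

lemma Vd_mono {a b : ℕ} (h : b ≤ a) : Vd ι a ≤ Vd ι b :=
  fun _ hf m h2 hd => hf m h2 (lt_of_lt_of_le hd h)

lemma Vd_mul {a b : ℕ} {f g : Rg ι} (hf : f ∈ Vd ι a) (hg : g ∈ Vd ι b) :
    f * g ∈ Vd ι (a + b) := by
  classical
  intro m h2 hd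
  rw [coeff_mul]
  refine Finset.sum_eq_zero fun x hx => ?_
  have hx' := mem_antidiagonal.1 hx
  have h1 : ∀ i, x.2 i ≤ m i := fun i => by
    rw [← hx', Finsupp.add_apply]
    exact Nat.le_add_left _ _
  have h1' : ∀ i, x.1 i ≤ m i := fun i => by
    rw [← hx', Finsupp.add_apply]
    exact Nat.le_add_right _ _
  have h3 : Finsupp.degree x.1 + Finsupp.degree x.2 = Finsupp.degree m := by
    rw [← hx', map_add]
  rcases lt_or_ge (Finsupp.degree x.1) a with h | h
  · rw [hf x.1 (fun i => (h1' i).trans (h2 i)) h, zero_mul]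
  · rw [hg x.2 (fun i => (h1 i).trans (h2 i)) (by omega), mul_zero]

lemma Vd_mul' {a b c : ℕ} {f g : Rg ι} (hf : f ∈ Vd ι a) (hg : g ∈ Vd ι b) (h : c ≤ a + b) :
    f * g ∈ Vd ι c := Vd_mono h (Vd_mul hf hg)

lemma Vd_pow {a : ℕ} {f : Rg ι} (hf : f ∈ Vd ι a) (n : ℕ) : f ^ n ∈ Vd ι (n * a) := by
  induction n with
  | zero =>
    rw [Nat.zero_mul]
    exact Vd_zero _
  | succ n ih =>
    rw [pow_succ, Nat.succ_mul]
    exact Vd_mul ih hf

lemma Vd_hom {n d : ℕ} {f : Rg ι} (hf : f.IsHomogeneous n) (h : d ≤ n) : f ∈ Vd ι d := by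
  intro m _ hd
  exact hf.coeff_eq_zero (by omega)

lemma X_mem (i : ι) : (X i : Rg ι) ∈ Vd ι 1 := Vd_hom (isHomogeneous_X _ i) le_rfl

lemma X_cube (i : ι) : (X i : Rg ι) ^ 3 ∈ Vi ι := by
  classical
  intro m h2
  rw [coeff_X_pow, if_neg]
  intro h
  have := h2 i
  rw [← h, Finsupp.single_eq_same] at this
  omega

/-- an element which may be substituted for a variable -/
def Lin (y : Rg ι) : Prop := y ∈ Vd ι 1 ∧ y ^ 3 ∈ Vi ι

lemma Lin_X (i : ι) : Lin (X i : Rg ι) := ⟨X_mem i, X_cube i⟩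

lemma Lin_sum {κ : Type} (s : Finset κ) (c : κ → ZMod 3) (v : κ → ι) :
    Lin (∑ l ∈ s, C (c l) * X (v l) : Rg ι) := by
  constructor
  · exact Ideal.sum_mem _ fun l _ => Ideal.mul_mem_left _ _ (X_mem _)
  · rw [sum_pow_char 3]
    refine Ideal.sum_mem _ fun l _ => ?_
    rw [mul_pow]
    exact Ideal.mul_mem_left _ _ (X_cube _)

/-- the truncated exponential -/
def Ef {A : Type} [CommRing A] (y : A) : A := 1 + y - y ^ 2

lemma Ef_mul {A : Type} [CommRing A] (h3 : (3 : A) = 0) {y : A} (hy : y ^ 3 = 0) (a b : A) :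
    Ef (a * y) * Ef (b * y) = Ef ((a + b) * y) := by
  unfold Ef
  linear_combination (a * b * y ^ 2) * h3 + (-(a * b * (a + b)) + a ^ 2 * b ^ 2 * y) * hy

lemma Ef_zero {A : Type} [CommRing A] : Ef (0 : A) = 1 := by
  unfold Ef
  ring

/-- the product of truncated exponentials, up to order three -/
lemma prod_Ef {κ : Type} [DecidableEq κ] (s : Finset κ) (y : κ → Rg ι)
    (hy : ∀ i ∈ s, y i ∈ Vd ι 1) :
    ∏ i ∈ s, Ef (y i) - (1 + ∑ i ∈ s, y i - (∑ i ∈ s, y i) ^ 2) ∈ Vd ι 3 := by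
  induction s using Finset.induction_on with
  | empty => simp
  | insert j s hj ih =>
    have h1 := ih fun i hi => hy i (mem_insert_of_mem hi)
    have hy1 := hy j (mem_insert_self _ _)
    have hL : ∑ i ∈ s, y i ∈ Vd ι 1 := Ideal.sum_mem _ fun i hi => hy i (mem_insert_of_mem hi)
    rw [prod_insert hj, sum_insert hj]
    set L := ∑ i ∈ s, y i
    have e : Ef (y j) * ∏ i ∈ s, Ef (y i) - (1 + (y j + L) - (y j + L) ^ 2) =
        Ef (y j) * (∏ i ∈ s, Ef (y i) - (1 + L - L ^ 2)) -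
        (L * y j * y j + L * L * y j - L * L * y j * y j) + 3 * (L * y j) := by
      unfold Ef
      ring
    rw [e, three_eq, zero_mul, add_zero]
    refine Ideal.sub_mem _ (Ideal.mul_mem_left _ _ h1) (Ideal.sub_mem _ (Ideal.add_mem _ ?_ ?_) ?_)
    · exact Vd_mul (Vd_mul hL hy1) hy1
    · exact Vd_mul (Vd_mul hL hL) hy1
    · exact Ideal.mul_mem_right _ _ (Vd_mul (Vd_mul hL hL) hy1)

section subst

variable (τ τ' : Rg ι →ₐ[ZMod 3] Rg ι)

lemma mon_mem (hτ : ∀ i, Lin (τ (X i))) (m : ι →₀ ℕ) :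
    τ (monomial m 1) ∈ Vd ι (Finsupp.degree m) := by
  classical
  induction m using Finsupp.induction_linear with
  | zero =>
    rw [map_zero]
    exact Vd_zero _
  | add f g hf hg =>
    rw [map_add, show (monomial (f + g) (1 : ZMod 3)) = monomial f 1 * monomial g 1 by
      rw [monomial_mul, mul_one], map_mul]
    exact Vd_mul hf hg
  | single i n =>
    rw [← X_pow_eq_monomial, map_pow, Finsupp.degree_single]
    have := Vd_pow (hτ i).1 n
    rwa [mul_one] at this

lemma mon_sub (hτ : ∀ i, Lin (τ (X i))) (hτ' : ∀ i, Lin (τ' (X i)))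
    (h : ∀ i, τ (X i) - τ' (X i) ∈ Vd ι 3) (m : ι →₀ ℕ) :
    τ (monomial m 1) - τ' (monomial m 1) ∈ Vd ι (Finsupp.degree m + 2) := by
  classical
  induction m using Finsupp.induction_linear with
  | zero =>
    rw [show (monomial (0 : ι →₀ ℕ) (1 : ZMod 3)) = 1 from rfl, map_one, map_one, sub_self]
    exact Ideal.zero_mem _
  | add f g hf hg =>
    rw [map_add, show (monomial (f + g) (1 : ZMod 3)) = monomial f 1 * monomial g 1 by
      rw [monomial_mul, mul_one], map_mul, map_mul]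
    have e : τ (monomial f 1) * τ (monomial g 1) - τ' (monomial f 1) * τ' (monomial g 1) =
        (τ (monomial f 1) - τ' (monomial f 1)) * τ (monomial g 1) +
        τ' (monomial f 1) * (τ (monomial g 1) - τ' (monomial g 1)) := by ring
    rw [e]
    refine Ideal.add_mem _ (Vd_mul' hf (mon_mem τ hτ g) (by omega))
      (Vd_mul' (mon_mem τ' hτ' f) hg (by omega))
  | single i n =>
    rw [← X_pow_eq_monomial, map_pow, map_pow, Finsupp.degree_single]
    induction n with
    | zero =>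
      rw [pow_zero, pow_zero, sub_self]
      exact Ideal.zero_mem _
    | succ n ih =>
      have e : τ (X i) ^ (n + 1) - τ' (X i) ^ (n + 1) =
        (τ (X i) ^ n - τ' (X i) ^ n) * τ (X i) + τ' (X i) ^ n * (τ (X i) - τ' (X i)) := by ring
      rw [e]
      refine Ideal.add_mem _ (Vd_mul' ih (hτ i).1 (by omega)) ?_
      have := Vd_pow (hτ' i).1 n
      rw [mul_one] at this
      exact Vd_mul' this (h i) (by omega)

lemma mon_cube (hτ : ∀ i, Lin (τ (X i))) {m : ι →₀ ℕ} {i : ι} (hi : 3 ≤ m i) :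
    τ (monomial m 1) ∈ Vi ι := by
  classical
  have e : m = Finsupp.single i 3 + (m - Finsupp.single i 3) := by
    ext j
    rw [Finsupp.add_apply, Finsupp.tsub_apply]
    by_cases hj : j = i
    · subst hj
      rw [Finsupp.single_eq_same]
      omega
    · rw [Finsupp.single_eq_of_ne hj]
      omega
  rw [e, show (monomial (Finsupp.single i 3 + (m - Finsupp.single i 3)) (1 : ZMod 3)) =
      monomial (Finsupp.single i 3) 1 * monomial (m - Finsupp.single i 3) 1 by
      rw [monomial_mul, mul_one], map_mul, ← X_pow_eq_monomial, map_pow]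
  exact Ideal.mul_mem_right _ _ (hτ i).2

lemma C_mul_mon (m : ι →₀ ℕ) (c : ZMod 3) : (monomial m c : Rg ι) = C c * monomial m 1 := by
  rw [C_mul_monomial, mul_one]

lemma tau_mem (hτ : ∀ i, Lin (τ (X i))) {d : ℕ} {f : Rg ι} (hf : f ∈ Vd ι d) :
    τ f ∈ Vd ι d := by
  rw [← support_sum_monomial_coeff f, map_sum]
  refine Ideal.sum_mem _ fun m hm => ?_
  rw [C_mul_mon, map_mul]
  refine Ideal.mul_mem_left _ _ ?_
  by_cases h : ∃ i, 3 ≤ m i
  · obtain ⟨i, hi⟩ := h
    exact Vi_le _ (mon_cube τ hτ hi)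
  · push Not at h
    by_cases h2 : Finsupp.degree m < d
    · exact absurd (hf m (fun i => Nat.lt_succ_iff.1 (h i)) h2) (mem_support_iff.1 hm)
    · exact Vd_mono (not_lt.1 h2) (mon_mem τ hτ m)

lemma tau_Vi (hτ : ∀ i, Lin (τ (X i))) {f : Rg ι} (hf : f ∈ Vi ι) : τ f ∈ Vi ι := by
  rw [← support_sum_monomial_coeff f, map_sum]
  refine Ideal.sum_mem _ fun m hm => ?_
  rw [C_mul_mon, map_mul]
  refine Ideal.mul_mem_left _ _ ?_
  by_cases h : ∃ i, 3 ≤ m i
  · obtain ⟨i, hi⟩ := h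
    exact mon_cube τ hτ hi
  · push Not at h
    exact absurd (hf m (fun i => Nat.lt_succ_iff.1 (h i))) (mem_support_iff.1 hm)

lemma tau_sub (hτ : ∀ i, Lin (τ (X i))) (hτ' : ∀ i, Lin (τ' (X i)))
    (h : ∀ i, τ (X i) - τ' (X i) ∈ Vd ι 3) {d : ℕ} {f : Rg ι} (hf : f ∈ Vd ι d) :
    τ f - τ' f ∈ Vd ι (d + 2) := by
  rw [← support_sum_monomial_coeff f, map_sum, map_sum, ← Finset.sum_sub_distrib]
  refine Ideal.sum_mem _ fun m hm => ?_
  have hC : ∀ (σ : Rg ι →ₐ[ZMod 3] Rg ι) (c : ZMod 3), σ (C c) = C c := fun σ c => σ.commutes c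
  rw [C_mul_mon, map_mul, map_mul, hC, hC, ← mul_sub]
  refine Ideal.mul_mem_left _ _ ?_
  by_cases h' : ∃ i, 3 ≤ m i
  · obtain ⟨i, hi⟩ := h'
    exact Vi_le _ (Ideal.sub_mem _ (mon_cube τ hτ hi) (mon_cube τ' hτ' hi))
  · push Not at h'
    by_cases h2 : Finsupp.degree m < d
    · exact absurd (hf m (fun i => Nat.lt_succ_iff.1 (h' i)) h2) (mem_support_iff.1 hm)
    · exact Vd_mono (by omega) (mon_sub τ τ' hτ hτ' h m)

end subst

end Pool.Agent.Helper68.C7.W3
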