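import Pool.Agent.Helper68.C7.StC
import Pool.Agent.Helper68.C7.W3a

/-!
# Second moments (module S_W3 for helper68), part 2: the functional with polynomial values

Written by helper48.
-/

set_option autoImplicit false
set_option linter.unusedSectionVars false

open Finset MvPolynomial

namespace Pool.Agent.Helper68.C7.W3

variable {ι : Type} [Fintype ι] [DecidableEq ι]

/-- the linear forms -/
noncomputable def Lf (g : ι → ι → ZMod 3) (T : Finset ι) (j : ι) : Rg ι :=
  ∑ i ∈ T, C (g i j) * X i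

/-- the functional, for functions with values in the polynomials -/
noncomputable def BR (B : Finset ι → ((ι → ZMod 3) → ZMod 3) → ZMod 3) (S : Finset ι)
    (P : (ι → ZMod 3) → Rg ι) : Rg ι :=
  ∑ a ∈ sp S, C (B S (fun x => if x = a then 1 else 0)) * P a

/-- the generating polynomial -/
noncomputable def be (B : Finset ι → ((ι → ZMod 3) → ZMod 3) → ZMod 3) (S : Finset ι) : Rg ι :=
  BR B S (fun a => ∏ i ∈ S, Ef (C (a i) * X i))

lemma supp_coeff {S : Finset ι} {f : Rg ι} (hf : f ∈ supported (ZMod 3) (S : Set ι)) {i : ι}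
    (hi : i ∉ S) {m : ι →₀ ℕ} (hm : m i ≠ 0) : coeff m f = 0 := by
  by_contra h
  have h1 : i ∈ f.vars := (mem_vars i).2 ⟨m, mem_support_iff.2 h, Finsupp.mem_support_iff.2 hm⟩
  exact hi (by exact_mod_cast mem_supported.1 hf h1)

lemma Ef_supp {S : Finset ι} {y : Rg ι} (hy : y ∈ supported (ZMod 3) (S : Set ι)) :
    Ef y ∈ supported (ZMod 3) (S : Set ι) :=
  Subalgebra.sub_mem _ (Subalgebra.add_mem _ (Subalgebra.one_mem _) hy) (Subalgebra.pow_mem _ hy 2)

lemma C_supp (S : Finset ι) (c : ZMod 3) : (C c : Rg ι) ∈ supported (ZMod 3) (S : Set ι) :=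
  Subalgebra.algebraMap_mem _ c

lemma X_supp {S : Finset ι} {i : ι} (hi : i ∈ S) : (X i : Rg ι) ∈ supported (ZMod 3) (S : Set ι) :=
  X_mem_supported.2 (by exact_mod_cast hi)

lemma prodEf_supp (S : Finset ι) (a : ι → ZMod 3) :
    ∏ i ∈ S, Ef (C (a i) * X i) ∈ supported (ZMod 3) (S : Set ι) :=
  Subalgebra.prod_mem _ fun i hi => Ef_supp (Subalgebra.mul_mem _ (C_supp S _) (X_supp hi))

lemma be_supp (B : Finset ι → ((ι → ZMod 3) → ZMod 3) → ZMod 3) (S : Finset ι) :
    be B S ∈ supported (ZMod 3) (S : Set ι) :=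
  Subalgebra.sum_mem _ fun a _ => Subalgebra.mul_mem _ (C_supp S _) (prodEf_supp S a)

/-- the exponent of the product of the variables in `S` -/
noncomputable def chi (S : Finset ι) : ι →₀ ℕ := ∑ i ∈ S, Finsupp.single i 1

lemma chi_apply (S : Finset ι) (i : ι) : chi S i = if i ∈ S then 1 else 0 := by
  unfold chi
  rw [Finsupp.finsetSum_apply]
  simp only [Finsupp.single_apply]
  rw [Finset.sum_ite_eq' S i]

lemma chi_insert {S : Finset ι} {k : ι} (hk : k ∉ S) :
    chi (insert k S) = Finsupp.single k 1 + chi S := sum_insert hk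

lemma degree_chi (S : Finset ι) : Finsupp.degree (chi S) = S.card := by
  rw [Finsupp.degree_eq_sum]
  simp only [chi_apply]
  simp

lemma coeff_chi (c : ι → ZMod 3) (S : Finset ι) :
    coeff (chi S) (∏ i ∈ S, Ef (C (c i) * X i) : Rg ι) = ∏ i ∈ S, c i := by
  induction S using Finset.induction_on with
  | empty =>
    rw [prod_empty, prod_empty, show chi (∅ : Finset ι) = 0 from sum_empty, coeff_zero_one]
  | insert k S hk ih =>
    rw [prod_insert hk, prod_insert hk, chi_insert hk, ← ih]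
    set f : Rg ι := ∏ i ∈ S, Ef (C (c i) * X i) with hf
    have hfs : f ∈ supported (ZMod 3) (S : Set ι) := prodEf_supp S c
    have e : Ef (C (c k) * X k) * f = f + C (c k) * (X k * f) - C (c k ^ 2) * (X k * (X k * f)) := by
      unfold Ef
      rw [C_pow]
      ring
    have hm : (Finsupp.single k 1 + chi S : ι →₀ ℕ) k = 1 := by
      rw [Finsupp.add_apply, Finsupp.single_eq_same, chi_apply, if_neg hk]
    have hsup : k ∈ (Finsupp.single k 1 + chi S : ι →₀ ℕ).support := by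
      rw [Finsupp.mem_support_iff, hm]
      exact one_ne_zero
    have hsub : Finsupp.single k 1 + chi S - Finsupp.single k 1 = chi S := add_tsub_cancel_left _ _
    have h2 : k ∉ (chi S).support := by
      rw [Finsupp.mem_support_iff, chi_apply, if_neg hk, not_not]
    rw [e, coeff_sub, coeff_add, coeff_C_mul, coeff_C_mul, coeff_X_mul', if_pos hsup, hsub,
      coeff_X_mul', if_pos hsup, hsub, coeff_X_mul', if_neg h2, mul_zero, sub_zero,
      supp_coeff hfs hk (by rw [hm]; exact one_ne_zero), zero_add]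

/-- sums of products over the functions supported on `S` -/
lemma sum_sp {A : Type} [CommRing A] (S : Finset ι) (f : ι → ZMod 3 → A) :
    ∑ a ∈ sp S, ∏ i ∈ S, f i (a i) = ∏ i ∈ S, ∑ c, f i c := by
  have h1 : sp S = Fintype.piFinset (fun i => if i ∈ S then (univ : Finset (ZMod 3)) else {0}) := by
    ext a
    simp only [sp, mem_filter, mem_univ, true_and, Fintype.mem_piFinset]
    refine forall_congr' fun i => ?_
    by_cases hi : i ∈ S
    · simp [hi]
    · simp [hi]
  have h2 : ∀ a : ι → ZMod 3, ∏ i ∈ S, f i (a i) = ∏ i, (if i ∈ S then f i (a i) else 1) := by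
    intro a
    rw [Finset.prod_ite_mem, univ_inter]
  have h3 : ∏ i ∈ S, ∑ c, f i c =
      ∏ i, ∑ c ∈ (if i ∈ S then (univ : Finset (ZMod 3)) else {0}),
        (if i ∈ S then f i c else 1) := by
    rw [← Finset.prod_subset (subset_univ S)]
    · refine Finset.prod_congr rfl fun i hi => ?_
      rw [if_pos hi]
      exact Finset.sum_congr rfl fun c _ => (if_pos hi).symm
    · intro i _ hi
      rw [if_neg hi, sum_singleton, if_neg hi]
  rw [h3, Finset.prod_univ_sum, h1]
  exact Finset.sum_congr rfl fun a _ => h2 a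

lemma sum_Ef (i : ι) : ∑ c : ZMod 3, Ef (C c * X i : Rg ι) = X i ^ 2 := by
  have h : ∑ c : ZMod 3, Ef (C c * X i : Rg ι) =
      Ef (C (0 : ZMod 3) * X i : Rg ι) + Ef (C (1 : ZMod 3) * X i : Rg ι) +
        Ef (C (2 : ZMod 3) * X i : Rg ι) := Fin.sum_univ_three _
  rw [h]
  unfold Ef
  rw [C_0, C_1, show (C (2 : ZMod 3) : Rg ι) = 2 from map_ofNat _ 2]
  linear_combination (1 + X i - 2 * X i ^ 2) * (three_eq (ι := ι))

lemma sum_sp_Ef (S : Finset ι) :
    ∑ a ∈ sp S, ∏ i ∈ S, Ef (C (a i) * X i : Rg ι) = ∏ i ∈ S, X i ^ 2 := by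
  rw [sum_sp S (fun i c => Ef (C c * X i : Rg ι))]
  exact Finset.prod_congr rfl fun i _ => sum_Ef i

section functional

variable {g : ι → ι → ZMod 3} {r ε : ι → ZMod 3} {e : ZMod 3}
  {B : Finset ι → ((ι → ZMod 3) → ZMod 3) → ZMod 3} (hB : Bd g r ε e B)

include hB

lemma B_zero (S : Finset ι) : B S (fun _ => 0) = 0 := by
  have := hB.smul S 0 (fun _ => 0)
  simpa using this

lemma B_sum (S : Finset ι) {κ : Type} (s : Finset κ) (f : κ → (ι → ZMod 3) → ZMod 3) :
    B S (fun a => ∑ k ∈ s, f k a) = ∑ k ∈ s, B S (f k) := by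
  classical
  induction s using Finset.induction_on with
  | empty =>
    simp only [sum_empty]
    exact B_zero hB S
  | insert k s hk ih =>
    simp only [sum_insert hk]
    rw [hB.add, ih]

lemma B_eq (S : Finset ι) (p : (ι → ZMod 3) → ZMod 3) :
    B S p = ∑ a ∈ sp S, B S (fun x => if x = a then 1 else 0) * p a := by
  have h1 : B S p = B S (fun x => ∑ a ∈ sp S, p a * (if x = a then 1 else 0)) := by
    refine hB.dep S _ _ fun a ha => ?_
    simp only [mul_ite, mul_one, mul_zero]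
    rw [Finset.sum_ite_eq, if_pos ha]
  rw [h1, B_sum hB]
  refine Finset.sum_congr rfl fun a _ => ?_
  rw [hB.smul, mul_comm]

lemma coeff_BR (S : Finset ι) (P : (ι → ZMod 3) → Rg ι) (m : ι →₀ ℕ) :
    coeff m (BR B S P) = B S (fun a => coeff m (P a)) := by
  rw [B_eq hB, BR, coeff_sum]
  exact Finset.sum_congr rfl fun a _ => coeff_C_mul _ _ _

lemma BR_ins {S : Finset ι} {j : ι} (hS : S.Nonempty) (hj : j ∉ S) (P : (ι → ZMod 3) → Rg ι)
    (hP : ∀ a b : ι → ZMod 3, (∀ i ∈ S, a i = b i) → P a = P b) :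
    BR B (insert j S) P =
      C (ε j) * (BR B S P - BR B S (fun a => P (fun i => a i + ε j * g i j))) -
        C (e * r j * ∏ i ∈ S, -r i) * ∑ a ∈ sp S, P a := by
  ext m
  rw [coeff_BR hB, hB.ins S j _ hS hj (fun a b h => by rw [hP a b h]), coeff_sub, coeff_C_mul,
    coeff_C_mul, coeff_sub, coeff_BR hB, coeff_BR hB, coeff_sum]

lemma BR_tr {S : Finset ι} {k : ι} (hk : k ∈ S) (hr : r k ≠ 0) (P : (ι → ZMod 3) → Rg ι)
    (hP : ∀ a b : ι → ZMod 3, (∀ i ∈ S, a i = b i) → P a = P b)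
    (hP' : ∀ a, P (fun i => a i + r i) = P a) :
    BR B S P = C (e * ∏ i ∈ S, -r i) * ∑ a ∈ (sp S).filter (fun a => a k = 0), P a := by
  ext m
  rw [coeff_BR hB, hB.tr S k _ hk hr (fun a b h => by rw [hP a b h]) (fun a => by rw [hP' a]),
    coeff_C_mul, coeff_sum]

lemma coeff_be (S : Finset ι) : coeff (chi S) (be B S) = B S (fun a => ∏ i ∈ S, a i) := by
  rw [be, coeff_BR hB]
  congr 1
  exact funext fun a => coeff_chi a S

lemma coeff_be_zero (k : ι) : coeff 0 (be B {k}) = -(e * r k) := by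
  rw [be, coeff_BR hB, ← hB.one k]
  congr 1
  refine funext fun a => ?_
  rw [prod_singleton]
  unfold Ef
  rw [← MvPolynomial.constantCoeff_eq]
  simp

end functional

lemma BR_mul (B : Finset ι → ((ι → ZMod 3) → ZMod 3) → ZMod 3) (S : Finset ι) (Q : Rg ι)
    (P : (ι → ZMod 3) → Rg ι) : BR B S (fun a => P a * Q) = Q * BR B S P := by
  unfold BR
  rw [mul_sum]
  exact Finset.sum_congr rfl fun a _ => by ring

lemma BR_sub_mem (B : Finset ι → ((ι → ZMod 3) → ZMod 3) → ZMod 3) (S : Finset ι) (I : Ideal (Rg ι))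
    (P P' : (ι → ZMod 3) → Rg ι) (h : ∀ a, P a - P' a ∈ I) : BR B S P - BR B S P' ∈ I := by
  unfold BR
  rw [← sum_sub_distrib]
  refine Ideal.sum_mem _ fun a _ => ?_
  rw [← mul_sub]
  exact Ideal.mul_mem_left _ _ (h a)

/-- products of congruent factors -/
lemma prod_sub_mem {A κ : Type} [CommRing A] [DecidableEq κ] (I : Ideal A) (s : Finset κ)
    (f f' : κ → A) (h : ∀ i ∈ s, f i - f' i ∈ I) : ∏ i ∈ s, f i - ∏ i ∈ s, f' i ∈ I := by
  rw [← Ideal.Quotient.eq, map_prod, map_prod]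
  exact Finset.prod_congr rfl fun i hi => Ideal.Quotient.eq.2 (h i hi)

lemma Ef_mul_Vi (i : ι) (a b : ZMod 3) :
    Ef (C (a + b) * X i : Rg ι) - Ef (C a * X i) * Ef (C b * X i) ∈ Vi ι := by
  have e : Ef (C (a + b) * X i : Rg ι) - Ef (C a * X i) * Ef (C b * X i) =
      X i ^ 3 * (C a * C b * (C a + C b) - C a ^ 2 * C b ^ 2 * X i) := by
    unfold Ef
    rw [C_add]
    linear_combination (-(C a * C b * X i ^ 2)) * (three_eq (ι := ι))
  rw [e]
  exact Ideal.mul_mem_right _ _ (X_cube i)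

section recursion

variable {g : ι → ι → ZMod 3} {r ε : ι → ZMod 3} {e : ZMod 3}
  {B : Finset ι → ((ι → ZMod 3) → ZMod 3) → ZMod 3} (hB : Bd g r ε e B)

include hB

lemma rec_be {S : Finset ι} {k : ι} (hS : S.Nonempty) (hk : k ∉ S) (hε : ε k ≠ 0) {d : ℕ}
    (hd : be B S ∈ Vd ι d) :
    ∃ D : Rg ι, (X k : Rg ι) ∣ be B (insert k S) - D ∧
      D - ((-Lf g S k + C (ε k) * Lf g S k ^ 2) * be B S -
        C (e * r k * ∏ i ∈ S, -r i) * ∏ i ∈ S, X i ^ 2) ∈ Vd ι (3 + d) := by
  refine ⟨BR B (insert k S) (fun a => ∏ i ∈ S, Ef (C (a i) * X i)), ?_, ?_⟩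
  · rw [← Ideal.mem_span_singleton]
    refine BR_sub_mem B _ _ _ _ fun a => ?_
    rw [prod_insert hk]
    rw [show Ef (C (a k) * X k) * ∏ i ∈ S, Ef (C (a i) * X i) - ∏ i ∈ S, Ef (C (a i) * X i) =
      X k * ((C (a k) - C (a k) ^ 2 * X k) * ∏ i ∈ S, Ef (C (a i) * X i) : Rg ι) by
        unfold Ef; ring]
    exact Ideal.mul_mem_right _ _ (Ideal.mem_span_singleton_self _)
  · rw [BR_ins hB hS hk _ (fun a b h => Finset.prod_congr rfl fun i hi => by rw [h i hi]),
      sum_sp_Ef]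
    set Pi' : Rg ι := ∏ i ∈ S, Ef (C (ε k * g i k) * X i) with hPp
    have h1 : BR B S (fun a => ∏ i ∈ S, Ef (C (a i + ε k * g i k) * X i)) - Pi' * be B S ∈ Vi ι := by
      rw [be, ← BR_mul]
      refine BR_sub_mem B _ _ _ _ fun a => ?_
      rw [hPp, ← prod_mul_distrib]
      exact prod_sub_mem _ _ _ _ fun i _ => Ef_mul_Vi i _ _
    have h2 : Pi' - (1 + C (ε k) * Lf g S k - (C (ε k) * Lf g S k) ^ 2) ∈ Vd ι 3 := by
      have e1 : C (ε k) * Lf g S k = ∑ i ∈ S, C (ε k * g i k) * X i := by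
        unfold Lf
        rw [mul_sum]
        refine Finset.sum_congr rfl fun i _ => ?_
        rw [C_mul]
        ring
      rw [e1]
      exact prod_Ef S _ fun i _ => Ideal.mul_mem_left _ _ (X_mem i)
    have h3 : (C (ε k) : Rg ι) ^ 2 = 1 := by
      rw [← C_pow, ← C_1]
      congr 1
      revert hε
      generalize ε k = x
      revert x
      decide
    have e2 : C (ε k) * (BR B S (fun a => ∏ i ∈ S, Ef (C (a i) * X i)) -
          BR B S (fun a => ∏ i ∈ S, Ef (C (a i + ε k * g i k) * X i))) -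
        C (e * r k * ∏ i ∈ S, -r i) * ∏ i ∈ S, X i ^ 2 -
        ((-Lf g S k + C (ε k) * Lf g S k ^ 2) * be B S -
        C (e * r k * ∏ i ∈ S, -r i) * ∏ i ∈ S, X i ^ 2) =
        -(C (ε k) * (BR B S (fun a => ∏ i ∈ S, Ef (C (a i + ε k * g i k) * X i)) - Pi' * be B S)) -
        C (ε k) * ((Pi' - (1 + C (ε k) * Lf g S k - (C (ε k) * Lf g S k) ^ 2)) * be B S) := by
      rw [show BR B S (fun a => ∏ i ∈ S, Ef (C (a i) * X i)) = be B S from rfl]
      linear_combination (-Lf g S k * be B S + C (ε k) * Lf g S k ^ 2 * be B S) * h3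
    rw [e2]
    refine Ideal.sub_mem _ (Ideal.neg_mem_iff _ |>.2 (Ideal.mul_mem_left _ _ (Vi_le _ h1))) ?_
    exact Ideal.mul_mem_left _ _ (Vd_mul h2 hd)

end recursion

end Pool.Agent.Helper68.C7.W3
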