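import Pool.Agent.Helper68.C7.W3b

/-!
# Second moments (module S_W3 for helper68), part 3: triangular systems of polynomials

Written by helper48.
-/

set_option autoImplicit false
set_option linter.unusedSectionVars false

open Finset MvPolynomial

namespace Pool.Agent.Helper68.C7.W3

variable {ι : Type} [Fintype ι] [DecidableEq ι]

section sol

variable {A : Type} [CommRing A]

/-- the solution of a triangular system -/
noncomputable def sol (K : Finset ι → Finset ι → A) (s : Finset ι → A) (S : Finset ι) : A :=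
  if S = ∅ then 0 else s S - ∑ T ∈ S.ssubsets.attach, K S T.1 * sol K s T.1
termination_by S.card
decreasing_by exact card_lt_card (mem_ssubsets.1 T.2)

lemma sol_empty (K : Finset ι → Finset ι → A) (s : Finset ι → A) : sol K s ∅ = 0 := by
  rw [sol, if_pos rfl]

lemma sol_eq (K : Finset ι → Finset ι → A) (s : Finset ι → A) {S : Finset ι} (hS : S.Nonempty) :
    sol K s S = s S - ∑ T ∈ S.ssubsets, K S T * sol K s T := by
  rw [sol, if_neg hS.ne_empty]
  congr 1
  exact Finset.sum_attach S.ssubsets (fun T => K S T * sol K s T)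

lemma sum_powerset_eq (S : Finset ι) (f : Finset ι → A) :
    ∑ T ∈ S.powerset, f T = f S + ∑ T ∈ S.ssubsets, f T :=
  (Finset.add_sum_erase _ f (mem_powerset_self S)).symm

lemma sol_sum {K : Finset ι → Finset ι → A} (hK : ∀ S, K S S = 1) (s : Finset ι → A)
    {S : Finset ι} (hS : S.Nonempty) : ∑ T ∈ S.powerset, K S T * sol K s T = s S := by
  rw [sum_powerset_eq S (fun T => K S T * sol K s T), hK, one_mul, sol_eq K s hS, sub_add_cancel]

lemma sol_uniq {K : Finset ι → Finset ι → A} (hK : ∀ S, K S S = 1) {s : Finset ι → A}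
    {f f' : Finset ι → A}
    (hf : ∀ S : Finset ι, S.Nonempty → ∑ T ∈ S.powerset.erase ∅, K S T * f T = s S)
    (hf' : ∀ S : Finset ι, S.Nonempty → ∑ T ∈ S.powerset.erase ∅, K S T * f' T = s S) :
    ∀ S : Finset ι, S.Nonempty → f S = f' S := by
  intro S
  induction S using Finset.strongInduction with
  | H S ih =>
    intro hS
    have h1 : ∑ T ∈ S.powerset.erase ∅, K S T * (f T - f' T) = 0 := by
      simp_rw [mul_sub]
      rw [sum_sub_distrib, hf S hS, hf' S hS, sub_self]
    rw [Finset.sum_eq_single_of_mem S (mem_erase.2 ⟨hS.ne_empty, mem_powerset_self S⟩), hK,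
      one_mul] at h1
    · exact sub_eq_zero.1 h1
    · intro T hT hne
      have hT' := mem_erase.1 hT
      rw [ih T (Finset.ssubset_iff_subset_ne.2 ⟨mem_powerset.1 hT'.2, hne⟩)
        (nonempty_iff_ne_empty.2 hT'.1), sub_self, mul_zero]

end sol

lemma sol_mem {K : Finset ι → Finset ι → Rg ι} {s : Finset ι → Rg ι}
    (M : Finset ι → Submodule (ZMod 3) (Rg ι)) (hs : ∀ S, S.Nonempty → s S ∈ M S)
    (hK : ∀ S T, T ⊂ S → T.Nonempty → ∀ x ∈ M T, K S T * x ∈ M S) :
    ∀ S : Finset ι, S.Nonempty → sol K s S ∈ M S := by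
  intro S
  induction S using Finset.strongInduction with
  | H S ih =>
    intro hS
    rw [sol_eq K s hS]
    refine Submodule.sub_mem _ (hs S hS) (Submodule.sum_mem _ fun T hT => ?_)
    have hT' := mem_ssubsets.1 hT
    rcases T.eq_empty_or_nonempty with rfl | hTn
    · rw [sol_empty, mul_zero]
      exact Submodule.zero_mem _
    · exact hK S T hT' hTn _ (ih T hT' hTn)

/-- the kernel -/
noncomputable def Kf (g : ι → ι → ZMod 3) (S T : Finset ι) : Rg ι := ∏ j ∈ S \ T, Lf g T j

/-- the second kernel -/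
noncomputable def K2 (g : ι → ι → ZMod 3) (ε : ι → ZMod 3) (S T : Finset ι) : Rg ι :=
  ∑ i ∈ S \ T, C (ε i) * Lf g T i ^ 2 * ∏ j ∈ (S \ T).erase i, Lf g T j

lemma Kf_self (g : ι → ι → ZMod 3) (S : Finset ι) : Kf g S S = 1 := by
  rw [Kf, sdiff_self]
  exact prod_empty

lemma K2_self (g : ι → ι → ZMod 3) (ε : ι → ZMod 3) (S : Finset ι) : K2 g ε S S = 0 := by
  rw [K2, sdiff_self]
  exact sum_empty

lemma Lf_empty (g : ι → ι → ZMod 3) (j : ι) : Lf g ∅ j = 0 := sum_empty

lemma Kf_empty (g : ι → ι → ZMod 3) {S : Finset ι} (hS : S.Nonempty) : Kf g S ∅ = 0 := by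
  obtain ⟨j, hj⟩ := hS
  rw [Kf, sdiff_empty]
  exact Finset.prod_eq_zero hj (Lf_empty g j)

lemma K2_empty (g : ι → ι → ZMod 3) (ε : ι → ZMod 3) (S : Finset ι) : K2 g ε S ∅ = 0 := by
  rw [K2]
  refine Finset.sum_eq_zero fun i _ => ?_
  rw [Lf_empty]
  ring

/-- the solution with sources at the one point sets -/
noncomputable def Hs (g : ι → ι → ZMod 3) (s : ι → Rg ι) : Finset ι → Rg ι :=
  sol (Kf g) (fun S => if S.card = 1 then ∑ i ∈ S, s i else 0)

lemma Hs_sum (g : ι → ι → ZMod 3) (s : ι → Rg ι) {S : Finset ι} (hS : S.Nonempty) :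
    ∑ T ∈ S.powerset, Kf g S T * Hs g s T = if S.card = 1 then ∑ i ∈ S, s i else 0 :=
  sol_sum (Kf_self g) _ hS

lemma Hs_empty (g : ι → ι → ZMod 3) (s : ι → Rg ι) : Hs g s ∅ = 0 := sol_empty _ _

lemma Hs_single (g : ι → ι → ZMod 3) (s : ι → Rg ι) (i : ι) : Hs g s {i} = s i := by
  have h := Hs_sum g s (singleton_nonempty i)
  rw [sum_powerset_eq {i} (fun T => Kf g {i} T * Hs g s T), Kf_self, one_mul,
    Finset.sum_eq_zero, add_zero, if_pos (card_singleton i), sum_singleton] at h
  · exact h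
  · intro T hT
    have : T = ∅ := by
      have := mem_ssubsets.1 hT
      exact Finset.ssubset_singleton_iff.1 this
    rw [this, Hs_empty, mul_zero]

section slices

variable (g : ι → ι → ZMod 3) (ε : ι → ZMod 3)

/-- reduction modulo a variable -/
noncomputable abbrev qk (k : ι) : Rg ι →+* Rg ι ⧸ Ideal.span {(X k : Rg ι)} :=
  Ideal.Quotient.mk _

lemma qk_X (k : ι) : qk k (X k) = 0 :=
  Ideal.Quotient.eq_zero_iff_mem.2 (Ideal.mem_span_singleton_self _)

lemma qk_iff {k : ι} {f : Rg ι} : qk k f = 0 ↔ (X k : Rg ι) ∣ f := by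
  rw [Ideal.Quotient.eq_zero_iff_mem, Ideal.mem_span_singleton]

lemma qk_Lf {T : Finset ι} {k : ι} (hk : k ∉ T) (j : ι) :
    qk k (Lf g (insert k T) j) = qk k (Lf g T j) := by
  unfold Lf
  rw [sum_insert hk, map_add, map_mul, qk_X, mul_zero, zero_add]

lemma sd1 {S T : Finset ι} {k : ι} (hT : k ∉ T) :
    (insert k S) \ T = insert k (S \ T) := insert_sdiff_of_notMem _ hT

lemma sd2 {S T : Finset ι} {k : ι} (hS : k ∉ S) : (insert k S) \ (insert k T) = S \ T := by
  ext i
  simp only [mem_sdiff, mem_insert, not_or]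
  constructor
  · rintro ⟨h | h, h1, h2⟩
    · exact absurd h h1
    · exact ⟨h, h2⟩
  · rintro ⟨h, h1⟩
    exact ⟨Or.inr h, fun h2 => hS (h2 ▸ h), h1⟩

lemma pairing {S : Finset ι} {k : ι} (hk : k ∉ S) (V : Finset ι → Rg ι) :
    qk k (∑ T ∈ (insert k S).powerset, Kf g (insert k S) T * V T) =
      ∑ T ∈ S.powerset, qk k (Kf g S T) *
        (qk k (Lf g T k) * qk k (V T) + qk k (V (insert k T))) := by
  rw [sum_powerset_insert hk, map_add, map_sum, map_sum, ← sum_add_distrib]
  refine Finset.sum_congr rfl fun T hT => ?_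
  have hkT : k ∉ T := fun h => hk (mem_powerset.1 hT h)
  rw [map_mul, map_mul]
  have e1 : Kf g (insert k S) T = Lf g T k * Kf g S T := by
    unfold Kf
    rw [sd1 hkT, prod_insert (fun h => hk (mem_sdiff.1 h).1)]
  have e2 : qk k (Kf g (insert k S) (insert k T)) = qk k (Kf g S T) := by
    unfold Kf
    rw [sd2 hk, map_prod, map_prod]
    exact Finset.prod_congr rfl fun j _ => qk_Lf g hkT j
  rw [e1, e2, map_mul]
  ring

lemma pairing2 {S : Finset ι} {k : ι} (hk : k ∉ S) (V : Finset ι → Rg ι) :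
    qk k (∑ T ∈ (insert k S).powerset, K2 g ε (insert k S) T * V T) =
      ∑ T ∈ S.powerset, (qk k (C (ε k)) * qk k (Lf g T k) ^ 2 * qk k (Kf g S T) * qk k (V T) +
        qk k (K2 g ε S T) * (qk k (Lf g T k) * qk k (V T) + qk k (V (insert k T)))) := by
  rw [sum_powerset_insert hk, map_add, map_sum, map_sum, ← sum_add_distrib]
  refine Finset.sum_congr rfl fun T hT => ?_
  have hkT : k ∉ T := fun h => hk (mem_powerset.1 hT h)
  have hkS : k ∉ S \ T := fun h => hk (mem_sdiff.1 h).1
  rw [map_mul, map_mul]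
  have e1 : K2 g ε (insert k S) T =
      C (ε k) * Lf g T k ^ 2 * Kf g S T + Lf g T k * K2 g ε S T := by
    unfold K2 Kf
    rw [sd1 hkT, sum_insert hkS, erase_insert hkS, mul_sum]
    congr 1
    refine Finset.sum_congr rfl fun i hi => ?_
    have hne : k ≠ i := fun h => hkS (h ▸ hi)
    rw [erase_insert_of_ne hne, prod_insert (fun h => hkS (mem_of_mem_erase h))]
    ring
  have e2 : qk k (K2 g ε (insert k S) (insert k T)) = qk k (K2 g ε S T) := by
    unfold K2
    rw [sd2 hk, map_sum, map_sum]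
    refine Finset.sum_congr rfl fun i _ => ?_
    rw [map_mul, map_mul, map_mul, map_mul, map_pow, map_pow, qk_Lf g hkT, map_prod, map_prod]
    congr 1
    exact Finset.prod_congr rfl fun j _ => qk_Lf g hkT j
  rw [e1, e2]
  simp only [map_add, map_mul, map_pow]
  ring

lemma slice (s : ι → Rg ι) (k : ι) : ∀ S : Finset ι, S.Nonempty → k ∉ S →
    qk k (Hs g s (insert k S)) = -(qk k (Lf g S k) * qk k (Hs g s S)) := by
  intro S
  induction S using Finset.strongInduction with
  | H S ih =>
    intro hS hk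
    have h1 := pairing g hk (Hs g s)
    have hc : (insert k S).card ≠ 1 := by
      rw [card_insert_of_notMem hk]
      have := hS.card_pos
      omega
    rw [Hs_sum g s (insert_nonempty k S), if_neg hc, map_zero,
      sum_powerset_eq S, Kf_self, map_one, one_mul, Finset.sum_eq_zero, add_zero] at h1
    · linear_combination -h1
    · intro T hT
      have hT' := mem_ssubsets.1 hT
      rcases T.eq_empty_or_nonempty with rfl | hTn
      · rw [Kf_empty g hS, map_zero, zero_mul]
      · rw [ih T hT' hTn (fun h => hk (hT'.1 h)), add_neg_cancel, mul_zero]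

end slices

section homog

variable (g : ι → ι → ZMod 3) (ε : ι → ZMod 3)

lemma Lf_hom (T : Finset ι) (j : ι) : (Lf g T j).IsHomogeneous 1 := by
  refine IsHomogeneous.sum _ _ _ fun i _ => ?_
  exact (isHomogeneous_X _ i).C_mul _

lemma Kf_hom (S T : Finset ι) : (Kf g S T).IsHomogeneous (S \ T).card := by
  have := IsHomogeneous.prod (S \ T) (fun j => Lf g T j) (fun _ => 1) fun j _ => Lf_hom g T j
  rw [← card_eq_sum_ones] at this
  exact this

lemma K2_hom (S T : Finset ι) : (K2 g ε S T).IsHomogeneous ((S \ T).card + 1) := by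
  refine IsHomogeneous.sum _ _ _ fun i hi => ?_
  have h1 := IsHomogeneous.prod ((S \ T).erase i) (fun j => Lf g T j) (fun _ => 1)
    fun j _ => Lf_hom g T j
  have h2 := (((Lf_hom g T i).pow 2).C_mul (ε i)).mul h1
  have h3 : 1 * 2 + ∑ i ∈ (S \ T).erase i, 1 = (S \ T).card + 1 := by
    have := card_erase_of_mem hi
    have h4 := card_pos.2 ⟨i, hi⟩
    simp only [sum_const, smul_eq_mul, mul_one]
    omega
  rw [h3] at h2
  exact h2

lemma Hs_hom (s : ι → Rg ι) (d : ℕ) (hs : ∀ i, (s i).IsHomogeneous d) (S : Finset ι)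
    (hS : S.Nonempty) : (Hs g s S).IsHomogeneous (S.card - 1 + d) := by
  refine sol_mem (fun S => homogeneousSubmodule ι (ZMod 3) (S.card - 1 + d)) ?_ ?_ S hS
  · intro S _
    split_ifs with h
    · rw [h, Nat.sub_self, Nat.zero_add]
      exact IsHomogeneous.sum _ _ _ fun i _ => hs i
    · exact Submodule.zero_mem _
  · intro S T hT hTn x hx
    have h1 := (Kf_hom g S T).mul ((mem_homogeneousSubmodule _ _).1 hx)
    have h2 := card_sdiff_add_card_eq_card hT.1
    have h3 := hTn.card_pos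
    rw [mem_homogeneousSubmodule]
    convert h1 using 1
    omega

lemma Lf_supp {T : Finset ι} {U : Finset ι} (h : T ⊆ U) (j : ι) :
    Lf g T j ∈ supported (ZMod 3) (U : Set ι) :=
  Subalgebra.sum_mem _ fun i hi => Subalgebra.mul_mem _ (C_supp U _) (X_supp (h hi))

lemma Kf_supp (S T : Finset ι) : Kf g S T ∈ supported (ZMod 3) (T : Set ι) :=
  Subalgebra.prod_mem _ fun j _ => Lf_supp g (subset_refl T) j

lemma K2_supp (S T : Finset ι) : K2 g ε S T ∈ supported (ZMod 3) (T : Set ι) :=
  Subalgebra.sum_mem _ fun i _ => Subalgebra.mul_mem _ (Subalgebra.mul_mem _ (C_supp T _)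
    (Subalgebra.pow_mem _ (Lf_supp g (subset_refl T) i) 2))
    (Subalgebra.prod_mem _ fun j _ => Lf_supp g (subset_refl T) j)

lemma supp_mono {S T : Finset ι} (h : T ⊆ S) {f : Rg ι}
    (hf : f ∈ supported (ZMod 3) (T : Set ι)) : f ∈ supported (ZMod 3) (S : Set ι) :=
  supported_mono (by exact_mod_cast h) hf

lemma Hs_supp (s : ι → Rg ι) (hs : ∀ i, s i ∈ supported (ZMod 3) (({i} : Finset ι) : Set ι))
    (S : Finset ι) (hS : S.Nonempty) : Hs g s S ∈ supported (ZMod 3) (S : Set ι) := by
  refine sol_mem (fun S => Subalgebra.toSubmodule (supported (ZMod 3) (S : Set ι))) ?_ ?_ S hS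
  · intro S _
    split_ifs with h
    · exact Subalgebra.sum_mem _ fun _ hi => supp_mono (singleton_subset_iff.2 hi) (hs _)
    · exact Submodule.zero_mem _
  · intro S T hT _ x hx
    exact Subalgebra.mul_mem _ (supp_mono hT.1 (Kf_supp g S T)) (supp_mono hT.1 hx)

end homog

end Pool.Agent.Helper68.C7.W3
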