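import Pool.Agent.Helper68.C7.W3c
import Pool.Agent.Helper68.C6.PW

/-!
# Second moments (module S_W3 for helper68), part 4: the symmetry of the first order terms

Written by helper48.
-/

set_option autoImplicit false
set_option linter.unusedSectionVars false

open Finset MvPolynomial

namespace Pool.Agent.Helper68.C7.W3

open Pool.Agent.Helper68.C6 (hq)
open Pool.Agent.Helper68.C6.PW (hq_rev hq_empty hq_ne)

variable {ι : Type} [Fintype ι] [DecidableEq ι]

lemma coeff_of_dvd {k : ι} {f : Rg ι} (h : (X k : Rg ι) ∣ f) {m : ι →₀ ℕ} (hm : m k = 0) :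
    coeff m f = 0 := by
  obtain ⟨q, rfl⟩ := h
  rw [coeff_X_mul', if_neg]
  rw [Finsupp.mem_support_iff, not_not]
  exact hm

lemma coeff_of_qk {k : ι} {a b : Rg ι} (h : qk k a = qk k b) {m : ι →₀ ℕ} (hm : m k = 0) :
    coeff m a = coeff m b := by
  have h1 : (X k : Rg ι) ∣ a - b := qk_iff.1 (by rw [map_sub, h, sub_self])
  have h2 := coeff_of_dvd h1 hm
  rw [coeff_sub] at h2
  exact sub_eq_zero.1 h2

lemma chi_erase {S : Finset ι} {l : ι} (hl : l ∈ S) :
    chi S - Finsupp.single l 1 = chi (S.erase l) := by
  ext i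
  rw [Finsupp.tsub_apply, chi_apply, chi_apply]
  by_cases h : i = l
  · subst h
    rw [Finsupp.single_eq_same, if_pos hl, if_neg (notMem_erase _ _)]
  · rw [Finsupp.single_eq_of_ne h, tsub_zero]
    simp only [mem_erase, ne_eq, h, not_false_eq_true, true_and]

lemma coeff_chi_X {S : Finset ι} {l : ι} (hl : l ∈ S) (f : Rg ι) :
    coeff (chi S) (X l * f) = coeff (chi (S.erase l)) f := by
  rw [coeff_X_mul', if_pos, chi_erase hl]
  rw [Finsupp.mem_support_iff, chi_apply, if_pos hl]
  exact one_ne_zero

lemma chi_add {S : Finset ι} {m : ι →₀ ℕ} (h1 : ∀ k ∈ S, m k ≠ 0) :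
    m = chi S + (m - chi S) ∧ Finsupp.degree m = S.card + Finsupp.degree (m - chi S) := by
  have e : m = chi S + (m - chi S) := by
    ext i
    rw [Finsupp.add_apply, Finsupp.tsub_apply, chi_apply]
    by_cases h : i ∈ S
    · rw [if_pos h]
      have := h1 i h
      omega
    · rw [if_neg h]
      omega
  refine ⟨e, ?_⟩
  conv_lhs => rw [e]
  rw [map_add, degree_chi]

lemma eq_chi {S : Finset ι} {m : ι →₀ ℕ} (h1 : ∀ k ∈ S, m k ≠ 0)
    (h2 : Finsupp.degree m ≤ S.card) : m = chi S := by
  obtain ⟨h3, h4⟩ := chi_add h1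
  have h5 : Finsupp.degree (m - chi S) = 0 := by omega
  rw [Finsupp.degree_eq_zero_iff] at h5
  rw [h5, add_zero] at h3
  exact h3

section symmetric

variable (g : ι → ι → ZMod 3)

/-- the solution with source at one vertex -/
noncomputable def Hd (i : ι) : Finset ι → Rg ι := Hs g (fun j => if j = i then 1 else 0)

lemma Hd_self (i : ι) : Hd g i {i} = 1 := by
  unfold Hd
  rw [Hs_single, if_pos rfl]

lemma Hd_eq (i : ι) {S : Finset ι} (hS : S.Nonempty) : Hd g i S =
    (if S.card = 1 then ∑ j ∈ S, (if j = i then 1 else 0) else 0) -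
      ∑ T ∈ S.ssubsets, Kf g S T * Hd g i T := sol_eq _ _ hS

lemma Hs_eq (s : ι → Rg ι) {S : Finset ι} (hS : S.Nonempty) : Hs g s S =
    (if S.card = 1 then ∑ j ∈ S, s j else 0) - ∑ T ∈ S.ssubsets, Kf g S T * Hs g s T :=
  sol_eq _ _ hS

lemma Hd_notMem (i : ι) : ∀ S : Finset ι, i ∉ S → Hd g i S = 0 := by
  intro S
  induction S using Finset.strongInduction with
  | H S ih =>
    intro hi
    rcases S.eq_empty_or_nonempty with rfl | hS
    · exact Hs_empty _ _
    · rw [Hd_eq g i hS]
      have e1 : ∑ T ∈ S.ssubsets, Kf g S T * Hd g i T = 0 := by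
        refine Finset.sum_eq_zero fun T hT => ?_
        have hT' := mem_ssubsets.1 hT
        rw [ih T hT' (fun h => hi (hT'.1 h)), mul_zero]
      have e2 : ∑ j ∈ S, (if j = i then (1 : Rg ι) else 0) = 0 :=
        Finset.sum_eq_zero fun j hj => if_neg fun h : j = i => hi (h ▸ hj)
      rw [e1, e2, ite_self, sub_zero]

lemma Hs_lin (s : ι → Rg ι) : ∀ S : Finset ι, Hs g s S = ∑ i, s i * Hd g i S := by
  intro S
  induction S using Finset.strongInduction with
  | H S ih =>
    rcases S.eq_empty_or_nonempty with rfl | hS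
    · rw [Hs_empty]
      symm
      refine Finset.sum_eq_zero fun i _ => ?_
      rw [Hd, Hs_empty, mul_zero]
    · rw [Hs_eq g s hS]
      have e1 : ∀ i, s i * Hd g i S =
          s i * (if S.card = 1 then ∑ j ∈ S, (if j = i then 1 else 0) else 0) -
            ∑ T ∈ S.ssubsets, Kf g S T * (s i * Hd g i T) := by
        intro i
        rw [Hd_eq g i hS, mul_sub, mul_sum]
        congr 1
        exact Finset.sum_congr rfl fun T _ => by ring
      simp_rw [e1]
      rw [sum_sub_distrib]
      congr 1
      · split_ifs with h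
        · simp_rw [mul_sum]
          rw [Finset.sum_comm]
          refine Finset.sum_congr rfl fun j _ => ?_
          simp
        · simp
      · rw [Finset.sum_comm]
        refine Finset.sum_congr rfl fun T hT => ?_
        rw [ih T (mem_ssubsets.1 hT), mul_sum]

lemma Hd_slice (i : ι) {k : ι} {S : Finset ι} (hS : S.Nonempty) (hk : k ∉ S) :
    qk k (Hd g i (insert k S)) = qk k (-(Lf g S k * Hd g i S)) := by
  rw [Hd, slice g _ k S hS hk, map_neg, map_mul]

lemma coeff_path (hg : ∀ i j, i ≠ j → g i j = g j i) (i : ι) : ∀ (n : ℕ) (Q : Finset ι),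
    Q.card = n → ∀ j : ι, i ∉ Q → j ∉ Q → i ≠ j →
      coeff (chi (insert i Q)) (Hd g i (insert j (insert i Q))) =
        (-1) ^ (n + 1) * hq g (fun l => g l i) Q j := by
  intro n
  induction n with
  | zero =>
    intro Q hQ j hi hj hij
    rw [card_eq_zero] at hQ
    subst hQ
    have hji : j ∉ (insert i ∅ : Finset ι) := by
      rw [mem_insert]
      rintro (h | h)
      · exact hij h.symm
      · exact notMem_empty _ h
    have hm : chi (insert i ∅ : Finset ι) j = 0 := by
      rw [chi_apply, if_neg hji]
    rw [coeff_of_qk (Hd_slice g i (insert_nonempty i ∅) hji) hm, coeff_neg, insert_empty_eq,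
      Hd_self, mul_one, Lf, sum_singleton, coeff_C_mul, hq_empty, hg i j hij]
    have : coeff (chi ({i} : Finset ι)) (X i : Rg ι) = 1 := by
      rw [chi, sum_singleton, X, coeff_monomial, if_pos rfl]
    rw [this]
    ring
  | succ n ih =>
    intro Q hQ j hi hj hij
    have hQn : Q.Nonempty := card_pos.1 (by omega)
    have hji : j ∉ insert i Q := by
      rw [mem_insert]
      rintro (h | h)
      · exact hij h.symm
      · exact hj h
    have hm : chi (insert i Q) j = 0 := by
      rw [chi_apply, if_neg hji]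
    rw [coeff_of_qk (Hd_slice g i (insert_nonempty i Q) hji) hm, coeff_neg, Lf, Finset.sum_mul,
      coeff_sum, sum_insert hi]
    have e1 : coeff (chi (insert i Q)) (C (g i j) * X i * Hd g i (insert i Q)) = 0 := by
      rw [mul_assoc, coeff_C_mul, coeff_chi_X (mem_insert_self _ _), erase_insert hi,
        coeff_of_qk (Hd_slice g i hQn hi) (by rw [chi_apply, if_neg hi]), Hd_notMem g i Q hi,
        mul_zero, neg_zero, coeff_zero, mul_zero]
    have e2 : ∀ l ∈ Q, coeff (chi (insert i Q)) (C (g l j) * X l * Hd g i (insert i Q)) =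
        g j l * ((-1) ^ (n + 1) * hq g (fun l => g l i) (Q.erase l) l) := by
      intro l hl
      have hil : i ≠ l := fun h => hi (h ▸ hl)
      have hlj : l ≠ j := fun h => hj (h ▸ hl)
      have e3 : insert i Q = insert l (insert i (Q.erase l)) := by
        rw [Finset.insert_comm, insert_erase hl]
      rw [mul_assoc, coeff_C_mul, coeff_chi_X (mem_insert_of_mem hl), erase_insert_of_ne hil]
      have h1 := ih (Q.erase l) (by rw [card_erase_of_mem hl, hQ]; rfl) l
        (fun h => hi (mem_of_mem_erase h)) (notMem_erase _ _) hil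
      rw [← e3] at h1
      rw [h1, hg l j hlj]
    rw [e1, zero_add, Finset.sum_congr rfl e2, hq_ne g _ hQn, mul_sum, ← sum_neg_distrib]
    refine Finset.sum_congr rfl fun l _ => ?_
    ring

lemma Hd_hom (i : ι) {S : Finset ι} (hS : S.Nonempty) : (Hd g i S).IsHomogeneous (S.card - 1) := by
  have := Hs_hom g (fun j => if j = i then (1 : Rg ι) else 0) 0 (fun j => by
    split_ifs
    · exact isHomogeneous_one _ _
    · exact isHomogeneous_zero _ _ _) S hS
  exact this

lemma Hd_symm (hg : ∀ i j, i ≠ j → g i j = g j i) : ∀ S : Finset ι, ∀ i ∈ S, ∀ j ∈ S,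
    X j * Hd g i S = X i * Hd g j S := by
  intro S
  induction S using Finset.strongInduction with
  | H S ih =>
    intro i hi j hj
    by_cases hij : i = j
    · rw [hij]
    ext m
    by_cases hm : ∃ k ∈ S, m k = 0
    · obtain ⟨k, hk, hmk⟩ := hm
      have hS' : S = insert k (S.erase k) := (insert_erase hk).symm
      have hSn : (S.erase k).Nonempty := by
        by_cases h : k = i
        · exact ⟨j, mem_erase.2 ⟨fun h' => hij (h.symm.trans h'.symm), hj⟩⟩
        · exact ⟨i, mem_erase.2 ⟨fun h' => h h'.symm, hi⟩⟩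
      have h1 : ∀ l, qk k (Hd g l S) = qk k (-(Lf g (S.erase k) k * Hd g l (S.erase k))) := by
        intro l
        have := Hd_slice g l hSn (notMem_erase k S)
        rwa [← hS'] at this
      refine coeff_of_qk ?_ hmk
      rw [map_mul, map_mul, h1 i, h1 j, ← map_mul, ← map_mul]
      by_cases hki : k = i
      · subst hki
        rw [Hd_notMem g k _ (notMem_erase _ _), map_mul (qk k) (X k), qk_X, zero_mul, mul_zero,
          neg_zero, mul_zero, map_zero]
      · by_cases hkj : k = j
        · subst hkj
          rw [Hd_notMem g k _ (notMem_erase _ _), map_mul (qk k) (X k), qk_X, zero_mul, mul_zero,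
            neg_zero, mul_zero, map_zero]
        · congr 1
          have := ih (S.erase k) (erase_ssubset hk) i (mem_erase.2 ⟨fun h => hki h.symm, hi⟩) j
            (mem_erase.2 ⟨fun h => hkj h.symm, hj⟩)
          linear_combination -(Lf g (S.erase k) k) * this
    · push Not at hm
      have hSn : S.Nonempty := ⟨i, hi⟩
      have hhom : ∀ a b : ι, (X a * Hd g b S : Rg ι).IsHomogeneous S.card := by
        intro a b
        have h1 := (isHomogeneous_X (ZMod 3) a).mul (Hd_hom g b hSn)
        have h2 : 1 + (S.card - 1) = S.card := by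
          have := hSn.card_pos
          omega
        rwa [h2] at h1
      by_cases hd : Finsupp.degree m = S.card
      · have := eq_chi hm hd.le
        subst this
        rw [coeff_chi_X hj, coeff_chi_X hi]
        set Q := (S.erase i).erase j with hQ
        have hiQ : i ∉ Q := fun h => notMem_erase i S (mem_of_mem_erase h)
        have hjQ : j ∉ Q := notMem_erase _ _
        have e1 : S.erase j = insert i Q := by
          rw [hQ, erase_right_comm, insert_erase (mem_erase.2 ⟨hij, hi⟩)]
        have e2 : S.erase i = insert j Q := by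
          rw [hQ, insert_erase (mem_erase.2 ⟨fun h => hij h.symm, hj⟩)]
        have e3 : S = insert j (insert i Q) := by rw [← e1, insert_erase hj]
        have e4 : S = insert i (insert j Q) := by rw [← e2, insert_erase hi]
        have h1 := coeff_path g hg i _ Q rfl j hiQ hjQ hij
        have h2 := coeff_path g hg j _ Q rfl i hjQ hiQ (fun h => hij h.symm)
        rw [← e3, ← e1] at h1
        rw [← e4, ← e2] at h2
        rw [h1, h2, hq_rev g hg _ Q rfl j i hjQ hiQ]
      · rw [(hhom j i).coeff_eq_zero hd, (hhom i j).coeff_eq_zero hd]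

lemma X_mul_Hs (hg : ∀ i j, i ≠ j → g i j = g j i) (s : ι → Rg ι) {S : Finset ι} {a : ι}
    (ha : a ∈ S) : X a * Hs g s S = Hd g a S * ∑ i ∈ S, s i * X i := by
  rw [Hs_lin, mul_sum, mul_sum, ← Finset.sum_subset (subset_univ S)]
  · refine Finset.sum_congr rfl fun i hi => ?_
    linear_combination (s i) * Hd_symm g hg S i hi a ha
  · intro i _ hi
    rw [Hd_notMem g i S hi, mul_zero, mul_zero]

end symmetric

end Pool.Agent.Helper68.C7.W3
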