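import Pool.Agent.Helper68.C7.W3d

/-!
# Second moments (module S_W3 for helper68), part 5: the leading terms of the functional

Written by helper48.
-/

set_option autoImplicit false
set_option linter.unusedSectionVars false

open Finset MvPolynomial

namespace Pool.Agent.Helper68.C7.W3

variable {ι : Type} [Fintype ι] [DecidableEq ι]

section defs

variable (g : ι → ι → ZMod 3) (r ε : ι → ZMod 3) (e : ZMod 3)
  (B : Finset ι → ((ι → ZMod 3) → ZMod 3) → ZMod 3)

/-- the first order terms -/
noncomputable def H1 : Finset ι → Rg ι := Hs g (fun i => C (-(e * r i)))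

/-- the correction -/
noncomputable def H2 : Finset ι → Rg ι := Hs g (fun i => C (e * r i) * X i ^ 2)

/-- the third source -/
noncomputable def s3 (S : Finset ι) : Rg ι :=
  if S.card = 2 then C (e * ∏ i ∈ S, r i) * ∑ i ∈ S, X i ^ 2 else 0

/-- the source of the second order terms -/
noncomputable def sP (S : Finset ι) : Rg ι :=
  C (B S (fun a => ∏ i ∈ S, a i)) * ∏ i ∈ S, X i +
    ∑ T ∈ S.powerset, K2 g ε S T * H1 g r e T + s3 r e S

/-- the second order terms -/
noncomputable def Ps : Finset ι → Rg ι := sol (Kf g) (sP g r ε e B)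

lemma Ps_empty : Ps g r ε e B ∅ = 0 := sol_empty _ _

lemma Ps_sum {S : Finset ι} (hS : S.Nonempty) :
    ∑ T ∈ S.powerset, Kf g S T * Ps g r ε e B T = sP g r ε e B S := sol_sum (Kf_self g) _ hS

lemma Ps_eq {S : Finset ι} (hS : S.Nonempty) : Ps g r ε e B S =
    sP g r ε e B S - ∑ T ∈ S.ssubsets, Kf g S T * Ps g r ε e B T := sol_eq _ _ hS

lemma H1_hom {S : Finset ι} (hS : S.Nonempty) : (H1 g r e S).IsHomogeneous (S.card - 1) :=
  Hs_hom g _ 0 (fun _ => isHomogeneous_C _ _) S hS

lemma H2_hom {S : Finset ι} (hS : S.Nonempty) : (H2 g r e S).IsHomogeneous (S.card + 1) := by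
  have h := Hs_hom g (fun i => C (e * r i) * X i ^ 2) 2
    (fun i => (isHomogeneous_X_pow i 2).C_mul _) S hS
  have h1 : S.card - 1 + 2 = S.card + 1 := by
    have := hS.card_pos
    omega
  rwa [h1] at h

lemma H1_supp (S : Finset ι) (hS : S.Nonempty) : H1 g r e S ∈ supported (ZMod 3) (S : Set ι) :=
  Hs_supp g _ (fun _ => C_supp _ _) S hS

lemma H1_empty : H1 g r e ∅ = 0 := Hs_empty _ _

lemma s3_hom (S : Finset ι) : (s3 r e S).IsHomogeneous S.card := by
  unfold s3
  split_ifs with h
  · rw [h]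
    exact (IsHomogeneous.sum _ _ _ fun i _ => isHomogeneous_X_pow i 2).C_mul _
  · exact isHomogeneous_zero _ _ _

lemma s3_supp (S : Finset ι) : s3 r e S ∈ supported (ZMod 3) (S : Set ι) := by
  unfold s3
  split_ifs with h
  · exact Subalgebra.mul_mem _ (C_supp _ _) (Subalgebra.sum_mem _ fun _ hi =>
      Subalgebra.pow_mem _ (X_supp hi) 2)
  · exact Subalgebra.zero_mem _

lemma prodX_hom (S : Finset ι) : (∏ i ∈ S, X i : Rg ι).IsHomogeneous S.card := by
  have := IsHomogeneous.prod S (fun i => (X i : Rg ι)) (fun _ => 1) fun i _ => isHomogeneous_X _ i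
  rw [← card_eq_sum_ones] at this
  exact this

lemma sP_hom (S : Finset ι) : (sP g r ε e B S).IsHomogeneous S.card := by
  refine IsHomogeneous.add (IsHomogeneous.add ((prodX_hom S).C_mul _) ?_) (s3_hom r e S)
  refine IsHomogeneous.sum _ _ _ fun T hT => ?_
  rcases T.eq_empty_or_nonempty with rfl | hTn
  · rw [H1_empty, mul_zero]
    exact isHomogeneous_zero _ _ _
  · have h1 := (K2_hom g ε S T).mul (H1_hom g r e hTn)
    have h2 := card_sdiff_add_card_eq_card (mem_powerset.1 hT)
    have h3 := hTn.card_pos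
    have h4 : (S \ T).card + 1 + (T.card - 1) = S.card := by omega
    rwa [h4] at h1

lemma sP_supp (S : Finset ι) : sP g r ε e B S ∈ supported (ZMod 3) (S : Set ι) := by
  refine Subalgebra.add_mem _ (Subalgebra.add_mem _ (Subalgebra.mul_mem _ (C_supp _ _)
    (Subalgebra.prod_mem _ fun i hi => X_supp hi)) ?_) (s3_supp r e S)
  refine Subalgebra.sum_mem _ fun T hT => ?_
  rcases T.eq_empty_or_nonempty with rfl | hTn
  · rw [H1_empty, mul_zero]
    exact Subalgebra.zero_mem _
  · exact Subalgebra.mul_mem _ (supp_mono (mem_powerset.1 hT) (K2_supp g ε S T))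
      (supp_mono (mem_powerset.1 hT) (H1_supp g r e T hTn))

lemma Ps_hom {S : Finset ι} (hS : S.Nonempty) : (Ps g r ε e B S).IsHomogeneous S.card := by
  refine sol_mem (fun S => homogeneousSubmodule ι (ZMod 3) S.card) ?_ ?_ S hS
  · intro S _
    exact sP_hom g r ε e B S
  · intro S T hT hTn x hx
    have h1 := (Kf_hom g S T).mul ((mem_homogeneousSubmodule _ _).1 hx)
    have h2 := card_sdiff_add_card_eq_card hT.1
    rw [mem_homogeneousSubmodule]
    rwa [h2] at h1

lemma Ps_supp {S : Finset ι} (hS : S.Nonempty) :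
    Ps g r ε e B S ∈ supported (ZMod 3) (S : Set ι) := by
  refine sol_mem (fun S => Subalgebra.toSubmodule (supported (ZMod 3) (S : Set ι))) ?_ ?_ S hS
  · intro S _
    exact sP_supp g r ε e B S
  · intro S T hT _ x hx
    exact Subalgebra.mul_mem _ (supp_mono hT.1 (Kf_supp g S T)) (supp_mono hT.1 hx)

/-- the source of the second order terms modulo a variable -/
lemma sP_slice {S : Finset ι} {k : ι} (hS : S.Nonempty) (hk : k ∉ S) :
    qk k (sP g r ε e B (insert k S)) = ∑ T ∈ S.powerset, qk k (Kf g S T) *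
      (qk k (C (ε k)) * qk k (Lf g T k) ^ 2 * qk k (H1 g r e T) +
        qk k (C (r k)) * qk k (H2 g r e T)) := by
  unfold sP
  rw [map_add, map_add]
  have e1 : qk k (C (B (insert k S) (fun a => ∏ i ∈ insert k S, a i)) *
      ∏ i ∈ insert k S, X i) = 0 := by
    rw [map_mul, prod_insert hk, map_mul, qk_X, zero_mul, mul_zero]
  have e2 : qk k (∑ T ∈ (insert k S).powerset, K2 g ε (insert k S) T * H1 g r e T) =
      ∑ T ∈ S.powerset, qk k (Kf g S T) *
        (qk k (C (ε k)) * qk k (Lf g T k) ^ 2 * qk k (H1 g r e T)) := by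
    rw [pairing2 g ε hk]
    refine Finset.sum_congr rfl fun T hT => ?_
    have hkT : k ∉ T := fun h => hk (mem_powerset.1 hT h)
    rcases T.eq_empty_or_nonempty with rfl | hTn
    · rw [K2_empty, Kf_empty g hS, map_zero]
      ring
    · have h1 : qk k (Lf g T k) * qk k (H1 g r e T) + qk k (H1 g r e (insert k T)) = 0 := by
        unfold H1
        rw [slice g _ k T hTn hkT, add_neg_cancel]
      rw [h1]
      ring
  have e3 : qk k (s3 r e (insert k S)) =
      ∑ T ∈ S.powerset, qk k (Kf g S T) * (qk k (C (r k)) * qk k (H2 g r e T)) := by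
    have h1 : ∑ T ∈ S.powerset, qk k (Kf g S T) * (qk k (C (r k)) * qk k (H2 g r e T)) =
        qk k (C (r k) * (∑ T ∈ S.powerset, Kf g S T * H2 g r e T)) := by
      rw [map_mul, map_sum, mul_sum]
      refine Finset.sum_congr rfl fun T _ => ?_
      rw [map_mul]
      ring
    rw [h1, H2, Hs_sum g _ hS, s3, card_insert_of_notMem hk]
    by_cases hc : S.card = 1
    · obtain ⟨i, rfl⟩ := card_eq_one.1 hc
      rw [if_pos (by rw [hc]), if_pos hc, prod_insert hk, prod_singleton, sum_insert hk,
        sum_singleton, sum_singleton]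
      simp only [map_mul, map_add, map_pow, qk_X]
      ring
    · rw [if_neg (by omega), if_neg hc, mul_zero]
  rw [e1, e2, e3, zero_add, ← sum_add_distrib]
  exact Finset.sum_congr rfl fun T _ => by ring

lemma Ps_slice (k : ι) : ∀ S : Finset ι, S.Nonempty → k ∉ S →
    qk k (Ps g r ε e B (insert k S)) = -(qk k (Lf g S k) * qk k (Ps g r ε e B S)) +
      qk k (C (ε k)) * qk k (Lf g S k) ^ 2 * qk k (H1 g r e S) +
        qk k (C (r k)) * qk k (H2 g r e S) := by
  intro S
  induction S using Finset.strongInduction with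
  | H S ih =>
    intro hS hk
    have h1 := pairing g hk (Ps g r ε e B)
    rw [Ps_sum g r ε e B (insert_nonempty k S), sP_slice g r ε e B hS hk] at h1
    have h2 := sub_eq_zero.2 h1
    rw [← sum_sub_distrib, sum_powerset_eq S, Kf_self, map_one, Finset.sum_eq_zero, add_zero] at h2
    · linear_combination -h2
    · intro T hT
      have hT' := mem_ssubsets.1 hT
      rcases T.eq_empty_or_nonempty with rfl | hTn
      · rw [Kf_empty g hS, map_zero, zero_mul, zero_mul, sub_zero]
      · rw [ih T hT' hTn (fun h => hk (hT'.1 h))]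
        ring

end defs

section symmetric

variable {g : ι → ι → ZMod 3} (hg : ∀ i j, i ≠ j → g i j = g j i) (r ε : ι → ZMod 3) (e : ZMod 3)

include hg

lemma X_mul_H1 {S : Finset ι} {a : ι} (ha : a ∈ S) :
    X a * H1 g r e S = Hd g a S * (-C e * ∑ i ∈ S, C (r i) * X i) := by
  have h : ∑ i ∈ S, C (-(e * r i)) * (X i : Rg ι) = -C e * ∑ i ∈ S, C (r i) * X i := by
    rw [mul_sum]
    refine Finset.sum_congr rfl fun i _ => ?_
    rw [C_neg, C_mul]
    ring
  rw [H1, X_mul_Hs g hg _ ha, h]

lemma X_mul_H2 {S : Finset ι} {a : ι} (ha : a ∈ S) :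
    X a * H2 g r e S = Hd g a S * (C e * ∑ i ∈ S, C (r i) * X i ^ 3) := by
  have h : ∑ i ∈ S, C (e * r i) * (X i : Rg ι) ^ 2 * X i = C e * ∑ i ∈ S, C (r i) * X i ^ 3 := by
    rw [mul_sum]
    refine Finset.sum_congr rfl fun i _ => ?_
    rw [C_mul]
    ring
  rw [H2, X_mul_Hs g hg _ ha, h]

lemma H2_Vi {S : Finset ι} (hS : 2 ≤ S.card) : H2 g r e S ∈ Vi ι := by
  have hSn : S.Nonempty := card_pos.1 (by omega)
  intro m hm
  by_cases h : ∃ a ∈ S, m a ≤ 1
  · obtain ⟨a, ha, hma⟩ := h
    have h1 : X a * H2 g r e S ∈ Vi ι := by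
      rw [X_mul_H2 hg r e ha]
      exact Ideal.mul_mem_left _ _ (Ideal.mul_mem_left _ _ (Ideal.sum_mem _ fun i _ =>
        Ideal.mul_mem_left _ _ (X_cube i)))
    have h2 := h1 (m + Finsupp.single a 1) (fun i => by
      rw [Finsupp.add_apply]
      by_cases hi : i = a
      · subst hi
        rw [Finsupp.single_eq_same]
        omega
      · rw [Finsupp.single_eq_of_ne hi]
        exact hm i)
    rw [mul_comm, coeff_mul_X] at h2
    exact h2
  · push Not at h
    refine (H2_hom g r e hSn).coeff_eq_zero ?_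
    have h1 : ∀ a ∈ S, m a = 2 := fun a ha => le_antisymm (hm a) (h a ha)
    have h2 : 2 * S.card ≤ Finsupp.degree m := by
      rw [Finsupp.degree_eq_sum]
      refine le_trans ?_ (Finset.sum_le_sum_of_subset (subset_univ S))
      rw [Finset.sum_congr rfl h1, sum_const, smul_eq_mul, mul_comm]
    omega

end symmetric

end Pool.Agent.Helper68.C7.W3
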