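import Pool.Agent.Helper68.C7.W3e

/-!
# Second moments (module S_W3 for helper68), part 6: the expansion of the generating polynomial

Written by helper48.
-/

set_option autoImplicit false
set_option linter.unusedSectionVars false

open Finset MvPolynomial

namespace Pool.Agent.Helper68.C7.W3

variable {ι : Type} [Fintype ι] [DecidableEq ι]

lemma coeff_supp_chi {S T : Finset ι} (hT : T ⊂ S) {f : Rg ι}
    (hf : f ∈ supported (ZMod 3) (T : Set ι)) : coeff (chi S) f = 0 := by
  obtain ⟨k, hk, hkT⟩ := exists_of_ssubset hT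
  exact supp_coeff hf hkT (by rw [chi_apply, if_pos hk]; exact one_ne_zero)

lemma prodX_eq (S : Finset ι) : (∏ i ∈ S, X i : Rg ι) = monomial (chi S) 1 := by
  rw [chi, monomial_sum_one]
  rfl

section defs

variable (g : ι → ι → ZMod 3) (r ε : ι → ZMod 3) (e : ZMod 3)
  (B : Finset ι → ((ι → ZMod 3) → ZMod 3) → ZMod 3)

lemma coeff_s3 (S : Finset ι) : coeff (chi S) (s3 r e S) = 0 := by
  unfold s3
  split_ifs with h
  · rw [coeff_C_mul, coeff_sum, Finset.sum_eq_zero, mul_zero]
    intro i _
    rw [coeff_X_pow, if_neg]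
    intro h
    have h1 := DFunLike.congr_fun h i
    rw [Finsupp.single_eq_same, chi_apply] at h1
    by_cases hi : i ∈ S
    · rw [if_pos hi] at h1
      omega
    · rw [if_neg hi] at h1
      omega
  · exact coeff_zero _

lemma coeff_Ps {S : Finset ι} (hS : S.Nonempty) :
    coeff (chi S) (Ps g r ε e B S) = B S (fun a => ∏ i ∈ S, a i) := by
  have h1 : coeff (chi S) (∑ T ∈ S.ssubsets, Kf g S T * Ps g r ε e B T) = 0 := by
    rw [coeff_sum]
    refine Finset.sum_eq_zero fun T hT => ?_
    have hT' := mem_ssubsets.1 hT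
    rcases T.eq_empty_or_nonempty with rfl | hTn
    · rw [Ps_empty, mul_zero, coeff_zero]
    · exact coeff_supp_chi hT' (Subalgebra.mul_mem _ (Kf_supp g S T) (Ps_supp g r ε e B hTn))
  have h2 : coeff (chi S) (∑ T ∈ S.powerset, K2 g ε S T * H1 g r e T) = 0 := by
    rw [coeff_sum]
    refine Finset.sum_eq_zero fun T hT => ?_
    rcases T.eq_empty_or_nonempty with rfl | hTn
    · rw [H1_empty, mul_zero, coeff_zero]
    · by_cases hTS : T = S
      · rw [hTS, K2_self, zero_mul, coeff_zero]
      · exact coeff_supp_chi (Finset.ssubset_iff_subset_ne.2 ⟨mem_powerset.1 hT, hTS⟩)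
          (Subalgebra.mul_mem _ (K2_supp g ε S T) (H1_supp g r e T hTn))
  rw [Ps_eq g r ε e B hS, coeff_sub, h1, sub_zero, sP, coeff_add, coeff_add, coeff_C_mul, h2,
    coeff_s3, prodX_eq, coeff_monomial, if_pos rfl, mul_one, add_zero, add_zero]

end defs

section main

variable {g : ι → ι → ZMod 3} (hg : ∀ i j, i ≠ j → g i j = g j i) {r ε : ι → ZMod 3} {e : ZMod 3}
  {B : Finset ι → ((ι → ZMod 3) → ZMod 3) → ZMod 3} (hB : Bd g r ε e B) (hε : ∀ i, ε i ≠ 0)

include hg in
/-- the two squares -/
lemma squares_mem (k : ι) {S : Finset ι} (hS : S.Nonempty) :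
    -(C (e * r k * ∏ i ∈ S, -r i) * ∏ i ∈ S, X i ^ 2) - C (r k) * H2 g r e S ∈
      Vd ι (S.card + 2) := by
  by_cases hc : S.card = 1
  · obtain ⟨i, rfl⟩ := card_eq_one.1 hc
    rw [prod_singleton, prod_singleton, H2, Hs_single]
    have : -(C (e * r k * -r i) * X i ^ 2) - C (r k) * (C (e * r i) * X i ^ 2) = (0 : Rg ι) := by
      rw [C_mul, C_mul, C_mul, C_neg]
      ring
    rw [this]
    exact Ideal.zero_mem _
  · have hc2 : 2 ≤ S.card := by
      have := hS.card_pos
      omega
    refine Ideal.sub_mem _ ((Ideal.neg_mem_iff _).2 (Ideal.mul_mem_left _ _ ?_))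
      (Ideal.mul_mem_left _ _ (Vi_le _ (H2_Vi hg r e hc2)))
    rw [prod_pow]
    have h1 := (prodX_hom S).pow 2
    exact Vd_hom h1 (by omega)

include hg hB hε in
lemma be_eq : ∀ S : Finset ι, S.Nonempty →
    be B S - H1 g r e S - Ps g r ε e B S ∈ Vd ι (S.card + 1) := by
  intro S
  induction S using Finset.strongInduction with
  | H S ih =>
    intro hS m hm2 hmd
    by_cases hex : ∃ k ∈ S, m k = 0
    · obtain ⟨k, hk, hmk⟩ := hex
      rcases (S.erase k).eq_empty_or_nonempty with he | hSn
      · have hSk : S = {k} := by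
          rw [← insert_erase hk, he]
          rfl
        subst hSk
        rw [coeff_sub, coeff_sub]
        by_cases hm0 : m = 0
        · subst hm0
          rw [coeff_be_zero hB, H1, Hs_single, coeff_C, if_pos rfl,
            (Ps_hom g r ε e B (singleton_nonempty k)).coeff_eq_zero (by simp)]
          ring
        · obtain ⟨i, hi⟩ := Finsupp.ne_iff.1 hm0
          rw [Finsupp.zero_apply] at hi
          have hik : i ∉ ({k} : Finset ι) := by
            intro h
            rw [mem_singleton] at h
            subst h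
            exact hi hmk
          rw [supp_coeff (be_supp B {k}) hik hi,
            supp_coeff (H1_supp g r e {k} (singleton_nonempty k)) hik hi,
            supp_coeff (Ps_supp g r ε e B (singleton_nonempty k)) hik hi]
          ring
      · obtain ⟨S', hS'⟩ : ∃ S', S' = S.erase k := ⟨_, rfl⟩
        have hin : S = insert k S' := by rw [hS', insert_erase hk]
        have hkS : k ∉ S' := by
          rw [hS']
          exact notMem_erase _ _
        rw [← hS'] at hSn
        have hcard : S.card = S'.card + 1 := by rw [hin, card_insert_of_notMem hkS]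
        have ih' := ih S' (by rw [hS']; exact erase_ssubset hk) hSn
        have hpos := hSn.card_pos
        have hP : Ps g r ε e B S' ∈ Vd ι S'.card := Vd_hom (Ps_hom g r ε e B hSn) le_rfl
        have hH : H1 g r e S' ∈ Vd ι (S'.card - 1) := Vd_hom (H1_hom g r e hSn) le_rfl
        have hbe : be B S' ∈ Vd ι (S'.card - 1) := by
          have e1 : be B S' = (be B S' - H1 g r e S' - Ps g r ε e B S') + H1 g r e S' +
            Ps g r ε e B S' := by ring
          rw [e1]
          exact Ideal.add_mem _ (Ideal.add_mem _ (Vd_mono (by omega) ih') hH)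
            (Vd_mono (by omega) hP)
        obtain ⟨D, hD1, hD2⟩ := rec_be hB hSn hkS (hε k) hbe
        have hL : Lf g S' k ∈ Vd ι 1 := Vd_hom (Lf_hom g S' k) le_rfl
        have hL2 : Lf g S' k ^ 2 ∈ Vd ι 2 := Vd_hom ((Lf_hom g S' k).pow 2) (by omega)
        rw [hin]
        rw [coeff_sub, coeff_sub]
        have c1 : coeff m (be B (insert k S')) = coeff m D := by
          have := coeff_of_dvd hD1 hmk
          rw [coeff_sub] at this
          exact sub_eq_zero.1 this
        have c2 : coeff m (H1 g r e (insert k S')) = coeff m (-(Lf g S' k * H1 g r e S')) := by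
          refine coeff_of_qk ?_ hmk
          rw [H1, slice g _ k S' hSn hkS, map_neg, map_mul]
        have c3 : coeff m (Ps g r ε e B (insert k S')) =
            coeff m (-(Lf g S' k * Ps g r ε e B S') + C (ε k) * Lf g S' k ^ 2 * H1 g r e S' +
              C (r k) * H2 g r e S') := by
          refine coeff_of_qk ?_ hmk
          rw [Ps_slice g r ε e B k S' hSn hkS]
          simp only [map_add, map_neg, map_mul, map_pow]
        rw [c1, c2, c3, ← coeff_sub, ← coeff_sub]
        have e1 : D - -(Lf g S' k * H1 g r e S') -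
            (-(Lf g S' k * Ps g r ε e B S') + C (ε k) * Lf g S' k ^ 2 * H1 g r e S' +
              C (r k) * H2 g r e S') =
            (D - ((-Lf g S' k + C (ε k) * Lf g S' k ^ 2) * be B S' -
              C (e * r k * ∏ i ∈ S', -r i) * ∏ i ∈ S', X i ^ 2)) +
            (-Lf g S' k + C (ε k) * Lf g S' k ^ 2) *
              (be B S' - H1 g r e S' - Ps g r ε e B S') +
            C (ε k) * (Lf g S' k ^ 2 * Ps g r ε e B S') +
            (-(C (e * r k * ∏ i ∈ S', -r i) * ∏ i ∈ S', X i ^ 2) - C (r k) * H2 g r e S') := by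
          ring
        have hmem : D - -(Lf g S' k * H1 g r e S') -
            (-(Lf g S' k * Ps g r ε e B S') + C (ε k) * Lf g S' k ^ 2 * H1 g r e S' +
              C (r k) * H2 g r e S') ∈ Vd ι (S'.card + 2) := by
          rw [e1]
          refine Ideal.add_mem _ (Ideal.add_mem _ (Ideal.add_mem _ ?_ ?_) ?_) ?_
          · exact Vd_mono (by omega) hD2
          · refine Vd_mul' (a := 1) (Ideal.add_mem _ ((Ideal.neg_mem_iff _).2 hL)
              (Ideal.mul_mem_left _ _ (Vd_mono (by omega) hL2))) ih' (by omega)
          · exact Ideal.mul_mem_left _ _ (Vd_mul' hL2 hP (by omega))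
          · exact squares_mem hg k hSn
        exact hmem m hm2 (by omega)
    · push Not at hex
      have hmc : m = chi S := eq_chi hex (by omega)
      subst hmc
      rw [coeff_sub, coeff_sub, coeff_be hB, coeff_Ps g r ε e B hS,
        (H1_hom g r e hS).coeff_eq_zero (by
          rw [degree_chi]
          have := hS.card_pos
          omega)]
      ring

end main

end Pool.Agent.Helper68.C7.W3
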