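import Pool.Agent.Helper68.C7.W3f

/-!
# Second moments (module S_W3 for helper68), part 7: the substitution

Written by helper48.
-/

set_option autoImplicit false
set_option linter.unusedSectionVars false

open Finset MvPolynomial

namespace Pool.Agent.Helper68.C7.W3

variable {ι : Type} [Fintype ι] [DecidableEq ι]

/-- the substitution of a variable -/
noncomputable def su (o : ι) (y : Rg ι) : Rg ι →ₐ[ZMod 3] Rg ι :=
  aeval (fun i => if i = o then y else X i)

lemma su_self (o : ι) (y : Rg ι) : su o y (X o) = y := by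
  rw [su, aeval_X, if_pos rfl]

lemma su_ne {o i : ι} (h : i ≠ o) (y : Rg ι) : su o y (X i) = X i := by
  rw [su, aeval_X, if_neg h]

lemma su_C (o : ι) (y : Rg ι) (c : ZMod 3) : su o y (C c) = C c := (su o y).commutes c

lemma Lin_su (o : ι) {y : Rg ι} (hy : Lin y) (i : ι) : Lin (su o y (X i)) := by
  by_cases h : i = o
  · rw [h, su_self]
    exact hy
  · rw [su_ne h]
    exact Lin_X i

/-- the linear form to be substituted -/
noncomputable def la (r : ι → ZMod 3) (o : ι) (S : Finset ι) : Rg ι :=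
  ∑ l ∈ S.erase o, C (-(r l / r o)) * X l

/-- its exponential -/
noncomputable def ww (r : ι → ZMod 3) (o : ι) (S : Finset ι) : Rg ι :=
  ∏ l ∈ S.erase o, Ef (C (-(r l / r o)) * X l)

/-- its logarithm -/
noncomputable def wl (r : ι → ZMod 3) (o : ι) (S : Finset ι) : Rg ι :=
  ww r o S ^ 2 - ww r o S

lemma Lin_la (r : ι → ZMod 3) (o : ι) (S : Finset ι) : Lin (la r o S) :=
  Lin_sum (S.erase o) (fun l => -(r l / r o)) id

/-- reduction modulo the cubes -/
noncomputable abbrev qv (ι : Type) : Rg ι →+* Rg ι ⧸ Vi ι := Ideal.Quotient.mk _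

lemma qv_three : (3 : Rg ι ⧸ Vi ι) = 0 := by
  have := congrArg (qv ι) (three_eq (ι := ι))
  rwa [map_ofNat, map_zero] at this

lemma qv_zero {f : Rg ι} : qv ι f = 0 ↔ f ∈ Vi ι := Ideal.Quotient.eq_zero_iff_mem

lemma Ef_nat {A : Type} [CommRing A] (h3 : (3 : A) = 0) {y : A} (hy : y ^ 3 = 0) (n : ℕ) :
    Ef ((n : A) * y) = Ef y ^ n := by
  induction n with
  | zero => rw [Nat.cast_zero, zero_mul, Ef_zero, pow_zero]
  | succ n ih =>
    rw [pow_succ, ← ih]
    have := Ef_mul h3 hy (n : A) 1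
    rw [one_mul] at this
    rw [this, Nat.cast_succ]

lemma Ef_cube {A : Type} [CommRing A] (h3 : (3 : A) = 0) {y : A} (hy : y ^ 3 = 0) :
    Ef y ^ 3 = 1 := by
  rw [← Ef_nat h3 hy 3, Nat.cast_ofNat, h3, zero_mul, Ef_zero]

lemma Ef_map {A A' : Type} [CommRing A] [CommRing A'] (f : A →+* A') (y : A) :
    f (Ef y) = Ef (f y) := by
  unfold Ef
  rw [map_sub, map_add, map_one, map_pow]

lemma qv_X_cube (c : ZMod 3) (l : ι) : (qv ι (C c * X l)) ^ 3 = 0 := by
  rw [← map_pow, qv_zero, mul_pow]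
  exact Ideal.mul_mem_left _ _ (X_cube l)

lemma qv_ww (r : ι → ZMod 3) (o : ι) (S : Finset ι) : qv ι (ww r o S) ^ 3 = 1 := by
  rw [ww, map_prod, ← prod_pow]
  refine Finset.prod_eq_one fun l _ => ?_
  rw [Ef_map, Ef_cube qv_three (qv_X_cube _ _)]

lemma qv_wl (r : ι → ZMod 3) (o : ι) (S : Finset ι) : qv ι (wl r o S) ^ 3 = 0 := by
  rw [wl, map_sub, map_pow]
  have h := qv_ww r o S
  linear_combination (qv ι (ww r o S) ^ 3 - 3 * qv ι (ww r o S) ^ 2 + 3 * qv ι (ww r o S)) * h +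
    (-qv ι (ww r o S) ^ 2 + qv ι (ww r o S)) * (qv_three (ι := ι))

lemma Ef_wl (r : ι → ZMod 3) (o : ι) (S : Finset ι) :
    Ef (qv ι (wl r o S)) = qv ι (ww r o S) := by
  rw [wl, map_sub, map_pow]
  have h := qv_ww r o S
  unfold Ef
  linear_combination (2 - qv ι (ww r o S)) * h + (1 - qv ι (ww r o S)) * (qv_three (ι := ι))

lemma wl_sub (r : ι → ZMod 3) (o : ι) (S : Finset ι) : wl r o S - la r o S ∈ Vd ι 3 := by
  have h1 := prod_Ef (S.erase o) (fun l => C (-(r l / r o)) * (X l : Rg ι))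
    fun l _ => Ideal.mul_mem_left _ _ (X_mem l)
  have hL : la r o S ∈ Vd ι 1 := (Lin_la r o S).1
  have h2 : ww r o S - (1 + la r o S - la r o S ^ 2) ∈ Vd ι 3 := h1
  have e : wl r o S - la r o S =
      (ww r o S - (1 + la r o S - la r o S ^ 2)) * (ww r o S + (la r o S - la r o S ^ 2)) +
      (la r o S * la r o S * la r o S * (la r o S - 2)) := by
    unfold wl
    ring
  rw [e]
  exact Ideal.add_mem _ (Ideal.mul_mem_right _ _ h2)
    (Ideal.mul_mem_right _ _ (Vd_mul (Vd_mul hL hL) hL))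

lemma Lin_wl (r : ι → ZMod 3) (o : ι) (S : Finset ι) : Lin (wl r o S) := by
  refine ⟨?_, ?_⟩
  · have e : wl r o S = (wl r o S - la r o S) + la r o S := by ring
    rw [e]
    exact Ideal.add_mem _ (Vd_mono (by omega) (wl_sub r o S)) (Lin_la r o S).1
  · rw [← qv_zero, map_pow]
    exact qv_wl r o S

section main

variable {g : ι → ι → ZMod 3} (hg : ∀ i j, i ≠ j → g i j = g j i) {r ε : ι → ZMod 3} {e : ZMod 3}
  {B : Finset ι → ((ι → ZMod 3) → ZMod 3) → ZMod 3} (hB : Bd g r ε e B) (hε : ∀ i, ε i ≠ 0)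
  {o : ι} (ho : r o ≠ 0)

include ho in
lemma la_zero {S : Finset ι} (hoS : o ∈ S) :
    su o (la r o S) (∑ i ∈ S, C (r i) * X i) = 0 := by
  have h1 : ∑ i ∈ S, C (r i) * (X i : Rg ι) = C (r o) * X o + ∑ i ∈ S.erase o, C (r i) * X i :=
    (Finset.add_sum_erase S _ hoS).symm
  rw [h1, map_add, map_mul, su_self, su_C, map_sum]
  have h2 : ∑ i ∈ S.erase o, su o (la r o S) (C (r i) * X i) =
      ∑ i ∈ S.erase o, C (r i) * X i := by
    refine Finset.sum_congr rfl fun i hi => ?_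
    rw [map_mul, su_C, su_ne (mem_erase.1 hi).1]
  rw [h2, la, mul_sum, ← sum_add_distrib]
  refine Finset.sum_eq_zero fun i _ => ?_
  rw [← mul_assoc, ← C_mul, ← add_mul, ← C_add]
  have : r o * -(r i / r o) + r i = 0 := by
    field_simp
    ring
  rw [this, C_0, zero_mul]

include ho hg in
lemma su_H1 {S : Finset ι} (hoS : o ∈ S) (hS : 2 ≤ S.card) :
    su o (la r o S) (H1 g r e S) = 0 := by
  obtain ⟨a, ha, hao⟩ := Finset.exists_mem_ne (by omega : 1 < S.card) o
  have h1 := congrArg (su o (la r o S)) (X_mul_H1 hg r e ha)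
  rw [map_mul, map_mul, map_mul, la_zero ho hoS, mul_zero, mul_zero, su_ne hao] at h1
  exact (mul_eq_zero.1 h1).resolve_left (X_ne_zero a)

include ho hg in
lemma su_H2 {S : Finset ι} (hoS : o ∈ S) :
    su o (la r o S) (H2 g r e S) = 0 := by
  by_cases hc : S.card = 1
  · obtain ⟨i, rfl⟩ := card_eq_one.1 hc
    rw [mem_singleton] at hoS
    subst hoS
    rw [H2, Hs_single, map_mul, map_pow, su_self, la, erase_singleton, sum_empty]
    ring
  · have hpos := card_pos.2 ⟨o, hoS⟩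
    obtain ⟨a, ha, hao⟩ := Finset.exists_mem_ne (by omega : 1 < S.card) o
    have h1 := congrArg (su o (la r o S)) (X_mul_H2 hg r e ha)
    have h2 : ∑ i ∈ S, C (r i) * (X i : Rg ι) ^ 3 = (∑ i ∈ S, C (r i) * X i) ^ 3 := by
      rw [sum_pow_char 3]
      refine Finset.sum_congr rfl fun i _ => ?_
      rw [mul_pow, ← C_pow]
      congr 2
      exact (ZMod.pow_card (r i)).symm
    rw [h2, map_mul, map_mul, map_mul, map_pow, la_zero ho hoS, zero_pow (by omega), mul_zero,
      mul_zero, su_ne hao] at h1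
    exact (mul_eq_zero.1 h1).resolve_left (X_ne_zero a)

/-- the invariant function -/
noncomputable def Pv (r : ι → ZMod 3) (o : ι) (S : Finset ι) (a : ι → ZMod 3) : Rg ι :=
  ∏ l ∈ S.erase o, Ef (C (a l + -(r l / r o) * a o) * X l)

lemma sp_erase {S : Finset ι} :
    (sp S).filter (fun a : ι → ZMod 3 => a o = 0) = sp (S.erase o) := by
  ext a
  simp only [sp, mem_filter, mem_univ, true_and, mem_erase, ne_eq, not_and_or, not_not]
  constructor
  · rintro ⟨h1, h2⟩ i (hi | hi)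
    · rw [hi]
      exact h2
    · exact h1 i hi
  · intro h
    exact ⟨fun i hi => h i (Or.inr hi), h o (Or.inl rfl)⟩

lemma Pv_dep {S : Finset ι} (hoS : o ∈ S) (a b : ι → ZMod 3) (h : ∀ i ∈ S, a i = b i) :
    Pv r o S a = Pv r o S b := by
  unfold Pv
  refine Finset.prod_congr rfl fun l hl => ?_
  rw [h l (mem_of_mem_erase hl), h o hoS]

include ho in
lemma Pv_inv (S : Finset ι) (a : ι → ZMod 3) : Pv r o S (fun i => a i + r i) = Pv r o S a := by
  unfold Pv
  refine Finset.prod_congr rfl fun l _ => ?_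
  have : a l + r l + -(r l / r o) * (a o + r o) = a l + -(r l / r o) * a o := by
    field_simp
    ring
  rw [this]

lemma Pv_zero (S : Finset ι) (a : ι → ZMod 3) (ha : a o = 0) :
    Pv r o S a = ∏ i ∈ S.erase o, Ef (C (a i) * X i) := by
  unfold Pv
  refine Finset.prod_congr rfl fun l _ => ?_
  rw [ha, mul_zero, add_zero]

include hB ho in
lemma BR_Pv {S : Finset ι} (hoS : o ∈ S) :
    BR B S (Pv r o S) = C (e * ∏ i ∈ S, -r i) * ∏ i ∈ S.erase o, X i ^ 2 := by
  have h1 := BR_tr hB hoS ho (Pv r o S) (fun a b h => Pv_dep hoS a b h) (Pv_inv ho S)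
  have h2 : ∑ a ∈ sp (S.erase o), Pv r o S a = ∏ i ∈ S.erase o, X i ^ 2 := by
    rw [← sum_sp_Ef]
    refine Finset.sum_congr rfl fun a ha => Pv_zero S a ?_
    simp only [sp, mem_filter, mem_univ, true_and] at ha
    exact ha o (notMem_erase _ _)
  rw [h1, sp_erase, h2]

lemma su_wl_prod {S : Finset ι} (hoS : o ∈ S) (a : ι → ZMod 3) :
    (∏ i ∈ S, Ef (C (a i) * su o (wl r o S) (X i))) - Pv r o S a ∈ Vi ι := by
  rw [← Ideal.Quotient.eq, map_prod, Pv, map_prod, ← Finset.mul_prod_erase S _ hoS]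
  have h1 : qv ι (Ef (C (a o) * su o (wl r o S) (X o))) =
      ∏ l ∈ S.erase o, Ef (qv ι (C (a o)) * qv ι (C (-(r l / r o)) * X l)) := by
    have hc : qv ι (C (a o)) = (((a o).val : ℕ) : Rg ι ⧸ Vi ι) := by
      have : (C (a o) : Rg ι) = (((a o).val : ℕ) : Rg ι) := by
        rw [← map_natCast (C : ZMod 3 →+* Rg ι), ZMod.natCast_zmod_val]
      rw [this, map_natCast]
    rw [Ef_map, su_self, map_mul, hc, Ef_nat qv_three (qv_wl r o S), Ef_wl, ww, map_prod,
      ← prod_pow]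
    refine Finset.prod_congr rfl fun l _ => ?_
    rw [Ef_map, Ef_nat qv_three (qv_X_cube _ _)]
  have h1' : (Ideal.Quotient.mk (Vi ι)) (Ef (C (a o) * su o (wl r o S) (X o))) =
      ∏ l ∈ S.erase o, Ef (qv ι (C (a o)) * qv ι (C (-(r l / r o)) * X l)) := h1
  rw [h1', ← prod_mul_distrib]
  refine Finset.prod_congr rfl fun l hl => ?_
  have hx : (qv ι (X l)) ^ 3 = 0 := by
    rw [← map_pow, qv_zero]
    exact X_cube l
  have h2 := Ef_mul (qv_three (ι := ι)) hx (qv ι (C (a o)) * qv ι (C (-(r l / r o))))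
    (qv ι (C (a l)))
  have h3 : (Ideal.Quotient.mk (Vi ι)) (Ef (C (a l) * su o (wl r o S) (X l))) =
      Ef (qv ι (C (a l)) * qv ι (X l)) := by
    rw [su_ne (mem_erase.1 hl).1, Ef_map, map_mul]
  have h4 : (Ideal.Quotient.mk (Vi ι)) (Ef (C (a l + -(r l / r o) * a o) * X l)) =
      Ef ((qv ι (C (a o)) * qv ι (C (-(r l / r o))) + qv ι (C (a l))) * qv ι (X l)) := by
    rw [Ef_map, map_mul, C_add, C_mul, map_add, map_mul]
    congr 1
    ring
  rw [h3, h4, ← h2, map_mul, ← mul_assoc]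

include hB ho in
lemma su_wl_be {S : Finset ι} (hoS : o ∈ S) :
    su o (wl r o S) (be B S) - C (e * ∏ i ∈ S, -r i) * ∏ i ∈ S.erase o, X i ^ 2 ∈ Vi ι := by
  rw [← BR_Pv hB ho hoS]
  have h1 : su o (wl r o S) (be B S) =
      BR B S (fun a => ∏ i ∈ S, Ef (C (a i) * su o (wl r o S) (X i))) := by
    unfold be BR
    rw [map_sum]
    refine Finset.sum_congr rfl fun a _ => ?_
    rw [map_mul, su_C, map_prod]
    congr 1
    refine Finset.prod_congr rfl fun i _ => ?_
    unfold Ef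
    rw [map_sub, map_add, map_one, map_pow, map_mul, su_C]
  rw [h1]
  exact BR_sub_mem B S _ _ _ fun a => su_wl_prod hoS a

include hg hB hε ho in
/-- the substitution in the second order terms -/
lemma su_Ps {S : Finset ι} (hoS : o ∈ S) (hS : 2 ≤ S.card) :
    su o (la r o S) (Ps g r ε e B S) - C (e * ∏ i ∈ S, -r i) * ∏ i ∈ S.erase o, X i ^ 2 ∈
      Vd ι (S.card + 1) := by
  have hSn : S.Nonempty := ⟨o, hoS⟩
  have h1 := be_eq hg hB hε S hSn
  have h2 := tau_mem (su o (la r o S)) (fun i => Lin_su o (Lin_la r o S) i) h1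
  rw [map_sub, map_sub, su_H1 hg ho hoS hS, sub_zero] at h2
  have hbe : be B S ∈ Vd ι (S.card - 1) := by
    have e1 : be B S = (be B S - H1 g r e S - Ps g r ε e B S) + H1 g r e S +
      Ps g r ε e B S := by ring
    rw [e1]
    exact Ideal.add_mem _ (Ideal.add_mem _ (Vd_mono (by omega) h1)
      (Vd_hom (H1_hom g r e hSn) le_rfl)) (Vd_hom (Ps_hom g r ε e B hSn) (by omega))
  have h3 := tau_sub (su o (wl r o S)) (su o (la r o S)) (fun i => Lin_su o (Lin_wl r o S) i)
    (fun i => Lin_su o (Lin_la r o S) i) (fun i => by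
      by_cases h : i = o
      · rw [h, su_self, su_self]
        exact wl_sub r o S
      · rw [su_ne h, su_ne h, sub_self]
        exact Ideal.zero_mem _) hbe
  have h4 := su_wl_be (S := S) hB ho hoS
  have e2 : su o (la r o S) (Ps g r ε e B S) - C (e * ∏ i ∈ S, -r i) * ∏ i ∈ S.erase o, X i ^ 2 =
      -(su o (la r o S) (be B S) - su o (la r o S) (Ps g r ε e B S)) -
      (su o (wl r o S) (be B S) - su o (la r o S) (be B S)) +
      (su o (wl r o S) (be B S) - C (e * ∏ i ∈ S, -r i) * ∏ i ∈ S.erase o, X i ^ 2) := by ring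
  rw [e2]
  exact Ideal.add_mem _ (Ideal.sub_mem _ ((Ideal.neg_mem_iff _).2 h2) (Vd_mono (by omega) h3))
    (Vi_le _ h4)

end main

end Pool.Agent.Helper68.C7.W3
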