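import Pool.Agent.Helper68.C7.W3g

/-!
# Second moments (module S_W3 for helper68), part 8: the twisted recursion

Written by helper48.
-/

set_option autoImplicit false
set_option linter.unusedSectionVars false

open Finset MvPolynomial

namespace Pool.Agent.Helper68.C7.W3

variable {ι : Type} [Fintype ι] [DecidableEq ι]

/-- the twisted weights -/
def gt (g : ι → ι → ZMod 3) (r : ι → ZMod 3) (o : ι) (i j : ι) : ZMod 3 :=
  g i j - r i / r o * g o j

lemma la_insert (r : ι → ZMod 3) {o : ι} {T : Finset ι} (ho : o ∉ T) :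
    la r o (insert o T) = ∑ l ∈ T, C (-(r l / r o)) * X l := by
  rw [la, erase_insert ho]

lemma su_Lf (g : ι → ι → ZMod 3) (r : ι → ZMod 3) {o : ι} {T : Finset ι} (ho : o ∉ T) (j : ι) :
    su o (la r o (insert o T)) (Lf g (insert o T) j) = Lf (gt g r o) T j := by
  have h2 : ∑ i ∈ T, su o (la r o (insert o T)) (C (g i j) * X i) =
      ∑ i ∈ T, C (g i j) * X i := by
    refine Finset.sum_congr rfl fun i hi => ?_
    rw [map_mul, su_C, su_ne (fun h : i = o => ho (h ▸ hi))]
  rw [Lf, sum_insert ho, map_add, map_sum, h2, map_mul, su_C, su_self, la_insert r ho, Lf, mul_sum,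
    ← sum_add_distrib]
  refine Finset.sum_congr rfl fun i _ => ?_
  rw [gt, C_sub, C_mul, C_neg]
  ring

lemma la_hom (r : ι → ZMod 3) (o : ι) (S : Finset ι) : (la r o S).IsHomogeneous 1 :=
  IsHomogeneous.sum _ _ _ fun i _ => (isHomogeneous_X _ i).C_mul _

lemma su_hom (r : ι → ZMod 3) (o : ι) (S : Finset ι) {f : Rg ι} {n : ℕ} (hf : f.IsHomogeneous n) :
    (su o (la r o S) f).IsHomogeneous n := by
  have h := hf.aeval (fun i => if i = o then la r o S else X i) (n := 1) (fun i => by
    split_ifs
    · exact la_hom r o S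
    · exact isHomogeneous_X _ _)
  rw [one_mul] at h
  exact h

lemma su_supp (r : ι → ZMod 3) {o : ι} {T : Finset ι} (ho : o ∉ T) {f : Rg ι}
    (hf : f ∈ supported (ZMod 3) ((insert o T : Finset ι) : Set ι)) :
    su o (la r o (insert o T)) f ∈ supported (ZMod 3) (T : Set ι) := by
  have h : supported (ZMod 3) ((insert o T : Finset ι) : Set ι) ≤
      (supported (ZMod 3) (T : Set ι)).comap (su o (la r o (insert o T))) := by
    refine Algebra.adjoin_le ?_
    rintro _ ⟨i, hi, rfl⟩
    rw [SetLike.mem_coe, Subalgebra.mem_comap]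
    by_cases h : i = o
    · rw [h, su_self, la_insert r ho]
      exact Subalgebra.sum_mem _ fun l hl => Subalgebra.mul_mem _ (C_supp _ _) (X_supp hl)
    · rw [su_ne h]
      refine X_supp ?_
      exact (mem_insert.1 (by exact_mod_cast hi)).resolve_left h
  exact h hf

lemma su_sub_mem (I : Ideal (Rg ι)) (o : ι) {y y' : Rg ι} (h : y - y' ∈ I) (f : Rg ι) :
    su o y f - su o y' f ∈ I := by
  rw [← Ideal.Quotient.eq]
  have h1 : (Ideal.Quotient.mk I).comp (su o y : Rg ι →+* Rg ι) =
      (Ideal.Quotient.mk I).comp (su o y' : Rg ι →+* Rg ι) := by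
    refine MvPolynomial.ringHom_ext (fun c => ?_) (fun i => ?_)
    · rw [RingHom.comp_apply, RingHom.comp_apply, RingHom.coe_coe, RingHom.coe_coe, su_C, su_C]
    · rw [RingHom.comp_apply, RingHom.comp_apply, RingHom.coe_coe, RingHom.coe_coe]
      by_cases hi : i = o
      · rw [hi, su_self, su_self]
        exact Ideal.Quotient.eq.2 h
      · rw [su_ne hi, su_ne hi]
  exact RingHom.congr_fun h1 f

section main

variable (g : ι → ι → ZMod 3) (r ε : ι → ZMod 3) (e : ZMod 3)
  (B : Finset ι → ((ι → ZMod 3) → ZMod 3) → ZMod 3) (o : ι)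

/-- the values after the substitution -/
noncomputable def wp (T : Finset ι) : Rg ι :=
  su o (la r o (insert o T)) (Ps g r ε e B (insert o T))

variable {g r ε e B o} (hg : ∀ i j, i ≠ j → g i j = g j i)
  (hB : Bd g r ε e B) (hε : ∀ i, ε i ≠ 0) (ho : r o ≠ 0)

lemma wp_hom {T : Finset ι} (hoT : o ∉ T) : (wp g r ε e B o T).IsHomogeneous (T.card + 1) := by
  have := su_hom r o (insert o T) (Ps_hom g r ε e B (insert_nonempty o T))
  rwa [card_insert_of_notMem hoT] at this

lemma wp_supp {T : Finset ι} (hoT : o ∉ T) :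
    wp g r ε e B o T ∈ supported (ZMod 3) (T : Set ι) :=
  su_supp r hoT (Ps_supp g r ε e B (insert_nonempty o T))

lemma wp_empty : wp g r ε e B o ∅ = 0 := by
  have h1 := Ps_supp g r ε e B (insert_nonempty o ∅)
  have h2 : (X o : Rg ι) ∣ Ps g r ε e B (insert o ∅) := by
    rw [Ps_eq g r ε e B (insert_nonempty o ∅)]
    refine dvd_sub ?_ ?_
    · unfold sP s3
      refine dvd_add (dvd_add ?_ ?_) ?_
      · refine Dvd.dvd.mul_left ?_ _
        rw [insert_empty_eq, prod_singleton]
      · rw [Finset.sum_eq_zero]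
        · exact dvd_zero _
        · intro T hT
          rw [insert_empty_eq, mem_powerset, subset_singleton_iff] at hT
          rcases hT with rfl | rfl
          · rw [H1_empty, mul_zero]
          · rw [insert_empty_eq, K2_self, zero_mul]
      · rw [if_neg]
        · exact dvd_zero _
        · rw [insert_empty_eq, card_singleton]
          omega
    · rw [Finset.sum_eq_zero]
      · exact dvd_zero _
      · intro T hT
        rw [insert_empty_eq, mem_ssubsets] at hT
        rw [Finset.ssubset_singleton_iff.1 hT, Ps_empty, mul_zero]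
  have h3 := map_dvd (su o (la r o (insert o ∅))) h2
  rw [su_self, la_insert r (notMem_empty o), sum_empty] at h3
  unfold wp
  rw [la_insert r (notMem_empty o), sum_empty]
  exact zero_dvd_iff.1 h3

include hg ho in
lemma wp_slice {k : ι} {T : Finset ι} (hk : k ∉ T) (hoT : o ∉ T) (hko : k ≠ o) :
    qk k (wp g r ε e B o (insert k T)) =
      -(qk k (Lf (gt g r o) T k) * qk k (wp g r ε e B o T)) := by
  have hkS : k ∉ insert o T := by
    rw [mem_insert]
    rintro (h | h)
    · exact hko h
    · exact hk h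
  obtain ⟨S, hS⟩ : ∃ S, S = insert o T := ⟨_, rfl⟩
  have hSn : S.Nonempty := by
    rw [hS]
    exact insert_nonempty o T
  have hoS : o ∈ S := by
    rw [hS]
    exact mem_insert_self _ _
  rw [← hS] at hkS
  obtain ⟨y, hy⟩ : ∃ y, y = la r o S := ⟨_, rfl⟩
  obtain ⟨y', hy'⟩ : ∃ y', y' = la r o (insert k S) := ⟨_, rfl⟩
  have hyy : y' - y ∈ Ideal.span {(X k : Rg ι)} := by
    have h1 : (insert k S).erase o = insert k (S.erase o) := erase_insert_of_ne hko
    have h2 : k ∉ S.erase o := fun h => hkS (mem_of_mem_erase h)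
    rw [hy, hy', la, la, h1, sum_insert h2, add_sub_cancel_right]
    exact Ideal.mul_mem_left _ _ (Ideal.mem_span_singleton_self _)
  have hL : su o y (Lf g S k) = Lf (gt g r o) T k := by
    rw [hy, hS]
    exact su_Lf g r hoT k
  have hW : su o y (Ps g r ε e B S) = wp g r ε e B o T := by
    rw [hy, hS]
    rfl
  have hH2 : su o y (H2 g r e S) = 0 := by
    rw [hy]
    exact su_H2 hg ho hoS
  have hH1 : Lf (gt g r o) T k * su o y (H1 g r e S) = 0 := by
    rcases T.eq_empty_or_nonempty with rfl | hTn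
    · rw [Lf_empty, zero_mul]
    · have h2 : 2 ≤ S.card := by
        rw [hS, card_insert_of_notMem hoT]
        have := hTn.card_pos
        omega
      rw [hy, su_H1 hg ho hoS h2, mul_zero]
  have h1 : (X k : Rg ι) ∣ Ps g r ε e B (insert k S) -
      (-(Lf g S k * Ps g r ε e B S) + C (ε k) * Lf g S k ^ 2 * H1 g r e S +
        C (r k) * H2 g r e S) := by
    rw [← qk_iff, map_sub, Ps_slice g r ε e B k S hSn hkS]
    simp only [map_add, map_neg, map_mul, map_pow]
    ring
  have h2 := map_dvd (su o y) h1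
  rw [su_ne hko] at h2
  have h3 : su o y (-(Lf g S k * Ps g r ε e B S) + C (ε k) * Lf g S k ^ 2 * H1 g r e S +
        C (r k) * H2 g r e S) = -(Lf (gt g r o) T k * wp g r ε e B o T) := by
    rw [map_add, map_add, map_neg, map_mul, map_mul, map_mul, map_mul, map_pow, hL, hW, hH2,
      mul_zero, add_zero]
    linear_combination (su o y (C (ε k)) * Lf (gt g r o) T k) * hH1
  rw [map_sub, h3] at h2
  have h4 : (X k : Rg ι) ∣ su o y' (Ps g r ε e B (insert k S)) -
      su o y (Ps g r ε e B (insert k S)) := by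
    rw [← Ideal.mem_span_singleton]
    exact su_sub_mem _ o hyy _
  have h5 : wp g r ε e B o (insert k T) = su o y' (Ps g r ε e B (insert k S)) := by
    rw [wp, hy', hS, Finset.insert_comm]
  have h6 := dvd_add h4 h2
  rw [← h5, ← qk_iff] at h6
  have h7 : qk k (wp g r ε e B o (insert k T)) +
      qk k (Lf (gt g r o) T k) * qk k (wp g r ε e B o T) = 0 := by
    rw [← h6]
    simp only [map_add, map_neg, map_mul, map_sub]
    ring
  exact eq_neg_of_add_eq_zero_left h7

include hg ho in
lemma Psi_dvd {k : ι} {S : Finset ι} (hk : k ∉ S) (hoS : o ∉ S) (hko : k ≠ o) :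
    (X k : Rg ι) ∣ ∑ T ∈ (insert k S).powerset, Kf (gt g r o) (insert k S) T *
      wp g r ε e B o T := by
  rw [← qk_iff, pairing (gt g r o) hk]
  refine Finset.sum_eq_zero fun T hT => ?_
  rw [wp_slice hg ho (fun h => hk (mem_powerset.1 hT h)) (fun h => hoS (mem_powerset.1 hT h)) hko]
  ring

lemma Psi_hom {S : Finset ι} (hoS : o ∉ S) :
    (∑ T ∈ S.powerset, Kf (gt g r o) S T * wp g r ε e B o T).IsHomogeneous (S.card + 1) := by
  refine IsHomogeneous.sum _ _ _ fun T hT => ?_
  have h1 := (Kf_hom (gt g r o) S T).mul (wp_hom (g := g) (r := r) (ε := ε) (e := e) (B := B)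
    (fun h : o ∈ T => hoS (mem_powerset.1 hT h)))
  have h2 := card_sdiff_add_card_eq_card (mem_powerset.1 hT)
  rw [← add_assoc, h2] at h1
  exact h1

include hg hB hε ho in
lemma Psi_eq {S : Finset ι} (hS : S.Nonempty) (hoS : o ∉ S) :
    ∑ T ∈ S.powerset, Kf (gt g r o) S T * wp g r ε e B o T =
      if S.card = 1 then C (e * ∏ i ∈ insert o S, -r i) * ∏ i ∈ S, X i ^ 2 else 0 := by
  have hR : (∏ i ∈ S, (X i : Rg ι) ^ 2).IsHomogeneous (S.card * 2) := by
    rw [prod_pow]
    exact (prodX_hom S).pow 2
  have key : ∀ m : ι →₀ ℕ, (∀ k ∈ S, m k ≠ 0) → Finsupp.degree m = S.card + 1 →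
      coeff m (∑ T ∈ S.powerset, Kf (gt g r o) S T * wp g r ε e B o T) =
        coeff m (C (e * ∏ i ∈ insert o S, -r i) * ∏ i ∈ S, (X i : Rg ι) ^ 2) := by
    intro m hm hd
    rw [sum_powerset_eq S (fun T => Kf (gt g r o) S T * wp g r ε e B o T), coeff_add, Kf_self,
      one_mul, coeff_sum, Finset.sum_eq_zero, add_zero]
    · have hpos := hS.card_pos
      have h1 := su_Ps hg hB hε ho (mem_insert_self o S) (by
        rw [card_insert_of_notMem hoS]
        omega)
      rw [erase_insert hoS] at h1
      have hm2 : ∀ i, m i ≤ 2 := by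
        intro i
        obtain ⟨h2, h3⟩ := chi_add hm
        have h4 : Finsupp.degree (m - chi S) = 1 := by omega
        have h5 := Finsupp.le_degree i (m - chi S)
        have h6 := DFunLike.congr_fun h2 i
        rw [Finsupp.add_apply, chi_apply] at h6
        by_cases hi : i ∈ S
        · rw [if_pos hi] at h6
          omega
        · rw [if_neg hi] at h6
          omega
      have h2 := h1 m hm2 (by
        rw [card_insert_of_notMem hoS]
        omega)
      rw [coeff_sub] at h2
      exact sub_eq_zero.1 h2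
    · intro T hT
      have hT' := mem_ssubsets.1 hT
      obtain ⟨k, hk, hkT⟩ := exists_of_ssubset hT'
      exact supp_coeff (Subalgebra.mul_mem _ (Kf_supp _ S T)
        (wp_supp (fun h => hoS (hT'.1 h)))) hkT (hm k hk)
  ext m
  by_cases hd : Finsupp.degree m = S.card + 1
  · by_cases hm : ∀ k ∈ S, m k ≠ 0
    · rw [key m hm hd]
      split_ifs with hc
      · rfl
      · rw [coeff_zero, coeff_C_mul, hR.coeff_eq_zero (by
          have := hS.card_pos
          omega), mul_zero]
    · push Not at hm
      obtain ⟨k, hk, hmk⟩ := hm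
      have h1 := Psi_dvd (g := g) (r := r) (ε := ε) (e := e) (B := B) (o := o) hg ho
        (notMem_erase k S) (fun h => hoS (mem_of_mem_erase h)) (fun h => hoS (h ▸ hk))
      rw [insert_erase hk] at h1
      rw [coeff_of_dvd h1 hmk]
      split_ifs with hc
      · symm
        refine coeff_of_dvd (k := k) ?_ hmk
        refine Dvd.dvd.mul_left ?_ _
        exact (dvd_pow_self _ (by omega)).trans (Finset.dvd_prod_of_mem (fun i => (X i : Rg ι) ^ 2) hk)
      · rw [coeff_zero]
  · rw [(Psi_hom hoS).coeff_eq_zero hd]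
    split_ifs with hc
    · rw [coeff_C_mul, hR.coeff_eq_zero (by omega), mul_zero]
    · rw [coeff_zero]

end main

end Pool.Agent.Helper68.C7.W3
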