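import Pool.Agent.Helper68.C7.Rd7
import Pool.Agent.Helper68.C7.StT

/-!
# The data for the moments
-/

set_option autoImplicit false
set_option linter.unusedSectionVars false

open scoped Topology PeriodPair Classical

namespace Pool.Agent.Helper68.N7.Wd7

open H667R3 Pool.Agent.W192.HK Pool.Agent.TH936.CM Pool.Agent.TH936.PU
open Pool.Agent.Y692.QS (Ei w toC nr nr_nonneg)
open Pool.Agent.Y703.CT
open Pool.Agent.Y715.Dist Pool.Agent.Y715.Idn Pool.Agent.Y715.T.Lat Pool.Agent.Y696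
open Pool.Agent.Y715.Two (v_nat v_int v_unit v_mul_le_of)
open Pool.Agent.Y715.T.Three Pool.Agent.Y715.T.Cg
open Pool.Agent.Y715.T.Rs (eq0)
open Pool.Agent.Y715.T.Rec (cs)
open Pool.Agent.Y715.T.RecG (Pq cs_mul cs_congr)
open Pool.Agent.Y703.CT.Ana (om_val Fy.cop_iff Fy.three_cc Fy.cc_top)
open Pool.Agent.Helper68.C2.Chr (tq tq_prim)
open Pool.Agent.Helper68.C6 (Sk Tk)
open Pool.Agent.Helper68.C6.Mom6 (lg lg_of lg_zero lg_per lg_mul lg_surj lg_om lg_card)
open Pool.Agent.Helper68.C6.Ana6 (Pt6)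
open Pool.Agent.Helper68.C7 (Wd3 BB Bd Dp S_T3)
open Pool.Agent.Helper68.N7.Vv7 Pool.Agent.Helper68.N7.Rd7

variable {Γ : Type*} [LinearOrderedCommGroupWithZero Γ] {v : Valuation ℂ Γ}
variable {ι : Type} {π : ι → Ei} {e : ι → ZMod 3} {L : PeriodPair} {Ω : ℂ}

/-- the logarithms -/
noncomputable def l7 (π : ι → Ei) (e : ι → ZMod 3) (i : ι) (x : eis) : ZMod 3 := -(e i * lg π i x)

/-- the matrix -/
noncomputable def g7 (π : ι → Ei) (e : ι → ZMod 3) (i j : ι) : ZMod 3 :=
  -(e i * e j * cs (π i) (π j))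

/-- the border -/
def r7 (π : ι → Ei) (e : ι → ZMod 3) (i : ι) : ZMod 3 := e i * rq (π i)

/-- the second border -/
def y7 (π : ι → Ei) (e : ι → ZMod 3) (i : ι) : ZMod 3 := e i * Pool.Agent.Helper68.C5.Chr5.ts 0 (π i)

/-- the values -/
noncomputable def U7 [DecidableEq ι] [Fintype (eis ⧸ (sp 3 : Ideal eis))] (φ : ℂ → ZMod 3)
    (L : PeriodPair) (Ω : ℂ) (π : ι → Ei) (S : Finset ι) (x : eis) : ZMod 3 :=
  φ (Vv L Ω (cc (fun i => eq0 (π i)) S) x)

lemma esq (h : Dt π e) (i : ι) : e i * e i = 1 := by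
  have h0 := h.e0 i
  revert h0
  generalize e i = c
  revert c
  decide

variable [DecidableEq ι] [Fintype (eis ⧸ (sp 3 : Ideal eis))]
variable (h3 : v 3 < 1) (hC : Cur L Ω) (h : Dt π e) {φ : ℂ → ZMod 3} (hφ : Fn v φ)

include h3 in
lemma v_om_le : v (1 - om) ≤ 1 := by
  rw [om_val h3]
  exact (lam_lt h3).le

include h3 in
lemma three_lt_lam : v 3 < v lam := by
  rw [← sq_three]
  calc v lam * v lam < v lam * 1 := mul_lt_mul_of_pos_left (lam_lt h3) lam_pos
    _ = v lam := mul_one _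

include h3 h in
lemma pt_cc {S : Finset ι} (hS : S.Nonempty) {x : eis}
    (hx : IsCoprime x (cc (fun i => eq0 (π i)) S)) : Pt6 (cc (fun i => eq0 (π i)) S) x :=
  ⟨(Xc_fm h).cc_ne S, (fy (v := v) h3 h).three_cc S, (fy (v := v) h3 h).cc_top hS, hx⟩

include h3 hC h in
/-- all the values in the distribution relation are integral -/
lemma dist_int {S : Finset ι} {j : ι} (hS : S.Nonempty) (hj : j ∉ S) {x : eis}
    (hx : IsCoprime x (cc (fun i => eq0 (π i)) S)) (t : eis) :
    v (Vv L Ω (eq0 (π j) * cc (fun i => eq0 (π i)) S) (x + cc (fun i => eq0 (π i)) S * t)) ≤ 1 := by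
  have hfin := Pool.Agent.Y715.T.LF.fin_quot
  set P : ι → eis := fun i => eq0 (π i) with hP
  have hxt : IsCoprime (x + cc P S * t) (cc P S) :=
    (IsCoprime.add_mul_left_left_iff (z := t)).2 hx
  by_cases hp : x + cc P S * t ∈ (sp (P j) : Ideal eis)
  · obtain ⟨y, hy⟩ := Ideal.mem_span_singleton'.1 hp
    have e : x + cc P S * t = P j * y := by rw [← hy, mul_comm]
    have e2 : Vv L Ω (eq0 (π j) * cc P S) (P j * y) = Vv L Ω (cc P S) y :=
      Vv_emb hC ((Xc_fm h).ne j)
    rw [e, e2]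
    rw [e] at hxt
    exact (Vv_lt h3 hC hfin (pt_cc (v := v) h3 h hS hxt.of_mul_left_right)).le
  · have hcop : IsCoprime (x + cc P S * t) (cc P (insert j S)) := by
      rw [cc_insert hj]
      refine IsCoprime.mul_right ?_ hxt
      obtain ⟨y, s, hs, hys⟩ := ((fy (v := v) h3 h).max j).exists_inv hp
      obtain ⟨u, hu⟩ := Ideal.mem_span_singleton'.1 hs
      exact ⟨y, u, by rw [hu]; exact hys⟩
    have h1 := (Vv_lt h3 hC hfin (pt_cc (v := v) h3 h (Finset.insert_nonempty j S) hcop)).le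
    rw [cc_insert hj] at h1
    exact h1

include h3 h hφ in
/-- the constant in the distribution relation -/
lemma const (j : ι) : v ((1 - om) / 3 * ((eq0 (π j) : eis) -
      (Nat.card (eis ⧸ (sp (eq0 (π j)) : Ideal eis)) : ℂ))) ≤ 1 ∧
    φ ((1 - om) / 3 * ((eq0 (π j) : eis) -
      (Nat.card (eis ⧸ (sp (eq0 (π j)) : Ideal eis)) : ℂ))) =
      -(e j * r7 π e j * φ (1 - om)) := by
  have hfy := fy (v := v) h3 h
  have hd := hfy.dig j
  obtain ⟨t, ht⟩ : ∃ t : ℂ, t = (((eq0 (π j) : eis) : ℂ) - 1) / 3 -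
    ((Nat.card (eis ⧸ (sp (eq0 (π j)) : Ideal eis)) : ℂ) - 1) / 3 := ⟨_, rfl⟩
  have hd' : Cg v t (-rq (π j)) := by
    rw [ht]
    exact hd
  have e1 : (1 - om) / 3 * ((eq0 (π j) : eis) -
      (Nat.card (eis ⧸ (sp (eq0 (π j)) : Ideal eis)) : ℂ)) = (1 - om) * t := by
    rw [ht]
    ring
  rw [e1]
  have hle : v ((1 - om) * t) ≤ 1 := v_mul_le_of (v_om_le h3) hd'.le
  refine ⟨hle, ?_⟩
  have e2 : φ ((1 - om) * t) = φ ((((-rq (π j)).val : ℕ) : ℂ) * (1 - om)) := by
    refine hφ.congr hle (v_mul_le_of (Pool.Agent.Y715.Two.v_nat _) (v_om_le h3)) ?_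
    have e3 : (1 - om) * t - (((-rq (π j)).val : ℕ) : ℂ) * (1 - om) =
        (1 - om) * (t - (((-rq (π j)).val : ℕ) : ℂ)) := by ring
    rw [e3, map_mul, om_val h3]
    calc v lam * v (t - (((-rq (π j)).val : ℕ) : ℂ)) < v lam * 1 :=
          mul_lt_mul_of_pos_left hd'.lt lam_pos
      _ = v lam := mul_one _
  rw [e2, hφ.val _ (v_om_le h3)]
  have := esq h j
  unfold r7
  linear_combination (rq (π j) * φ (1 - om)) * this

include h3 hC h hφ in
/-- **The data.** -/
theorem wd : Wd3 (fun i => eq0 (π i)) (l7 π e) (g7 π e) (r7 π e) e (φ (1 - om))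
    (U7 φ L Ω π) := by
  have hfin := Pool.Agent.Y715.T.LF.fin_quot
  have hfy := fy (v := v) h3 h
  refine ⟨hfy.ne, hfy.cop, hfy.max, hfy.three, h.e0, ?_, ?_, ?_, ?_, ?_, ?_, ?_, ?_, ?_, ?_, ?_⟩
  · intro i x y hxy
    unfold l7
    rw [lg_per h.pq hxy]
  · intro i x y hx hy
    unfold l7
    rw [lg_mul h.pq hx hy]
    ring
  · intro i
    obtain ⟨y, h1, h2⟩ := lg_surj h.pq i
    have h0 := h.e0 i
    have hc : ∀ c : ZMod 3, c ≠ 0 → c = -1 ∨ c = 1 := by decide
    rcases hc _ h0 with h4 | h4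
    · exact ⟨y, h1, by unfold l7; rw [h2, h4]; ring⟩
    · refine ⟨y * y, ?_, ?_⟩
      · intro h5
        rw [mem_iff, map_mul] at h5
        rw [mem_iff] at h1
        exact ((h.pq i).prime.dvd_or_dvd h5).elim h1 h1
      · unfold l7
        rw [lg_mul h.pq h1 h1, h2, h4]
        decide
  · intro i j hij
    unfold l7 g7
    have h1 : ¬ π i ∣ eq0.symm (eq0 (π j)) := by
      rw [RingEquiv.symm_apply_apply]
      exact h.nd j i hij.symm
    rw [lg_of h1, RingEquiv.symm_apply_apply]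
    have := esq h j
    linear_combination (e i * cs (π i) (π j)) * this
  · intro i
    unfold l7 r7
    rw [lg_om h.pq, tq_prim (h.pq i).three]
    ring
  · intro i
    obtain ⟨m, h1, h2⟩ := lg_card h.pq i
    refine ⟨m, h1, ?_⟩
    rw [← h2, lg_om h.pq, tq_prim (h.pq i).three]
    have := esq h i
    unfold r7
    linear_combination (rq (π i)) * this
  · intro S x y hxy
    unfold U7
    rw [Vv_per hC ((Xc_fm h).cc_ne S) hxy]
  · intro S x hS hx
    unfold U7
    have hp := pt_cc (v := v) h3 h hS hx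
    have h1 := Vv_trace h3 hC hfin hp
    have hom : IsUnit omr := (unit_list omr).2 (by simp)
    have k0 := (Vv_lt h3 hC hfin hp).le
    have k1 := (Vv_lt h3 hC hfin (hp.unit hom)).le
    have k2 := (Vv_lt h3 hC hfin (hp.unit (hom.pow 2))).le
    rw [← hφ.add _ _ k0 k1, ← hφ.add _ _ (v.map_add_le k0 k1) k2]
    exact hφ.congr (v.map_add_le (v.map_add_le k0 k1) k2) (v_om_le h3) h1
  · intro S j x hS hj hx
    have hp := pt_cc (v := v) h3 h hS hx
    obtain ⟨c1, c2⟩ := const h3 h hφ j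
    have hd := Vv_dist hC hfin hp.ne ((Xc_fm h).ne j) hp.three (hfy.three j)
      (Pool.Agent.Y715.T.Ex.three_mem.2 (h.pq j).three) x
    have hV := (Vv_lt h3 hC hfin hp).le
    have e1 : Sk (eq0 (π j)) (fun t => U7 φ L Ω π (insert j S)
        (x + cc (fun i => eq0 (π i)) S * t)) =
        φ (Sm (eq0 (π j)) (fun t => Vv L Ω (eq0 (π j) * cc (fun i => eq0 (π i)) S)
          (x + cc (fun i => eq0 (π i)) S * t))) := by
      unfold Sk Sm
      rw [hφ.sum _ _ fun t _ => dist_int h3 hC h hS hj hx t]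
      refine Finset.sum_congr rfl fun t _ => ?_
      unfold U7
      rw [cc_insert hj]
    have hlin : v ((((eq0 (π j) : eis) : ℂ) - 1) * Vv L Ω (cc (fun i => eq0 (π i)) S) x) < v lam := by
      rw [map_mul]
      calc v (((eq0 (π j) : eis) : ℂ) - 1) * v (Vv L Ω (cc (fun i => eq0 (π i)) S) x) ≤
          v 3 * 1 := mul_le_mul' (hfy.lin j) hV
        _ = v 3 := mul_one _
        _ < v lam := three_lt_lam h3
    have e2 : φ (((eq0 (π j) : eis) : ℂ) * Vv L Ω (cc (fun i => eq0 (π i)) S) x) =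
        φ (Vv L Ω (cc (fun i => eq0 (π i)) S) x) := by
      have e3 : ((eq0 (π j) : eis) : ℂ) * Vv L Ω (cc (fun i => eq0 (π i)) S) x =
          (((eq0 (π j) : eis) : ℂ) - 1) * Vv L Ω (cc (fun i => eq0 (π i)) S) x +
            Vv L Ω (cc (fun i => eq0 (π i)) S) x := by ring
      rw [e3, hφ.add _ _ (hlin.le.trans (lam_lt h3).le) hV, hφ.small _ hlin, zero_add]
    have hle : v (((eq0 (π j) : eis) : ℂ) * Vv L Ω (cc (fun i => eq0 (π i)) S) x) ≤ 1 := by
      have e3 : ((eq0 (π j) : eis) : ℂ) * Vv L Ω (cc (fun i => eq0 (π i)) S) x =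
          (((eq0 (π j) : eis) : ℂ) - 1) * Vv L Ω (cc (fun i => eq0 (π i)) S) x +
            Vv L Ω (cc (fun i => eq0 (π i)) S) x := by ring
      rw [e3]
      exact v.map_add_le (hlin.le.trans (lam_lt h3).le) hV
    rw [e1, hd, hφ.add _ _ hle c1, e2, c2]
    unfold U7
    ring
  · intro S j x hS hj hx
    unfold U7
    have e2 := Vv_emb (L := L) (Ω := Ω) hC (a := eq0 (π j)) (c := cc (fun i => eq0 (π i)) S)
      (x := x) ((Xc_fm h).ne j)
    rw [cc_insert hj]
    exact congrArg φ e2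
  · intro j
    obtain ⟨c1, c2⟩ := const h3 h hφ j
    have hd := Vv_dist (L := L) (Ω := Ω) hC hfin (a := eq0 (π j)) (c := 1) one_ne_zero
      ((Xc_fm h).ne j) isCoprime_one_right (hfy.three j)
      (Pool.Agent.Y715.T.Ex.three_mem.2 (h.pq j).three) 0
    rw [Vv_mem hC (zero_mem _), mul_zero, zero_add, mul_one] at hd
    simp only [zero_add, one_mul] at hd
    have ecc : cc (fun i => eq0 (π i)) {j} = eq0 (π j) := Finset.prod_singleton _ _
    have hint : ∀ x : eis, v (Vv L Ω (eq0 (π j)) x) ≤ 1 := by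
      intro x
      by_cases hx : x ∈ (sp (eq0 (π j)) : Ideal eis)
      · rw [Vv_mem hC hx, map_zero]
        exact zero_le_one
      · have hcop : IsCoprime x (cc (fun i => eq0 (π i)) {j}) := by
          rw [hfy.cop_iff]
          intro i hi
          rw [Finset.mem_singleton] at hi
          rw [hi]
          exact hx
        have := (Vv_lt h3 hC hfin (pt_cc (v := v) h3 h (Finset.singleton_nonempty j) hcop)).le
        rwa [ecc] at this
    have e1 : Tk (eq0 (π j)) (U7 φ L Ω π {j}) = φ (Sm (eq0 (π j)) (fun t => Vv L Ω (eq0 (π j)) t)) := by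
      unfold Tk Sk Sm
      rw [hφ.sum _ _ fun t _ => hint t]
      refine Finset.sum_congr rfl fun t _ => ?_
      beta_reduce
      unfold U7
      rw [ecc]
      by_cases ht : IsCoprime t (eq0 (π j))
      · rw [if_pos ht]
      · rw [if_neg ht]
        have hmem : t ∈ (sp (eq0 (π j)) : Ideal eis) := by
          by_contra hcon
          apply ht
          have := (hfy.cop_iff (S := {j}) (x := t)).2 (by
            intro i hi
            rw [Finset.mem_singleton] at hi
            rw [hi]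
            exact hcon)
          rwa [ecc] at this
        rw [Vv_mem hC hmem, hφ.zero]
    rw [e1, hd, c2]

end Pool.Agent.Helper68.N7.Wd7
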